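import Mathlib
import Pool.Agent.MP_47ff19_lc.H81.Defs

attribute [-instance] Distrib.toMul instNonemptyProd Unique.instInhabited RKHS.instFunLike
  DivInvOneMonoid.toInvOneClass MulZeroClass.toMul instCoeHTCOfCoeHeadOfCoeOTC Semiring.toMonoid
  Nontrivial.to_nonempty ContinuousAddMonoidHom.instCoeOutOfAddMonoidHomClassOfContinuousMapClass
  instCoeTCOfCoe MulZeroOneClass.toMulOneClass SemigroupWithZero.toSemigroup instInhabitedOfMonad
  TestFunctionClass.toDFunLike Finset.decidableDforallFinset AddCommMonoidWithOne.toAddMonoidWithOne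
  Int.instLawfulBEq Multiset.decidableDforallMultiset ContDiffMapSupportedInClass.toDFunLike
  Zero.instNonempty bot_nonempty instCoeHTCTOfCoeTailOfCoeHTC IrreducibleSpace.toNonempty
  One.instNonempty Vector.instDecidableForallForallMemOfDecidablePred AddTorsor.nonempty
  Torsor.nonempty ConnectedSpace.toNonempty CommRing.toRing
  Array.instDecidableForallForallMemOfDecidablePred Group.IsPerfect.subsingleton_of_isMulCommutative
  IsometryClass.instCoeOutIsometryEquiv AddQuantale.instAddLeftMono Option.decidableForallMem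
  MonTypeEquivalenceMon.monMonoid CategoryTheory.IsConnected.is_nonempty DivisionRing.toRing
  top_nonempty InvOneClass.toOne supSet_to_nonempty infSet_to_nonempty
  AddGroup.addLeftReflectLE_of_addLeftMono instCoeOutOfCoeSort

-- part MP_47ff19_lc.H81.Beh
section

/-! Behaviours of words under a two-way deterministic machine. -/

namespace Pool.Agent.MP_47ff19_lc.H81

/-- A behaviour: an entry (direction of movement, state) is sent to the exit, if there is one. -/
abbrev Beh (Q : Type) := Bool × Q → Option (Bool × Q)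

variable {Q Γ : Type}

/-- Big-step semantics: the head sits on the boundary between `l` (reversed) and `r`. -/
inductive Ex (ι : Γ → Beh Q) : List Γ → List Γ → Bool × Q → Bool × Q → Prop
  | endR (l : List Γ) (q : Q) : Ex ι l [] (true, q) (true, q)
  | endL (r : List Γ) (q : Q) : Ex ι [] r (false, q) (false, q)
  | fwd {l r : List Γ} {c : Γ} {q : Q} {y o : Bool × Q} : ι c (true, q) = some y →
      Ex ι (bif y.1 then c :: l else l) (bif y.1 then r else c :: r) y o →
      Ex ι l (c :: r) (true, q) o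
  | bwd {l r : List Γ} {c : Γ} {q : Q} {y o : Bool × Q} : ι c (false, q) = some y →
      Ex ι (bif y.1 then c :: l else l) (bif y.1 then r else c :: r) y o →
      Ex ι (c :: l) r (false, q) o

theorem Ex.nil_true {ι : Γ → Beh Q} {l : List Γ} {q : Q} {o : Bool × Q} :
    Ex ι l [] (true, q) o ↔ o = (true, q) :=
  ⟨fun h => by cases h; rfl, fun h => by subst h; exact Ex.endR l q⟩

theorem Ex.nil_false {ι : Γ → Beh Q} {r : List Γ} {q : Q} {o : Bool × Q} :
    Ex ι [] r (false, q) o ↔ o = (false, q) :=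
  ⟨fun h => by cases h; rfl, fun h => by subst h; exact Ex.endL r q⟩

theorem Ex.cons_true {ι : Γ → Beh Q} {l r : List Γ} {c : Γ} {q : Q} {o : Bool × Q} :
    Ex ι l (c :: r) (true, q) o ↔ ∃ y, ι c (true, q) = some y ∧
      Ex ι (bif y.1 then c :: l else l) (bif y.1 then r else c :: r) y o :=
  ⟨fun h => by cases h with | fwd h1 h2 => exact ⟨_, h1, h2⟩, fun ⟨_, h1, h2⟩ => Ex.fwd h1 h2⟩

theorem Ex.cons_false {ι : Γ → Beh Q} {l r : List Γ} {c : Γ} {q : Q} {o : Bool × Q} :
    Ex ι (c :: l) r (false, q) o ↔ ∃ y, ι c (false, q) = some y ∧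
      Ex ι (bif y.1 then c :: l else l) (bif y.1 then r else c :: r) y o :=
  ⟨fun h => by cases h with | bwd h1 h2 => exact ⟨_, h1, h2⟩, fun ⟨_, h1, h2⟩ => Ex.bwd h1 h2⟩

theorem Ex.det {ι : Γ → Beh Q} {l r : List Γ} {x o o' : Bool × Q} (h : Ex ι l r x o)
    (h' : Ex ι l r x o') : o = o' := by
  induction h with
  | endR l q => exact (Ex.nil_true.1 h').symm
  | endL r q => exact (Ex.nil_false.1 h').symm
  | fwd h1 _ ih =>
    obtain ⟨y', h1', h2'⟩ := Ex.cons_true.1 h'
    rw [h1] at h1'; cases h1'; exact ih h2'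
  | bwd h1 _ ih =>
    obtain ⟨y', h1', h2'⟩ := Ex.cons_false.1 h'
    rw [h1] at h1'; cases h1'; exact ih h2'

theorem Ex.ctx {ι : Γ → Beh Q} {l r : List Γ} {x y : Bool × Q} (h : Ex ι l r x y)
    (L R : List Γ) {o : Bool × Q}
    (h' : Ex ι (bif y.1 then r.reverse ++ l ++ L else L)
      (bif y.1 then R else l.reverse ++ r ++ R) y o) : Ex ι (l ++ L) (r ++ R) x o := by
  induction h with
  | endR l q => simpa using h'
  | endL r q => simpa using h'
  | @fwd l r c q z y h1 _ ih =>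
    refine Ex.fwd h1 ?_
    obtain ⟨d, p⟩ := z
    cases d
    · simpa using ih (by simpa using h')
    · simpa using ih (by simpa using h')
  | @bwd l r c q z y h1 _ ih =>
    refine Ex.bwd h1 ?_
    obtain ⟨d, p⟩ := z
    cases d
    · simpa using ih (by simpa using h')
    · simpa using ih (by simpa using h')

open Classical in
/-- The behaviour of a word. -/
noncomputable def beh (ι : Γ → Beh Q) (m : List Γ) : Beh Q := fun x =>
  if h : ∃ o, Ex ι (bif x.1 then [] else m.reverse) (bif x.1 then m else []) x o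
  then some h.choose else none

theorem beh_eq_some {ι : Γ → Beh Q} {m : List Γ} {x o : Bool × Q} :
    beh ι m x = some o ↔ Ex ι (bif x.1 then [] else m.reverse) (bif x.1 then m else []) x o := by
  unfold beh
  split_ifs with h
  · exact ⟨fun e => by cases e; exact h.choose_spec, fun e => by rw [h.choose_spec.det e]⟩
  · exact ⟨fun e => (by cases e), fun e => (h ⟨o, e⟩).elim⟩

theorem beh_true {ι : Γ → Beh Q} {m : List Γ} {q : Q} {o : Bool × Q} :
    beh ι m (true, q) = some o ↔ Ex ι [] m (true, q) o := beh_eq_some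

theorem beh_false {ι : Γ → Beh Q} {m : List Γ} {q : Q} {o : Bool × Q} :
    beh ι m (false, q) = some o ↔ Ex ι m.reverse [] (false, q) o := beh_eq_some

variable {I : Type}

theorem flat_of_blocks {ι : Γ → Beh Q} (g : I → List Γ) {ls rs : List I} {x o : Bool × Q}
    (h : Ex (fun i => beh ι (g i)) ls rs x o) :
    Ex ι (ls.flatMap fun i => (g i).reverse) (rs.flatMap g) x o := by
  induction h with
  | endR l q => exact Ex.endR _ _
  | endL r q => exact Ex.endL _ _
  | @fwd l r c q y o h1 _ ih =>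
    have := (beh_true.1 h1).ctx (l.flatMap fun i => (g i).reverse) (r.flatMap g) (o := o) (by
      obtain ⟨d, p⟩ := y
      cases d <;> simpa using ih)
    simpa using this
  | @bwd l r c q y o h1 _ ih =>
    have := (beh_false.1 h1).ctx (l.flatMap fun i => (g i).reverse) (r.flatMap g) (o := o) (by
      obtain ⟨d, p⟩ := y
      cases d <;> simpa using ih)
    simpa using this

theorem blocks_aux {ι : Γ → Beh Q} (g : I → List Γ) {L R : List Γ} {x o : Bool × Q}
    (h : Ex ι L R x o) : ∀ (ls : List I) (i : I) (l r : List Γ) (rs : List I),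
      l.reverse ++ r = g i → L = l ++ ls.flatMap (fun i => (g i).reverse) →
      R = r ++ rs.flatMap g → ∃ y, Ex ι l r x y ∧
        Ex (fun i => beh ι (g i)) (bif y.1 then i :: ls else ls) (bif y.1 then rs else i :: rs)
          y o := by
  induction h with
  | endR L q =>
    intro ls i l r rs _ hL hR
    have hr : r = [] := (List.append_eq_nil_iff.1 hR.symm).1
    have hrs : rs.flatMap g = [] := (List.append_eq_nil_iff.1 hR.symm).2
    subst hr
    refine ⟨(true, q), Ex.endR _ _, ?_⟩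
    simp only [cond_true]
    generalize i :: ls = ls'
    clear hL hR
    induction rs generalizing ls' with
    | nil => exact Ex.endR _ _
    | cons j rs ih =>
      rw [List.flatMap_cons, List.append_eq_nil_iff] at hrs
      refine Ex.fwd (y := (true, q)) (beh_true.2 (by rw [hrs.1]; exact Ex.endR _ _)) (ih hrs.2 _)
  | endL R q =>
    intro ls i l r rs _ hL hR
    have hl : l = [] := (List.append_eq_nil_iff.1 hL.symm).1
    have hls := (List.append_eq_nil_iff.1 hL.symm).2
    subst hl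
    refine ⟨(false, q), Ex.endL _ _, ?_⟩
    simp only [cond_false]
    generalize i :: rs = rs'
    clear hL hR
    induction ls generalizing rs' with
    | nil => exact Ex.endL _ _
    | cons j ls ih =>
      rw [List.flatMap_cons, List.append_eq_nil_iff] at hls
      refine Ex.bwd (y := (false, q)) (beh_false.2 (by rw [hls.1]; exact Ex.endL _ _)) (ih hls.2 _)
  | @fwd L R c q z o h1 _ ih =>
    intro ls i l r rs
    induction rs generalizing ls i l r with
    | nil =>
      intro hg hL hR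
      cases r with
      | nil => simp at hR
      | cons c' r =>
        simp only [List.flatMap_nil, List.append_nil, List.cons.injEq] at hR
        obtain ⟨rfl, rfl⟩ := hR
        obtain ⟨d, p⟩ := z
        cases d
        · obtain ⟨y, hy, hy'⟩ := ih ls i l (c :: R) [] hg (by simpa using hL) (by simp)
          exact ⟨y, Ex.fwd h1 hy, hy'⟩
        · obtain ⟨y, hy, hy'⟩ := ih ls i (c :: l) R [] (by simpa using hg) (by simpa using hL)
            (by simp)
          exact ⟨y, Ex.fwd h1 hy, hy'⟩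
    | cons j rs ih2 =>
      intro hg hL hR
      cases r with
      | nil =>
        obtain ⟨y, hy, hy'⟩ := ih2 (i :: ls) j [] (g j) (by simp)
          (by rw [hL, List.flatMap_cons, ← hg]; simp) (by simpa using hR)
        exact ⟨(true, q), Ex.endR _ _, Ex.fwd (beh_true.2 hy) hy'⟩
      | cons c' r =>
        simp only [List.cons_append, List.cons.injEq] at hR
        obtain ⟨rfl, rfl⟩ := hR
        obtain ⟨d, p⟩ := z
        cases d
        · obtain ⟨y, hy, hy'⟩ := ih ls i l (c :: r) (j :: rs) hg (by simpa using hL) (by simp)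
          exact ⟨y, Ex.fwd h1 hy, hy'⟩
        · obtain ⟨y, hy, hy'⟩ := ih ls i (c :: l) r (j :: rs) (by simpa using hg)
            (by simpa using hL) (by simp)
          exact ⟨y, Ex.fwd h1 hy, hy'⟩
  | @bwd L R c q z o h1 _ ih =>
    intro ls i l r rs
    induction ls generalizing rs i l r with
    | nil =>
      intro hg hL hR
      cases l with
      | nil => simp at hL
      | cons c' l =>
        simp only [List.flatMap_nil, List.append_nil, List.cons.injEq] at hL
        obtain ⟨rfl, rfl⟩ := hL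
        obtain ⟨d, p⟩ := z
        cases d
        · obtain ⟨y, hy, hy'⟩ := ih [] i L (c :: r) rs (by simpa using hg) (by simp)
            (by simpa using hR)
          exact ⟨y, Ex.bwd h1 hy, hy'⟩
        · obtain ⟨y, hy, hy'⟩ := ih [] i (c :: L) r rs hg (by simp) (by simpa using hR)
          exact ⟨y, Ex.bwd h1 hy, hy'⟩
    | cons j ls ih2 =>
      intro hg hL hR
      cases l with
      | nil =>
        obtain ⟨y, hy, hy'⟩ := ih2 j (g j).reverse [] (i :: rs) (by simp)
          (by simpa using hL) (by rw [hR, List.flatMap_cons, ← hg]; simp)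
        exact ⟨(false, q), Ex.endL _ _, Ex.bwd (beh_false.2 hy) hy'⟩
      | cons c' l =>
        simp only [List.cons_append, List.cons.injEq] at hL
        obtain ⟨rfl, rfl⟩ := hL
        obtain ⟨d, p⟩ := z
        cases d
        · obtain ⟨y, hy, hy'⟩ := ih (j :: ls) i l (c :: r) rs (by simpa using hg) (by simp)
            (by simpa using hR)
          exact ⟨y, Ex.bwd h1 hy, hy'⟩
        · obtain ⟨y, hy, hy'⟩ := ih (j :: ls) i (c :: l) r rs hg (by simp) (by simpa using hR)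
          exact ⟨y, Ex.bwd h1 hy, hy'⟩

theorem blocks_iff {ι : Γ → Beh Q} (g : I → List Γ) (ls rs : List I) (x o : Bool × Q) :
    Ex ι (ls.flatMap fun i => (g i).reverse) (rs.flatMap g) x o ↔
      Ex (fun i => beh ι (g i)) ls rs x o := by
  refine ⟨fun h => ?_, flat_of_blocks g⟩
  obtain ⟨d, q⟩ := x
  cases d
  · cases ls with
    | nil => exact Ex.nil_false.2 (Ex.nil_false.1 h)
    | cons i ls =>
      obtain ⟨y, hy, hy'⟩ := blocks_aux g h ls i (g i).reverse [] rs (by simp) (by simp) (by simp)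
      exact Ex.bwd (beh_false.2 hy) hy'
  · cases rs with
    | nil => exact Ex.nil_true.2 (Ex.nil_true.1 h)
    | cons i rs =>
      obtain ⟨y, hy, hy'⟩ := blocks_aux g h ls i [] (g i) rs (by simp) (by simp) (by simp)
      exact Ex.fwd (beh_true.2 hy) hy'

theorem beh_flatMap (ι : Γ → Beh Q) (g : I → List Γ) (u : List I) :
    beh ι (u.flatMap g) = beh (fun i => beh ι (g i)) u := by
  funext x
  apply Option.ext
  intro o
  obtain ⟨d, q⟩ := x
  cases d
  · rw [beh_false, beh_false, ← blocks_iff, List.reverse_flatMap]; rfl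
  · rw [beh_true, beh_true, ← blocks_iff]; rfl

/-- Changing the cells without changing the transitions that a run uses. -/
theorem Ex.map {ι : Γ → Beh Q} {κ : I → Beh Q} (f : Γ → I) (hf : ∀ c, κ (f c) = ι c)
    {l r : List Γ} {x o : Bool × Q} (h : Ex ι l r x o) : Ex κ (l.map f) (r.map f) x o := by
  induction h with
  | endR l q => exact Ex.endR _ _
  | endL r q => exact Ex.endL _ _
  | @fwd l r c q y o h1 _ ih =>
    refine Ex.fwd (y := y) (by rw [hf, h1]) ?_
    obtain ⟨d, p⟩ := y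
    cases d <;> simpa using ih
  | @bwd l r c q y o h1 _ ih =>
    refine Ex.bwd (y := y) (by rw [hf, h1]) ?_
    obtain ⟨d, p⟩ := y
    cases d <;> simpa using ih

end Pool.Agent.MP_47ff19_lc.H81

end

-- part MP_47ff19_lc.H43S.Link
section

/-! From the machine of the statement to behaviours. -/

namespace Pool.Agent.MP_47ff19_lc.H81

open Relation

variable {Q Γ : Type}

/-- How the head leaves a cell, after any number of stationary moves. -/
inductive Out (δ : Q → Γ → Q × SignType) (c : Γ) : Q → Bool × Q → Prop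
  | right {q p : Q} : δ q c = (p, 1) → Out δ c q (true, p)
  | left {q p : Q} : δ q c = (p, -1) → Out δ c q (false, p)
  | stay {q p : Q} {y : Bool × Q} : δ q c = (p, 0) → Out δ c p y → Out δ c q y

theorem Out.det {δ : Q → Γ → Q × SignType} {c : Γ} {q : Q} {y y' : Bool × Q} (h : Out δ c q y)
    (h' : Out δ c q y') : y = y' := by
  induction h with
  | right h1 => cases h' <;> simp_all
  | left h1 => cases h' <;> simp_all
  | stay h1 _ ih =>
    cases h' with
    | right h2 => simp_all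
    | left h2 => simp_all
    | stay h2 h3 => rw [h1] at h2; cases h2; exact ih h3

open Classical in
/-- The behaviour of a single cell. -/
noncomputable def cell (δ : Q → Γ → Q × SignType) (c : Γ) : Beh Q := fun x =>
  if h : ∃ y, Out δ c x.2 y then some h.choose else none

theorem cell_eq_some {δ : Q → Γ → Q × SignType} {c : Γ} {x y : Bool × Q} :
    cell δ c x = some y ↔ Out δ c x.2 y := by
  unfold cell
  split_ifs with h
  · exact ⟨fun e => by cases e; exact h.choose_spec, fun e => by rw [h.choose_spec.det e]⟩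
  · exact ⟨fun e => (by cases e), fun e => (h ⟨y, e⟩).elim⟩

/-- One move on an arbitrary tape. -/
def Stp (δ : Q → Γ → Q × SignType) (t : List Γ) (c c' : ℕ × Q) : Prop :=
  ∃ a, t[c.1]? = some a ∧ c'.2 = (δ c.2 a).1 ∧ (c'.1 : ℤ) = c.1 + ((δ c.2 a).2 : ℤ)

theorem Out.stp {δ : Q → Γ → Q × SignType} {t : List Γ} {c : Γ} {q : Q} {y : Bool × Q}
    (h : Out δ c q y) {i j : ℕ} (hc : t[i]? = some c) (hj : bif y.1 then j = i + 1 else j + 1 = i) :
    ReflTransGen (Stp δ t) (i, q) (j, y.2) := by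
  induction h with
  | right h1 =>
    simp only [cond_true] at hj
    exact ReflTransGen.single ⟨c, hc, by simp [h1], by simp [h1, hj]⟩
  | left h1 =>
    simp only [cond_false] at hj
    exact ReflTransGen.single ⟨c, hc, by simp [h1], by simp [h1, ← hj]⟩
  | @stay q p y h1 _ ih =>
    exact ReflTransGen.head (b := (i, p)) ⟨c, hc, by simp [h1], by simp [h1]⟩ (ih hj)

theorem Ex.to_stp {δ : Q → Γ → Q × SignType} {l r : List Γ} {x o : Bool × Q}
    (h : Ex (cell δ) l r x o) (ho : o.1 = true) : ∀ t i, t = l.reverse ++ r →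
      i + (bif x.1 then 0 else 1) = l.length →
      ReflTransGen (Stp δ t) (i, x.2) (t.length, o.2) := by
  induction h with
  | endR l q =>
    rintro t i rfl hi
    simp only [cond_true, add_zero] at hi
    simp [hi, ReflTransGen.refl]
  | endL r q => simp at ho
  | @fwd l r c q y o h1 h2 ih =>
    intro t i ht hi
    simp only [cond_true, add_zero] at hi
    have hc : t[i]? = some c := by simp [ht, hi]
    obtain ⟨d, p⟩ := y
    cases d
    · cases l with
      | nil => rw [Ex.nil_false.1 h2] at ho; simp at ho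
      | cons c' l =>
        exact ((cell_eq_some.1 h1).stp (j := l.length) hc (by simpa using hi.symm)).trans
          (ih ho t l.length ht (by simp))
    · exact ((cell_eq_some.1 h1).stp (j := i + 1) hc (by simp)).trans
        (ih ho t (i + 1) (by simp [ht]) (by simp [hi]))
  | @bwd l r c q y o h1 h2 ih =>
    intro t i ht hi
    simp only [cond_false, List.length_cons, add_left_inj] at hi
    have hc : t[i]? = some c := by simp [ht, hi]
    obtain ⟨d, p⟩ := y
    cases d
    · cases l with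
      | nil => rw [Ex.nil_false.1 h2] at ho; simp at ho
      | cons c' l =>
        exact ((cell_eq_some.1 h1).stp (j := l.length) hc (by simpa using hi.symm)).trans
          (ih ho t l.length (by simp [ht]) (by simp))
    · exact ((cell_eq_some.1 h1).stp (j := i + 1) hc (by simp)).trans
        (ih ho t (i + 1) ht (by simp [hi]))

theorem ex_of_stp {δ : Q → Γ → Q × SignType} {t : List Γ} {f : Q} {c : ℕ × Q}
    (h : ReflTransGen (Stp δ t) c (t.length, f)) :
    ∀ l r, t = l.reverse ++ r → c.1 = l.length → Ex (cell δ) l r (true, c.2) (true, f) := by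
  induction h using ReflTransGen.head_induction_on with
  | refl =>
    intro l r ht hl
    have : r = [] := by
      have := congrArg List.length ht
      simp only [List.length_append, List.length_reverse] at this hl
      exact List.eq_nil_of_length_eq_zero (by omega)
    subst this
    exact Ex.endR _ _
  | @head a b hab _ ih =>
    intro l r ht hl
    obtain ⟨i, q⟩ := a
    obtain ⟨j, p⟩ := b
    obtain ⟨c, hc, h1, h2⟩ := hab
    simp only at hl hc h1 h2 ih ⊢
    subst hl
    cases r with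
    | nil => simp [ht] at hc
    | cons c' r =>
      have : c' = c := by simpa [ht] using hc
      subst this
      rcases hδ : δ q c' with ⟨p', d⟩
      simp only [hδ] at h1 h2
      subst h1
      rcases d with _ | _ | _
      · have hj : j = l.length := by simpa using h2
        obtain ⟨y, hy, hy'⟩ := Ex.cons_true.1 (ih l (c' :: r) ht hj)
        exact Ex.fwd (cell_eq_some.2 (Out.stay hδ (cell_eq_some.1 hy))) hy'
      · have hj : j + 1 = l.length := by
          have : ((SignType.neg : SignType) : ℤ) = -1 := rfl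
          omega
        refine Ex.fwd (y := (false, p)) (cell_eq_some.2 (Out.left hδ)) ?_
        cases l with
        | nil => simp at hj
        | cons c'' l =>
          obtain ⟨y, hy, hy'⟩ := Ex.cons_true.1 (ih l (c'' :: c' :: r) (by simp [ht])
            (by simpa using hj))
          exact Ex.bwd (cell_eq_some.2 (cell_eq_some.1 hy)) hy'
      · have hj : j = l.length + 1 := by
          have : ((SignType.pos : SignType) : ℤ) = 1 := rfl
          omega
        exact Ex.fwd (y := (true, p)) (cell_eq_some.2 (Out.right hδ))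
          (ih (c' :: l) r (by simp [ht]) (by simpa using hj))

theorem accepts_iff {A : Type} {s : ℕ} (M : TwoDFA A s) (w : List A) :
    M.Accepts w ↔ ∃ f ∈ M.final, beh (cell M.δ)
      (Sum.inr false :: w.map Sum.inl ++ [Sum.inr true]) (true, M.start) = some (true, f) := by
  refine exists_congr fun f => and_congr Iff.rfl ?_
  have hl : (Sum.inr false :: w.map Sum.inl ++ [Sum.inr true] : List (A ⊕ Bool)).length =
      w.length + 2 := by simp
  rw [beh_true, ← hl]
  exact ⟨fun h => ex_of_stp (δ := M.δ) h [] _ (by simp) rfl,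
    fun h => h.to_stp rfl _ 0 (by simp) rfl⟩

end Pool.Agent.MP_47ff19_lc.H81

end

-- part MP_47ff19_lc.H43S.Tr
section

/-! Trajectories of an injective map between marked points. -/

namespace Pool.Agent.MP_47ff19_lc.SS

open Function Finset

variable {V : Type} {σ : V → V} {U U' : V → Prop}

/-- `b` follows `a` after at least one step, with no point of `U` strictly in between. -/
inductive Tr (σ : V → V) (U : V → Prop) : V → V → Prop
  | one (a : V) : Tr σ U a (σ a)
  | more {a b : V} : Tr σ U a b → ¬ U b → Tr σ U a (σ b)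

theorem tr_iff {a b : V} :
    Tr σ U a b ↔ ∃ n, σ^[n + 1] a = b ∧ ∀ k < n, ¬ U (σ^[k + 1] a) := by
  constructor
  · intro h
    induction h with
    | one => exact ⟨0, rfl, fun _ h => absurd h (Nat.not_lt_zero _)⟩
    | more _ hb ih =>
      obtain ⟨n, h1, h2⟩ := ih
      refine ⟨n + 1, by rw [iterate_succ_apply', h1], fun k hk => ?_⟩
      rcases (Nat.lt_succ_iff.1 hk).eq_or_lt with rfl | hk
      · rwa [h1]
      · exact h2 k hk
  · rintro ⟨n, rfl, h⟩
    induction n with
    | zero => exact Tr.one a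
    | succ n ih =>
      rw [iterate_succ_apply']
      exact Tr.more (ih fun k hk => h k (by omega)) (h n (by omega))

theorem Tr.det {a b c : V} (h : Tr σ U a b) (h' : Tr σ U a c) (hb : U b) (hc : U c) : b = c := by
  obtain ⟨n, rfl, h1⟩ := tr_iff.1 h
  obtain ⟨m, rfl, h2⟩ := tr_iff.1 h'
  rcases lt_trichotomy n m with h | rfl | h
  · exact absurd hb (h2 n h)
  · rfl
  · exact absurd hc (h1 m h)

theorem Tr.inj (hσ : Injective σ) {a b c : V} (h : Tr σ U a c) (h' : Tr σ U b c) (ha : U a)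
    (hb : U b) : a = b := by
  have key : ∀ {a b : V} {n m : ℕ}, U a → n < m → σ^[n + 1] a = σ^[m + 1] b →
      ¬ ∀ k < m, ¬ U (σ^[k + 1] b) := by
    intro a b n m ha hn he h2
    obtain ⟨j, rfl⟩ := Nat.exists_eq_add_of_lt hn
    rw [show n + j + 1 + 1 = n + 1 + (j + 1) by omega, iterate_add_apply σ (n + 1)] at he
    exact h2 j (by omega) (hσ.iterate _ he ▸ ha)
  obtain ⟨n, h0, h1⟩ := tr_iff.1 h
  obtain ⟨m, h0', h2⟩ := tr_iff.1 h'
  rcases lt_trichotomy n m with h | rfl | h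
  · exact absurd h2 (key ha h (h0.trans h0'.symm))
  · exact hσ.iterate _ (h0.trans h0'.symm)
  · exact absurd h1 (key hb h (h0'.trans h0.symm))

theorem Tr.total [Finite V] (hσ : Injective σ) {a : V} (ha : U a) : ∃ b, U b ∧ Tr σ U a b := by
  classical
  obtain ⟨n, hn, h⟩ := mem_periodicPts.1 (hσ.mem_periodicPts a)
  have hex : ∃ k, U (σ^[k + 1] a) := ⟨n - 1, by rw [Nat.sub_add_cancel hn, h.eq]; exact ha⟩
  exact ⟨_, Nat.find_spec hex, tr_iff.2 ⟨_, rfl, fun k hk => Nat.find_min hex hk⟩⟩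

theorem Tr.trans {a b c : V} (h : Tr σ U a b) (hb : ¬ U b) (h' : Tr σ U b c) : Tr σ U a c := by
  induction h' with
  | one => exact h.more hb
  | more _ hc ih => exact ih.more hc

theorem Tr.mono (hU : ∀ v, U v → U' v) {a b : V} (h : Tr σ U' a b) : Tr σ U a b := by
  induction h with
  | one => exact Tr.one _
  | more _ hb ih => exact ih.more fun h => hb (hU _ h)

/-- the first point of `U'` on the way -/
theorem Tr.first {a b : V} (h : Tr σ U a b) :
    Tr σ U' a b ∨ ∃ c, U' c ∧ ¬ U c ∧ Tr σ U' a c ∧ Tr σ U c b := by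
  induction h with
  | one => exact Or.inl (Tr.one _)
  | @more b _ hb ih =>
    rcases ih with ih | ⟨c, h1, h2, h3, h4⟩
    · by_cases h : U' b
      · exact Or.inr ⟨b, h, hb, ih, Tr.one _⟩
      · exact Or.inl (ih.more h)
    · exact Or.inr ⟨c, h1, h2, h3, h4.more hb⟩

/-- the last point of `U'` on the way -/
theorem Tr.last {a b : V} (h : Tr σ U a b) :
    Tr σ U' a b ∨ ∃ c, U' c ∧ ¬ U c ∧ Tr σ U a c ∧ Tr σ U' c b := by
  induction h with
  | one => exact Or.inl (Tr.one _)
  | @more b h0 hb ih =>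
    by_cases h : U' b
    · exact Or.inr ⟨b, h, hb, h0, Tr.one _⟩
    · exact ih.imp (fun ih => ih.more h) fun ⟨c, h1, h2, h3, h4⟩ => ⟨c, h1, h2, h3, h4.more h⟩

theorem Tr.congr {π : V → V} (hπ : ∀ v, ¬ U v → π v = v) {a b : V} (h : Tr σ U a b) :
    Tr (π ∘ σ) U a (π b) := by
  induction h with
  | one => exact Tr.one (σ := π ∘ σ) _
  | more _ hb ih =>
    rw [hπ _ hb] at ih
    exact Tr.more (σ := π ∘ σ) ih hb

/-- marked points: ports and the points of `P` -/
def Mk {W : Type} (p : W → V) (P : Finset V) (v : V) : Prop := (∃ x, p x = v) ∨ v ∈ P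

/-- Comparison of two circuits that differ by a rearrangement of the points of `P`. -/
theorem cmp {W : Type} [Fintype W] [DecidableEq W] (hσ : Injective σ) {p : W → V}
    (hp : Injective p) {P : Finset V} (hP : ∀ x, p x ∉ P) {π : V → V}
    (hπ : ∀ v, v ∉ P → π v = v) {W0 W1 : W → W}
    (h0 : ∀ x, Tr σ (fun v => ∃ x, p x = v) (p x) (p (W0 x)))
    (h1 : ∀ x, Tr (π ∘ σ) (fun v => ∃ x, p x = v) (p x) (p (W1 x))) (c : W → Bool) {K : ℕ}
    (hK : ∀ F : Finset W, (∀ u ∈ F, ∃ u' ∈ F, W1 u = W0 u' ∧ c u' = c u) → K ≤ Fᶜ.card) :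
    (∃ Bad : Finset V, Bad ⊆ P ∧ Bad.card + 2 * K ≤ 2 * P.card ∧ ∀ v ∈ P, v ∉ Bad →
      (∃ x, Tr σ (Mk p P) (p x) v) ∧ ∃ y, Tr σ (Mk p P) v (p y)) ∧
    ∀ Mo ⊆ P, (∀ v ∈ Mo, π v ∈ Mo ∧ (∃ y, Tr σ (Mk p P) v (p y)) ∧
      ∃ x x', Tr σ (Mk p P) (p x) v ∧ Tr σ (Mk p P) (p x') (π v) ∧ c x' = c x) →
      K + Mo.card ≤ P.card := by
  classical
  have hm : ∀ v, (∃ x, p x = v) → Mk p P v := fun v h => Or.inl h
  have hπ' : ∀ v, ¬ Mk p P v → π v = v := fun v h => hπ v fun h' => h (Or.inr h')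
  have same : ∀ x, Tr σ (Mk p P) (p x) (p (W0 x)) → W1 x = W0 x := fun x h => by
    have := (h.congr hπ').mono hm
    rw [hπ _ (hP _)] at this
    exact hp ((h1 x).det this ⟨_, rfl⟩ ⟨_, rfl⟩)
  have fst : ∀ x, W1 x ≠ W0 x → ∃ v ∈ P, Tr σ (Mk p P) (p x) v := fun x hx => by
    rcases (h0 x).first (U' := Mk p P) with h | ⟨v, h2, h3, h4, -⟩
    · exact absurd (same x h) hx
    · exact ⟨v, h2.resolve_left h3, h4⟩
  have lst : ∀ x, W1 x ≠ W0 x → ∃ v ∈ P, Tr σ (Mk p P) v (p (W0 x)) := fun x hx => by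
    rcases (h0 x).last (U' := Mk p P) with h | ⟨v, h2, h3, -, h4⟩
    · exact absurd (same x h) hx
    · exact ⟨v, h2.resolve_left h3, h4⟩
  have hW : Injective W0 := fun x x' h =>
    hp ((h0 x).inj hσ (h ▸ h0 x') ⟨_, rfl⟩ ⟨_, rfl⟩)
  have hK0 := hK (univ.filter fun u => W1 u = W0 u) fun u hu => ⟨u, hu, (mem_filter.1 hu).2, rfl⟩
  have hc : ∀ u ∈ (univ.filter fun u => W1 u = W0 u)ᶜ, W1 u ≠ W0 u := fun u hu h =>
    mem_compl.1 hu (mem_filter.2 ⟨mem_univ _, h⟩)
  refine ⟨?_, fun Mo hMo H => ?_⟩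
  · have a1 := hK0.trans (card_le_card_of_forall_subsingleton
      (t := P.filter fun v => ∃ x, Tr σ (Mk p P) (p x) v) (fun x v => Tr σ (Mk p P) (p x) v)
      (fun u hu => let ⟨v, h2, h3⟩ := fst u (hc u hu); ⟨v, mem_filter.2 ⟨h2, u, h3⟩, h3⟩)
      fun v _ x hx x' hx' => hp (hx.2.inj hσ hx'.2 (hm _ ⟨_, rfl⟩) (hm _ ⟨_, rfl⟩)))
    have a2 := hK0.trans (card_le_card_of_forall_subsingleton
      (t := P.filter fun v => ∃ y, Tr σ (Mk p P) v (p y)) (fun x v => Tr σ (Mk p P) v (p (W0 x)))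
      (fun u hu => let ⟨v, h2, h3⟩ := lst u (hc u hu); ⟨v, mem_filter.2 ⟨h2, _, h3⟩, h3⟩)
      fun v _ x hx x' hx' => hW (hp (hx.2.det hx'.2 (hm _ ⟨_, rfl⟩) (hm _ ⟨_, rfl⟩))))
    have b1 := card_filter_add_card_filter_not (s := P) fun v => ∃ x, Tr σ (Mk p P) (p x) v
    have b2 := card_filter_add_card_filter_not (s := P) fun v => ∃ y, Tr σ (Mk p P) v (p y)
    refine ⟨_ ∪ _, union_subset (filter_subset (fun v => ¬ ∃ x, Tr σ (Mk p P) (p x) v) _)
      (filter_subset (fun v => ¬ ∃ y, Tr σ (Mk p P) v (p y)) _),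
      (Nat.add_le_add_right (card_union_le _ _) _).trans (by omega), fun v hv hb => ?_⟩
    exact ⟨by_contra fun h => hb (mem_union_left _ (mem_filter.2 ⟨hv, h⟩)),
      by_contra fun h => hb (mem_union_right _ (mem_filter.2 ⟨hv, h⟩))⟩
  · have a1 := hK (univ.filter fun u => W1 u = W0 u ∨ ∃ v ∈ Mo, Tr σ (Mk p P) (p u) v) (by
      intro u hu
      rcases (mem_filter.1 hu).2 with h | ⟨v, hv, h⟩
      · exact ⟨u, hu, h, rfl⟩
      obtain ⟨h2, -, x, x', h3, h4, h5⟩ := H v hv
      obtain ⟨-, ⟨y, h6⟩, -⟩ := H _ h2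
      have hn : ¬ ∃ x, p x = π v := fun ⟨x, hx⟩ => hP x (hx ▸ hMo h2)
      obtain rfl := hp (h.inj hσ h3 (hm _ ⟨_, rfl⟩) (hm _ ⟨_, rfl⟩))
      have e0 := hp ((h0 x').det ((h4.mono hm).trans hn (h6.mono hm)) ⟨_, rfl⟩ ⟨_, rfl⟩)
      have h7 := (h6.congr hπ').mono hm
      rw [hπ _ (hP _)] at h7
      have e1 := hp ((h1 u).det (((h.congr hπ').mono hm).trans hn h7) ⟨_, rfl⟩ ⟨_, rfl⟩)
      exact ⟨x', mem_filter.2 ⟨mem_univ _, Or.inr ⟨_, h2, h4⟩⟩, e1.trans e0.symm, h5⟩)
    have a2 := a1.trans (card_le_card_of_forall_subsingleton (t := P \ Mo)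
      (fun x v => Tr σ (Mk p P) (p x) v) (fun u hu => by
        have hu' := fun h => mem_compl.1 hu (mem_filter.2 ⟨mem_univ _, h⟩)
        obtain ⟨v, h2, h3⟩ := fst u fun h => hu' (Or.inl h)
        exact ⟨v, mem_sdiff.2 ⟨h2, fun h => hu' (Or.inr ⟨v, h, h3⟩)⟩, h3⟩)
      fun v _ x hx x' hx' => hp (hx.2.inj hσ hx'.2 (hm _ ⟨_, rfl⟩) (hm _ ⟨_, rfl⟩)))
    have := card_sdiff_add_card_eq_card hMo
    omega

/-- two points of `P` on one strand are both bad -/
theorem Tr.bad (hσ : Injective σ) {W : Type} {p : W → V} {P : Finset V} (hP : ∀ x, p x ∉ P)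
    {v v' : V} (hv : v ∈ P) (hv' : v' ∈ P) (h : Tr σ (fun v => ∃ x, p x = v) v v') :
    (¬ ∃ y, Tr σ (Mk p P) v (p y)) ∧ ¬ ∃ x, Tr σ (Mk p P) (p x) v' := by
  constructor
  · rintro ⟨y, hy⟩
    rcases h.first (U' := Mk p P) with h | ⟨c, h1, h2, h3, -⟩
    · exact hP y (h.det hy (Or.inr hv') (Or.inl ⟨_, rfl⟩) ▸ hv')
    · exact h2 ⟨y, (h3.det hy h1 (Or.inl ⟨_, rfl⟩)).symm⟩
  · rintro ⟨x, hx⟩
    rcases h.last (U' := Mk p P) with h | ⟨c, h1, h2, -, h3⟩
    · exact hP x (h.inj hσ hx (Or.inr hv) (Or.inl ⟨_, rfl⟩) ▸ hv)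
    · exact h2 ⟨x, (h3.inj hσ hx h1 (Or.inl ⟨_, rfl⟩)).symm⟩

end Pool.Agent.MP_47ff19_lc.SS

end

-- part MP_47ff19_lc.H43S.Circ
section

/-! Circuits of permutations of directed wires, and the monoid of diagrams. -/

namespace Pool.Agent.MP_47ff19_lc.SS

open Function H81 Equiv

/-- A wire: a direction (`true` = to the right) and a name. -/
abbrev Wr (Q : Type) := Bool × Q

variable {Q β : Type}

/-- the cyclic order in which the wire `y` visits the outside and the boxes that act on it -/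
def rt [DecidableEq β] (G : List β) (act : β → Wr Q → Bool) (y : Wr Q) : Perm (Option β) :=
  (none :: ((bif y.1 then G else G.reverse).filter (act · y)).map some).formPerm

/-- one step of a circuit: cross the box, go to the next box -/
def cs [DecidableEq β] (g : β → Perm (Wr Q)) (G : List β) (act : β → Wr Q → Bool)
    (v : Option β × Wr Q) : Option β × Wr Q :=
  (rt G act (v.1.elim v.2 (g · v.2)) v.1, v.1.elim v.2 (g · v.2))

theorem cs_inj [DecidableEq β] (g : β → Perm (Wr Q)) (G : List β) (act : β → Wr Q → Bool) :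
    Injective (cs g G act) := by
  rintro ⟨z, x⟩ ⟨z', x'⟩ h
  obtain ⟨h1, h2⟩ := Prod.ext_iff.1 h
  simp only [cs] at h1 h2
  rw [h2] at h1
  obtain rfl := (rt G act _).injective h1
  cases z with
  | none => exact congrArg _ h2
  | some z => exact congrArg _ ((g z).injective h2)

theorem fp_mid {α : Type} [DecidableEq α] {A B : List α} {c d : α} (h : (A ++ c :: d :: B).Nodup) :
    (A ++ c :: d :: B).formPerm c = d := by
  rw [List.formPerm_eq_of_isRotated h List.isRotated_append]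
  exact List.formPerm_apply_head _ _ _ (List.isRotated_append.nodup_iff.1 h)

/-- a run seen from the wire: `back` lies behind the head, `ahead` in front of it -/
def Ez (g : β → Perm (Wr Q)) (back ahead : List β) (x o : Wr Q) : Prop :=
  Ex (fun z x => some (g z x)) (bif x.1 then back else ahead) (bif x.1 then ahead else back) x o

theorem Ez.nil (g : β → Perm (Wr Q)) (back : List β) (x : Wr Q) : Ez g back [] x x := by
  obtain ⟨_ | _, q⟩ := x
  · exact Ex.endL _ _
  · exact Ex.endR _ _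

theorem Ez.cons {g : β → Perm (Wr Q)} {back ahead : List β} {z : β} {x o : Wr Q}
    (h : if (g z x).1 = x.1 then Ez g (z :: back) ahead (g z x) o
      else Ez g (z :: ahead) back (g z x) o) : Ez g back (z :: ahead) x o := by
  obtain ⟨_ | _, q⟩ := x
  · refine Ex.bwd rfl ?_
    generalize g z (false, q) = y at h
    obtain ⟨_ | _, p⟩ := y <;> exact h
  · refine Ex.fwd rfl ?_
    generalize g z (true, q) = y at h
    obtain ⟨_ | _, p⟩ := y <;> exact h

theorem Ez.skip {g : β → Perm (Wr Q)} {x o : Wr Q} {p : List β} (hp : ∀ z ∈ p, g z x = x) :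
    ∀ {back ahead : List β}, Ez g (p.reverse ++ back) ahead x o → Ez g back (p ++ ahead) x o := by
  induction p with
  | nil => exact id
  | cons z p ih =>
    intro back ahead h
    refine Ez.cons ?_
    rw [hp z List.mem_cons_self, if_pos rfl]
    exact ih (fun z hz => hp z (List.mem_cons_of_mem _ hz)) (by simpa using h)

theorem circ [DecidableEq β] {g : β → Perm (Wr Q)} {G : List β} (hG : G.Nodup)
    {act : β → Wr Q → Bool} (ha : ∀ z y, act z y = false → g z y = y) {x y : Wr Q}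
    (h : Tr (cs g G act) (fun v => ∃ x, (none, x) = v) (none, x) (none, y)) :
    beh (fun z x => some (g z x)) G x = some y := by
  set dG : Bool → List β := fun b => bif b then G else G.reverse with hdG
  have hnd : ∀ b, (dG b).Nodup := fun b => by cases b <;> simpa [hdG] using hG
  let I : Wr Q → Prop := Ez g [] (dG x.1) x
  let S : Option β × Wr Q → Prop := fun v => (v.1 = none → I v.2) ∧ ∀ z, v.1 = some z →
    ∃ back ahead, dG v.2.1 = back.reverse ++ z :: ahead ∧ act z v.2 ∧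
      ∀ o, Ez g back (z :: ahead) v.2 o → I o
  have nxt : ∀ (c : Option β) (y : Wr Q) (back ahead : List β) (A : List (Option β)),
      dG y.1 = back.reverse ++ ahead →
      none :: (back.reverse.filter (act · y)).map some = A ++ [c] →
      (∀ o, Ez g back ahead y o → I o) → S (rt G act y c, y) := by
    intro c y back ahead A h1 h2 h3
    have hr : rt G act y = (A ++ c :: (ahead.filter (act · y)).map some).formPerm := by
      rw [rt, show (bif y.1 then G else G.reverse) = _ from h1, List.filter_append, List.map_append,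
        ← List.cons_append, h2, List.append_assoc, List.singleton_append]
    have hn : (A ++ c :: (ahead.filter (act · y)).map some).Nodup := by
      rw [← List.singleton_append, ← List.append_assoc, ← h2, List.cons_append, ← List.map_append,
        ← List.filter_append, ← h1]
      exact List.nodup_cons.2 ⟨by simp only [List.mem_map, List.mem_filter, reduceCtorEq, and_false, exists_false, not_false_eq_true], ((hnd _).filter _).map (Option.some_injective _)⟩
    rcases hf : ahead.filter (act · y) with _ | ⟨z, t⟩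
    · have : rt G act y c = none := by
        rw [hr, hf, List.map_nil, ← h2]
        have := List.formPerm_apply_getLast none ((back.reverse.filter (act · y)).map some)
        rwa [show List.getLast _ _ = c by simp only [h2, List.getLast_concat]] at this
      rw [this]
      refine ⟨fun _ => h3 _ ?_, fun z hz => by cases hz⟩
      have := Ez.skip (g := g) (x := y) (o := y) (p := ahead) (back := back) (ahead := [])
        (fun z hz => ha _ _ (by simpa using List.filter_eq_nil_iff.1 hf z hz)) (Ez.nil _ _ _)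
      rwa [List.append_nil] at this
    · rw [hf] at hr hn
      rw [hr, List.map_cons, fp_mid hn]
      refine ⟨fun h => (by cases h), fun z' hz' => ?_⟩
      cases hz'
      obtain ⟨p, r, rfl, h4, h5, -⟩ := List.filter_eq_cons_iff.1 hf
      refine ⟨p.reverse ++ back, r, by simp [h1], h5, fun o ho => h3 _ (Ez.skip ?_ ho)⟩
      exact fun z hz => ha _ _ (by simpa using h4 z hz)
  have key : ∀ v, Tr (cs g G act) (fun v => ∃ x, (none, x) = v) (none, x) v → S v := by
    intro v h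
    induction h with
    | one => exact nxt none x [] _ [] rfl rfl fun o h => h
    | @more v _ hb ih =>
      obtain ⟨_ | z, u⟩ := v
      · exact absurd ⟨u, rfl⟩ hb
      obtain ⟨back, ahead, h1, h2, h3⟩ := ih.2 z rfl
      have h4 : act z (g z u) := by
        by_contra h
        rw [(g z).injective (ha _ _ (Bool.eq_false_iff.2 h))] at h
        exact h h2
      by_cases hd : (g z u).1 = u.1
      · exact nxt (some z) (g z u) (z :: back) ahead
          (none :: (back.reverse.filter (act · (g z u))).map some) (by simpa [hd] using h1)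
          (by simp [h4]) fun o ho => h3 _ (Ez.cons (by rwa [if_pos hd]))
      · refine nxt (some z) (g z u) (z :: ahead) back
          (none :: (ahead.reverse.filter (act · (g z u))).map some) ?_
          (by simp [h4]) fun o ho => h3 _ (Ez.cons (by rwa [if_neg hd]))
        have : dG (g z u).1 = (dG u.1).reverse := by
          revert hd; cases (g z u).1 <;> cases u.1 <;> simp [hdG]
        simp [this, show dG u.1 = _ from h1]
  have := (key _ h).1 rfl
  rw [beh_eq_some]
  obtain ⟨_ | _, q⟩ := x <;> exact this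

variable [Finite Q]

theorem exists_ev (m : List (Perm (Wr Q))) :
    ∃ e : Perm (Wr Q), ∀ x, beh (fun g x => some (g x)) m x = some (e x) := by
  have hi := cs_inj m.get (List.finRange m.length) fun _ _ => true
  have : ∀ x : Wr Q, ∃ y, Tr (cs m.get (List.finRange m.length) fun _ _ => true)
      (fun v => ∃ x, (none, x) = v) (none, x) (none, y) := fun x => by
    obtain ⟨_, ⟨y, rfl⟩, h⟩ := Tr.total (U := fun v => ∃ x, (none, x) = v) hi ⟨x, rfl⟩
    exact ⟨y, h⟩
  choose f hf using this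
  refine ⟨ofBijective f (Finite.injective_iff_bijective.1 fun x x' h =>
    (Prod.ext_iff.1 ((hf x).inj hi (h ▸ hf x') ⟨_, rfl⟩ ⟨_, rfl⟩)).2), fun x => ?_⟩
  have := (beh_eq_some.1 (circ (List.nodup_finRange _) (by simp) (hf x))).map
    (κ := fun g x => some (g x)) m.get fun _ => rfl
  rw [beh_eq_some]
  obtain ⟨_ | _, q⟩ := x <;> simpa using this

/-- the permutation of the wires that a row of boxes induces -/
noncomputable def ev (m : List (Perm (Wr Q))) : Perm (Wr Q) := (exists_ev m).choose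

theorem beh_ev (m : List (Perm (Wr Q))) :
    beh (fun g x => some (g x)) m = fun x => some (ev m x) := funext (exists_ev m).choose_spec

theorem ev_of_ez {m : List (Perm (Wr Q))} {x y : Wr Q}
    (h : Ez id [] (bif x.1 then m else m.reverse) x y) : ev m x = y := by
  have : beh (fun g x => some (g x)) m x = some y := by
    rw [beh_eq_some]
    obtain ⟨_ | _, q⟩ := x <;> exact h
  rw [beh_ev] at this
  exact Option.some.inj this

theorem ev_single (g : Perm (Wr Q)) : ev [g] = g := Equiv.ext fun x => ev_of_ez (by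
  rw [List.reverse_singleton, Bool.cond_self]
  refine Ez.cons ?_
  split_ifs <;> exact Ez.nil _ _ _)

theorem ev_map (g : β → Perm (Wr Q)) (G : List β) :
    beh (fun z x => some (g z x)) G = fun x => some (ev (G.map g) x) := by
  have h := beh_flatMap (fun (g : Perm (Wr Q)) x => some (g x)) (fun z => [g z]) G
  simp only [beh_ev, ev_single] at h
  rw [← h, List.map_eq_flatMap]

theorem ev_nil : ev ([] : List (Perm (Wr Q))) = 1 := Equiv.ext fun x => ev_of_ez (by
  rw [List.reverse_nil, Bool.cond_self]; exact Ez.nil _ _ _)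

theorem ev_flatten (u : List (List (Perm (Wr Q)))) : ev u.flatten = ev (u.map ev) := by
  have h := beh_flatMap (fun (g : Perm (Wr Q)) x => some (g x)) id u
  simp only [beh_ev, id, List.flatMap_id] at h
  rw [ev_map] at h
  exact Equiv.ext fun x => Option.some.inj (congrFun h x)

/-- Diagrams: permutations of the wires under two-way composition. -/
@[ext] structure Dg (Q : Type) where
  p : Perm (Wr Q)

instance : Finite (Dg Q) := Finite.of_injective Dg.p fun _ _ => Dg.ext

noncomputable instance : Monoid (Dg Q) where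
  mul a b := ⟨ev [a.p, b.p]⟩
  one := ⟨1⟩
  mul_assoc a b c := Dg.ext (by
    have h1 := ev_flatten [[a.p, b.p], [c.p]]
    have h2 := ev_flatten [[a.p], [b.p, c.p]]
    simp only [List.map_cons, List.map_nil, ev_single] at h1 h2
    exact h1.symm.trans h2)
  one_mul a := Dg.ext (by
    have h1 := ev_flatten [[], [a.p]]
    simp only [List.map_cons, List.map_nil, ev_single, ev_nil] at h1
    exact h1.symm.trans (ev_single _))
  mul_one a := Dg.ext (by
    have h1 := ev_flatten [[a.p], []]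
    simp only [List.map_cons, List.map_nil, ev_single, ev_nil] at h1
    exact h1.symm.trans (ev_single _))

theorem mul_p (a b : Dg Q) : (a * b).p = ev [a.p, b.p] := rfl

theorem one_p : (1 : Dg Q).p = 1 := rfl

theorem prod_p (m : List (Dg Q)) : m.prod.p = ev (m.map Dg.p) := by
  induction m with
  | nil => exact ev_nil.symm
  | cons a m ih =>
    have h1 := ev_flatten [[a.p], m.map Dg.p]
    simp only [List.map_cons, List.map_nil, ev_single] at h1
    rw [List.prod_cons, mul_p, ih, ← h1]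
    simp

/-- the circuit computes the product -/
theorem tr_prod [Finite β] [DecidableEq β] {g : β → Dg Q} {G : List β} (hG : G.Nodup)
    {act : β → Wr Q → Bool} (ha : ∀ z y, act z y = false → (g z).p y = y) (x : Wr Q) :
    Tr (cs (fun z => (g z).p) G act) (fun v => ∃ x, (none, x) = v) (none, x)
      (none, (G.map g).prod.p x) := by
  obtain ⟨_, ⟨y, rfl⟩, h⟩ := Tr.total (U := fun v => ∃ x, (none, x) = v)
    (cs_inj (fun z => (g z).p) G act) ⟨x, rfl⟩
  have := circ hG ha h
  rw [ev_map] at this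
  rw [prod_p, List.map_map]
  exact Option.some.inj this ▸ h

/-- The head is between `a` and `b` on the wire `x` and leaves on the wire `o`. -/
inductive Mid (a b : Dg Q) : Wr Q → Wr Q → Prop
  | out {x : Wr Q} : ((bif x.1 then b else a).p x).1 = x.1 →
      Mid a b x ((bif x.1 then b else a).p x)
  | turn {x o : Wr Q} : ((bif x.1 then b else a).p x).1 ≠ x.1 →
      Mid a b ((bif x.1 then b else a).p x) o → Mid a b x o

theorem Mid.total (a b : Dg Q) (x : Wr Q) (h : ((bif x.1 then a else b).p x).1 = x.1) :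
    Mid a b ((bif x.1 then a else b).p x) ((a * b).p x) := by
  have key : ∀ {l r x o}, Ex (fun (g : Perm (Wr Q)) x => some (g x)) l r x o →
      (l = [a.p] → r = [b.p] → Mid a b x o) ∧
      (x.1 = true → l = [b.p, a.p] → r = [] → o = x) ∧
      (x.1 = false → l = [] → r = [a.p, b.p] → o = x) := by
    intro l r x o h
    induction h with
    | endR l q => exact ⟨fun _ h => (by cases h), fun _ _ _ => rfl, fun h => by cases h⟩
    | endL r q => exact ⟨fun h => (by cases h), fun h => (by cases h), fun _ _ _ => rfl⟩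
    | @fwd l r c q y o h1 _ ih =>
      refine ⟨fun hl hr => ?_, fun _ _ h => (by cases h), fun h => by cases h⟩
      cases hl; cases hr; cases h1
      by_cases hd : (b.p (true, q)).1 = true
      · rw [hd] at ih
        rw [ih.2.1 rfl rfl rfl]
        exact Mid.out (x := (true, q)) hd
      · rw [Bool.eq_false_iff.2 hd] at ih
        exact Mid.turn (x := (true, q)) hd (ih.1 rfl rfl)
    | @bwd l r c q y o h1 _ ih =>
      refine ⟨fun hl hr => ?_, fun h => (by cases h), fun _ h => by cases h⟩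
      cases hl; cases hr; cases h1
      by_cases hd : (a.p (false, q)).1 = false
      · rw [hd] at ih
        rw [ih.2.2 rfl rfl rfl]
        exact Mid.out (x := (false, q)) hd
      · rw [Bool.eq_true_of_not_eq_false hd] at ih
        exact Mid.turn (x := (false, q)) hd (ih.1 rfl rfl)
  have h1 := beh_eq_some.1 (congrFun (beh_ev [a.p, b.p]) x)
  obtain ⟨_ | _, q⟩ := x
  · obtain ⟨y, hy, h2⟩ := Ex.cons_false.1 h1
    cases hy
    simp only [cond_false] at h ⊢
    rw [h] at h2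
    exact (key h2).1 rfl rfl
  · obtain ⟨y, hy, h2⟩ := Ex.cons_true.1 h1
    cases hy
    simp only [cond_true] at h ⊢
    rw [h] at h2
    exact (key h2).1 rfl rfl

omit [Finite Q] in
theorem Mid.det {a b : Dg Q} {x o o' : Wr Q} (h : Mid a b x o) (h' : Mid a b x o') : o = o' := by
  induction h with
  | out h1 => cases h' with
    | out => rfl
    | turn h2 => exact absurd h1 h2
  | turn h1 _ ih => cases h' with
    | out h2 => exact absurd h2 h1
    | turn _ h3 => exact ih h3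

/-- a strand that turns back in the first box it meets -/
theorem mul_turn (a b : Dg Q) (x : Wr Q) (h : ((bif x.1 then a else b).p x).1 ≠ x.1) :
    (a * b).p x = (bif x.1 then a else b).p x := by
  refine ev_of_ez ?_
  obtain ⟨_ | _, q⟩ := x <;> exact Ez.cons ((if_neg h).mpr (Ez.nil _ _ _))

theorem mul_mid {a b : Dg Q} {x o : Wr Q} (h : ((bif x.1 then a else b).p x).1 = x.1)
    (h' : Mid a b ((bif x.1 then a else b).p x) o) : (a * b).p x = o := (Mid.total a b x h).det h'

end Pool.Agent.MP_47ff19_lc.SS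

end

-- part MP_47ff19_lc.H43S.Def
section

namespace Pool.Agent.MP_47ff19_lc.SS

open Finset

variable {Q : Type} [Fintype Q] [DecidableEq Q] {T : Type}

/-- a step of `z` that turns back -/
def Tn (z : Dg Q) (x y : Wr Q) : Prop := z.p x = y ∧ y.1 ≠ x.1

/-- a strand that leaves the cut between `L` and `R` on `x` comes back on `y` -/
def Cut (L R : Dg Q) (x y : Wr Q) : Prop := Tn (bif x.1 then R else L) x y

/-- symbolic edges; `0` is the source, `1` the target -/
abbrev E := Fin 8 × Fin 8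

def reach (w : List E) : Finset (Fin 8) :=
  w.foldl (fun S e => if e.1 ∈ S then insert e.2 S else S) {0}

abbrev On (w : List E) : Prop := 1 ∈ reach w

abbrev Ok (w : List E) : Prop := ∀ e ∈ w, e.1 ≠ 1

/-- three letters into the track `2`, two letters out of it -/
def lt : Fin 5 → E := ![(3, 2), (4, 2), (5, 2), (2, 6), (2, 7)]

noncomputable def wd (Z : E → Dg Q) (D : Dg Q) (w : List E) : Wr Q → Wr Q :=
  (D * (w.map Z).prod * D).p

structure Core (Z : E → Dg Q) (D : Dg Q) (c : Wr Q → Bool) (K δ : ℕ) : Prop where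
  idem : ∀ e, Z e * Z e = Z e
  supp : ∀ e, (Z e).p.support.card ≤ K + δ
  unit : ∀ w, Ok w → ¬ On w → ∀ x, c (wd Z D w x) = x.1
  doom : ∀ w₀ w₁, Ok w₀ → Ok w₁ → ¬ On w₀ → On w₁ → ∀ F : Finset (Wr Q),
    (∀ u ∈ F, ∃ u' ∈ F, wd Z D w₁ u = wd Z D w₀ u' ∧ u'.1 = u.1) → K ≤ Fᶜ.card

/-- keep only the tracks in `σ` -/
def pid (σ : Finset T) (S : Set T) : Set T := S ∩ σ

/-- keep the tracks in `τ` and add the edge from `p` to `q` -/
def ed (τ : Finset T) (p q : T) (S : Set T) : Set T := S ∩ τ ∪ {t | t = q ∧ p ∈ S}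

/-- a monoid of diagrams that determine their action on sets of tracks -/
structure Sys (τ : Finset T) (M : Dg Q → (Set T → Set T) → Prop) : Prop where
  one : M 1 (pid τ)
  mul : ∀ {g h R S}, M g R → M h S → M (g * h) (S ∘ R)
  fn : ∀ {g R S}, M g R → M g S → R = S
  idr : ∀ σ ⊆ τ, ∃ g, M g (pid σ)
  edg : ∀ p ∈ τ, ∀ q ∈ τ, ∃ g, M g (ed τ p q)

def Bd (τ : Finset T) (M : Dg Q → (Set T → Set T) → Prop) (k : ℕ) : Prop :=
  ∀ p ∈ τ, ∀ q ∈ τ, ∃ g, M g (ed τ p q) ∧ g.p.support.card ≤ k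

end Pool.Agent.MP_47ff19_lc.SS

end

-- part MP_47ff19_lc.H43S.Idem
section

namespace Pool.Agent.MP_47ff19_lc.SS

open Finset Relation

variable {Q : Type} [Fintype Q] [DecidableEq Q] {z : Dg Q}

omit [Fintype Q] [DecidableEq Q] in
theorem mid_chain {m o : Wr Q} (h : Mid z z m o) :
    ∃ m', ReflTransGen (Tn z) m m' ∧ z.p m' = o := by
  induction h with
  | @out x _ => exact ⟨x, ReflTransGen.refl, by rw [Bool.cond_self]⟩
  | @turn x o h1 _ ih =>
    obtain ⟨m', h2, h3⟩ := ih
    rw [Bool.cond_self] at h1 h2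
    exact ⟨m', ReflTransGen.head ⟨rfl, h1⟩ h2, h3⟩

/-- a cycle of an idempotent has at most one straight step -/
theorem idem_rt (hz : z * z = z) {x : Wr Q} (h : (z.p x).1 = x.1) :
    ReflTransGen (Tn z) (z.p x) x := by
  have h1 := Mid.total z z x (by rwa [Bool.cond_self])
  rw [Bool.cond_self, hz] at h1
  obtain ⟨m', h2, h3⟩ := mid_chain h1
  rwa [z.p.injective h3] at h2

theorem idem_loc (hz : z * z = z) {x : Wr Q} (h : (z.p x).1 = x.1) (hx : z.p x ≠ x) :
    (z.p (z.p x)).1 ≠ x.1 ∧ (z.p (z.p (z.p x))).1 = x.1 ∧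
      (z.p⁻¹ x).1 ≠ x.1 ∧ (z.p⁻¹ (z.p⁻¹ x)).1 = x.1 := by
  have h0 := idem_rt hz h
  have bb : ∀ {a b c : Bool}, a ≠ b → b ≠ c → a = c := by decide
  obtain ⟨c, ⟨rfl, h1⟩, h2⟩ := (ReflTransGen.cases_head h0).resolve_left hx
  rw [h] at h1
  obtain ⟨d, ⟨rfl, h3⟩, -⟩ := (ReflTransGen.cases_head h2).resolve_left
    fun e => h1 (congrArg Prod.fst e)
  obtain ⟨c, h4, h5, h6⟩ := (ReflTransGen.cases_tail h0).resolve_left (Ne.symm hx)
  obtain rfl : c = z.p⁻¹ x := by rw [← h5]; simp
  obtain ⟨d, -, h7, h8⟩ := (ReflTransGen.cases_tail h4).resolve_left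
    fun e => h6 (by rw [e, h])
  obtain rfl : d = z.p⁻¹ (z.p⁻¹ x) := by rw [← h7]; simp
  exact ⟨h1, bb h3 h1, Ne.symm h6, bb (Ne.symm h8) (Ne.symm h6)⟩

theorem idem_three (hz : z * z = z) (G : Finset (Wr Q)) (hG : G ⊆ z.p.support)
    (h : ∀ y ∈ G, ∀ y' ∈ G, ¬ TransGen (Tn z) y y') : 3 * G.card ≤ z.p.support.card := by
  have hs : ∀ y ∈ G, z.p y ≠ y := fun y hy => Equiv.Perm.mem_support.1 (hG hy)
  have rt : ∀ y ∈ G, ∀ y' ∈ G, ReflTransGen (Tn z) y y' → y' = y := fun y hy y' hy' H =>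
    (reflTransGen_iff_eq_or_transGen.1 H).resolve_right (h y hy y' hy')
  have k1 : ∀ y ∈ G, z.p y ∉ G := fun y hy hy' => by
    by_cases hd : (z.p y).1 = y.1
    · exact hs y hy (rt _ hy' _ hy (idem_rt hz hd)).symm
    · exact h y hy _ hy' (TransGen.single ⟨rfl, hd⟩)
  have k2 : ∀ y ∈ G, z.p (z.p y) ∉ G := fun y hy hy' => by
    by_cases hd : (z.p y).1 = y.1
    · obtain ⟨c, ⟨rfl, h1⟩, h2⟩ :=
        (ReflTransGen.cases_head (idem_rt hz hd)).resolve_left (hs y hy)
      exact h1 (by rw [hd, ← rt _ hy' _ hy h2])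
    · by_cases he : (z.p (z.p y)).1 = (z.p y).1
      · obtain ⟨c, h1, h2, -⟩ := (ReflTransGen.cases_tail (idem_rt hz he)).resolve_left
          fun e => hs y hy (z.p.injective e).symm
        rw [z.p.injective h2] at h1
        exact hd (by rw [← he, ← rt _ hy' _ hy h1])
      · exact h y hy _ hy' (TransGen.head ⟨rfl, hd⟩ (TransGen.single ⟨rfl, he⟩))
  have d1 : Disjoint G (G.map z.p.toEmbedding) := disjoint_left.2 fun y hy hy' => by
    obtain ⟨x, hx, rfl⟩ := mem_map.1 hy'
    exact k1 x hx hy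
  have d2 : Disjoint (G ∪ G.map z.p.toEmbedding) ((G.map z.p.toEmbedding).map z.p.toEmbedding) :=
    disjoint_left.2 fun y hy hy' => by
      obtain ⟨w, hw, rfl⟩ := mem_map.1 hy'
      obtain ⟨x, hx, rfl⟩ := mem_map.1 hw
      rcases mem_union.1 hy with hy | hy
      · exact k2 x hx hy
      · obtain ⟨u, hu, e⟩ := mem_map.1 hy
        obtain rfl : u = z.p x := z.p.injective e
        exact k1 x hx hu
  have hsub : G ∪ G.map z.p.toEmbedding ∪ (G.map z.p.toEmbedding).map z.p.toEmbedding ⊆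
      z.p.support := fun y hy => by
    rcases mem_union.1 hy with hy | hy
    · rcases mem_union.1 hy with hy | hy
      · exact hG hy
      · obtain ⟨x, hx, rfl⟩ := mem_map.1 hy
        exact Equiv.Perm.apply_mem_support.2 (hG hx)
    · obtain ⟨w, hw, rfl⟩ := mem_map.1 hy
      obtain ⟨x, hx, rfl⟩ := mem_map.1 hw
      exact Equiv.Perm.apply_mem_support.2 (Equiv.Perm.apply_mem_support.2 (hG hx))
  have := card_le_card hsub
  rw [card_union_of_disjoint d2, card_union_of_disjoint d1] at this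
  simp only [card_map] at this
  omega

theorem idem_cup (hz : z * z = z) : z.p.support.card ≤
    3 * (univ.filter fun y : Wr Q => y.1 = false ∧ (z.p y).1 = true).card := by
  set C := univ.filter fun y : Wr Q => y.1 = false ∧ (z.p y).1 = true with hC
  have hm : ∀ y, y ∈ C ↔ y.1 = false ∧ (z.p y).1 = true := fun y => by simp only [hC, mem_filter, mem_univ, true_and]
  have key : ∀ x ∈ z.p.support, x ∈ C ∨ z.p x ∈ C ∨ z.p (z.p x) ∈ C := fun x hx => by
    have h1 := Equiv.Perm.mem_support.1 hx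
    have h2 := Equiv.Perm.mem_support.1 (Equiv.Perm.apply_mem_support.2 hx)
    simp only [hm]
    by_cases hd : (z.p x).1 = x.1
    · obtain ⟨h3, h4, -⟩ := idem_loc hz hd h1
      revert hd h3 h4
      cases x.1 <;> cases (z.p x).1 <;> cases (z.p (z.p x)).1 <;>
        cases (z.p (z.p (z.p x))).1 <;> simp
    · by_cases he : (z.p (z.p x)).1 = (z.p x).1
      · obtain ⟨h3, -⟩ := idem_loc hz he h2
        revert hd he h3
        cases x.1 <;> cases (z.p x).1 <;> cases (z.p (z.p x)).1 <;>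
          cases (z.p (z.p (z.p x))).1 <;> simp
      · revert hd he
        cases x.1 <;> cases (z.p x).1 <;> cases (z.p (z.p x)).1 <;> simp
  have hsub : z.p.support ⊆ C ∪ C.map z.p.symm.toEmbedding ∪
      (C.map z.p.symm.toEmbedding).map z.p.symm.toEmbedding := fun x hx => by
    rcases key x hx with h | h | h
    · exact mem_union_left _ (mem_union_left _ h)
    · exact mem_union_left _ (mem_union_right _ (mem_map.2 ⟨_, h, by simp⟩))
    · exact mem_union_right _ (mem_map.2 ⟨z.p x, mem_map.2 ⟨_, h, by simp⟩, by simp⟩)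
  have h1 := (card_le_card hsub).trans ((card_union_le _ _).trans
    (Nat.add_le_add_right (card_union_le _ _) _))
  simp only [card_map] at h1
  omega

theorem exists_idem {M : Type} [Monoid M] [Finite M] (a : M) :
    ∃ k, a ^ (k + 1) * a ^ (k + 1) = a ^ (k + 1) := by
  have key : ∀ i d, a ^ i = a ^ (i + (d + 1)) → ∃ k, a ^ (k + 1) * a ^ (k + 1) = a ^ (k + 1) := by
    intro i d h
    have h1 : ∀ t, a ^ (i + t * (d + 1)) = a ^ i := fun t => by
      induction t with
      | zero => simp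
      | succ t ih =>
        rw [show i + (t + 1) * (d + 1) = i + t * (d + 1) + (d + 1) by ring, pow_add, ih, ← pow_add,
          ← h]
    refine ⟨i * (d + 1) + d, ?_⟩
    rw [← pow_add, show i * (d + 1) + d + 1 + (i * (d + 1) + d + 1) =
      i + (i + 1) * (d + 1) + (i * d + d + 1) by ring, pow_add, h1, ← pow_add]
    congr 1
    ring
  obtain ⟨i, j, hij, h⟩ := Finite.exists_ne_map_eq_of_infinite fun n : ℕ => a ^ n
  rcases lt_or_gt_of_ne hij with hl | hl
  · obtain ⟨d, rfl⟩ := Nat.exists_eq_add_of_lt hl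
    exact key i d h
  · obtain ⟨d, rfl⟩ := Nat.exists_eq_add_of_lt hl
    exact key j d h.symm

omit [Fintype Q] [DecidableEq Q] in
theorem pow_p [Finite Q] (g : Dg Q) {F : Set (Wr Q)}
    (hF : ∀ x ∈ F, g.p x ∈ F ∧ (g.p x).1 = x.1) (k : ℕ) :
    ∀ x ∈ F, (g ^ k).p x = (g.p ^ k) x := by
  have h0 : ∀ k : ℕ, ∀ x ∈ F, (g.p ^ k) x ∈ F ∧ ((g.p ^ k) x).1 = x.1 := by
    intro k x hx
    induction k with
    | zero => exact ⟨hx, rfl⟩
    | succ k ih =>
      rw [pow_succ', Equiv.Perm.mul_apply]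
      exact ⟨(hF _ ih.1).1, (hF _ ih.1).2.trans ih.2⟩
  induction k with
  | zero => intro x _; rfl
  | succ k ih =>
    intro x hx
    rw [pow_succ]
    cases hd : x.1
    · have h1 := hF x hx
      refine mul_mid (by rw [hd]; exact h1.2.trans hd) ?_
      rw [hd, cond_false, pow_succ, Equiv.Perm.mul_apply, ← ih _ h1.1]
      have h2 : (g.p x).1 = false := h1.2.trans hd
      have := Mid.out (a := g ^ k) (b := g) (x := g.p x)
      rw [h2, cond_false] at this
      exact this (by rw [ih _ h1.1, (h0 k _ h1.1).2, h2])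
    · have h1 := h0 k x hx
      refine mul_mid (by rw [hd, cond_true, ih x hx]; exact h1.2.trans hd) ?_
      rw [hd, cond_true, ih x hx, pow_succ', Equiv.Perm.mul_apply]
      have h2 : ((g.p ^ k) x).1 = true := h1.2.trans hd
      have := Mid.out (a := g ^ k) (b := g) (x := (g.p ^ k) x)
      rw [h2, cond_true] at this
      exact this ((hF _ h1.1).2.trans h2)

theorem loc_mul {D g h : Dg Q} (hD : D * D = D)
    (hg : ∀ x, (D.p x).1 ≠ x.1 → g.p x = D.p x) (hh : ∀ x, (D.p x).1 ≠ x.1 → h.p x = D.p x) :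
    (⟨D.p⁻¹ * g.p⟩ * ⟨D.p⁻¹ * h.p⟩ : Dg Q) = ⟨D.p⁻¹ * (g * h).p⟩ := by
  have ai : ∀ x, D.p (D.p⁻¹ x) = x := D.p.apply_symm_apply
  have ia : ∀ x, D.p⁻¹ (D.p x) = x := D.p.symm_apply_apply
  have hc : ∀ (b : Bool) x, (D.p x).1 ≠ x.1 → (bif b then g else h).p x = D.p x := fun b => by
    cases b; exacts [hh, hg]
  have hc' : ∀ (b : Bool) x, (D.p x).1 ≠ x.1 → (bif b then h else g).p x = D.p x := fun b => by
    cases b; exacts [hg, hh]
  have e1 : ∀ (b : Bool) x, (bif b then (⟨D.p⁻¹ * g.p⟩ : Dg Q) else ⟨D.p⁻¹ * h.p⟩).p x =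
      D.p⁻¹ ((bif b then g else h).p x) := fun b x => by cases b <;> rfl
  have e2 : ∀ (b : Bool) x, (bif b then (⟨D.p⁻¹ * h.p⟩ : Dg Q) else ⟨D.p⁻¹ * g.p⟩).p x =
      D.p⁻¹ ((bif b then h else g).p x) := fun b x => by cases b <;> rfl
  have st : ∀ c : Dg Q, (∀ x, (D.p x).1 ≠ x.1 → c.p x = D.p x) → ∀ y, (D.p y).1 = y.1 →
      (c.p y).1 = (D.p⁻¹ (c.p y)).1 := fun c hc y hy => by
    by_contra hn
    have h1 := hc (D.p⁻¹ (c.p y)) (by simpa using hn)
    rw [ai] at h1
    have h2 := c.p.injective h1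
    have h3 : c.p y = D.p y := by rw [← ai (c.p y), h2]
    exact hn (by rw [h2, h3, hy])
  have ch : ∀ {m o}, (D.p m).1 = m.1 → Mid g h m o → Mid g h (D.p m) o := by
    intro m o hm ho
    have := idem_rt hD hm
    generalize D.p m = y at this
    induction this using ReflTransGen.head_induction_on with
    | refl => exact ho
    | @head a b hab _ ih =>
      have h1 := hc' a.1 a (by rw [hab.1]; exact hab.2)
      exact Mid.turn (by rw [h1, hab.1]; exact hab.2) (by rwa [h1, hab.1])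
  have key : ∀ {m o}, Mid (⟨D.p⁻¹ * g.p⟩ : Dg Q) ⟨D.p⁻¹ * h.p⟩ m o → (D.p m).1 = m.1 →
      Mid g h (D.p m) (D.p o) := by
    intro m o H
    induction H with
    | @out m h1 =>
      intro hm
      rw [e2] at h1 ⊢
      rw [ai]
      exact ch hm (Mid.out ((st _ (hc' _) _ hm).trans h1))
    | @turn m o h1 _ ih =>
      intro hm
      rw [e2] at h1 ih
      rw [ai] at ih
      exact ch hm (Mid.turn (by rwa [st _ (hc' _) _ hm]) (ih (st _ (hc' _) _ hm)))
  refine Dg.ext (Equiv.ext fun x => ?_)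
  rw [Equiv.Perm.mul_apply, Equiv.Perm.eq_inv_iff_eq]
  by_cases hx : (D.p x).1 = x.1
  · by_cases h1 : ((bif x.1 then g else h).p x).1 = x.1
    · have h2 := st _ (hc x.1) _ hx
      have h3 := key (Mid.total _ _ x (by rw [e1, ← h2, h1]))
        (by rw [e1, ai, h2])
      rw [e1, ai] at h3
      exact (mul_mid h1 h3).symm
    · rw [mul_turn g h x h1, mul_turn _ _ x (by rwa [e1, ← st _ (hc x.1) _ hx]), e1,
        ai]
  · have h1 : (bif x.1 then (⟨D.p⁻¹ * g.p⟩ : Dg Q) else ⟨D.p⁻¹ * h.p⟩).p x = x := by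
      rw [e1, hc _ _ hx, ia]
    have h2 : (bif x.1 then (⟨D.p⁻¹ * h.p⟩ : Dg Q) else ⟨D.p⁻¹ * g.p⟩).p x = x := by
      rw [e2, hc' _ _ hx, ia]
    rw [mul_turn g h x (by rwa [hc _ _ hx]), hc _ _ hx]
    congr 1
    refine mul_mid (by rw [h1]) ?_
    have := Mid.out (a := (⟨D.p⁻¹ * g.p⟩ : Dg Q)) (b := ⟨D.p⁻¹ * h.p⟩) (x := x) (by rw [h2])
    rw [h2] at this
    rwa [h1]

end Pool.Agent.MP_47ff19_lc.SS

end

-- part MP_47ff19_lc.H43S.T1
section

namespace Pool.Agent.MP_47ff19_lc.SS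

open Finset Relation

variable {Q : Type} [Fintype Q] [DecidableEq Q] {Z : E → Dg Q} {D : Dg Q} {c : Wr Q → Bool}
  {K δ : ℕ}

/-- the circuit with one cut: `inl` are the ports, `inr` the wires of the cut -/
def sg (B : Bool → Equiv.Perm (Wr Q)) : Wr Q ⊕ Wr Q → Wr Q ⊕ Wr Q
  | Sum.inl x => if (B x.1 x).1 = x.1 then Sum.inr (B x.1 x) else Sum.inl (B x.1 x)
  | Sum.inr x => if (B (!x.1) x).1 = x.1 then Sum.inl (B (!x.1) x) else Sum.inr (B (!x.1) x)

omit [Fintype Q] [DecidableEq Q] in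
theorem sg_inj (B : Bool → Equiv.Perm (Wr Q)) : Function.Injective (sg B) := by
  rintro (⟨_ | _, x⟩ | ⟨_ | _, x⟩) (⟨_ | _, y⟩ | ⟨_ | _, y⟩) h <;>
    simp only [sg, Bool.not_true, Bool.not_false] at h <;> split_ifs at h with h1 h2 h2 <;>
    first
    | exact congrArg _ ((B _).injective (Sum.inl.inj h))
    | exact congrArg _ ((B _).injective (Sum.inr.inj h))
    | exact absurd ((B _).injective (Sum.inl.inj h)) (by simp)
    | exact absurd ((B _).injective (Sum.inr.inj h)) (by simp)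
    | (have := congrArg Prod.fst (Sum.inl.inj h); simp_all)
    | (have := congrArg Prod.fst (Sum.inr.inj h); simp_all)

omit [DecidableEq Q] in
theorem sg_tr (L z R : Dg Q) (x : Wr Q) :
    Tr (Sum.map id z.p ∘ sg fun b => (bif b then L else R).p) (fun v => ∃ x, Sum.inl x = v)
      (Sum.inl x) (Sum.inl ((L * z * R).p x)) := by
  set B : Bool → Equiv.Perm (Wr Q) := fun b => (bif b then L else R).p with hB
  have hi : Function.Injective (Sum.map id z.p ∘ sg B) :=
    (Function.injective_id.sumMap z.p.injective).comp (sg_inj B)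
  obtain ⟨_, ⟨y, rfl⟩, h⟩ := Tr.total (U := fun v => ∃ x, Sum.inl x = v) hi ⟨x, rfl⟩
  let I : Wr Q → Prop := Ez id [] [B x.1, z.p, B (!x.1)] x
  have two : ∀ (b : Bool) (t o : Wr Q), t.1 = b →
      Ez id [z.p, B (z.p t).1] [B (!(z.p t).1)] (z.p t) o → Ez id [B b] [z.p, B (!b)] t o := by
    intro b t o ht ho
    refine Ez.cons ?_
    simp only [id]
    split_ifs with hd
    · rwa [hd, ht] at ho
    · have : (z.p t).1 = !b := by rw [← ht]; revert hd; cases (z.p t).1 <;> cases t.1 <;> simp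
      rwa [this, Bool.not_not] at ho
  have key : ∀ w, Tr (Sum.map id z.p ∘ sg B) (fun v => ∃ x, Sum.inl x = v) (Sum.inl x) w →
      (∀ t, w = Sum.inl t → I t) ∧
      ∀ t, w = Sum.inr t → ∀ o, Ez id [z.p, B t.1] [B (!t.1)] t o → I o := by
    intro w h
    induction h with
    | one =>
      simp only [Function.comp, sg]
      split_ifs with hd
      · refine ⟨fun t ht => (by cases ht), fun t ht o ho => Ez.cons ?_⟩
        cases ht
        simp only [id]
        rw [if_pos hd]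
        exact two _ _ _ hd ho
      · refine ⟨fun t ht => Ez.cons ?_, fun t ht => by cases ht⟩
        cases ht
        simp only [id]
        rw [if_neg hd]
        exact Ez.nil _ _ _
    | @more w _ hb ih =>
      obtain s | s := w
      · exact absurd ⟨s, rfl⟩ hb
      have ih := ih.2 s rfl
      simp only [Function.comp, sg]
      split_ifs with hd
      · refine ⟨fun t ht => ih _ (Ez.cons ?_), fun t ht => by cases ht⟩
        cases ht
        simp only [id]
        rw [if_pos hd]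
        exact Ez.nil _ _ _
      · refine ⟨fun t ht => (by cases ht), fun t ht o ho => ih _ (Ez.cons ?_)⟩
        cases ht
        simp only [id]
        rw [if_neg hd]
        have := two (!s.1) (B (!s.1) s) o
          (by revert hd; cases (B (!s.1) s).1 <;> cases s.1 <;> simp) ho
        rwa [Bool.not_not] at this
  have h1 : (L * z * R).p x = y := by
    have : L * z * R = [L, z, R].prod := by simp [mul_assoc]
    rw [this, prod_p]
    refine ev_of_ez ?_
    have := (key _ h).1 y rfl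
    obtain ⟨_ | _, q⟩ := x <;> exact this
  rwa [h1]

omit [Fintype Q] [DecidableEq Q] in
theorem sg_cut {L R : Dg Q} {y y' : Wr Q} (h : TransGen (Cut L R) y y') :
    Tr (sg fun b => (bif b then L else R).p) (fun v => ∃ x, Sum.inl x = v) (Sum.inr y)
      (Sum.inr y') := by
  have one : ∀ {a b : Wr Q}, Cut L R a b →
      sg (fun b => (bif b then L else R).p) (Sum.inr a) = Sum.inr b := by
    rintro ⟨_ | _, a⟩ b ⟨rfl, h2⟩ <;> exact if_neg h2
  induction h with
  | single h => exact one h ▸ Tr.one _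
  | tail _ h ih => exact one h ▸ Tr.more ih (by simp only [reduceCtorEq, exists_false, not_false_eq_true])

/-- inserting a critical letter: almost all of its wires are alone on their strand -/
theorem Core.t1 (h : Core Z D c K δ) (u v : List E) (e : E) (h1 : Ok (u ++ e :: v))
    (h2 : ¬ On (u ++ v)) (h3 : On (u ++ e :: v)) :
    K ≤ (Z e).p.support.card ∧ ∃ Bad : Finset (Wr Q), Bad.card ≤ 2 * δ ∧
      ∀ y ∈ (Z e).p.support, ∀ y' ∈ (Z e).p.support,
        TransGen (Cut (D * (u.map Z).prod) ((v.map Z).prod * D)) y y' → y ∈ Bad ∧ y' ∈ Bad := by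
  set L := D * (u.map Z).prod with hL
  set R := (v.map Z).prod * D with hR
  have h1' : Ok (u ++ v) := fun f hf => h1 f (by
    rcases List.mem_append.1 hf with hf | hf
    · exact List.mem_append_left _ hf
    · exact List.mem_append_right _ (List.mem_cons_of_mem _ hf))
  have e0 : wd Z D (u ++ v) = (L * 1 * R).p := by simp [wd, hL, hR, mul_assoc]
  have e1 : wd Z D (u ++ e :: v) = (L * Z e * R).p := by simp [wd, hL, hR, mul_assoc]
  set P : Finset (Wr Q ⊕ Wr Q) := (Z e).p.support.image Sum.inr with hPd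
  have hP : ∀ x, Sum.inl x ∉ P := by simp only [hPd, mem_image, Equiv.Perm.mem_support, ne_eq, reduceCtorEq, and_false, exists_false, not_false_eq_true, implies_true]
  have hc : P.card = (Z e).p.support.card := card_image_of_injective _ Sum.inr_injective
  have hs := h.supp e
  obtain ⟨⟨Bad, hB, hB2, hB3⟩, hM⟩ := cmp (sg_inj fun b => (bif b then L else R).p)
    Sum.inl_injective hP (π := Sum.map id (Z e).p) (W0 := wd Z D (u ++ v))
    (W1 := wd Z D (u ++ e :: v)) (by
      rintro (x | x) hx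
      · rfl
      · refine congrArg Sum.inr (by_contra fun hn => hx ?_)
        exact mem_image_of_mem _ (Equiv.Perm.mem_support.2 hn))
    (fun x => by
      have := sg_tr L 1 R x
      rw [one_p, Equiv.Perm.coe_one, Sum.map_id_id, Function.id_comp] at this
      rwa [e0])
    (fun x => e1 ▸ sg_tr L (Z e) R x) (·.1) (h.doom _ _ h1' h1 h2 h3)
  refine ⟨by simpa [hc] using hM ∅ (empty_subset _) (by simp only [notMem_empty, Prod.exists, Bool.exists_bool, exists_and_left, exists_and_right, exists_eq_right, false_and, imp_self, implies_true]),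
    Bad.preimage Sum.inr Sum.inr_injective.injOn, ?_, fun y hy y' hy' ht => ?_⟩
  · have := card_le_card_of_injOn (s := Bad.preimage Sum.inr Sum.inr_injective.injOn) (t := Bad)
      Sum.inr (fun a ha => mem_preimage.1 ha) Sum.inr_injective.injOn
    omega
  · have a1 : Sum.inr y ∈ P := mem_image_of_mem _ hy
    have a2 : Sum.inr y' ∈ P := mem_image_of_mem _ hy'
    obtain ⟨b1, b2⟩ := Tr.bad (sg_inj _) hP a1 a2 (sg_cut ht)
    exact ⟨mem_preimage.2 (by_contra fun hn => b1 (hB3 _ a1 hn).2),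
      mem_preimage.2 (by_contra fun hn => b2 (hB3 _ a2 hn).1)⟩

end Pool.Agent.MP_47ff19_lc.SS

end

-- part MP_47ff19_lc.H43S.Bad
section

namespace Pool.Agent.MP_47ff19_lc.SS

open Finset Relation

variable {Q : Type} [Fintype Q] [DecidableEq Q] {Z : E → Dg Q} {D : Dg Q} {c : Wr Q → Bool}
  {K δ : ℕ}

omit [DecidableEq Q] in
theorem Tn.mul_left {a : Dg Q} (b : Dg Q) {x y : Wr Q} (hx : x.1 = true) (h : Tn a x y) :
    Tn (a * b) x y := by
  obtain ⟨rfl, h2⟩ := h
  refine ⟨?_, h2⟩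
  have := mul_turn a b x (by rwa [show (bif x.1 then a else b) = a by rw [hx]; rfl])
  rwa [show (bif x.1 then a else b) = a by rw [hx]; rfl] at this

omit [DecidableEq Q] in
theorem Tn.mul_right (a : Dg Q) {b : Dg Q} {x y : Wr Q} (hx : x.1 = false) (h : Tn b x y) :
    Tn (a * b) x y := by
  obtain ⟨rfl, h2⟩ := h
  refine ⟨?_, h2⟩
  have := mul_turn a b x (by rwa [show (bif x.1 then a else b) = b by rw [hx]; rfl])
  rwa [show (bif x.1 then a else b) = b by rw [hx]; rfl] at this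

omit [DecidableEq Q] in
/-- a turning step of the far box whose two wires cross the near box straight -/
theorem Tn.skip {a b : Dg Q} {x y : Wr Q} (h : Tn (bif x.1 then b else a) x y)
    (hx : (bif x.1 then a else b).p x = x) (hy : (bif x.1 then a else b).p y = y) :
    Tn (a * b) x y := by
  obtain ⟨h1, h2⟩ := h
  refine ⟨mul_mid (by rw [hx]) ?_, h2⟩
  rw [hx]
  refine Mid.turn (by rwa [h1]) ?_
  rw [h1]
  have e : (bif y.1 then b else a) = (bif x.1 then a else b) := by
    revert h2; cases x.1 <;> cases y.1 <;> simp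
  have := Mid.out (a := a) (b := b) (x := y) (by rw [e, hy])
  rwa [e, hy] at this

theorem Tn.supp {z : Dg Q} {x y : Wr Q} (h : Tn z x y) : x ∈ z.p.support ∧ y ∈ z.p.support := by
  obtain ⟨rfl, h2⟩ := h
  have : x ∈ z.p.support := Equiv.Perm.mem_support.2 fun h => h2 (by rw [h])
  exact ⟨this, Equiv.Perm.apply_mem_support.2 this⟩

theorem exists_cover {ι α : Type} [DecidableEq α] (s : Finset ι) (m : ℕ) (P : ι → Finset α → Prop)
    (h : ∀ a ∈ s, ∃ B : Finset α, B.card ≤ m ∧ P a B) :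
    ∃ Y : Finset α, Y.card ≤ s.card * m ∧ ∀ a ∈ s, ∃ B ⊆ Y, P a B := by
  classical
  choose! B hB using h
  refine ⟨s.biUnion B, card_biUnion_le_card_mul _ _ _ fun a ha => (hB a ha).1, fun a ha => ?_⟩
  exact ⟨B a, subset_biUnion_of_mem B ha, (hB a ha).2⟩

theorem Core.bad1 (h : Core Z D c K δ) {i j k : Fin 5} (hi : i ≠ j) (hk : k ≠ j) :
    K ≤ (Z (lt j)).p.support.card ∧ ∃ B : Finset (Wr Q), B.card ≤ 2 * δ ∧
      ∀ y ∈ (Z (lt j)).p.support, ∀ y' ∈ (Z (lt j)).p.support,
        TransGen (Cut (Z (lt i)) (Z (lt k))) y y' → y ∈ B ∧ y' ∈ B := by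
  obtain ⟨h0, B, hB, h1⟩ := h.t1 [(0, (lt j).1), lt i] [lt k, ((lt j).2, 1)] (lt j)
    (by revert i j k; decide) (by revert i j k; decide) (by revert i j k; decide)
  refine ⟨h0, B, hB, fun y hy y' hy' ht => h1 y hy y' hy' (TransGen.mono ?_ _ _ ht)⟩
  rintro ⟨_ | _, x⟩ x' hx
  · have := Tn.mul_right (D * Z (0, (lt j).1)) rfl hx
    simpa [Cut, mul_assoc] using this
  · have := Tn.mul_left (Z ((lt j).2, 1) * D) rfl hx
    simpa [Cut, mul_assoc] using this

theorem Core.bad2 (h : Core Z D c K δ) {i j : Fin 5} (hi : i < 3) (hj : 3 ≤ j) :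
    ∃ B : Finset (Wr Q), B.card ≤ 2 * δ ∧ ∀ y y', Tn (Z (lt i)) y y' → y.1 = true →
      y ∉ (Z (lt j)).p.support → y' ∉ (Z (lt j)).p.support → y ∈ B ∧ y' ∈ B := by
  obtain ⟨-, B, hB, h1⟩ := h.t1 [(0, (lt i).1)] [lt j, lt i, ((lt j).2, 1)] (lt i)
    (by revert i j; decide) (by revert i j; decide) (by revert i j; decide)
  refine ⟨B, hB, ?_⟩
  rintro ⟨_, x⟩ y' ht rfl hy hy'
  refine h1 _ ht.supp.1 _ ht.supp.2 (TransGen.single ?_)
  have h2 : Tn (Z (lt j) * Z (lt i)) (true, x) y' :=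
    Tn.skip ht (Equiv.Perm.notMem_support.1 hy) (Equiv.Perm.notMem_support.1 hy')
  have := Tn.mul_left (Z ((lt j).2, 1) * D) rfl h2
  simpa [Cut, mul_assoc] using this

theorem Core.bad3 (h : Core Z D c K δ) {i j : Fin 5} (hi : i < 3) (hj : 3 ≤ j) :
    ∃ B : Finset (Wr Q), B.card ≤ 2 * δ ∧ ∀ y y', Tn (Z (lt j)) y y' → y.1 = false →
      y ∉ (Z (lt i)).p.support → y' ∉ (Z (lt i)).p.support → y ∈ B ∧ y' ∈ B := by
  obtain ⟨-, B, hB, h1⟩ := h.t1 [(0, (lt i).1), lt j, lt i] [((lt j).2, 1)] (lt j)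
    (by revert i j; decide) (by revert i j; decide) (by revert i j; decide)
  refine ⟨B, hB, ?_⟩
  rintro ⟨_, x⟩ y' ht rfl hy hy'
  refine h1 _ ht.supp.1 _ ht.supp.2 (TransGen.single ?_)
  have h2 : Tn (Z (lt j) * Z (lt i)) (false, x) y' :=
    Tn.skip ht (Equiv.Perm.notMem_support.1 hy) (Equiv.Perm.notMem_support.1 hy')
  have := Tn.mul_right (D * Z (0, (lt i).1)) rfl h2
  simpa [Cut, mul_assoc] using this

/-- the exceptional wires of all the insertions that are used -/
theorem Core.bad (h : Core Z D c K δ) : K ≤ (Z (lt 3)).p.support.card ∧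
    ∃ Y : Finset (Wr Q), Y.card ≤ 300 * δ ∧
    (∀ i j k, i ≠ j → k ≠ j → ∀ y ∈ (Z (lt j)).p.support, ∀ y' ∈ (Z (lt j)).p.support,
      TransGen (Cut (Z (lt i)) (Z (lt k))) y y' → y ∈ Y ∧ y' ∈ Y) ∧
    (∀ i j : Fin 5, i < 3 → 3 ≤ j → ∀ y y', Tn (Z (lt i)) y y' → y.1 = true →
      y ∉ (Z (lt j)).p.support → y' ∉ (Z (lt j)).p.support → y ∈ Y ∧ y' ∈ Y) ∧
    (∀ i j : Fin 5, i < 3 → 3 ≤ j → ∀ y y', Tn (Z (lt j)) y y' → y.1 = false →
      y ∉ (Z (lt i)).p.support → y' ∉ (Z (lt i)).p.support → y ∈ Y ∧ y' ∈ Y) := by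
  refine ⟨(h.bad1 (i := 0) (k := 0) (by decide) (by decide)).1, ?_⟩
  obtain ⟨Y1, c1, h1⟩ := exists_cover
    (univ.filter fun a : Fin 5 × Fin 5 × Fin 5 => a.1 ≠ a.2.1 ∧ a.2.2 ≠ a.2.1) (2 * δ) _
    fun a ha => (h.bad1 (mem_filter.1 ha).2.1 (mem_filter.1 ha).2.2).2
  obtain ⟨Y2, c2, h2⟩ := exists_cover
    (univ.filter fun a : Fin 5 × Fin 5 => a.1 < 3 ∧ 3 ≤ a.2) (2 * δ) _
    fun a ha => h.bad2 (mem_filter.1 ha).2.1 (mem_filter.1 ha).2.2
  obtain ⟨Y3, c3, h3⟩ := exists_cover
    (univ.filter fun a : Fin 5 × Fin 5 => a.1 < 3 ∧ 3 ≤ a.2) (2 * δ) _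
    fun a ha => h.bad3 (mem_filter.1 ha).2.1 (mem_filter.1 ha).2.2
  have e1 : (univ.filter fun a : Fin 5 × Fin 5 × Fin 5 => a.1 ≠ a.2.1 ∧ a.2.2 ≠ a.2.1).card = 80 := by
    decide
  have e2 : (univ.filter fun a : Fin 5 × Fin 5 => a.1 < 3 ∧ 3 ≤ a.2).card = 6 := by decide
  rw [e1] at c1
  rw [e2] at c2 c3
  refine ⟨Y1 ∪ Y2 ∪ Y3, ?_, fun i j k hi hk y hy y' hy' ht => ?_,
    fun i j hi hj y y' ht hd hy hy' => ?_, fun i j hi hj y y' ht hd hy hy' => ?_⟩
  · have a1 := card_union_le (Y1 ∪ Y2) Y3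
    have a2 := card_union_le Y1 Y2
    omega
  · obtain ⟨B, hB, hP⟩ := h1 (i, j, k) (mem_filter.2 ⟨mem_univ _, hi, hk⟩)
    obtain ⟨b1, b2⟩ := hP y hy y' hy' ht
    exact ⟨mem_union_left _ (mem_union_left _ (hB b1)), mem_union_left _ (mem_union_left _ (hB b2))⟩
  · obtain ⟨B, hB, hP⟩ := h2 (i, j) (mem_filter.2 ⟨mem_univ _, hi, hj⟩)
    obtain ⟨b1, b2⟩ := hP y y' ht hd hy hy'
    exact ⟨mem_union_left _ (mem_union_right _ (hB b1)),
      mem_union_left _ (mem_union_right _ (hB b2))⟩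
  · obtain ⟨B, hB, hP⟩ := h3 (i, j) (mem_filter.2 ⟨mem_univ _, hi, hj⟩)
    obtain ⟨b1, b2⟩ := hP y y' ht hd hy hy'
    exact ⟨mem_union_right _ (hB b1), mem_union_right _ (hB b2)⟩

end Pool.Agent.MP_47ff19_lc.SS

end

-- part MP_47ff19_lc.H43S.Step2
section

namespace Pool.Agent.MP_47ff19_lc.SS

open Finset Relation

variable {Q : Type} [Fintype Q] [DecidableEq Q] {Z : E → Dg Q} {D : Dg Q} {c : Wr Q → Bool}
  {K δ : ℕ}

/-- `y` and `t` are the two ends of a step of `z` that turns back, starting in direction `b` -/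
def Pr (b : Bool) (z : Dg Q) (y t : Wr Q) : Prop :=
  y.1 = b ∧ Tn z y t ∨ t.1 = b ∧ Tn z t y

omit [Fintype Q] [DecidableEq Q] in
theorem Pr.symm {b : Bool} {z : Dg Q} {y t : Wr Q} (h : Pr b z y t) : Pr b z t y := Or.symm h

theorem Pr.mem {b : Bool} {z : Dg Q} {y t : Wr Q} (h : Pr b z y t) : y ∈ z.p.support := by
  rcases h with ⟨-, h1, h2⟩ | ⟨-, h1, h2⟩
  · exact Equiv.Perm.mem_support.2 fun h => h2 (by rw [← h1, h])
  · rw [← h1, Equiv.Perm.apply_mem_support]
    exact Equiv.Perm.mem_support.2 fun h => h2 (by rw [← h1, h])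

omit [Fintype Q] [DecidableEq Q] in
theorem Pr.miss {b : Bool} {z : Dg Q} {y t : Wr Q} {S Y : Finset (Wr Q)} (h : Pr b z y t)
    (F : ∀ y y', Tn z y y' → y.1 = b → y ∉ S → y' ∉ S → y ∈ Y ∧ y' ∈ Y) (hy : y ∉ Y) :
    y ∈ S ∨ t ∈ S := by
  by_contra hn
  rw [not_or] at hn
  rcases h with ⟨h1, h2⟩ | ⟨h1, h2⟩
  · exact hy (F _ _ h2 h1 hn.1 hn.2).1
  · exact hy (F _ _ h2 h1 hn.2 hn.1).2

omit [Fintype Q] [DecidableEq Q] in
/-- a cup of the left box and a cap of the right box with a common end lie on one strand -/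
theorem Pr.chain {L R : Dg Q} {y t s : Wr Q} {S Y : Finset (Wr Q)} (h1 : Pr false L y t)
    (h2 : Pr true R y s)
    (C : ∀ y ∈ S, ∀ y' ∈ S, TransGen (Cut L R) y y' → y ∈ Y ∧ y' ∈ Y) :
    (t ∈ S → t ∉ Y → y ∉ S ∧ s ∉ S) ∧ (s ∈ S → s ∉ Y → y ∉ S ∧ t ∉ S) := by
  have cl : ∀ {x x'}, x.1 = false → Tn L x x' → Cut L R x x' := fun h h' => by
    unfold Cut; rwa [h]
  have cr : ∀ {x x'}, x.1 = true → Tn R x x' → Cut L R x x' := fun h h' => by
    unfold Cut; rwa [h]
  rcases h1 with ⟨a1, a2⟩ | ⟨a1, a2⟩ <;> rcases h2 with ⟨b1, b2⟩ | ⟨b1, b2⟩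
  · rw [a1] at b1; cases b1
  · have c1 := TransGen.single (cr b1 b2)
    have c2 := TransGen.single (cl a1 a2)
    exact ⟨fun h h' => ⟨fun k => h' (C _ k _ h c2).2, fun k => h' (C _ k _ h (c1.trans c2)).2⟩,
      fun h h' => ⟨fun k => h' (C _ h _ k c1).1, fun k => h' (C _ h _ k (c1.trans c2)).1⟩⟩
  · have c1 := TransGen.single (cl a1 a2)
    have c2 := TransGen.single (cr b1 b2)
    exact ⟨fun h h' => ⟨fun k => h' (C _ h _ k c1).1, fun k => h' (C _ h _ k (c1.trans c2)).1⟩,
      fun h h' => ⟨fun k => h' (C _ k _ h c2).2, fun k => h' (C _ k _ h (c1.trans c2)).2⟩⟩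
  · have := a2.2
    have := b2.2
    revert a1 b1
    generalize y.1 = u at *
    generalize t.1 = v at *
    generalize s.1 = w at *
    cases u <;> cases v <;> cases w <;> simp_all

/-- a wire of `S` that an idempotent moves is an end of a turning step of the given kind -/
theorem exists_pr {z : Dg Q} (hz : z * z = z) (b : Bool) {S Y : Finset (Wr Q)}
    (F : ∀ y y', Tn z y y' → y.1 = b → y ∉ S → y' ∉ S → y ∈ Y ∧ y' ∈ Y)
    (C : ∀ y ∈ S, ∀ y' ∈ S, TransGen (Tn z) y y' → y ∈ Y ∧ y' ∈ Y) {y : Wr Q}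
    (h1 : y ∈ z.p.support) (h2 : y ∈ S) (h3 : y ∉ Y) (h4 : z.p y ∉ Y) (h5 : z.p⁻¹ y ∉ Y) :
    ∃ t, Pr b z y t ∧ (t = z.p y ∨ t = z.p⁻¹ y) := by
  have hne : z.p y ≠ y := Equiv.Perm.mem_support.1 h1
  by_cases hb : y.1 = b
  · by_cases hs : (z.p y).1 = y.1
    · exfalso
      rcases (idem_rt hz hs).cases_head with h | ⟨w, hw, hr⟩
      · exact hne h
      have hw' : Pr b z (z.p y) w := Or.inl ⟨hs.trans hb, hw⟩
      rcases hw'.miss F h4 with k | k
      · exact h3 (C _ k _ h2 (TransGen.head' hw hr)).2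
      · rcases reflTransGen_iff_eq_or_transGen.1 hr with e | e
        · exact hw.2 (by rw [← e, hs])
        · exact h3 (C _ k _ h2 e).2
    · exact ⟨_, Or.inl ⟨hb, rfl, hs⟩, Or.inl rfl⟩
  · have e0 : z.p (z.p⁻¹ y) = y := by simp
    by_cases hs : y.1 = (z.p⁻¹ y).1
    · exfalso
      have hr := idem_rt hz (x := z.p⁻¹ y) (by rw [e0]; exact hs)
      rw [e0] at hr
      rcases hr.cases_tail with h | ⟨w, hr, hw⟩
      · exact hne (by rw [← h, e0, h])
      have hwb : w.1 = b := by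
        have := hw.2
        rw [← hs] at this
        revert this hb
        cases w.1 <;> cases y.1 <;> cases b <;> simp
      have hw' : Pr b z (z.p⁻¹ y) w := Or.inr ⟨hwb, hw⟩
      rcases hw'.miss F h5 with k | k
      · exact h3 (C _ h2 _ k (TransGen.tail' hr hw)).1
      · rcases reflTransGen_iff_eq_or_transGen.1 hr with e | e
        · exact hb (by rw [← e, hwb])
        · exact h3 (C _ h2 _ k e).1
    · refine ⟨_, Or.inr ⟨?_, e0, hs⟩, Or.inr rfl⟩
      revert hs hb
      cases (z.p⁻¹ y).1 <;> cases y.1 <;> cases b <;> simp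

omit [Fintype Q] in
/-- the wires that one step of a letter or of its inverse sends into `Y` -/
theorem exists_nbhd (g : Fin 5 → Equiv.Perm (Wr Q)) (Y : Finset (Wr Q)) :
    ∃ Y' : Finset (Wr Q), Y'.card ≤ 11 * Y.card ∧
      ∀ y ∉ Y', y ∉ Y ∧ ∀ i, g i y ∉ Y ∧ (g i)⁻¹ y ∉ Y := by
  refine ⟨Y ∪ univ.biUnion fun i => Y.image (g i) ∪ Y.image (g i).symm, ?_, fun y hy => ?_⟩
  · have : (univ.biUnion fun i => Y.image (g i) ∪ Y.image (g i).symm).card ≤
        (univ : Finset (Fin 5)).card * (2 * Y.card) :=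
      card_biUnion_le_card_mul _ _ _ fun i _ => (card_union_le _ _).trans (by
        have h1 : (Y.image (g i)).card ≤ Y.card := card_image_le
        have h2 : (Y.image (g i).symm).card ≤ Y.card := card_image_le
        omega)
    have h2 := card_union_le Y (univ.biUnion fun i => Y.image (g i) ∪ Y.image (g i).symm)
    rw [card_univ, Fintype.card_fin] at this
    omega
  · simp only [mem_union, mem_biUnion, mem_univ, true_and, mem_image, not_or, not_exists,
      not_and] at hy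
    exact ⟨hy.1, fun i => ⟨fun h => (hy.2 i).2 _ h (by simp), fun h => (hy.2 i).1 _ h (by simp)⟩⟩

theorem Core.step2 (h : Core Z D c K δ) :
    K ≤ 3 * (univ.filter fun y => ∀ i, y ∈ (Z (lt i)).p.support).card + 2000000 * δ ∧
    ∀ i j, i ≠ j → 3 * ((Z (lt i)).p.support ∩ (Z (lt j)).p.support).card ≤ K + 1000 * δ := by
  obtain ⟨hK, Y, hY, Fc, Fa, Fb⟩ := h.bad
  have Fs : ∀ i j, i ≠ j → ∀ y ∈ (Z (lt j)).p.support, ∀ y' ∈ (Z (lt j)).p.support,
      TransGen (Tn (Z (lt i))) y y' → y ∈ Y ∧ y' ∈ Y := fun i j hij y hy y' hy' ht =>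
    Fc i j i hij hij y hy y' hy' (by
      rwa [show Cut (Z (lt i)) (Z (lt i)) = Tn (Z (lt i)) from
        funext₂ fun x x' => by rw [Cut, Bool.cond_self]])
  refine ⟨?_, fun i j hij => ?_⟩
  swap
  · have h1 := idem_three (h.idem (lt i)) (((Z (lt i)).p.support ∩ (Z (lt j)).p.support) \ Y)
      (sdiff_subset.trans inter_subset_left) fun y hy y' hy' ht =>
        (mem_sdiff.1 hy).2 (Fs i j hij y (mem_inter.1 (mem_sdiff.1 hy).1).2 y'
          (mem_inter.1 (mem_sdiff.1 hy').1).2 ht).1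
    have h2 := le_card_sdiff Y ((Z (lt i)).p.support ∩ (Z (lt j)).p.support)
    have h3 := h.supp (lt i)
    omega
  obtain ⟨Y1, c1, n1⟩ := exists_nbhd (fun i => (Z (lt i)).p) Y
  obtain ⟨Y2, c2, n2⟩ := exists_nbhd (fun i => (Z (lt i)).p) Y1
  obtain ⟨Y3, c3, n3⟩ := exists_nbhd (fun i => (Z (lt i)).p) Y2
  have cap : ∀ i j : Fin 5, i < 3 → 3 ≤ j → ∀ y ∈ (Z (lt i)).p.support, y ∈ (Z (lt j)).p.support →
      y ∉ Y1 → ∃ t, Pr true (Z (lt i)) y t ∧ (t = (Z (lt i)).p y ∨ t = (Z (lt i)).p⁻¹ y) :=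
    fun i j hi hj y a1 a2 a3 => exists_pr (h.idem _) true (Fa i j hi hj)
      (Fs i j (hi.trans_le hj).ne) a1 a2 (n1 y a3).1 ((n1 y a3).2 i).1 ((n1 y a3).2 i).2
  have cup : ∀ i j : Fin 5, i < 3 → 3 ≤ j → ∀ y ∈ (Z (lt i)).p.support, y ∈ (Z (lt j)).p.support →
      y ∉ Y1 → ∃ t, Pr false (Z (lt j)) y t ∧ (t = (Z (lt j)).p y ∨ t = (Z (lt j)).p⁻¹ y) :=
    fun i j hi hj y a1 a2 a3 => exists_pr (h.idem _) false (Fb i j hi hj)
      (Fs j i (hi.trans_le hj).ne') a2 a1 (n1 y a3).1 ((n1 y a3).2 j).1 ((n1 y a3).2 j).2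
  have key : ∀ y t, Pr false (Z (lt 3)) y t → y ∉ Y2 → t ∉ Y2 → ∀ i i' : Fin 5, i < 3 → i' < 3 →
      i ≠ i' → y ∈ (Z (lt i)).p.support → y ∈ (Z (lt i')).p.support →
      ∀ k, y ∈ (Z (lt k)).p.support := by
    intro y t hp hy ht i i' hi hi' hii a1 a2
    have hyY : y ∉ Y := (n1 y (n2 y hy).1).1
    have htY : t ∉ Y := (n1 t (n2 t ht).1).1
    have h4 : y ∈ (Z (lt 4)).p.support := by
      by_contra h4
      obtain ⟨s, hs, hs'⟩ := cap i 3 hi le_rfl y a1 hp.mem (n2 y hy).1
      have s1 : s ∉ Y1 := by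
        rcases hs' with rfl | rfl
        exacts [((n2 y hy).2 i).1, ((n2 y hy).2 i).2]
      have s4 := (hs.miss (Fa i 4 hi (by decide)) hyY).resolve_left h4
      obtain ⟨u, hu, -⟩ := cup i 4 hi (by decide) s hs.symm.mem s4 s1
      have := (hu.chain hs.symm (Fc 4 i' i (hi'.trans (by decide)).ne' hii)).2 a2 hyY
      exact (hu.miss (Fb i' 4 hi' (by decide)) (n1 s s1).1).elim this.1 this.2
    intro k
    by_cases hk : k < 3
    · by_contra hn
      have t1 := (hp.miss (Fb k 3 hk le_rfl) hyY).resolve_left hn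
      obtain ⟨s, hs, -⟩ := cap k 3 hk le_rfl t t1 hp.symm.mem (n2 t ht).1
      have := (hp.symm.chain hs (Fc 3 4 k (by decide) (hk.trans (by decide)).ne)).1 h4 hyY
      exact (hs.miss (Fa k 4 hk (by decide)) htY).elim this.1 this.2
    · obtain rfl | rfl : k = 3 ∨ k = 4 := by revert hk k; decide
      exacts [hp.mem, h4]
  have sub : (univ.filter fun y : Wr Q => y.1 = false ∧ ((Z (lt 3)).p y).1 = true) \ Y3 ⊆
      (univ.filter fun y => ∀ i, y ∈ (Z (lt i)).p.support).image
        fun y => bif y.1 then (Z (lt 3)).p⁻¹ y else y := by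
    intro y hy
    obtain ⟨hy, hy3⟩ := mem_sdiff.1 hy
    obtain ⟨b1, b2⟩ := (mem_filter.1 hy).2
    have hp : Pr false (Z (lt 3)) y ((Z (lt 3)).p y) := Or.inl ⟨b1, rfl, by rw [b1, b2]; decide⟩
    have y2 := (n3 y hy3).1
    have t2 := ((n3 y hy3).2 3).1
    have m := fun i hi => hp.miss (Fb i 3 hi le_rfl) (n1 y (n2 y y2).1).1
    have k1 := key _ _ hp y2 t2
    have k2 := key _ _ hp.symm t2 y2
    have : (∀ k, y ∈ (Z (lt k)).p.support) ∨ ∀ k, (Z (lt 3)).p y ∈ (Z (lt k)).p.support := by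
      rcases m 0 (by decide) with m0 | m0 <;> rcases m 1 (by decide) with m1 | m1 <;>
        rcases m 2 (by decide) with m2 | m2
      exacts [.inl (k1 0 1 (by decide) (by decide) (by decide) m0 m1),
        .inl (k1 0 1 (by decide) (by decide) (by decide) m0 m1),
        .inl (k1 0 2 (by decide) (by decide) (by decide) m0 m2),
        .inr (k2 1 2 (by decide) (by decide) (by decide) m1 m2),
        .inl (k1 1 2 (by decide) (by decide) (by decide) m1 m2),
        .inr (k2 0 2 (by decide) (by decide) (by decide) m0 m2),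
        .inr (k2 0 1 (by decide) (by decide) (by decide) m0 m1),
        .inr (k2 0 1 (by decide) (by decide) (by decide) m0 m1)]
    rcases this with a | a
    · exact mem_image.2 ⟨y, mem_filter.2 ⟨mem_univ _, a⟩, by rw [b1]; rfl⟩
    · exact mem_image.2 ⟨_, mem_filter.2 ⟨mem_univ _, a⟩, by rw [b2]; simp⟩
  have d1 := (card_le_card sub).trans card_image_le
  have d2 := le_card_sdiff Y3
    (univ.filter fun y : Wr Q => y.1 = false ∧ ((Z (lt 3)).p y).1 = true)
  have d3 := idem_cup (h.idem (lt 3))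
  omega

end Pool.Agent.MP_47ff19_lc.SS

end

-- part MP_47ff19_lc.H43S.Step3
section

/-! Re-plugging the common wires of four letters. -/

namespace Pool.Agent.MP_47ff19_lc.SS

open Finset Function Equiv

theorem Tr.union {V : Type} {σ : V → V} {U U' U'' : V → Prop} {a b : V} (h : Tr σ U a b)
    (h' : Tr σ U' a b) (hb : U b) (hb' : U' b) (hU : ∀ v, U'' v → U v ∨ U' v) : Tr σ U'' a b := by
  obtain ⟨n, h0, h1⟩ := tr_iff.1 h
  obtain ⟨m, h0', h2⟩ := tr_iff.1 h'
  rcases lt_trichotomy n m with h | rfl | h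
  · exact absurd (h0 ▸ hb') (h2 n h)
  · exact tr_iff.2 ⟨n, h0, fun k hk hv => (hU _ hv).elim (h1 k hk) (h2 k hk)⟩
  · exact absurd (h0' ▸ hb) (h1 m h)

def rt' (m : List (Fin 6)) (d : Bool) (s : Fin 6 → Bool) : Perm (Option (Fin 6)) :=
  (none :: ((bif d then 0 :: m ++ [5] else (0 :: m ++ [5]).reverse).filter s).map some).formPerm

/-- at most one letter acts -/
def Few (s : Fin 6 → Bool) : Prop :=
  ∀ i j : Fin 6, s i → s j → i = j ∨ i = 0 ∨ i = 5 ∨ j = 0 ∨ j = 5

instance (s : Fin 6 → Bool) : Decidable (Few s) := by unfold Few; infer_instance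

/-- the orders `m` and `m'` differ only at the points of `T` -/
def Cd (m m' : List (Fin 6)) (T : Bool → Finset (Option (Fin 6))) : Prop :=
  ∀ d s1 s2 s3 s4 : Bool, ∀ z : Option (Fin 6), let s := ![true, s1, s2, s3, s4, true]
    (rt' m d s z = none ∨ Few s ∨ ((∀ i, s i) ∧ rt' m d s z ∉ T d)) → rt' m' d s z = rt' m d s z

instance (m m' : List (Fin 6)) (T : Bool → Finset (Option (Fin 6))) : Decidable (Cd m m' T) := by
  unfold Cd; infer_instance

variable {Q : Type} [Fintype Q] [DecidableEq Q] {Z : E → Dg Q} {D : Dg Q} {c : Wr Q → Bool}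
  {K δ : ℕ}

def wrd (m : List (Fin 6)) : List E :=
  (0, 3) :: (0, 4) :: m.map ![(0, 0), lt 3, lt 4, lt 0, lt 1, (0, 0)] ++ [(6, 1), (7, 1)]

variable (Z D)

noncomputable def bx : Fin 6 → Dg Q :=
  ![D * Z (0, 3) * Z (0, 4), Z (lt 3), Z (lt 4), Z (lt 0), Z (lt 1), Z (6, 1) * Z (7, 1) * D]

noncomputable def ac (z : Fin 6) (y : Wr Q) : Bool := z = 0 ∨ z = 5 ∨ y ∈ (bx Z D z).p.support

noncomputable def sgm (m : List (Fin 6)) : Option (Fin 6) × Wr Q → Option (Fin 6) × Wr Q :=
  cs (fun z => (bx Z D z).p) (0 :: m ++ [5]) (ac Z D)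

noncomputable def pl (m m' : List (Fin 6)) (v : Option (Fin 6) × Wr Q) : Option (Fin 6) × Wr Q :=
  (rt' m' v.2.1 (ac Z D · v.2) ((rt' m v.2.1 (ac Z D · v.2))⁻¹ v.1), v.2)

noncomputable def PT (T : Bool → Finset (Option (Fin 6))) : Finset (Option (Fin 6) × Wr Q) :=
  univ.filter fun v => v.1 ≠ none ∧ ¬ Few (ac Z D · v.2) ∧ ((∀ i, ac Z D i v.2) → v.1 ∈ T v.2.1)

noncomputable def Om : Finset (Wr Q) := univ.filter fun y => ∀ i, ac Z D i y

noncomputable def Xx : Finset (Wr Q) := univ.filter fun y => ¬ Few (ac Z D · y) ∧ ¬ ∀ i, ac Z D i y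

variable {Z D} {m m' : List (Fin 6)} {T : Bool → Finset (Option (Fin 6))}

theorem tr_wd (hm : (0 :: m ++ [5]).Nodup) (x : Wr Q) : Tr (sgm Z D m) (fun v => ∃ x, (none, x) = v)
    (none, x) (none, wd Z D (wrd m) x) := by
  have h := tr_prod (g := bx Z D) hm (act := ac Z D) (fun z y h => by
    simp only [ac, decide_eq_false_iff_not, not_or, Perm.mem_support, not_not] at h
    exact h.2.2) x
  have e : m.map (bx Z D) = (m.map ![(0, 0), lt 3, lt 4, lt 0, lt 1, (0, 0)]).map Z := by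
    rw [List.map_map]
    refine List.map_congr_left fun z hz => ?_
    have h0 : z ≠ 0 := by rintro rfl; simp [hz] at hm
    have h5 : z ≠ 5 := by rintro rfl; simp only [Fin.isValue, List.cons_append, List.nodup_cons, List.mem_append, List.mem_cons, Fin.reduceEq, List.not_mem_nil, or_self, or_false, List.nodup_append, not_false_eq_true, List.nodup_nil, and_self, ne_eq, forall_eq, true_and] at hm; exact hm.2.2 _ hz rfl
    fin_cases z <;> first | rfl | contradiction
  have : ((0 :: m ++ [5]).map (bx Z D)).prod = D * ((wrd m).map Z).prod * D := by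
    simp only [wrd, List.map_cons, List.map_append, List.prod_cons, List.prod_append, e,
      List.map_nil, List.prod_nil, mul_one, mul_assoc]
    simp [bx, mul_assoc]
  rw [this] at h
  exact h

theorem pl_sg : pl Z D m m' ∘ sgm Z D m = sgm Z D m' := by
  funext v
  exact Prod.ext (congrArg (rt' m' _ _) ((rt' m _ _).symm_apply_apply _)) rfl

theorem pl_fix (h : Cd m m' T) (v : Option (Fin 6) × Wr Q) (hv : v ∉ PT Z D T) :
    pl Z D m m' v = v := by
  have e : (ac Z D · v.2) = ![true, ac Z D 1 v.2, ac Z D 2 v.2, ac Z D 3 v.2, ac Z D 4 v.2, true] := by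
    funext i; fin_cases i <;> simp [ac]
  have := h v.2.1 (ac Z D 1 v.2) (ac Z D 2 v.2) (ac Z D 3 v.2) (ac Z D 4 v.2)
    ((rt' m v.2.1 (ac Z D · v.2))⁻¹ v.1)
  simp only [← e, Perm.coe_inv, apply_symm_apply] at this
  refine Prod.ext (this ?_) rfl
  simp only [PT, mem_filter, mem_univ, true_and] at hv
  tauto

theorem pl_all {w : Wr Q} (hw : w ∈ Om Z D) (z : Option (Fin 6)) : pl Z D m m' (z, w) =
    (rt' m' w.1 (fun _ => true) ((rt' m w.1 fun _ => true)⁻¹ z), w) := by
  rw [pl, show (ac Z D · w) = fun _ => true from funext (mem_filter.1 hw).2]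

theorem mem_PT {w : Wr Q} (hw : w ∈ Om Z D) {z : Option (Fin 6)} (hT : none ∉ T w.1) :
    (z, w) ∈ PT Z D T ↔ z ∈ T w.1 := by
  have h := (mem_filter.1 hw).2
  simp only [PT, mem_filter, mem_univ, true_and, show (ac Z D · w) = fun _ => true from funext h]
  exact ⟨fun h' => h'.2.2 h, fun h' => ⟨fun e => hT (e ▸ h'), by decide, fun _ => h'⟩⟩

theorem port_PT (x : Wr Q) : (none, x) ∉ PT Z D T := fun h => (mem_filter.1 h).2.1 rfl

theorem card_PT (hT : ∀ d, (T d).card ≤ 3) :
    (PT Z D T).card ≤ 3 * (Om Z D).card + 7 * (Xx Z D).card := by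
  have : PT Z D T ⊆ (Om Z D).biUnion (fun y => (T y.1).image (·, y)) ∪ univ ×ˢ Xx Z D := by
    intro v hv
    obtain ⟨-, h1, h2⟩ := (mem_filter.1 hv).2
    by_cases h : ∀ i, ac Z D i v.2
    · exact mem_union_left _ (mem_biUnion.2 ⟨v.2, mem_filter.2 ⟨mem_univ _, h⟩,
        mem_image.2 ⟨_, h2 h, rfl⟩⟩)
    · exact mem_union_right _ (mem_product.2 ⟨mem_univ _, mem_filter.2 ⟨mem_univ _, h1, h⟩⟩)
  refine (card_le_card this).trans ((card_union_le _ _).trans (add_le_add ?_ (by simp)))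
  rw [mul_comm]
  exact card_biUnion_le_card_mul _ _ _ fun y _ => card_image_le.trans (hT _)

/-- an OFF order, an ON order, and the points where they differ -/
def Prr (m m' : List (Fin 6)) (T : Bool → Finset (Option (Fin 6))) : Prop :=
  (0 :: m ++ [5]).Nodup ∧ (0 :: m' ++ [5]).Nodup ∧ Ok (wrd m) ∧ Ok (wrd m') ∧ ¬ On (wrd m) ∧
    On (wrd m') ∧ Cd m m' T ∧ ∀ d, none ∉ T d ∧ (T d).card ≤ 3

instance (m m' : List (Fin 6)) (T : Bool → Finset (Option (Fin 6))) : Decidable (Prr m m' T) := by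
  unfold Prr; infer_instance

variable (Z D) in
/-- a piece of a strand without marked points -/
abbrev Pc (m : List (Fin 6)) (T : Bool → Finset (Option (Fin 6))) :=
  Tr (sgm Z D m) (Mk (fun x => (none, x)) (PT Z D T))

theorem Core.cmp (h : Core Z D c K δ) (hp : Prr m m' T) :
    (∃ Bad ⊆ PT Z D T, Bad.card + 2 * K ≤ 2 * (PT Z D T).card ∧ ∀ v ∈ PT Z D T, v ∉ Bad →
      (∃ x, Pc Z D m T (none, x) v) ∧ ∃ y, Pc Z D m T v (none, y)) ∧
    ∀ Mo ⊆ PT Z D T, (∀ v ∈ Mo, pl Z D m m' v ∈ Mo ∧ (∃ y, Pc Z D m T v (none, y)) ∧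
      ∃ x x', Pc Z D m T (none, x) v ∧ Pc Z D m T (none, x') (pl Z D m m' v) ∧ x'.1 = x.1) →
      K + Mo.card ≤ (PT Z D T).card := by
  obtain ⟨n0, n1, o0, o1, off, onn, hC, -⟩ := hp
  exact SS.cmp (cs_inj _ _ _) (fun x y h => (Prod.ext_iff.1 h).2) (fun x => port_PT x) (pl_fix hC)
    (tr_wd n0) (pl_sg (Z := Z) (D := D) (m := m) (m' := m') ▸ tr_wd n1) Prod.fst
    (h.doom _ _ o0 o1 off onn)

theorem Core.good (h : Core Z D c K δ) (hp : Prr m m' T) : ∃ BW : Finset (Wr Q),
    BW.card + 2 * K ≤ 6 * (Om Z D).card + 14 * (Xx Z D).card ∧ ∀ w ∈ Om Z D, w ∉ BW →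
      ∀ z ∈ T w.1, (∃ x, Pc Z D m T (none, x) (z, w)) ∧ ∃ y, Pc Z D m T (z, w) (none, y) := by
  obtain ⟨Bad, -, h1, h2⟩ := (h.cmp hp).1
  have hT := hp.2.2.2.2.2.2.2
  have := card_PT (Z := Z) (D := D) fun d => (hT d).2
  have := card_image_le (s := Bad) (f := Prod.snd)
  exact ⟨Bad.image Prod.snd, by omega, fun w hw hb z hz =>
    h2 _ ((mem_PT hw (hT _).1).2 hz) fun h => hb (mem_image.2 ⟨_, h, rfl⟩)⟩

theorem Core.col (h : Core Z D c K δ) (hp : Prr m m' T) {x o w : Wr Q} {z : Option (Fin 6)}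
    (hz : z ≠ none) (h1 : Pc Z D m T (none, x) (z, w)) (h2 : Pc Z D m T (z, w) (none, o)) :
    c o = x.1 := by
  have := ((h1.mono fun _ => Or.inl).trans (fun ⟨_, h⟩ => hz (Prod.ext_iff.1 h).1.symm)
    (h2.mono fun _ => Or.inl)).det (tr_wd hp.1 x) ⟨_, rfl⟩ ⟨_, rfl⟩
  rw [show o = _ from (Prod.ext_iff.1 this).2]
  exact h.unit _ hp.2.2.1 hp.2.2.2.2.1 x

/-- all points of a common wire, except the one next to the entry -/
def TA (d : Bool) : Finset (Option (Fin 6)) :=
  {some 1, some 2, some 3, some 4, bif d then some 5 else some 0}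

theorem Core.iso (h : Core Z D c K δ) {m'' m₀ : List (Fin 6)}
    {T' T₀ : Bool → Finset (Option (Fin 6))} (hp : Prr m m' T) (hp' : Prr m m'' T')
    (hC : Cd m m₀ TA) (u u' : Bool → Option (Fin 6))
    (hu : ∀ d, u d ∈ T d ∧ u d ∈ T' d ∧ TA d ⊆ T d ∪ T' d ∧ T₀ d ⊆ TA d ∧
      rt' m₀ d (fun _ => true) ((rt' m d fun _ => true)⁻¹ (u d)) = u' d) :
    ∃ BW : Finset (Wr Q), BW.card + 4 * K ≤ 12 * (Om Z D).card + 28 * (Xx Z D).card ∧
      ∀ w ∈ Om Z D, w ∉ BW → ∃ x o, Pc Z D m₀ T₀ (none, x) (u' w.1, w) ∧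
        Pc Z D m₀ T₀ (u w.1, w) (none, o) ∧ c o = x.1 := by
  obtain ⟨B, h1, h2⟩ := h.good hp
  obtain ⟨B', h1', h2'⟩ := h.good hp'
  have := card_union_le B B'
  refine ⟨B ∪ B', by omega, fun w hw hb => ?_⟩
  obtain ⟨a1, a2, -, -, a5⟩ := hu w.1
  obtain ⟨⟨x, b1⟩, o, b2⟩ := h2 w hw (fun h => hb (mem_union_left _ h)) _ a1
  obtain ⟨⟨x', b1'⟩, o', b2'⟩ := h2' w hw (fun h => hb (mem_union_right _ h)) _ a2
  have hT := (hp.2.2.2.2.2.2.2 w.1).1
  have e := (b1.mono fun _ => Or.inl).inj (cs_inj _ _ _) (b1'.mono fun _ => Or.inl) ⟨_, rfl⟩ ⟨_, rfl⟩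
  have e' := (b2.mono fun _ => Or.inl).det (b2'.mono fun _ => Or.inl) ⟨_, rfl⟩ ⟨_, rfl⟩
  cases e; cases e'
  have hU : ∀ v, Mk (fun x => (none, x)) (PT Z D TA) v →
      Mk (fun x => (none, x)) (PT Z D T) v ∨ Mk (fun x => (none, x)) (PT Z D T') v := by
    rintro v (h | h)
    · exact Or.inl (Or.inl h)
    obtain ⟨c1, c2, c3⟩ := (mem_filter.1 h).2
    by_cases hv : ∀ i, ac Z D i v.2
    · exact (mem_union.1 ((hu _).2.2.1 (c3 hv))).imp
        (fun h => Or.inr (mem_filter.2 ⟨mem_univ _, c1, c2, fun _ => h⟩))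
        fun h => Or.inr (mem_filter.2 ⟨mem_univ _, c1, c2, fun _ => h⟩)
    · exact Or.inl (Or.inr (mem_filter.2 ⟨mem_univ _, c1, c2, fun h => absurd h hv⟩))
  have hU' : ∀ v, Mk (fun x => (none, x)) (PT Z D T₀) v → Mk (fun x => (none, x)) (PT Z D TA) v :=
    fun v h => h.imp id fun h => let ⟨c1, c2, c3⟩ := (mem_filter.1 h).2
      mem_filter.2 ⟨mem_univ _, c1, c2, fun h => (hu _).2.2.2.1 (c3 h)⟩
  have hπ : ∀ v, ¬ Mk (fun x => (none, x)) (PT Z D TA) v → pl Z D m m₀ v = v :=
    fun v h => pl_fix hC v fun h' => h (Or.inr h')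
  have d1 := (b1.union b1' (Or.inr ((mem_PT hw hT).2 a1))
    (Or.inr ((mem_PT hw (hp'.2.2.2.2.2.2.2 w.1).1).2 a2)) hU).congr hπ
  have d2 := (b2.union b2' (Or.inl ⟨_, rfl⟩) (Or.inl ⟨_, rfl⟩) hU).congr hπ
  rw [pl_sg, pl_all hw, a5] at d1
  rw [pl_sg, pl_fix hC _ (port_PT _)] at d2
  exact ⟨x, o, d1.mono hU', d2.mono hU', h.col hp (fun e => hT (e ▸ a1)) b1 b2⟩

theorem Core.sizes (h : Core Z D c K δ) :
    3 * (Om Z D).card ≤ K + 1000 * δ ∧ (Xx Z D).card ≤ 16675000 * δ := by
  obtain ⟨h1, h2⟩ := h.step2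
  refine ⟨le_trans (Nat.mul_le_mul_left 3 (card_le_card fun y hy => ?_)) (h2 3 4 (by decide)), ?_⟩
  · have := (mem_filter.1 hy).2
    exact mem_inter.2 ⟨by simpa [ac, bx] using this 1, by simpa [ac, bx] using this 2⟩
  set O := univ.filter fun y => ∀ i, y ∈ (Z (lt i)).p.support
  have : Xx Z D ⊆ (univ.filter fun e : Fin 5 × Fin 5 => e.1 ≠ e.2).biUnion fun e =>
      ((Z (lt e.1)).p.support ∩ (Z (lt e.2)).p.support) \ O := by
    intro y hy
    obtain ⟨h3, h4⟩ := (mem_filter.1 hy).2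
    simp only [Few, not_forall, not_or] at h3
    obtain ⟨i, j, a1, a2, a3, a4, a5, a6, a7⟩ := h3
    have key : ∀ i, i ≠ 0 → i ≠ 5 → bx Z D i = Z (lt (![0, 3, 4, 0, 1, 0] i)) := fun i h0 h5 => by
      fin_cases i <;> first | rfl | contradiction
    refine mem_biUnion.2 ⟨(![0, 3, 4, 0, 1, 0] i, ![0, 3, 4, 0, 1, 0] j),
      mem_filter.2 ⟨mem_univ _, ?_⟩, mem_sdiff.2 ⟨mem_inter.2 ⟨?_, ?_⟩, fun h => h4 fun i => ?_⟩⟩
    · clear a1 a2; revert i j; decide
    · simpa [ac, a4, a5, key i a4 a5] using a1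
    · simpa [ac, a6, a7, key j a6 a7] using a2
    · by_cases h0 : i = 0 ∨ i = 5
      · rcases h0 with rfl | rfl <;> simp [ac]
      · rw [not_or] at h0
        simpa [ac, h0, key i h0.1 h0.2] using (mem_filter.1 h).2 _
  refine (card_le_card this).trans ((card_biUnion_le_card_mul _ _ (667000 * δ) fun e he => ?_).trans ?_)
  · have := card_sdiff_add_card_eq_card (s := O)
      (t := (Z (lt e.1)).p.support ∩ (Z (lt e.2)).p.support)
      fun y hy => mem_inter.2 ⟨(mem_filter.1 hy).2 _, (mem_filter.1 hy).2 _⟩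
    have := h2 _ _ (mem_filter.1 he).2
    omega
  · have : (univ.filter fun e : Fin 5 × Fin 5 => e.1 ≠ e.2).card ≤ 25 := card_le_univ _
    nlinarith only [this]

theorem Core.rate (h : Core Z D c K δ) : K ≤ 10 ^ 10 * δ := by
  let T : Bool → Finset (Option (Fin 6)) := fun d => {some 2, some 3, bif d then some 4 else some 1}
  have hp : Prr [1, 2, 3, 4] [1, 3, 2, 4] T := by decide +kernel
  obtain ⟨B₀, a0, b0⟩ := h.good hp
  obtain ⟨B₁, a1, b1⟩ := h.iso (m := [2, 1, 3, 4]) (m' := [2, 3, 1, 4]) (m'' := [3, 4, 2, 1])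
    (m₀ := [1, 2, 3, 4]) (T := fun d => {some 1, some 3, bif d then some 4 else some 2})
    (T' := fun d => bif d then {some 2, some 3, some 5} else {some 4, some 1, some 0}) (T₀ := T)
    (by decide +kernel) (by decide +kernel) (by decide +kernel)
    (fun d => bif d then some 3 else some 1) (fun _ => some 2) (by decide +kernel)
  obtain ⟨B₂, a2, b2⟩ := h.iso (m := [1, 2, 4, 3]) (m' := [1, 4, 2, 3]) (m'' := [4, 3, 1, 2])
    (m₀ := [1, 2, 3, 4]) (T := fun d => {some 2, some 4, bif d then some 3 else some 1})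
    (T' := fun d => bif d then {some 1, some 4, some 5} else {some 3, some 2, some 0}) (T₀ := T)
    (by decide +kernel) (by decide +kernel) (by decide +kernel)
    (fun d => bif d then some 4 else some 2) (fun _ => some 3) (by decide +kernel)
  have hT := fun d => (hp.2.2.2.2.2.2.2 d).1
  have key : ∀ w ∈ Om Z D, w ∉ B₀ ∪ (B₁ ∪ B₂) → ∃ d, ∀ z ∈ T w.1,
      ∃ x, Pc Z D [1, 2, 3, 4] T (none, x) (z, w) ∧ x.1 = d := by
    intro w hw hb
    simp only [mem_union, not_or] at hb
    obtain ⟨x1, o1, c1, d1, e1⟩ := b1 w hw hb.2.1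
    obtain ⟨x2, o2, c2, d2, e2⟩ := b2 w hw hb.2.2
    obtain ⟨⟨x3, c3⟩, -⟩ := b0 w hw hb.1 (bif w.1 then some 4 else some 1) (by simp [T])
    have : x2.1 = x1.1 ∧ x3.1 = x1.1 := by
      obtain ⟨_ | _, q⟩ := w
      · exact ⟨e2.symm.trans (h.col hp (by simp) c1 d2), (h.col hp (by simp) c3 d1).symm.trans e1⟩
      · have := (h.col hp (by simp) c2 d1).symm.trans e1
        exact ⟨this, (h.col hp (by simp) c3 d2).symm.trans (e2.trans this)⟩
    refine ⟨x1.1, fun z hz => ?_⟩
    simp only [T, mem_insert, mem_singleton] at hz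
    rcases hz with rfl | rfl | rfl
    exacts [⟨_, c1, rfl⟩, ⟨_, c2, this.1⟩, ⟨_, c3, this.2⟩]
  have f1 := (h.cmp hp).2 ((PT Z D T).filter fun v => v.2 ∈ Om Z D ∧ v.2 ∉ B₀ ∪ (B₁ ∪ B₂))
    (filter_subset _ _) (by
      rintro ⟨z, w⟩ hv
      obtain ⟨h1, hw, hb⟩ := mem_filter.1 hv
      have hz := (mem_PT hw (hT _)).1 h1
      have hz' := (by decide +kernel : ∀ d, ∀ z ∈ T d, rt' [1, 3, 2, 4] d (fun _ => true)
        ((rt' [1, 2, 3, 4] d fun _ => true)⁻¹ z) ∈ T d) _ _ hz
      obtain ⟨d, hd⟩ := key w hw hb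
      obtain ⟨x, c1, e1⟩ := hd _ hz
      obtain ⟨x', c2, e2⟩ := hd _ hz'
      rw [pl_all hw]
      exact ⟨mem_filter.2 ⟨(mem_PT hw (hT _)).2 hz', hw, hb⟩,
        (b0 w hw (fun h => hb (mem_union_left _ h)) _ hz).2, x, x', c1, c2, e2.trans e1.symm⟩)
  have f2 := card_filter_add_card_filter_not (s := PT Z D T)
    fun v => v.2 ∈ Om Z D ∧ v.2 ∉ B₀ ∪ (B₁ ∪ B₂)
  have f3 : ((PT Z D T).filter fun v => ¬ (v.2 ∈ Om Z D ∧ v.2 ∉ B₀ ∪ (B₁ ∪ B₂))).card ≤
      (univ ×ˢ (Xx Z D ∪ (B₀ ∪ (B₁ ∪ B₂)))).card := card_le_card fun v hv => by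
    obtain ⟨h1, h2⟩ := mem_filter.1 hv
    refine mem_product.2 ⟨mem_univ _, by_contra fun h3 => h2 ⟨by_contra fun h4 => h3 ?_,
      fun h => h3 (mem_union_right _ h)⟩⟩
    exact mem_union_left _ (mem_filter.2 ⟨mem_univ _, (mem_filter.1 h1).2.2.1,
      fun h => h4 (mem_filter.2 ⟨mem_univ _, h⟩)⟩)
  rw [card_product, card_univ, Fintype.card_option, Fintype.card_fin] at f3
  have := card_union_le (Xx Z D) (B₀ ∪ (B₁ ∪ B₂))
  have := card_union_le B₀ (B₁ ∪ B₂)
  have := card_union_le B₁ B₂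
  have := h.sizes
  omega

end Pool.Agent.MP_47ff19_lc.SS

end

-- part MP_47ff19_lc.H43S.Loc
section

namespace Pool.Agent.MP_47ff19_lc.SS

open Finset Relation

variable {Q : Type} [Fintype Q] [DecidableEq Q] {T : Type} {τ σ : Finset T}
  {M : Dg Q → (Set T → Set T) → Prop}

theorem reach_concat (w : List E) (e : E) :
    reach (w ++ [e]) = if e.1 ∈ reach w then insert e.2 (reach w) else reach w := by
  unfold reach
  rw [List.foldl_append]
  rfl

theorem zero_mem_reach (w : List E) : 0 ∈ reach w := by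
  induction w using List.reverseRecOn with
  | nil => simp [reach]
  | append_singleton w e ih =>
    rw [reach_concat]
    split_ifs
    · exact mem_insert_of_mem ih
    · exact ih

omit [DecidableEq Q] in
/-- the action of a symbolic word on sets of tracks -/
theorem Sys.word (h : Sys τ M) (hσ : σ ⊆ τ) (ι : Fin 8 ↪ T) (h1 : ∀ i, ι i ∈ τ)
    (h2 : ∀ i, ι i ∈ σ ↔ i = 0 ∨ i = 1) {Z : E → Dg Q} (hZ : ∀ e, M (Z e) (ed τ (ι e.1) (ι e.2)))
    (w : List E) (hw : Ok w) : ∃ R, M (w.map Z).prod R ∧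
      pid σ ∘ R ∘ pid σ = if On w then ed σ (ι 0) (ι 1) else pid σ := by
  have key : ∃ R, M (w.map Z).prod R ∧ ∀ S : Set T, S ⊆ σ → ∀ t,
      t ∈ R S ↔ t ∈ S ∨ (ι 0 ∈ S ∧ ∃ i ∈ reach w, t = ι i) := by
    induction w using List.reverseRecOn with
    | nil =>
      refine ⟨_, h.one, fun S hS t => ⟨fun h => Or.inl h.1, fun h => ?_⟩⟩
      rcases h with h | ⟨h, i, hi, rfl⟩
      · exact ⟨h, hσ (hS h)⟩
      · obtain rfl : i = 0 := by simpa [reach] using hi
        exact ⟨h, h1 0⟩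
    | append_singleton w e ih =>
      obtain ⟨R, hR, hS⟩ := ih fun e he => hw e (List.mem_append_left _ he)
      have he : e.1 ≠ 1 := hw e (by simp)
      refine ⟨ed τ (ι e.1) (ι e.2) ∘ R, ?_, fun S hs t => ?_⟩
      · rw [List.map_append, List.prod_append, List.map_singleton, List.prod_singleton]
        exact h.mul hR (hZ e)
      have h3 : ι e.1 ∈ R S ↔ ι 0 ∈ S ∧ e.1 ∈ reach w := by
        rw [hS S hs]
        constructor
        · rintro (h | ⟨h, i, hi, h'⟩)
          · have := ((h2 _).1 (hs h)).resolve_right he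
            rw [this] at h ⊢
            exact ⟨h, zero_mem_reach w⟩
          · exact ⟨h, ι.injective h' ▸ hi⟩
        · exact fun h => Or.inr ⟨h.1, _, h.2, rfl⟩
      have h4 : t ∈ R S ∩ τ ↔ t ∈ R S := by
        refine ⟨fun h => h.1, fun h => ⟨h, ?_⟩⟩
        rcases (hS S hs t).1 h with h | ⟨-, i, -, rfl⟩
        · exact hσ (hs h)
        · exact h1 i
      show t ∈ R S ∩ τ ∨ (t = ι e.2 ∧ ι e.1 ∈ R S) ↔ _
      rw [h4, h3, hS S hs, reach_concat]
      split_ifs with hr
      · simp only [mem_insert, exists_eq_or_imp, hr, and_true, and_or_left, or_assoc]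
        rw [or_comm (a := ι 0 ∈ S ∧ t = ι e.2), and_comm (a := t = ι e.2)]
      · simp only [hr, and_false, or_false]
  obtain ⟨R, hR, hS⟩ := key
  refine ⟨R, hR, funext fun S => Set.ext fun t => ?_⟩
  have h0 : ι 0 ∈ σ := (h2 0).2 (Or.inl rfl)
  have h0' : ι 1 ∈ σ := (h2 1).2 (Or.inr rfl)
  show t ∈ R (S ∩ σ) ∧ t ∈ (σ : Set T) ↔ _
  rw [hS _ Set.inter_subset_right]
  split_ifs with hr
  · show _ ↔ t ∈ S ∩ σ ∨ (t = ι 1 ∧ ι 0 ∈ S)
    constructor
    · rintro ⟨h | ⟨h, i, -, rfl⟩, ht⟩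
      · exact Or.inl h
      · rcases (h2 i).1 ht with rfl | rfl
        · exact Or.inl h
        · exact Or.inr ⟨rfl, h.1⟩
    · rintro (h | ⟨rfl, h⟩)
      · exact ⟨Or.inl h, h.2⟩
      · exact ⟨Or.inr ⟨⟨h, h0⟩, 1, hr, rfl⟩, h0'⟩
  · show _ ↔ t ∈ S ∩ σ
    constructor
    · rintro ⟨h | ⟨h, i, hi, rfl⟩, ht⟩
      · exact h
      · rcases (h2 i).1 ht with rfl | rfl
        · exact h
        · exact absurd hi hr
    · exact fun h => ⟨Or.inl h, h.2⟩

/-- the localised system -/
def Lo (M : Dg Q → (Set T → Set T) → Prop) (σ : Finset T) (D g : Dg Q) (R : Set T → Set T) :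
    Prop := ∃ h S, M h S ∧ g = ⟨D.p⁻¹ * (D * h * D).p⟩ ∧ R = pid σ ∘ S ∘ pid σ

omit [DecidableEq Q] in
theorem sand (D X : Dg Q) (x : Wr Q) (h : (D.p x).1 ≠ x.1) : (D * X * D).p x = D.p x := by
  obtain ⟨_ | _, q⟩ := x
  · exact mul_turn (D * X) D (false, q) h
  · rw [mul_assoc]
    exact mul_turn D (X * D) (true, q) h

theorem pid_pid (σ : Finset T) : pid σ ∘ pid σ = pid σ :=
  funext fun S => by simp [pid, Set.inter_assoc]

theorem ed_ed {p : T} {q : T} (hq : q ∈ σ) : ed σ p q ∘ ed σ p q = ed σ p q :=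
  funext fun S => Set.ext fun t => by
    simp only [ed, Function.comp, Set.mem_union, Set.mem_inter_iff, Set.mem_ofPred_eq, mem_coe]
    constructor
    · rintro (⟨h, -⟩ | ⟨h, h' | h'⟩)
      · exact h
      · exact Or.inr ⟨h, h'.1⟩
      · exact Or.inr ⟨h, h'.2⟩
    · rintro (h | ⟨rfl, h⟩)
      · exact Or.inl ⟨Or.inl h, h.2⟩
      · exact Or.inl ⟨Or.inr ⟨rfl, h⟩, hq⟩

omit [DecidableEq Q] in
theorem Sys.pow (h : Sys τ M) {g : Dg Q} {R : Set T → Set T} (hR : R ∘ R = R) (hg : M g R)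
    (k : ℕ) : M (g ^ (k + 1)) R := by
  induction k with
  | zero => simpa using hg
  | succ k ih =>
    rw [pow_succ, ← hR]
    exact h.mul ih hg

theorem Sys.loc (h : Sys τ M) (hσ : σ ⊆ τ) : ∃ D, Sys σ (Lo M σ D) ∧
    ∀ g, Lo M σ D g (pid σ) → ∀ x, (g.p x).1 = x.1 := by
  classical
  let st : Dg Q → Finset (Wr Q) := fun g => univ.filter fun x => (g.p x).1 = x.1
  have hst : ∀ D X : Dg Q, st (D * X * D) ⊆ st D := fun D X x hx => by
    refine mem_filter.2 ⟨mem_univ _, by_contra fun h => h ?_⟩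
    rw [← sand D X x h]
    exact (mem_filter.1 hx).2
  obtain ⟨D₀, h0, hmin⟩ := (InvImage.wf (fun g => (st g).card) Nat.lt_wfRel.wf).has_min
    {g | M g (pid σ)} (h.idr σ hσ)
  obtain ⟨k, hk⟩ := exists_idem D₀
  have hD := h.pow (pid_pid σ) h0 k
  have hle : (st (D₀ ^ (k + 1))).card ≤ (st D₀).card := by
    refine card_le_card ?_
    rw [← hk, show D₀ ^ (k + 1) * D₀ ^ (k + 1) = D₀ * (D₀ ^ k * D₀ ^ k) * D₀ by
      simp only [← pow_succ, ← pow_succ', ← pow_add]
      congr 1; omega]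
    exact hst _ _
  generalize D₀ ^ (k + 1) = D at hk hD hle
  have hW : ∀ {g S}, M g S → M (D * g * D) (pid σ ∘ S ∘ pid σ) := fun hg => h.mul (h.mul hD hg) hD
  refine ⟨D, ⟨⟨1, _, h.one, ?_, ?_⟩, ?_, ?_, fun ρ hρ => ?_, fun p hp q hq => ?_⟩, ?_⟩
  · rw [mul_one, hk, inv_mul_cancel]; rfl
  · refine funext fun S => Set.ext fun t => ?_
    exact ⟨fun h => ⟨⟨h, hσ h.2⟩, h.2⟩, fun h => h.1.1⟩
  · rintro _ _ _ _ ⟨g, S, hg, rfl, rfl⟩ ⟨g', S', hg', rfl, rfl⟩
    refine ⟨g * D * g', _, h.mul (h.mul hg hD) hg', ?_, ?_⟩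
    · rw [loc_mul hk (sand D g) (sand D g')]
      congr 3
      calc D * g * D * (D * g' * D) = D * g * (D * D) * g' * D := by simp only [mul_assoc]
        _ = _ := by rw [hk]; simp only [mul_assoc]
    · exact funext fun X => by simp [pid, Set.inter_assoc]
  · rintro _ _ _ ⟨g, S, hg, rfl, rfl⟩ ⟨g', S', hg', he, rfl⟩
    have : D * g * D = D * g' * D := Dg.ext (mul_left_cancel (congrArg Dg.p he))
    exact h.fn (hW hg) (this ▸ hW hg')
  · obtain ⟨g, hg⟩ := h.idr ρ (hρ.trans hσ)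
    refine ⟨_, g, _, hg, rfl, funext fun S => Set.ext fun t => ?_⟩
    exact ⟨fun h => ⟨⟨⟨h.1, hρ h.2⟩, h.2⟩, hρ h.2⟩, fun h => ⟨h.1.1.1, h.1.2⟩⟩
  · obtain ⟨g, hg⟩ := h.edg p (hσ hp) q (hσ hq)
    refine ⟨_, g, _, hg, rfl, funext fun S => Set.ext fun t => ?_⟩
    constructor
    · rintro (h | ⟨rfl, h⟩)
      · exact ⟨Or.inl ⟨h, hσ h.2⟩, h.2⟩
      · exact ⟨Or.inr ⟨rfl, h, hp⟩, hq⟩
    · rintro ⟨h | ⟨rfl, h⟩, -⟩
      · exact Or.inl h.1
      · exact Or.inr ⟨rfl, h.1⟩
  · rintro _ ⟨g, S, hg, rfl, hS⟩ x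
    have h3 := hW hg
    rw [← hS] at h3
    have h4 : st (D * g * D) = st D :=
      eq_of_subset_of_card_le (hst D g) (hle.trans (not_lt.1 (hmin _ h3)))
    show (D.p⁻¹ ((D * g * D).p x)).1 = x.1
    by_cases hx : (D.p x).1 = x.1
    · have h5 : ((D * g * D).p x).1 = x.1 :=
        (mem_filter.1 (h4.ge (mem_filter.2 ⟨mem_univ _, hx⟩))).2
      generalize hy : D.p⁻¹ ((D * g * D).p x) = y
      have h6 : D.p y = (D * g * D).p x := by simp [← hy]
      by_cases hy' : (D.p y).1 = y.1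
      · rw [← hy', h6, h5]
      · rw [← sand D g y hy'] at h6
        rw [(D * g * D).p.injective h6]
    · rw [sand D g x hx]
      simp

theorem Sys.doom (h : Sys σ M) {g₀ g₁ : Dg Q} {p q : T} (_hp : p ∈ σ) (hq : q ∈ σ)
    (h0 : M g₀ (pid σ)) (hd : ∀ x, (g₀.p x).1 = x.1) (h1 : M g₁ (ed σ p q)) (F : Finset (Wr Q))
    (hF : ∀ u ∈ F, ∃ u' ∈ F, g₁.p u = g₀.p u' ∧ u'.1 = u.1) :
    ∃ g, M g (ed σ p q) ∧ g.p.support.card ≤ Fᶜ.card := by
  obtain ⟨a, ha, ha'⟩ : ∃ a : Dg Q, M a (pid σ) ∧ a.p = g₀.p⁻¹ := by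
    obtain ⟨N, hN⟩ := Nat.exists_eq_succ_of_ne_zero (orderOf_pos g₀.p).ne'
    refine ⟨g₀ ^ (N + N + 1), h.pow (pid_pid σ) h0 _, Equiv.ext fun x => ?_⟩
    rw [pow_p g₀ (F := Set.univ) (fun x _ => ⟨trivial, hd x⟩) _ x trivial]
    congr 2
    rw [eq_inv_iff_mul_eq_one, ← pow_succ, show N + N + 1 + 1 = orderOf g₀.p * 2 by omega, pow_mul,
      pow_orderOf_eq_one, one_pow]
  have hd' : ∀ x, (g₀.p⁻¹ x).1 = x.1 := fun x => by rw [← hd]; simp
  have hg : M (g₁ * a) (ed σ p q) := by
    have := h.mul h1 ha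
    rwa [show pid σ ∘ ed σ p q = ed σ p q from funext fun S => Set.inter_eq_left.2 (by
      rintro t (h | ⟨rfl, -⟩)
      exacts [h.2, hq])] at this
  let φ : Wr Q → Wr Q := fun x => bif x.1 then x else g₀.p⁻¹ x
  have hφ : ∀ x, φ x ∈ F → φ ((g₁ * a).p x) ∈ F ∧ ((g₁ * a).p x).1 = x.1 := by
    rintro ⟨_ | _, r⟩ hx
    · obtain ⟨u, hu, h2, h3⟩ := hF _ hx
      simp only [φ, cond_false] at h2 h3
      rw [hd'] at h3
      have h4 : (g₁ * a).p (false, r) = g₀.p u := by
        refine mul_mid (by simpa [ha'] using hd' (false, r)) ?_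
        simp only [cond_false, ha']
        have := Mid.out (a := g₁) (b := a) (x := g₀.p⁻¹ (false, r))
        simp only [hd', cond_false, h2] at this
        exact this (by rw [hd, h3])
      rw [h4]
      simp only [φ, hd, h3, cond_false]
      exact ⟨by simpa using hu, trivial⟩
    · obtain ⟨u, hu, h2, h3⟩ := hF _ hx
      simp only [φ, cond_true] at h2 h3
      have h4 : (g₁ * a).p (true, r) = u := by
        refine mul_mid (by simp [h2, hd, h3]) ?_
        simp only [cond_true, h2]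
        have := Mid.out (a := g₁) (b := a) (x := g₀.p u)
        simp only [hd, h3, cond_true, ha'] at this
        simpa [h3] using this
      rw [h4]
      simp only [φ, h3, cond_true]
      exact ⟨hu, trivial⟩
  obtain ⟨N, hN⟩ := Nat.exists_eq_succ_of_ne_zero (orderOf_pos (g₁ * a).p).ne'
  refine ⟨_, h.pow (ed_ed hq) hg N, card_le_card_of_injOn φ (fun x hx => ?_) ?_⟩
  · refine mem_coe.2 (mem_compl.2 fun h => Equiv.Perm.mem_support.1 (mem_coe.1 hx) ?_)
    rw [pow_p (g₁ * a) (F := {x | φ x ∈ F}) hφ _ x h, show N + 1 = orderOf (g₁ * a).p from hN.symm,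
      pow_orderOf_eq_one]
    rfl
  · rintro ⟨_ | _, r⟩ - ⟨_ | _, r'⟩ - h <;> simp only [φ, cond_true, cond_false] at h
    · exact g₀.p⁻¹.injective h
    · have := hd' (false, r)
      rw [h] at this
      cases this
    · have := hd' (false, r')
      rw [← h] at this
      cases this
    · exact h

theorem Sys.step [DecidableEq T] (h : Sys τ M) (hσ : σ ⊆ τ) (hc : σ.card + 6 ≤ τ.card) {k : ℕ}
    (hk : Bd τ M k) : ∃ M' : Dg Q → (Set T → Set T) → Prop, Sys σ M' ∧
      Bd σ M' (10 ^ 10 * k / (10 ^ 10 + 1)) := by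
  classical
  obtain ⟨D, hD, hdir⟩ := h.loc hσ
  refine ⟨_, hD, fun p hp q hq => ?_⟩
  by_cases hpq : p = q
  · subst hpq
    refine ⟨1, ?_, by simp only [one_p, Equiv.Perm.support_one, card_empty, Nat.reducePow, Nat.reduceAdd, zero_le]⟩
    rw [show ed σ p p = pid σ from funext fun S => Set.union_eq_left.2 (by
      rintro t ⟨rfl, h⟩
      exact ⟨h, hp⟩)]
    exact hD.one
  obtain ⟨f, hf⟩ := Function.Embedding.exists_of_card_le_finset (α := Fin 6) (s := τ \ σ) (by
    rw [Fintype.card_fin, card_sdiff_of_subset hσ]; omega)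
  have hf' : ∀ i, f i ∈ τ ∧ f i ∉ σ := fun i => mem_sdiff.1 (hf ⟨i, rfl⟩)
  let ι : Fin 8 ↪ T := ⟨Fin.cons p (Fin.cons q f), by
    refine Fin.cons_injective_iff.2 ⟨?_, Fin.cons_injective_iff.2 ⟨?_, f.injective⟩⟩
    · rintro ⟨i, hi⟩
      refine Fin.cases (fun hi => hpq hi.symm) (fun i hi => (hf' i).2 ?_) i hi
      rw [show f i = p from hi]; exact hp
    · rintro ⟨i, hi⟩
      exact (hf' i).2 (hi ▸ hq)⟩
  have h1 : ∀ i, ι i ∈ τ := fun i =>
    Fin.cases (hσ hp) (fun i => Fin.cases (hσ hq) (fun i => (hf' i).1) i) i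
  have h2 : ∀ i, ι i ∈ σ ↔ i = 0 ∨ i = 1 := fun i =>
    Fin.cases (iff_of_true hp (Or.inl rfl)) (fun i => Fin.cases (iff_of_true hq (Or.inr rfl))
      (fun i => iff_of_false (hf' i).2 (by revert i; decide)) i) i
  have hZ : ∀ e : E, ∃ z, M z (ed τ (ι e.1) (ι e.2)) ∧ z * z = z ∧ z.p.support.card ≤ k := fun e => by
    obtain ⟨g, hg, hs⟩ := hk _ (h1 e.1) _ (h1 e.2)
    obtain ⟨j, hj⟩ := exists_idem g
    refine ⟨_, h.pow (ed_ed (h1 _)) hg j, hj, (card_le_card fun x hx => ?_).trans hs⟩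
    refine Equiv.Perm.mem_support.2 fun h => Equiv.Perm.mem_support.1 hx ?_
    rw [pow_p g (F := {x}) (fun y hy => by rw [show y = x from hy, h]; exact ⟨rfl, rfl⟩) _ x rfl]
    exact Equiv.Perm.pow_apply_eq_self_of_apply_eq_self h _
  choose Z hZ hZi hZs using hZ
  obtain ⟨g, hg, hmin⟩ := (InvImage.wf (fun g : Dg Q => g.p.support.card) Nat.lt_wfRel.wf).has_min
    {g | Lo M σ D g (ed σ p q)} (hD.edg p hp q hq)
  have hw : ∀ w, Ok w → Lo M σ D ⟨D.p⁻¹ * (D * (w.map Z).prod * D).p⟩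
      (if On w then ed σ p q else pid σ) := fun w hw => by
    obtain ⟨R, hR, hS⟩ := h.word hσ ι h1 h2 hZ w hw
    exact ⟨_, R, hR, rfl, hS.symm⟩
  have hcore : Core Z D (fun y => (D.p⁻¹ y).1) g.p.support.card (k - g.p.support.card) := by
    refine ⟨hZi, fun e => (hZs e).trans (by omega), fun w h3 h4 x => ?_,
      fun w₀ w₁ h3 h4 h5 h6 F hF => ?_⟩
    · have := hw w h3
      rw [if_neg h4] at this
      exact hdir _ this x
    · have a0 := hw w₀ h3
      have a1 := hw w₁ h4
      rw [if_neg h5] at a0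
      rw [if_pos h6] at a1
      obtain ⟨g', hg', hs⟩ := hD.doom hp hq a0 (hdir _ a0) a1 F fun u hu => by
        obtain ⟨u', hu', e1, e2⟩ := hF u hu
        exact ⟨u', hu', congrArg (fun y => D.p⁻¹ y) e1, e2⟩
      exact (not_lt.1 (hmin _ hg')).trans hs
  refine ⟨g, hg, (Nat.le_div_iff_mul_le (by positivity)).2 ?_⟩
  have := hcore.rate
  omega

theorem Sys.iter [DecidableEq T] (j : ℕ) : ∀ {τ : Finset T} {M : Dg Q → (Set T → Set T) → Prop}
    {k : ℕ}, Sys τ M → 6 * j + 2 ≤ τ.card → Bd τ M k → (10 ^ 10 + 1) ^ j ≤ (10 ^ 10) ^ j * k := by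
  induction j with
  | zero =>
    intro τ M k h hc hk
    obtain ⟨p, hp, q, hq, hpq⟩ := one_lt_card.1 (show 1 < τ.card by omega)
    obtain ⟨g, hg, hs⟩ := hk p hp q hq
    rw [pow_zero, pow_zero, one_mul]
    by_contra h0
    have h1 : g = 1 :=
      Dg.ext (Equiv.Perm.support_eq_empty_iff.1 (card_eq_zero.1 (by omega)))
    have h2 : q ∈ ed τ p q {p} := Or.inr ⟨rfl, rfl⟩
    rw [h.fn hg (h1 ▸ h.one)] at h2
    exact hpq h2.1.symm
  | succ j ih =>
    intro τ M k h hc hk
    obtain ⟨σ, hσ, hs⟩ := exists_subset_card_eq (s := τ) (n := τ.card - 6) (by omega)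
    obtain ⟨M', h', hk'⟩ := h.step hσ (by omega) hk
    have h1 := ih h' (by omega) hk'
    have h2 := Nat.div_mul_le_self (10 ^ 10 * k) (10 ^ 10 + 1)
    generalize 10 ^ 10 * k / (10 ^ 10 + 1) = m at h1 h2
    generalize (10 : ℕ) ^ 10 = a at h1 h2 ⊢
    calc (a + 1) ^ (j + 1) = (a + 1) ^ j * (a + 1) := pow_succ _ _
      _ ≤ a ^ j * m * (a + 1) := Nat.mul_le_mul_right _ h1
      _ = a ^ j * (m * (a + 1)) := mul_assoc _ _ _
      _ ≤ a ^ j * (a * k) := Nat.mul_le_mul_left _ h2
      _ = _ := by ring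

end Pool.Agent.MP_47ff19_lc.SS

end
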