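import Pool.Agent.MP_47ff19_lc.Mg.H43S_Loc

-- part MP_47ff19_lc.H43S.Euler
section

/-! Euler tours make every two-way deterministic machine reversible. -/

namespace Pool.Agent.MP_47ff19_lc.SS

open H81 Function

namespace Eu

variable {Q : Type}

/-- walking forward over the crossing `e` -/
def up (e : Bool × Q) : Wr (Q × Bool) := (e.1, e.2, true)

/-- walking backward over the crossing `e` -/
def dn (e : Bool × Q) : Wr (Q × Bool) := (!e.1, e.2, false)

def fl (x : Wr (Q × Bool)) : Wr (Q × Bool) := (!x.1, x.2.1, !x.2.2)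

def crs (x : Wr (Q × Bool)) : Bool × Q := (bif x.2.2 then x.1 else !x.1, x.2.1)

/-- the exit to which an incoming wire belongs -/
def kp (f : Beh Q) (x : Wr (Q × Bool)) : Option (Bool × Q) :=
  bif x.2.2 then f (crs x) else some (crs x)

theorem fl_fl (x : Wr (Q × Bool)) : fl (fl x) = x := by simp [fl]

theorem fl_inj : Injective (fl (Q := Q)) := (show Involutive fl from fl_fl).injective

@[simp] theorem fl_up (e : Bool × Q) : fl (up e) = dn e := rfl
@[simp] theorem fl_dn (e : Bool × Q) : fl (dn e) = up e := by simp [fl, dn, up]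
@[simp] theorem up_fst (e : Bool × Q) : (up e).1 = e.1 := rfl
@[simp] theorem dn_fst (e : Bool × Q) : (dn e).1 = !e.1 := rfl
@[simp] theorem fl_fst (x : Wr (Q × Bool)) : (fl x).1 = !x.1 := rfl
@[simp] theorem crs_up (e : Bool × Q) : crs (up e) = e := rfl
@[simp] theorem crs_dn (e : Bool × Q) : crs (dn e) = e := by simp [crs, dn]
@[simp] theorem kp_up (f : Beh Q) (e : Bool × Q) : kp f (up e) = f e := rfl
@[simp] theorem kp_dn (f : Beh Q) (e : Bool × Q) : kp f (dn e) = some e :=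
  congrArg some (crs_dn e)

theorem up_ne_dn (e o : Bool × Q) : up e ≠ dn o := by simp [up, dn]

theorem up_or_dn (x : Wr (Q × Bool)) : (∃ e, x = up e) ∨ ∃ e, x = dn e := by
  obtain ⟨d, q, _ | _⟩ := x
  · exact Or.inr ⟨(!d, q), by simp [dn]⟩
  · exact Or.inl ⟨(d, q), rfl⟩

theorem crs_fl (x : Wr (Q × Bool)) : crs (fl x) = crs x := by
  rcases up_or_dn x with ⟨e, rfl⟩ | ⟨e, rfl⟩ <;> simp

/-- the diagram `g` is an Euler tour of the behaviour `f` -/
structure Good (g : Dg (Q × Bool)) (f : Beh Q) : Prop where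
  inv : ∀ x, kp f (fl (g.p x)) = kp f x
  tour : ∀ e o, f e = some o → Tr (fun x => fl (g.p x)) (fun _ => False) (dn o) (up e)

theorem Good.tr {g : Dg (Q × Bool)} {f : Beh Q} (h : Good g f) {U : Wr (Q × Bool) → Prop}
    {a b : Wr (Q × Bool)} (ht : Tr (fun x => fl (g.p x)) U a b) : kp f b = kp f a := by
  induction ht with
  | one => exact h.inv _
  | more _ _ ih => exact (h.inv _).trans ih

theorem Good.uniq {g : Dg (Q × Bool)} {f f' : Beh Q} (h : Good g f) (h' : Good g f') : f = f' :=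
  funext fun e => Option.ext fun o =>
    ⟨fun H => by simpa using h'.tr (h.tour e o H), fun H => by simpa using h.tr (h'.tour e o H)⟩

theorem exists_rot {W β : Type} [Finite W] (k : W → β) : ∃ ρ : Equiv.Perm W,
    (∀ x, k (ρ x) = k x) ∧ ∀ x y, k x = k y → ∃ n, ρ^[n] x = y := by
  classical
  have : ∀ b, ∃ π : Equiv.Perm {x // k x = b}, ∀ x y, ∃ n, π^[n] x = y := fun b => by
    have := Fintype.ofFinite {x // k x = b}
    obtain ⟨π, h, -⟩ := Finset.exists_cycleOn (Finset.univ : Finset {x // k x = b})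
    refine ⟨π, fun x y => ?_⟩
    have hs : π.SameCycle x y := h.2 (by simp only [Finset.coe_univ, Set.mem_univ]) (by simp only [Finset.coe_univ, Set.mem_univ])
    obtain ⟨n, -, hn⟩ := hs.exists_pow_eq'
    exact ⟨n, by rw [← hn, Equiv.Perm.iterate_eq_pow]⟩
  choose π hπ using this
  have h1 : ∀ b (z : {x // k x = b}),
      (Equiv.sigmaFiberEquiv k).permCongr (Equiv.Perm.sigmaCongrRight π) z.1 = (π b z).1 := by
    rintro b ⟨x, rfl⟩
    rfl
  refine ⟨(Equiv.sigmaFiberEquiv k).permCongr (Equiv.Perm.sigmaCongrRight π),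
    fun x => (congrArg k (h1 _ ⟨x, rfl⟩)).trans (π _ ⟨x, rfl⟩).2, fun x y h => ?_⟩
  obtain ⟨n, hn⟩ := hπ (k y) ⟨x, h⟩ ⟨y, rfl⟩
  exact ⟨n, ((show Semiconj Subtype.val (π (k y)) _ from fun z => (h1 _ z).symm).iterate_right n
    ⟨x, h⟩).symm.trans (congrArg Subtype.val hn)⟩

theorem exists_good [Finite Q] (f : Beh Q) : ∃ g, Good g f := by
  obtain ⟨ρ, h1, h2⟩ := exists_rot (kp f)
  have h : (fun x => fl ((ρ.trans (Involutive.toPerm fl fl_fl)) x)) = ρ :=
    funext fun x => fl_fl _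
  refine ⟨⟨ρ.trans (Involutive.toPerm fl fl_fl)⟩, fun x => ?_, fun e o H => ?_⟩
  · exact (congrArg (kp f) (congrFun h x)).trans (h1 x)
  · obtain ⟨n, hn⟩ := h2 (dn o) (up e) (by simp [H])
    rw [show (fun x => fl ((⟨ρ.trans (Involutive.toPerm fl fl_fl)⟩ : Dg _).p x)) = ρ from h]
    cases n with
    | zero => exact absurd hn.symm (up_ne_dn _ _)
    | succ n => exact tr_iff.2 ⟨n, hn, fun _ _ => id⟩

/-- runs from the cut between the two boxes -/
inductive MF (φ : Bool → Beh Q) : Bool × Q → Bool × Q → Prop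
  | out {m y : Bool × Q} : φ m.1 m = some y → y.1 = m.1 → MF φ m y
  | turn {m y o : Bool × Q} : φ m.1 m = some y → y.1 ≠ m.1 → MF φ y o → MF φ m o

variable {φ : Bool → Beh Q}

/-- leaving the box `c` by `y` leads to the exit `o` -/
def Fn (φ : Bool → Beh Q) (c : Bool) (y o : Bool × Q) : Prop :=
  (y.1 = c ∧ o = y) ∨ (y.1 ≠ c ∧ MF φ y o)

theorem mf_iff {m o : Bool × Q} : MF φ m o ↔ ∃ y, φ m.1 m = some y ∧ Fn φ m.1 y o :=
  ⟨fun h => by
    cases h with
    | out h1 h2 => exact ⟨_, h1, Or.inl ⟨h2, rfl⟩⟩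
    | turn h1 h2 h3 => exact ⟨_, h1, Or.inr ⟨h2, h3⟩⟩,
  fun ⟨_, h1, h2⟩ => h2.elim (fun h => h.2 ▸ MF.out h1 h.1) fun h => MF.turn h1 h.1 h.2⟩

theorem ex_mid {m o : Bool × Q} : Ex φ [false] [true] m o ↔ MF φ m o := by
  constructor
  · have key : ∀ {l r x o}, Ex φ l r x o → l = [false] → r = [true] → MF φ x o := by
      intro l r x o h
      induction h with
      | endR l q => exact fun _ h => by cases h
      | endL r q => exact fun h => by cases h
      | @fwd l r c q y o h1 h2 ih =>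
        intro hl hr
        cases hl; cases hr
        obtain ⟨_ | _, p⟩ := y
        · exact MF.turn (m := (true, q)) h1 (by simp) (ih rfl rfl)
        · rw [Ex.nil_true.1 h2]
          exact MF.out (m := (true, q)) h1 rfl
      | @bwd l r c q y o h1 h2 ih =>
        intro hl hr
        cases hl; cases hr
        obtain ⟨_ | _, p⟩ := y
        · rw [Ex.nil_false.1 h2]
          exact MF.out (m := (false, q)) h1 rfl
        · exact MF.turn (m := (false, q)) h1 (by simp) (ih rfl rfl)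
    exact fun h => key h rfl rfl
  · intro h
    induction h with
    | @out m y h1 h2 =>
      obtain ⟨_ | _, q⟩ := m <;> obtain ⟨d, p⟩ := y <;> cases h2
      · exact Ex.bwd h1 (Ex.endL _ _)
      · exact Ex.fwd h1 (Ex.endR _ _)
    | @turn m y o h1 h2 _ ih =>
      obtain ⟨_ | _, q⟩ := m <;> obtain ⟨_ | _, p⟩ := y
      · exact absurd rfl h2
      · exact Ex.bwd h1 ih
      · exact Ex.fwd h1 ih
      · exact absurd rfl h2

theorem beh2 {e o : Bool × Q} :
    beh φ [false, true] e = some o ↔ ∃ y, φ (!e.1) e = some y ∧ Fn φ (!e.1) y o := by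
  obtain ⟨_ | _, q⟩ := e
  · rw [beh_false]
    refine Ex.cons_false.trans (exists_congr fun y => and_congr Iff.rfl ?_)
    obtain ⟨_ | _, p⟩ := y
    · exact ex_mid.trans (by simp [Fn])
    · exact Ex.nil_true.trans (by simp [Fn])
  · rw [beh_true]
    refine Ex.cons_true.trans (exists_congr fun y => and_congr Iff.rfl ?_)
    obtain ⟨_ | _, p⟩ := y
    · exact Ex.nil_false.trans (by simp [Fn])
    · exact ex_mid.trans (by simp [Fn])

/-- the final exit to which an incoming wire of the box `c` belongs -/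
def Cl (φ : Bool → Beh Q) (c : Bool) (x : Wr (Q × Bool)) (o : Bool × Q) : Prop :=
  ∃ y, kp (φ c) x = some y ∧ Fn φ c y o

theorem cl_mid {c : Bool} {x : Wr (Q × Bool)} (h : x.1 = c) {o : Bool × Q} :
    Cl φ c x o ↔ MF φ (crs x) o := by
  subst h
  rcases up_or_dn x with ⟨e, rfl⟩ | ⟨e, rfl⟩
  · exact mf_iff.symm
  · simp only [Cl, dn_fst, kp_dn, Option.some.injEq, Fn, ne_eq, Bool.not_eq_not, exists_eq_left', Bool.eq_not_self, false_and, true_and, false_or, crs_dn]

theorem cl_ext {c : Bool} {x : Wr (Q × Bool)} (h : x.1 ≠ c) {o : Bool × Q} :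
    Cl φ c x o ↔ kp (beh φ [false, true]) x = some o := by
  obtain rfl : c = !x.1 := by revert h; cases c <;> cases x.1 <;> simp
  rcases up_or_dn x with ⟨e, rfl⟩ | ⟨e, rfl⟩
  · exact beh2.symm
  · simp only [Cl, dn_fst, Bool.not_not, kp_dn, Option.some.injEq, Fn, eq_comm, ne_eq, exists_eq_left', true_and, not_true_eq_false, false_and, or_false]

theorem mf_acyc {m o : Bool × Q} (h : MF φ m o) :
    ¬ Relation.TransGen (fun e m => φ e.1 e = some m ∧ m.1 ≠ e.1) m m := by
  induction h with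
  | out h1 h2 =>
    intro h
    obtain ⟨y, h3, -⟩ := Relation.TransGen.head'_iff.1 h
    exact h3.2 (Option.some.inj (h1.symm.trans h3.1) ▸ h2)
  | turn h1 h2 _ ih =>
    intro h
    obtain ⟨y, h3, h4⟩ := Relation.TransGen.head'_iff.1 h
    obtain rfl := Option.some.inj (h1.symm.trans h3.1)
    exact ih (Relation.TransGen.tail' h4 h3)

variable [Finite Q] {γ : Bool → Dg (Q × Bool)}

omit [Finite Q] in
theorem cond_in (d : Bool) : (bif d then γ true else γ false) = γ d := by cases d <;> rfl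

omit [Finite Q] in
theorem cond_out (d : Bool) : (bif d then γ false else γ true) = γ (!d) := by cases d <;> rfl

theorem inv_mul (h : ∀ c, Good (γ c) (φ c)) (x : Wr (Q × Bool)) :
    kp (beh φ [false, true]) (fl ((γ false * γ true).p x)) = kp (beh φ [false, true]) x := by
  have hc : ∀ c x o, Cl φ c (fl ((γ c).p x)) o ↔ Cl φ c x o := fun c x o => by
    rw [Cl, (h c).inv, Cl]
  have hm : ∀ y z, Mid (γ false) (γ true) y z → ∀ o,
      (kp (beh φ [false, true]) (fl z) = some o ↔ MF φ (crs y) o) := by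
    intro y z H o
    induction H with
    | @out y h1 =>
      rw [cond_in] at h1 ⊢
      rw [← cl_ext (c := y.1) (by simp [h1]), hc, cl_mid rfl]
    | @turn y z h1 _ ih =>
      rw [cond_in] at h1 ih
      rw [ih, ← crs_fl, ← cl_mid (c := y.1) (by simp [Bool.eq_not_iff.2 h1]), hc, cl_mid rfl]
  refine Option.ext fun o => ?_
  rw [← cl_ext (x := x) (c := !x.1) (by simp), ← hc]
  by_cases hd : ((bif x.1 then γ false else γ true).p x).1 = x.1
  · have := Mid.total _ _ x hd
    rw [cond_out] at hd this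
    rw [hm _ _ this, cl_mid (by simp [hd]), crs_fl]
  · rw [mul_turn _ _ x hd]
    rw [cond_out] at hd ⊢
    rw [cl_ext (by simpa using hd)]

/-- outer wires on the tour that starts at `dn o` -/
def Rch (γ : Bool → Dg (Q × Bool)) (o : Bool × Q) (x : Wr (Q × Bool)) : Prop :=
  x = dn o ∨ Tr (fun x => fl ((γ false * γ true).p x)) (fun _ => False) (dn o) x

theorem Rch.step {o : Bool × Q} {x : Wr (Q × Bool)} (h : Rch γ o x) :
    Rch γ o (fl ((γ false * γ true).p x)) :=
  Or.inr (h.elim (fun h => h ▸ Tr.one (σ := fun x => fl ((γ false * γ true).p x)) _)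
    fun h => h.more id)

/-- the tour enters the box `c` on the wire `y` -/
def I (γ : Bool → Dg (Q × Bool)) (o : Bool × Q) (c : Bool) (y : Wr (Q × Bool)) : Prop :=
  (y.1 ≠ c ∧ Rch γ o y) ∨
    (y.1 = c ∧ ∃ x, Rch γ o x ∧ Mid (γ false) (γ true) y ((γ false * γ true).p x))

/-- the tour leaves the box `c` on the wire `fl b` -/
def J (γ : Bool → Dg (Q × Bool)) (o : Bool × Q) (c : Bool) (b : Wr (Q × Bool)) : Prop :=
  (b.1 = c ∧ I γ o (!c) (fl b)) ∨ (b.1 ≠ c ∧ I γ o c b)

theorem I.step {o : Bool × Q} {c : Bool} {y : Wr (Q × Bool)} (h : I γ o c y) :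
    J γ o c (fl ((γ c).p y)) := by
  rcases h with ⟨h1, h2⟩ | ⟨rfl, x, h1, h2⟩
  · obtain rfl : c = !y.1 := by revert h1; cases c <;> cases y.1 <;> simp
    by_cases hd : ((bif y.1 then γ false else γ true).p y).1 = y.1
    · have := Mid.total _ _ y hd
      rw [cond_out] at hd this
      exact Or.inl ⟨by simp [hd], Or.inr ⟨by simp [hd], y, h2, by rwa [fl_fl]⟩⟩
    · have := h2.step
      rw [mul_turn _ _ y hd] at this
      rw [cond_out] at hd this
      exact Or.inr ⟨by simpa using hd, Or.inl ⟨by simpa using hd, this⟩⟩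
  · have h3 := h1.step
    obtain ⟨z, hz⟩ : ∃ z, (γ false * γ true).p x = z := ⟨_, rfl⟩
    rw [hz] at h2 h3
    cases h2 with
    | out hd =>
      rw [cond_in] at hd h3
      exact Or.inr ⟨by simp [hd], Or.inl ⟨by simp [hd], h3⟩⟩
    | turn hd h4 =>
      rw [cond_in] at hd h4
      have := Bool.eq_not_iff.2 hd
      exact Or.inl ⟨by simp [this], Or.inr ⟨by simp [this], x, h1, by rwa [fl_fl, hz]⟩⟩

theorem walk (h : ∀ c, Good (γ c) (φ c)) {o m : Bool × Q} {c : Bool}
    (hch : ∀ e, e.1 = c → φ c e = some m → I γ o (!c) (dn e) → I γ o c (up e))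
    (h0 : I γ o c (dn m)) {b : Wr (Q × Bool)}
    (ht : Tr (fun x => fl ((γ c).p x)) (· = dn m) (dn m) b) : J γ o c b := by
  induction ht with
  | one => exact h0.step
  | @more b h1 hb ih =>
    have h2 := (h c).tr h1
    refine I.step (ih.elim (fun h3 => ?_) (·.2))
    rcases up_or_dn b with ⟨e, rfl⟩ | ⟨e, rfl⟩
    · exact hch e h3.1 (by simpa using h2) h3.2
    · exact absurd (congrArg dn (by simpa using h2)) hb

theorem back (h : ∀ c, Good (γ c) (φ c)) (o m : Bool × Q) :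
    (∃ o', MF φ m o') → I γ o (!m.1) (dn m) → I γ o m.1 (up m) := by
  let r : Bool × Q → Bool × Q → Prop := fun e m =>
    Relation.TransGen (fun e m => φ e.1 e = some m ∧ m.1 ≠ e.1) e m ∧ ∃ o', MF φ m o'
  have : IsTrans _ r := ⟨fun _ _ _ h1 h2 => ⟨h1.1.trans h2.1, h2.2⟩⟩
  have : Std.Irrefl r := ⟨fun _ ⟨h1, _, h2⟩ => mf_acyc h2 h1⟩
  induction m using (Finite.wellFounded_of_trans_of_irrefl r).induction with
  | _ m ih =>
    rintro ⟨o', h1⟩ h0
    obtain ⟨_, rfl, ht⟩ := Tr.total (σ := fun x => fl ((γ (!m.1)).p x)) (U := (· = dn m))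
      (fl_inj.comp (γ _).p.injective) (a := dn m) rfl
    have := walk h (fun e he h2 => ?_) h0 ht
    · rcases this with ⟨-, h2⟩ | ⟨h2, -⟩
      · simpa using h2
      · exact absurd rfl h2
    · have h3 : m.1 ≠ e.1 := by simp [he]
      rw [← he] at h2 ⊢
      exact ih e ⟨Relation.TransGen.single ⟨h2, h3⟩, o', h1⟩ ⟨o', MF.turn h2 h3 h1⟩

theorem visit (h : ∀ c, Good (γ c) (φ c)) {o o' y e : Bool × Q} {c : Bool} (hy : Fn φ c y o')
    (he : φ c e = some y) (h0 : I γ o c (dn y)) : J γ o c (up e) := by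
  refine walk h (fun e' h1 h2 => ?_) h0 ?_
  · subst h1
    exact back h o e' ⟨o', mf_iff.2 ⟨y, h2, hy⟩⟩
  · rcases ((h c).tour e y he).last (U' := (· = dn y)) with h1 | ⟨_, rfl, -, -, h1⟩ <;> exact h1

theorem down (h : ∀ c, Good (γ c) (φ c)) {o m : Bool × Q} (hm : MF φ m o) :
    I γ o (!m.1) (dn m) := by
  have key : ∀ {m y o : Bool × Q}, φ m.1 m = some y → Fn φ m.1 y o → I γ o m.1 (dn y) →
      I γ o (!m.1) (dn m) := fun h1 h2 h3 =>
    (visit h h2 h1 h3).elim (·.2) fun h4 => absurd rfl h4.1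
  induction hm with
  | out h1 h2 => exact key h1 (Or.inl ⟨h2, rfl⟩) (Or.inl ⟨by simp [h2], Or.inl rfl⟩)
  | turn h1 h2 h3 ih =>
    exact key h1 (Or.inr ⟨h2, h3⟩) (by rwa [Bool.eq_not_iff.2 h2, Bool.not_not] at ih)

theorem good_mul (h : ∀ c, Good (γ c) (φ c)) :
    Good (γ false * γ true) (beh φ [false, true]) := by
  refine ⟨inv_mul h, fun e o H => ?_⟩
  obtain ⟨y, h1, h2⟩ := beh2.1 H
  have h0 : I γ o (!e.1) (dn y) := by
    rcases h2 with ⟨h3, rfl⟩ | ⟨h3, h4⟩
    · exact Or.inl ⟨by simp [h3], Or.inl rfl⟩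
    · have := down h h4
      rwa [Bool.eq_not_iff.2 h3, Bool.not_not] at this
  rcases visit h h2 h1 h0 with ⟨h3, -⟩ | ⟨-, ⟨-, h3 | h3⟩ | ⟨h3, -⟩⟩
  · simp at h3
  · exact absurd h3 (up_ne_dn _ _)
  · exact h3
  · simp at h3

theorem good_one {Γ : Type} (ι : Γ → Beh Q) : Good (1 : Dg (Q × Bool)) (beh ι []) := by
  have h : beh ι [] = some := funext fun ⟨d, q⟩ => beh_eq_some.2 (by
    cases d
    · exact Ex.endL _ _
    · exact Ex.endR _ _)
  rw [h]
  refine ⟨fun x => ?_, fun e o H => ?_⟩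
  · rcases up_or_dn x with ⟨e, rfl⟩ | ⟨e, rfl⟩ <;> simp only [one_p, Equiv.Perm.coe_one, id_eq, fl_up, kp_dn, kp_up, fl_dn]
  · cases H
    rw [← fl_dn]
    exact Tr.one (σ := fun x => fl ((1 : Dg (Q × Bool)).p x)) _

end Eu

open Eu in
/-- Euler tours: every machine can be replaced by permutations of four times as many wires. -/
theorem euler {Q Γ : Type} [Fintype Q] (ι : Γ → Beh Q) : ∃ t : Γ → Dg (Q × Bool),
    ∀ w w' : List Γ, (w.map t).prod = (w'.map t).prod → beh ι w = beh ι w' := by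
  choose t ht using fun c => exists_good (beh ι [c])
  have key : ∀ w : List Γ, Good (w.map t).prod (beh ι w) := by
    intro w
    induction w with
    | nil => exact good_one ι
    | cons c w ih =>
      have h1 := beh_flatMap ι (fun b => bif b then w else [c]) [false, true]
      have h2 := good_mul (φ := fun b => beh ι (bif b then w else [c]))
        (γ := fun b => bif b then (w.map t).prod else t c) (by rintro (_ | _); exacts [ht c, ih])
      rw [← h1] at h2
      simpa using h2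
  exact ⟨t, fun w w' h => (key w).uniq (h ▸ key w')⟩

end Pool.Agent.MP_47ff19_lc.SS

end

-- part MP_47ff19_lc.H43S.Main
section

namespace Pool.Agent.MP_47ff19_lc.SS

open H81

/-- four letters: rotate, exchange `0` and `1`, add the edge from `0` to `1`, delete `0` -/
def wit (m : ℕ) : NFA (Bool × Bool) (Fin (m + 2)) where
  step v a := match a with
    | (false, false) => {finRotate (m + 2) v}
    | (false, true) => {Equiv.swap 0 1 v}
    | (true, false) => {v' | v' = v ∨ (v = 0 ∧ v' = 1)}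
    | (true, true) => {v' | v' = v ∧ v ≠ 0}
  start := {0}
  accept := {0}

theorem wit_rot (m : ℕ) (S) :
    (wit m).evalFrom S [(false, false)] = finRotate (m + 2) '' S := by
  ext v
  simp only [NFA.evalFrom_singleton, NFA.mem_stepSet, wit, Set.mem_singleton_iff, Set.mem_image]
  exact exists_congr fun t => and_congr Iff.rfl eq_comm

theorem wit_swap (m : ℕ) (S) :
    (wit m).evalFrom S [(false, true)] = Equiv.swap 0 1 '' S := by
  ext v
  simp only [NFA.evalFrom_singleton, NFA.mem_stepSet, wit, Set.mem_singleton_iff, Set.mem_image]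
  exact exists_congr fun t => and_congr Iff.rfl eq_comm

theorem wit_add (m : ℕ) (S) (v) :
    v ∈ (wit m).evalFrom S [(true, false)] ↔ v ∈ S ∨ (v = 1 ∧ 0 ∈ S) := by
  simp only [NFA.evalFrom_singleton, NFA.mem_stepSet, wit, Set.mem_ofPred_eq]
  constructor
  · rintro ⟨t, ht, rfl | ⟨rfl, rfl⟩⟩
    exacts [Or.inl ht, Or.inr ⟨rfl, ht⟩]
  · rintro (h | ⟨rfl, h⟩)
    exacts [⟨v, h, Or.inl rfl⟩, ⟨0, h, Or.inr ⟨rfl, rfl⟩⟩]

theorem wit_del (m : ℕ) (S) (v) :
    v ∈ (wit m).evalFrom S [(true, true)] ↔ v ∈ S ∧ v ≠ 0 := by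
  simp only [NFA.evalFrom_singleton, NFA.mem_stepSet, wit, Set.mem_ofPred_eq]
  constructor
  · rintro ⟨t, ht, rfl, h⟩
    exact ⟨ht, h⟩
  · rintro ⟨h, h'⟩
    exact ⟨v, h, rfl, h'⟩

theorem wit_perm (m : ℕ) (π : Equiv.Perm (Fin (m + 2))) :
    ∃ w, ∀ S, (wit m).evalFrom S w = π '' S := by
  have h := Equiv.Perm.closure_cycle_adjacent_swap (isCycle_finRotate (n := m))
    support_finRotate 0
  rw [finRotate_apply_zero] at h
  have hπ : π ∈ Submonoid.closure
      ({finRotate (m + 2), Equiv.swap 0 1} : Set (Equiv.Perm (Fin (m + 2)))) := by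
    rw [← Subgroup.closure_toSubmonoid_of_finite, h]
    trivial
  induction hπ using Submonoid.closure_induction with
  | mem x hx =>
    rcases hx with rfl | rfl
    exacts [⟨_, wit_rot m⟩, ⟨_, wit_swap m⟩]
  | one => exact ⟨[], fun S => by simp⟩
  | mul x y _ _ hx hy =>
    obtain ⟨u, hu⟩ := hx
    obtain ⟨v, hv⟩ := hy
    exact ⟨v ++ u, fun S => by rw [NFA.evalFrom_append, hv, hu, Set.image_image]; rfl⟩

theorem wit_pid (m : ℕ) (σ : Finset (Fin (m + 2))) :
    ∃ w, ∀ S, (wit m).evalFrom S w = pid σ S := by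
  have key : ∀ ρ : Finset (Fin (m + 2)), ∃ w, ∀ S v,
      v ∈ (wit m).evalFrom S w ↔ v ∈ S ∧ v ∉ ρ := by
    intro ρ
    induction ρ using Finset.induction_on with
    | empty => exact ⟨[], fun S v => by simp⟩
    | insert p ρ _ ih =>
      obtain ⟨w, hw⟩ := ih
      obtain ⟨u, hu⟩ := wit_perm m (Equiv.swap 0 p)
      refine ⟨w ++ u ++ [(true, true)] ++ u, fun S v => ?_⟩
      simp only [NFA.evalFrom_append, hu, Equiv.image_eq_preimage_symm, Set.mem_preimage, wit_del,
        hw, Equiv.symm_swap, Equiv.swap_apply_self, Finset.mem_insert, ne_eq,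
        Equiv.swap_apply_eq_iff, Equiv.swap_apply_left]
      tauto
  obtain ⟨w, hw⟩ := key σᶜ
  exact ⟨w, fun S => Set.ext fun v => by simp [hw, pid]⟩

theorem wit_ed (m : ℕ) (p q : Fin (m + 2)) :
    ∃ w, ∀ S, (wit m).evalFrom S w = ed Finset.univ p q S := by
  by_cases hpq : p = q
  · subst hpq
    refine ⟨[], fun S => Set.ext fun v => ?_⟩
    simp only [NFA.evalFrom_nil, ed, Finset.coe_univ, Set.inter_univ, Set.mem_union,
      Set.mem_ofPred_eq]
    exact ⟨Or.inl, fun h => h.elim id fun h => h.1 ▸ h.2⟩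
  obtain ⟨π, h0, h1⟩ : ∃ π : Equiv.Perm (Fin (m + 2)), π 0 = p ∧ π 1 = q := by
    refine ⟨Equiv.swap (Equiv.swap 0 p 1) q * Equiv.swap 0 p, ?_, by simp only [Equiv.Perm.coe_mul, Function.comp_apply, Equiv.swap_apply_left]⟩
    rw [Equiv.Perm.mul_apply, Equiv.swap_apply_left]
    refine Equiv.swap_apply_of_ne_of_ne (fun h => ?_) hpq
    rw [eq_comm, Equiv.swap_apply_eq_iff, Equiv.swap_apply_right] at h
    exact Fin.zero_ne_one h.symm
  obtain ⟨u, hu⟩ := wit_perm m π.symm
  obtain ⟨u', hu'⟩ := wit_perm m π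
  refine ⟨u ++ [(true, false)] ++ u', fun S => Set.ext fun v => ?_⟩
  simp only [NFA.evalFrom_append, hu, hu', Equiv.image_eq_preimage_symm, Set.mem_preimage, wit_add,
    Equiv.symm_symm, Equiv.apply_symm_apply, Equiv.symm_apply_eq, h0, h1, ed, Finset.coe_univ,
    Set.inter_univ, Set.mem_union, Set.mem_ofPred_eq]

theorem wit_sep (m : ℕ) (w w' : List (Bool × Bool))
    (h : ∀ u v, u ++ w ++ v ∈ (wit m).accepts ↔ u ++ w' ++ v ∈ (wit m).accepts) (S) :
    (wit m).evalFrom S w = (wit m).evalFrom S w' := by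
  ext q
  rw [NFA.mem_evalFrom_iff_exists, NFA.mem_evalFrom_iff_exists (x := w')]
  refine exists_congr fun p => and_congr Iff.rfl ?_
  obtain ⟨u, hu⟩ := wit_perm m (Equiv.swap 0 p)
  obtain ⟨v, hv⟩ := wit_perm m (Equiv.swap 0 q)
  have key : ∀ x, u ++ x ++ v ∈ (wit m).accepts ↔ q ∈ (wit m).evalFrom {p} x := fun x => by
    rw [NFA.mem_accepts, NFA.evalFrom_append, NFA.evalFrom_append, hu, hv]
    change (∃ t ∈ ({0} : Set (Fin (m + 2))), t ∈ _ '' (wit m).evalFrom (_ '' {0}) x) ↔ _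
    simp [Equiv.image_eq_preimage_symm]
  rw [← key, ← key, h]

/-- The binary version of an automaton over four letters, placed inside a larger state set. -/
def bin {σ τ : Type} (N : NFA (Bool × Bool) σ) (f : σ × Option Bool → τ) : NFA Bool τ where
  step q x := {q' | (∃ v, q = f (v, none) ∧ q' = f (v, some x)) ∨
    ∃ v b v', q = f (v, some b) ∧ v' ∈ N.step v (b, x) ∧ q' = f (v', none)}
  start := (fun v => f (v, none)) '' N.start
  accept := (fun v => f (v, none)) '' N.accept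

theorem bin_eval {σ τ : Type} (N : NFA (Bool × Bool) σ) {f : σ × Option Bool → τ}
    (hf : Function.Injective f) (u : List (Bool × Bool)) (S : Set σ) :
    (bin N f).evalFrom ((fun v => f (v, none)) '' S) (u.flatMap fun a => [a.1, a.2]) =
      (fun v => f (v, none)) '' N.evalFrom S u := by
  induction u generalizing S with
  | nil => rfl
  | cons a u ih =>
    rw [List.flatMap_cons, NFA.evalFrom_append, NFA.evalFrom_cons N, ← ih]
    congr 1
    ext q
    simp only [NFA.evalFrom_cons, NFA.evalFrom_nil, NFA.mem_stepSet, bin, Set.mem_ofPred_eq,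
      Set.mem_image]
    constructor
    · rintro ⟨t, ⟨t', ⟨v, hv, rfl⟩, h1⟩, h2⟩
      rcases h1 with ⟨v1, h1, rfl⟩ | ⟨v1, b, v', h1, _⟩
      · cases hf h1
        rcases h2 with ⟨v2, h2, _⟩ | ⟨v2, b, v', h2, h3, rfl⟩
        · cases hf h2
        · cases hf h2
          exact ⟨v', ⟨v, hv, h3⟩, rfl⟩
      · cases hf h1
    · rintro ⟨v', ⟨v, hv, h⟩, rfl⟩
      exact ⟨f (v, some a.1), ⟨_, ⟨v, hv, rfl⟩, Or.inl ⟨v, rfl, rfl⟩⟩,
        Or.inr ⟨v, a.1, v', rfl, h, rfl⟩⟩

theorem bin_accepts {σ τ : Type} (N : NFA (Bool × Bool) σ) {f : σ × Option Bool → τ}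
    (hf : Function.Injective f) (u : List (Bool × Bool)) :
    (u.flatMap fun a => [a.1, a.2]) ∈ (bin N f).accepts ↔ u ∈ N.accepts := by
  rw [NFA.mem_accepts, NFA.mem_accepts]
  change (∃ q ∈ (fun v => f (v, none)) '' N.accept, q ∈ (bin N f).evalFrom
    ((fun v => f (v, none)) '' N.start) _) ↔ _
  rw [bin_eval _ hf]
  constructor
  · rintro ⟨_, ⟨v, hv, rfl⟩, v', hv', h⟩
    cases hf h
    exact ⟨v, hv, hv'⟩
  · rintro ⟨v, hv, hv'⟩
    exact ⟨_, ⟨v, hv, rfl⟩, v, hv', rfl⟩

theorem nat_bound {n m j : ℕ} (hn : 3 * (m + 2) ≤ n) (hj : 6 * j ≤ m) :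
    ∃ N : NFA Bool (Fin n), (∃ q, N.start = {q}) ∧
      ∀ (s : ℕ) (M : TwoDFA Bool s), (∀ x, M.Accepts x ↔ x ∈ N.accepts) →
        (10 ^ 10 + 1) ^ j ≤ (10 ^ 10) ^ j * (4 * s) := by
  obtain ⟨f⟩ : Nonempty (Fin (m + 2) × Option Bool ↪ Fin n) :=
    Function.Embedding.nonempty_of_card_le (by simp only [Fintype.card_prod, Fintype.card_fin, Fintype.card_option, Fintype.card_bool, Nat.reduceAdd]; omega)
  refine ⟨bin (wit m) f, ⟨f (0, none), by simp only [bin, wit, finRotate_apply, ne_eq, exists_and_left, Bool.exists_bool, Set.image_singleton]⟩, fun s M hM => ?_⟩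
  obtain ⟨t, ht⟩ := euler (cell M.δ)
  let enc : List (Bool × Bool) → List (Bool ⊕ Bool) := fun u =>
    (u.flatMap fun a => [a.1, a.2]).map Sum.inl
  have happ : ∀ u v, enc (u ++ v) = enc u ++ enc v := by simp [enc]
  have hacc : ∀ u, u ∈ (wit m).accepts ↔ ∃ q ∈ M.final, beh (cell M.δ)
      (Sum.inr false :: enc u ++ [Sum.inr true]) (true, M.start) = some (true, q) := fun u =>
    ((accepts_iff M _).symm.trans ((hM _).trans (bin_accepts _ f.injective u))).symm
  let R : Dg (Fin s × Bool) → (Set (Fin (m + 2)) → Set (Fin (m + 2))) → Prop := fun g F =>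
    ∃ w, g = ((enc w).map t).prod ∧ ∀ S, (wit m).evalFrom S w = F S
  have hS : Sys Finset.univ R := by
    refine ⟨⟨[], rfl, fun S => by simp [pid]⟩, ?_, ?_, fun σ _ => ?_, fun p _ q _ => ?_⟩
    · rintro _ _ F G ⟨u, rfl, hu⟩ ⟨v, rfl, hv⟩
      exact ⟨u ++ v, by rw [happ, List.map_append, List.prod_append],
        fun S => by rw [NFA.evalFrom_append, hu, hv]; rfl⟩
    · rintro _ F G ⟨w, rfl, hw⟩ ⟨w', h, hw'⟩
      funext S
      rw [← hw, ← hw']
      refine wit_sep m w w' (fun u v => ?_) S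
      rw [hacc, hacc, ht _ (Sum.inr false :: enc (u ++ w' ++ v) ++ [Sum.inr true])]
      simp only [happ, List.map_append, List.map_cons, List.prod_append, List.prod_cons, h]
    · obtain ⟨w, hw⟩ := wit_pid m σ
      exact ⟨_, w, rfl, hw⟩
    · obtain ⟨w, hw⟩ := wit_ed m p q
      exact ⟨_, w, rfl, hw⟩
  refine Sys.iter j hS (by simp; omega) fun p hp q hq => ?_
  obtain ⟨g, hg⟩ := hS.edg p hp q hq
  exact ⟨g, hg, (Finset.card_le_univ _).trans (by simp only [Fintype.card_prod, Fintype.card_bool, Fintype.card_fin]; omega)⟩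

theorem main : ∃ c : ℝ, 0 < c ∧ ∃ n₀ : ℕ, ∀ n ≥ n₀, ∃ N : NFA Bool (Fin n), (∃ q, N.start = {q}) ∧
    ∀ (s : ℕ) (M : TwoDFA Bool s), (∀ w, M.Accepts w ↔ w ∈ N.accepts) →
      (2 : ℝ) ^ (c * n) ≤ s := by
  obtain ⟨r, hr⟩ : ∃ r : ℝ, r = (10 ^ 10 + 1) / 10 ^ 10 := ⟨_, rfl⟩
  have hr1 : 1 < r := by rw [hr, one_lt_div (by positivity)]; linarith only []
  have hL : 0 < Real.logb 2 r := Real.logb_pos one_lt_two hr1
  obtain ⟨k, hk⟩ := exists_nat_ge (2 / Real.logb 2 r)
  rw [div_le_iff₀ hL] at hk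
  refine ⟨Real.logb 2 r / 36, by positivity, 36 * (k + 2), fun n hn => ?_⟩
  obtain ⟨N, hN, h⟩ := nat_bound (n := n) (m := n / 3 - 2) (j := (n / 3 - 2) / 6)
    (by omega) (by omega)
  refine ⟨N, hN, fun s M hM => ?_⟩
  have h1 := h s M hM
  have h2 : n + 36 * k ≤ 36 * ((n / 3 - 2) / 6) := by omega
  generalize (n / 3 - 2) / 6 = j at h1 h2
  have h3 : r ^ j ≤ 4 * s := by
    rw [hr, div_pow, div_le_iff₀ (by positivity), mul_comm]
    exact_mod_cast h1
  have h4 : (n : ℝ) + 36 * k ≤ 36 * j := by exact_mod_cast h2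
  clear hr h1 h
  have h5 : (2 : ℝ) ^ (Real.logb 2 r / 36 * n + 2) ≤ r ^ j := by
    conv_rhs => rw [← Real.rpow_logb two_pos (by norm_num) (zero_lt_one.trans hr1),
      ← Real.rpow_natCast, ← Real.rpow_mul (by norm_num)]
    refine Real.rpow_le_rpow_of_exponent_le one_le_two ?_
    have := mul_le_mul_of_nonneg_left h4 hL.le
    linarith only [hk, this]
  rw [Real.rpow_add two_pos, Real.rpow_two] at h5
  linarith only [h3, h5]

end Pool.Agent.MP_47ff19_lc.SS

end
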