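import Pool.Agent.MP_47ff19_lc.Mg.H43_EDMain

-- part MP_47ff19_lc.H43.Disc
section

/-! Discrepancy and bias. -/

namespace Pool.Agent.MP_47ff19_lc.H43

open Finset

/-- Cauchy-Schwarz in `b`: the square is at most
`#B * ∑ a a', ∑ b, c a b * c a' b ≤ #B ^ 2 * (#S + ε ^ 2 * #S ^ 2)`. -/
theorem disc {α β : Type} (S : Finset α) (B : Finset β) (q : β → ℝ) (c : α → β → ℝ) {ε : ℝ}
    (hε : 0 ≤ ε) (hq : ∀ b, |q b| ≤ 1) (hc : ∀ a b, |c a b| ≤ 1)
    (h : ∀ a ∈ S, ∀ a' ∈ S, a ≠ a' → |∑ b ∈ B, c a b * c a' b| ≤ ε ^ 2 * #B) :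
    |∑ a ∈ S, ∑ b ∈ B, q b * c a b| ≤ #B * (√(#S) + ε * #S) := by
  classical
  have hB : (0 : ℝ) ≤ #B := Nat.cast_nonneg _
  have hS : (0 : ℝ) ≤ #S := Nat.cast_nonneg _
  have h1 : ∑ b ∈ B, q b ^ 2 ≤ #B := by
    calc _ ≤ ∑ _b ∈ B, (1 : ℝ) := sum_le_sum fun b _ => (sq_le_one_iff_abs_le_one _).2 (hq b)
      _ = _ := by simp
  have h2 : ∀ a ∈ S, ∀ a' ∈ S, ∑ b ∈ B, c a b * c a' b ≤
      (if a = a' then (#B : ℝ) else 0) + ε ^ 2 * #B := by
    intro a ha a' ha'
    split_ifs with e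
    · subst e
      have : ∑ b ∈ B, c a b * c a b ≤ #B := by
        calc _ ≤ ∑ _b ∈ B, (1 : ℝ) := sum_le_sum fun b _ => by
              rw [← sq]; exact (sq_le_one_iff_abs_le_one _).2 (hc a b)
          _ = _ := by simp
      have : 0 ≤ ε ^ 2 * #B := by positivity
      linarith
    · rw [zero_add]
      exact (le_abs_self _).trans (h a ha a' ha' e)
  have h3 : ∑ b ∈ B, (∑ a ∈ S, c a b) ^ 2 ≤ #B * (#S + ε ^ 2 * #S ^ 2) := by
    calc _ = ∑ a ∈ S, ∑ a' ∈ S, ∑ b ∈ B, c a b * c a' b := by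
          simp only [sq, sum_mul_sum]
          rw [sum_comm]
          exact sum_congr rfl fun a _ => sum_comm
      _ ≤ ∑ a ∈ S, ∑ a' ∈ S, ((if a = a' then (#B : ℝ) else 0) + ε ^ 2 * #B) :=
          sum_le_sum fun a ha => sum_le_sum fun a' ha' => h2 a ha a' ha'
      _ = ∑ _a ∈ S, ((#B : ℝ) + #S * (ε ^ 2 * #B)) := sum_congr rfl fun a ha => by
          rw [sum_add_distrib, sum_ite_eq, if_pos ha, sum_const, nsmul_eq_mul]
      _ = _ := by rw [sum_const, nsmul_eq_mul]; ring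
  rw [sum_comm]
  simp only [← mul_sum]
  refine abs_le_of_sq_le_sq' ?_ (by positivity) |> abs_le.2
  refine (sum_mul_sq_le_sq_mul_sq _ _ _).trans ?_
  refine (mul_le_mul h1 h3 (sum_nonneg fun _ _ => sq_nonneg _) hB).trans ?_
  have h4 := Real.sq_sqrt hS
  have h5 : 0 ≤ √(#S : ℝ) * (ε * #S) := by positivity
  rw [← mul_assoc, ← sq, mul_pow]
  exact mul_le_mul_of_nonneg_left (by nlinarith) (sq_nonneg _)

theorem sg_add (a b : ZMod 2) : sg (a + b) = sg a * sg b := by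
  have h : ∀ x : ZMod 2, x = 0 ∨ x = 1 := by decide
  have h1 : (1 : ZMod 2) + 1 = 0 := by decide
  rcases h a with rfl | rfl <;> rcases h b with rfl | rfl <;> simp [sg, h1]

theorem abs_sg (a : ZMod 2) : |sg a| = 1 := by
  unfold sg
  split_ifs <;> simp

variable {n : ℕ}

/-- orthogonality: if `c k ≠ 0` for some `k ∈ A'`, adding `Pi.single k 1` reverses the sign -/
theorem sum_sg (A' : Finset (Fin n)) (c : Fin n → ZMod 2) :
    ∑ γ ∈ sup A', sg (∑ k, γ k * c k) = if ∀ k ∈ A', c k = 0 then (#(sup A') : ℝ) else 0 := by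
  split_ifs with h
  · have : ∀ γ ∈ sup A', sg (∑ k, γ k * c k) = 1 := fun γ hγ => by
      rw [sum_eq_zero, sg, if_pos rfl]
      intro k _
      by_cases hk : k ∈ A'
      · rw [h k hk, mul_zero]
      · rw [(mem_filter.1 hγ).2 k hk, zero_mul]
    rw [sum_congr rfl this]
    simp
  · push Not at h
    obtain ⟨k, hk, hc⟩ := h
    have h0 : ∀ x : ZMod 2, x ≠ 0 → x = 1 := by decide
    have h1 : ∀ x : ZMod 2, x + 1 + 1 = x ∧ x + 1 ≠ x := by decide
    refine sum_involution (fun γ _ => γ + Pi.single k 1) (fun γ _ => ?_) (fun γ _ _ e => ?_)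
      (fun γ hγ => ?_) fun γ _ => ?_
    · have : ∑ j, (γ + Pi.single k 1 : Fin n → ZMod 2) j * c j = ∑ j, γ j * c j + 1 := by
        simp [add_mul, sum_add_distrib, Pi.single_apply, h0 _ hc]
      rw [this, sg_add]
      simp [sg]
    · have := congrFun e k
      simp at this
    · refine mem_filter.2 ⟨mem_univ _, fun j hj => ?_⟩
      have : j ≠ k := fun e => hj (e ▸ hk)
      simp [(mem_filter.1 hγ).2 j hj, this]
    · funext j
      by_cases e : j = k
      · subst e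
        simpa using (h1 (γ j)).1
      · simp [e]

/-- With `c β k = ∑ j, (v j + β j) * H j k`, the sum over `γ` has modulus `#(sup A')` if `c β`
vanishes on `A'` and is zero otherwise; two such `β` differ by an element of the kernel. -/
theorem bias (H : Fin n → Fin n → ZMod 2) (A A' : Finset (Fin n)) (v w : Fin n → ZMod 2) :
    |∑ β ∈ sup A, ∑ γ ∈ sup A', sg (∑ j, ∑ k, (v j + β j) * (w k + γ k) * H j k)| ≤
      #{β ∈ sup A | ∀ k ∈ A', ∑ j, β j * H j k = 0} * #(sup A') := by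
  obtain ⟨c, hc⟩ : ∃ c : (Fin n → ZMod 2) → Fin n → ZMod 2,
      c = fun β k => ∑ j, (v j + β j) * H j k := ⟨_, rfl⟩
  have h1 : ∀ β, |∑ γ ∈ sup A', sg (∑ j, ∑ k, (v j + β j) * (w k + γ k) * H j k)| =
      if ∀ k ∈ A', c β k = 0 then (#(sup A') : ℝ) else 0 := by
    intro β
    have e : ∀ γ : Fin n → ZMod 2, ∑ j, ∑ k, (v j + β j) * (w k + γ k) * H j k =
        ∑ k, w k * c β k + ∑ k, γ k * c β k := fun γ => by
      rw [sum_comm, ← sum_add_distrib, hc]
      refine sum_congr rfl fun k _ => ?_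
      rw [← add_mul, mul_sum]
      exact sum_congr rfl fun j _ => by ring
    simp only [e, sg_add, ← mul_sum]
    rw [abs_mul, abs_sg, one_mul, sum_sg]
    split_ifs <;> simp
  refine (abs_sum_le_sum_abs _ _).trans ?_
  simp only [h1]
  rw [← sum_filter, sum_const, nsmul_eq_mul]
  refine mul_le_mul_of_nonneg_right (Nat.cast_le.2 ?_) (Nat.cast_nonneg _)
  rcases ((sup A).filter fun β => ∀ k ∈ A', c β k = 0).eq_empty_or_nonempty with e | ⟨β₀, h0⟩
  · rw [e]; simp
  obtain ⟨a0, b0⟩ := mem_filter.1 h0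
  refine card_le_card_of_injOn (fun β => β - β₀) (fun β hβ => ?_)
    fun β _ β' _ e => sub_left_injective e
  obtain ⟨a1, b1⟩ := mem_filter.1 (mem_coe.1 hβ)
  refine mem_coe.2 (mem_filter.2 ⟨mem_filter.2 ⟨mem_univ _, fun j hj => ?_⟩, fun k hk => ?_⟩)
  · simp [(mem_filter.1 a0).2 j hj, (mem_filter.1 a1).2 j hj]
  · have e0 := b0 k hk
    have e1 := b1 k hk
    rw [hc] at e0 e1
    rw [← sub_self (0 : ZMod 2)]
    nth_rewrite 1 [← e1]
    rw [← e0, ← sum_sub_distrib]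
    exact sum_congr rfl fun j _ => by simp only [Pi.sub_apply]; ring

end Pool.Agent.MP_47ff19_lc.H43

end

-- part MP_47ff19_lc.H43.CubRect
section

/-! The cubic form is balanced on unbalanced rectangles. -/

namespace Pool.Agent.MP_47ff19_lc.H43

open Finset Sum

variable {n : ℕ}

/-- the shift of the parts `u`, `v`, `w` of an input -/
def sh (x : Var n → ZMod 2) (a β γ : Fin n → ZMod 2) : Var n → ZMod 2 :=
  x + Sum.elim a (Sum.elim β (Sum.elim γ 0))

theorem cub_sh (x : Var n → ZMod 2) (a a' β γ : Fin n → ZMod 2) :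
    cub n (sh x a β γ) + cub n (sh x a' β γ) = ∑ j, ∑ k, (x (inr (inl j)) + β j) *
      (x (inr (inr (inl k))) + γ k) * conv (a + a') (yy x) j k := by
  have h2 : (2 : ZMod 2) = 0 := by decide
  simp only [cub, conv, sh, yy, Pi.add_apply, Sum.elim_inl, Sum.elim_inr, Pi.zero_apply, add_zero,
    ← sum_add_distrib, mul_sum]
  rw [sum_comm]
  refine sum_congr rfl fun j _ => ?_
  rw [sum_comm]
  refine sum_congr rfl fun k _ => sum_congr rfl fun i _ => ?_
  linear_combination (x (inl i) * (x (inr (inl j)) + β j) * (x (inr (inr (inl k))) + γ k) *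
    x (inr (inr (inr ⟨i + j + k, by omega⟩)))) * h2

theorem CubRect_shift (f : (Var n → ZMod 2) → ℝ) (a β γ : Fin n → ZMod 2) :
    ∑ x, f (sh x a β γ) = ∑ x, f x :=
  Equiv.sum_comp (Equiv.addRight (Sum.elim a (Sum.elim β (Sum.elim γ 0)) : Var n → ZMod 2)) f

theorem CubRect_inv1 {A A' : Finset (Fin n)} {G : Finset (Var n → ZMod 2)} (h : Inv (e2 A A') G)
    (x : Var n → ZMod 2) (a : Fin n → ZMod 2) {β γ : Fin n → ZMod 2} (hβ : β ∈ sup A)
    (hγ : γ ∈ sup A') : sh x a β γ ∈ G ↔ sh x a 0 0 ∈ G := by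
  have e : ∀ v, v ∉ e2 A A' → sh x a β γ v = sh x a 0 0 v := by
    rintro (i | j | k | l) hv
    · rfl
    · exact congrArg (x _ + ·) ((mem_filter.1 hβ).2 j fun hj =>
        hv (mem_union_left _ (mem_image_of_mem _ hj)))
    · exact congrArg (x _ + ·) ((mem_filter.1 hγ).2 k fun hk =>
        hv (mem_union_right _ (mem_image_of_mem _ hk)))
    · rfl
  exact ⟨fun hx => h _ hx _ fun v hv => (e v hv).symm, fun hx => h _ hx _ e⟩

theorem CubRect_inv2 {I : Finset (Fin n)} {G : Finset (Var n → ZMod 2)} (h : Inv (e1 I) G)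
    (x : Var n → ZMod 2) {a : Fin n → ZMod 2} (ha : a ∈ sup I) (β γ : Fin n → ZMod 2) :
    sh x a β γ ∈ G ↔ sh x 0 β γ ∈ G := by
  have e : ∀ v, v ∉ e1 I → sh x a β γ v = sh x 0 β γ v := by
    rintro (i | j) hv
    · exact congrArg (x _ + ·) ((mem_filter.1 ha).2 i fun hi => hv (mem_image_of_mem _ hi))
    · rfl
  exact ⟨fun hx => h _ hx _ fun v hv => (e v hv).symm, fun hx => h _ hx _ e⟩

theorem CubRect_add {I : Finset (Fin n)} {a a' : Fin n → ZMod 2} (ha : a ∈ sup I)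
    (ha' : a' ∈ sup I) : a + a' ∈ sup I :=
  mem_filter.2 ⟨mem_univ _, fun j hj => by
    rw [Pi.add_apply, (mem_filter.1 ha).2 j hj, (mem_filter.1 ha').2 j hj, add_zero]⟩

theorem CubRect_ne {a a' : Fin n → ZMod 2} (h : a ≠ a') : a + a' ≠ 0 := by
  have h2 : ∀ a b : ZMod 2, a + b = 0 → a = b := by decide
  exact fun e => h (funext fun j => h2 _ _ (congrFun e j))

theorem CubRect_sqrt {I : Finset (Fin n)} {p k : ℕ} (hp : 2 * p ≤ #I) (hk : k ≤ #(sup I)) :
    √(k : ℝ) ≤ (1 / 2) ^ p * #(sup I) := by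
  obtain ⟨r, hr⟩ := Nat.exists_eq_add_of_le hp
  have h1 : (k : ℝ) ≤ #(sup I) := Nat.cast_le.2 hk
  rw [card_sup, hr] at h1 ⊢
  refine Real.sqrt_le_iff.2 ⟨by positivity, h1.trans ?_⟩
  have e : ((1 / 2 : ℝ) ^ p * ((2 ^ (2 * p + r) : ℕ) : ℝ)) ^ 2 = 2 ^ (2 * p + r) * 2 ^ r := by
    rw [one_div, inv_pow]
    push_cast
    field_simp
    ring
  rw [e]
  push_cast
  exact le_mul_of_one_le_right (by positivity) (one_le_pow₀ one_le_two)

theorem CubRect_pair (x : Var n → ZMod 2) {a a' : Fin n → ZMod 2} {A A' : Finset (Fin n)} {s : ℕ}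
    (h : #(ker (a + a') (yy (sh x a 0 0)) A A') * 2 ^ (2 * s) ≤ 2 ^ #A) :
    |∑ b ∈ sup A ×ˢ sup A', sg (cub n (sh x a b.1 b.2)) * sg (cub n (sh x a' b.1 b.2))| ≤
      ((1 / 2) ^ s) ^ 2 * (#(sup A ×ˢ sup A') : ℝ) := by
  have e : yy (sh x a 0 0) = yy x := funext fun _ => add_zero _
  rw [e] at h
  simp only [← sg_add, cub_sh]
  rw [sum_product, card_product, Nat.cast_mul, ← mul_assoc]
  refine (bias (conv (a + a') (yy x)) A A' (fun j => x (inr (inl j)))
    fun k => x (inr (inr (inl k)))).trans (mul_le_mul_of_nonneg_right ?_ (Nat.cast_nonneg _))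
  have h1 : (#(ker (a + a') (yy x) A A') : ℝ) * 2 ^ (2 * s) ≤ 2 ^ #A := by exact_mod_cast h
  rw [card_sup, ← pow_mul, mul_comm s, one_div, inv_pow, inv_mul_eq_div, le_div_iff₀ (by positivity)]
  push_cast
  exact h1

/-- For `a ∈ sup I`, `β ∈ sup A`, `γ ∈ sup A'` the map `x ↦ sh x a β γ` is a bijection, and
`sh x a β γ ∈ G1 ↔ sh x a 0 0 ∈ G1`, `sh x a β γ ∈ G2 ↔ sh x 0 β γ ∈ G2`. So
`#(sup I) * #(sup A) * #(sup A')` times the sum is the sum over all `x` of
`∑ a ∈ S x, ∑ (β, γ), q x (β, γ) * sg (cub n (sh x a β γ))` with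
`S x = {a ∈ sup I | sh x a 0 0 ∈ G1}` and `q x` the indicator function of `sh x 0 β γ ∈ G2`. Apply
`disc` with `ε = (1 / 2) ^ s` (`sg_add`, `cub_sh`, `bias`; `a + a' ≠ 0` when `a ≠ a'`, and
`yy (sh x a 0 0) = yy x`). Finally `√(#(S x)) ≤ √(#(sup I)) ≤ (1 / 2) ^ p * #(sup I)` and
`∑ x, #(S x) = #(sup I) * #G1`. -/
theorem cub_rect (I A A' : Finset (Fin n)) {G1 G2 : Finset (Var n → ZMod 2)}
    (h1 : Inv (e2 A A') G1) (h2 : Inv (e1 I) G2) {p s : ℕ} (hp : 2 * p ≤ #I)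
    (hk : ∀ x ∈ G1, ∀ lam ∈ sup I, lam ≠ 0 → #(ker lam (yy x) A A') * 2 ^ (2 * s) ≤ 2 ^ #A) :
    |∑ x ∈ G1 ∩ G2, sg (cub n x)| ≤
      (1 / 2) ^ s * #G1 + (1 / 2) ^ p * Fintype.card (Var n → ZMod 2) := by
  classical
  have hε : (0 : ℝ) ≤ (1 / 2) ^ s := by positivity
  have hU : (0 : ℝ) < #(sup I) := by rw [card_sup]; positivity
  have hB : (0 : ℝ) < #(sup A ×ˢ sup A') := by rw [card_product, card_sup, card_sup]; positivity
  have e1 : (#(sup I) : ℝ) * (#(sup A ×ˢ sup A') * ∑ x ∈ G1 ∩ G2, sg (cub n x)) =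
      ∑ x, ∑ a ∈ {a ∈ sup I | sh x a 0 0 ∈ G1}, ∑ b ∈ sup A ×ˢ sup A',
        (if sh x 0 b.1 b.2 ∈ G2 then (1 : ℝ) else 0) * sg (cub n (sh x a b.1 b.2)) := by
    simp only [sum_filter]
    rw [sum_comm, ← nsmul_eq_mul, ← sum_const]
    refine sum_congr rfl fun a ha => ?_
    have e2 : ∀ x, (if sh x a 0 0 ∈ G1 then ∑ b ∈ sup A ×ˢ sup A',
        (if sh x 0 b.1 b.2 ∈ G2 then (1 : ℝ) else 0) * sg (cub n (sh x a b.1 b.2)) else 0) =
        ∑ b ∈ sup A ×ˢ sup A',
          if sh x a b.1 b.2 ∈ G1 ∩ G2 then sg (cub n (sh x a b.1 b.2)) else 0 := fun x => by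
      split_ifs with c
      · refine sum_congr rfl fun b hb => ?_
        have c1 := (CubRect_inv1 h1 x a (mem_product.1 hb).1 (mem_product.1 hb).2).2 c
        simp only [mem_inter, c1, true_and, CubRect_inv2 h2 x ha, ite_mul, one_mul, zero_mul]
      · refine (sum_eq_zero fun b hb => if_neg fun c1 => c ?_).symm
        exact (CubRect_inv1 h1 x a (mem_product.1 hb).1 (mem_product.1 hb).2).1 (mem_inter.1 c1).1
    simp only [e2]
    rw [sum_comm, ← nsmul_eq_mul, ← sum_const]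
    refine sum_congr rfl fun b _ => ?_
    rw [CubRect_shift (fun x => if x ∈ G1 ∩ G2 then sg (cub n x) else 0), sum_ite_mem, univ_inter]
  have e3 : ∑ x, (#{a ∈ sup I | sh x a 0 0 ∈ G1} : ℝ) = #(sup I) * #G1 := by
    simp only [card_filter, Nat.cast_sum, Nat.cast_ite, Nat.cast_one, Nat.cast_zero]
    rw [sum_comm, ← nsmul_eq_mul, ← sum_const]
    refine sum_congr rfl fun a _ => ?_
    rw [CubRect_shift (fun x => if x ∈ G1 then (1 : ℝ) else 0), sum_ite_mem, univ_inter, sum_const,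
      nsmul_eq_mul, mul_one]
  have e4 : ∀ x, |∑ a ∈ {a ∈ sup I | sh x a 0 0 ∈ G1}, ∑ b ∈ sup A ×ˢ sup A',
      (if sh x 0 b.1 b.2 ∈ G2 then (1 : ℝ) else 0) * sg (cub n (sh x a b.1 b.2))| ≤
      #(sup A ×ˢ sup A') * ((1 / 2) ^ p * #(sup I) +
        (1 / 2) ^ s * #{a ∈ sup I | sh x a 0 0 ∈ G1}) := fun x => by
    refine (disc _ _ _ (fun a (b : (Fin n → ZMod 2) × (Fin n → ZMod 2)) =>
      sg (cub n (sh x a b.1 b.2))) hε (fun b => ?_) (fun a b => (abs_sg _).le)
      fun a ha a' ha' hne => ?_).trans (mul_le_mul_of_nonneg_left (add_le_add ?_ le_rfl) hB.le)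
    · split_ifs
      · exact abs_one.le
      · exact abs_zero.trans_le zero_le_one
    · exact CubRect_pair x (hk _ (mem_filter.1 ha).2 (a + a') (CubRect_add (mem_filter.1 ha).1
        (mem_filter.1 ha').1) (CubRect_ne hne))
    · exact CubRect_sqrt hp (card_filter_le _ _)
  have e5 := (abs_sum_le_sum_abs _ _).trans (sum_le_sum fun x (_ : x ∈ univ) => e4 x)
  rw [← e1, ← mul_sum, sum_add_distrib, ← mul_sum _ _ ((1 / 2 : ℝ) ^ s), e3, sum_const, card_univ,
    nsmul_eq_mul, abs_mul, abs_mul, abs_of_pos hU, abs_of_pos hB] at e5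
  refine le_of_mul_le_mul_left ?_ (mul_pos hU hB)
  linarith only [e5]

end Pool.Agent.MP_47ff19_lc.H43

end

-- part MP_47ff19_lc.H43.Ker
section

/-! Large kernels give many independent linear equations. -/

namespace Pool.Agent.MP_47ff19_lc.H43

open Finset

/-- A triangular system. The restriction to the complement of `Top` is injective on the solutions:
if two of them differ, look at the least index `p` where they differ. -/
theorem card_tri {N : ℕ} (Top : Finset (Fin N)) (c : Fin N → Fin N → ZMod 2)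
    (h1 : ∀ p ∈ Top, c p p = 1) (h2 : ∀ p ∈ Top, ∀ s, p < s → c p s = 0) :
    #{y : Fin N → ZMod 2 | ∀ p ∈ Top, ∑ s, c p s * y s = 0} * 2 ^ #Top ≤ 2 ^ N := by
  have hinj : Set.InjOn (fun (y : Fin N → ZMod 2) i => if i ∈ Top then 0 else y i)
      (({y : Fin N → ZMod 2 | ∀ p ∈ Top, ∑ s, c p s * y s = 0} : Finset _) : Set _) := by
    intro y hy y' hy' e
    have hy1 := (mem_filter.1 (mem_coe.1 hy)).2
    have hy2 := (mem_filter.1 (mem_coe.1 hy')).2
    funext p
    induction p using WellFoundedLT.induction with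
    | ind p ih =>
      by_cases hp : p ∈ Top
      · have a1 : ∑ s, c p s * (y s - y' s) = 0 := by
          simp only [mul_sub, sum_sub_distrib, hy1 p hp, hy2 p hp, sub_zero]
        rw [sum_eq_single p (fun s _ hs => ?_) (fun h => absurd (mem_univ p) h), h1 p hp,
          one_mul] at a1
        · exact sub_eq_zero.1 a1
        · rcases lt_or_gt_of_ne hs with h | h
          · rw [ih s h, sub_self, mul_zero]
          · rw [h2 p hp s h, zero_mul]
      · simpa only [if_neg hp] using congrFun e p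
  have hle := card_le_card_of_injOn _ (t := sup Topᶜ) (fun y _ => mem_coe.2 (mem_filter.2
    ⟨mem_univ _, fun j hj => if_pos (by simpa only [mem_compl, not_not] using hj)⟩)) hinj
  rw [card_sup] at hle
  refine (Nat.mul_le_mul_right _ hle).trans_eq ?_
  rw [← pow_add, card_compl_add_card, Fintype.card_fin]

variable {n : ℕ}

/-- `d` is the largest element of the support of `β` -/
def IsTop (β : Fin n → ZMod 2) (d : Fin n) : Prop := β d = 1 ∧ ∀ j, d < j → β j = 0

theorem exists_top {β : Fin n → ZMod 2} (h : β ≠ 0) : ∃ d, IsTop β d := by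
  have h0 : ∀ a : ZMod 2, a ≠ 0 → a = 1 := by decide
  have hne : ({j | β j ≠ 0} : Finset (Fin n)).Nonempty := by
    obtain ⟨j, hj⟩ := Function.ne_iff.1 h
    exact ⟨j, mem_filter.2 ⟨mem_univ _, hj⟩⟩
  refine ⟨max' _ hne, h0 _ (mem_filter.1 (max'_mem _ hne)).2, fun j hj => ?_⟩
  by_contra hj'
  exact absurd (le_max' _ j (mem_filter.2 ⟨mem_univ _, hj'⟩)) (not_le.2 hj)

theorem Ker_one (A : Finset (Fin n)) (K : Finset (Fin n → ZMod 2)) (hK : K ⊆ sup A)
    (hadd : ∀ β ∈ K, ∀ β' ∈ K, β + β' ∈ K) {R : ℕ} (hR : 2 ^ #A < #K * 2 ^ R) {B : Finset (Fin n)}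
    (hB : B ⊆ A) (hBR : #B = R) : ∃ β ∈ K, β ≠ 0 ∧ ∀ j, j ∉ B → β j = 0 := by
  have h2 : ∀ a b : ZMod 2, a + b = 0 ↔ a = b := by decide
  have hc : #(sup (A \ B)) < #K := by
    rw [card_sup]
    refine lt_of_mul_lt_mul_right (a := 2 ^ R) ?_ (Nat.zero_le _)
    rwa [← pow_add, ← hBR, card_sdiff_add_card_eq_card hB, hBR]
  obtain ⟨β, hβ, β', hβ', hne, e⟩ := exists_ne_map_eq_of_card_lt_of_maps_to hc
    (f := fun (y : Fin n → ZMod 2) i => if i ∈ B then 0 else y i) fun y hy =>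
    mem_coe.2 (mem_filter.2 ⟨mem_univ _, fun j hj => by
      beta_reduce
      split_ifs with hjB
      · rfl
      · exact (mem_filter.1 (hK hy)).2 j fun hjA => hj (mem_sdiff.2 ⟨hjA, hjB⟩)⟩)
  refine ⟨β + β', hadd β hβ β' hβ', fun h => hne (funext fun j => (h2 _ _).1 (congrFun h j)),
    fun j hj => (h2 _ _).2 ?_⟩
  simpa only [if_neg hj] using congrFun e j

/-- For `B ⊆ A` with `#B = R`, two elements of `K` agree off `B` (pigeonhole, `card_sup`), and
their sum is a nonzero element of `K ∩ sup B`. Induction on `t`, choosing `B` in `A` outside the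
set of the tops found so far (`t - 1 + R ≤ #A`). -/
theorem exists_vecs (A : Finset (Fin n)) (K : Finset (Fin n → ZMod 2)) (hK : K ⊆ sup A)
    (hadd : ∀ β ∈ K, ∀ β' ∈ K, β + β' ∈ K) {R t : ℕ} (hR : 2 ^ #A < #K * 2 ^ R)
    (ht : t + R ≤ #A + 1) : ∃ (β : Fin t → Fin n → ZMod 2) (d : Fin t → Fin n),
      Function.Injective d ∧ ∀ s, β s ∈ K ∧ IsTop (β s) (d s) ∧ #{j | β s j ≠ 0} ≤ R := by
  induction t with
  | zero => exact ⟨Fin.elim0, Fin.elim0, fun a => a.elim0, fun a => a.elim0⟩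
  | succ t ih =>
    obtain ⟨β, d, hd, h⟩ := ih (by omega)
    have c1 := le_card_sdiff (univ.image d) A
    have c2 : #(univ.image d) ≤ t := card_image_le.trans_eq (card_fin t)
    obtain ⟨B, hB, hBR⟩ := exists_subset_card_eq (s := A \ univ.image d) (n := R) (by omega)
    obtain ⟨β₀, k0, n0, z0⟩ := Ker_one A K hK hadd hR (hB.trans sdiff_subset) hBR
    obtain ⟨d₀, hd₀⟩ := exists_top n0
    have m0 : d₀ ∈ B := by
      by_contra hc
      exact zero_ne_one ((z0 d₀ hc).symm.trans hd₀.1)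
    refine ⟨Fin.cons β₀ β, Fin.cons d₀ d, Fin.cons_injective_iff.2 ⟨?_, hd⟩, fun s => ?_⟩
    · rintro ⟨s, hs⟩
      exact (mem_sdiff.1 (hB m0)).2 (mem_image.2 ⟨s, mem_univ _, hs⟩)
    · refine Fin.cases ?_ (fun s => ?_) s
      · refine ⟨k0, hd₀, (card_le_card fun j hj => ?_).trans hBR.le⟩
        by_contra hc
        exact (mem_filter.1 hj).2 (z0 j hc)
      · exact h s

end Pool.Agent.MP_47ff19_lc.H43

end

-- part MP_47ff19_lc.H43.Sol
section

/-! The number of seeds that satisfy the equations. -/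

namespace Pool.Agent.MP_47ff19_lc.H43

open Finset

variable {n : ℕ}

/-- the translate `d + A'` -/
def Sol_tr (A' : Finset (Fin n)) (d : Fin n) : Finset ℕ := A'.image fun k => d.val + k.val

theorem Sol_card_tr (A' : Finset (Fin n)) (d : Fin n) : #(Sol_tr A' d) = #A' :=
  card_image_of_injective _ fun _ _ e => Fin.ext (Nat.add_left_cancel e)

theorem Sol_inter_lt {h : ℕ} {A' : Finset (Fin n)} (hA : Sid h A') {d e : Fin n} (hde : e < d) :
    #(Sol_tr A' e ∩ Sol_tr A' d) ≤ h := by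
  have hde' : e.val < d.val := hde
  refine le_trans (card_le_card (t := ({k ∈ A' | ∃ k' ∈ A', k'.val = k.val + (d.val - e.val)} :
    Finset (Fin n)).image fun k => d.val + k.val) fun x hx => ?_)
    (card_image_le.trans (hA _ (by omega)))
  simp only [Sol_tr, mem_inter, mem_image, mem_filter] at hx ⊢
  obtain ⟨⟨k', h1, h2⟩, k, h3, h4⟩ := hx
  exact ⟨k, ⟨h3, k', h1, by omega⟩, h4⟩

theorem Sol_inter {h : ℕ} {A' : Finset (Fin n)} (hA : Sid h A') {d e : Fin n} (hde : e ≠ d) :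
    #(Sol_tr A' e ∩ Sol_tr A' d) ≤ h := by
  rcases lt_or_gt_of_ne hde with h1 | h1
  · exact Sol_inter_lt hA h1
  · rw [inter_comm]; exact Sol_inter_lt hA h1

theorem Sol_bonf {h : ℕ} {A' : Finset (Fin n)} (hA : Sid h A') (Dd : Finset (Fin n)) :
    2 * (#Dd * #A') ≤ 2 * #(Dd.biUnion (Sol_tr A')) + #Dd * (#Dd * h) := by
  induction Dd using Finset.induction_on with
  | empty => simp
  | insert d Dd hd ih =>
    have h1 := card_union_add_card_inter (Sol_tr A' d) (Dd.biUnion (Sol_tr A'))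
    have h2 : #(Sol_tr A' d ∩ Dd.biUnion (Sol_tr A')) ≤ #Dd * h := by
      rw [inter_comm, biUnion_inter]
      exact card_biUnion_le_card_mul _ _ _ fun e he => Sol_inter hA fun a => hd (a ▸ he)
    rw [Sol_card_tr] at h1
    rw [biUnion_insert, card_insert_of_notMem hd]
    nlinarith [Nat.zero_le h]

/-- Bonferroni: adding the translates `d + A'` one at a time, the `s`-th one meets each of the
earlier ones in at most `h` points, so the union has at least `t m - t (t - 1) h / 2` points. -/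
theorem card_sumset {h : ℕ} {A' : Finset (Fin n)} (hA : Sid h A') (Dd : Finset (Fin n))
    (ht : #Dd * h ≤ #A') :
    #Dd * #A' ≤ 2 * #((Dd ×ˢ A').image fun p => p.1.val + p.2.val) := by
  have h1 : ((Dd ×ˢ A').image fun p => p.1.val + p.2.val) = Dd.biUnion (Sol_tr A') := by
    ext x
    simp only [Sol_tr, mem_image, mem_biUnion, mem_product, Prod.exists]
    exact ⟨fun ⟨a, b, ⟨h1, h2⟩, h3⟩ => ⟨a, h1, b, h2, h3⟩,
      fun ⟨a, h1, b, h2, h3⟩ => ⟨a, b, ⟨h1, h2⟩, h3⟩⟩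
  have h2 := Sol_bonf hA Dd
  have h3 := Nat.mul_le_mul_left #Dd ht
  rw [h1]
  omega

theorem Sol_row {lam β : Fin n → ZMod 2} {i0 d : Fin n} (hl : IsTop lam i0) (hβ : IsTop β d)
    (k : Fin n) (q : Fin (3 * n)) (hq : q.val = i0 + d + k) : ∃ c : Fin (3 * n) → ZMod 2,
      c q = 1 ∧ (∀ r, q < r → c r = 0) ∧ ∀ y, ∑ r, c r * y r = ∑ j, β j * conv lam y j k := by
  have key : ∀ j i : Fin n, i0.val + d.val ≤ i.val + j.val → ¬ (j = d ∧ i = i0) →
      β j * lam i = 0 := fun j i h1 h2 => by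
    by_cases h3 : d < j
    · rw [hβ.2 j h3, zero_mul]
    · have h4 : j.val ≤ d.val := not_lt.1 h3
      rw [hl.2 i (by
        by_contra h5
        have h6 : i.val ≤ i0.val := not_lt.1 h5
        exact h2 ⟨Fin.ext (by omega), Fin.ext (by omega)⟩), mul_zero]
  refine ⟨fun r => ∑ j : Fin n, ∑ i : Fin n,
    if (⟨i + j + k, by omega⟩ : Fin (3 * n)) = r then β j * lam i else 0, ?_, fun r hr => ?_,
    fun y => ?_⟩
  · have h1 : ∀ j i : Fin n, ¬ (j = d ∧ i = i0) →
        (if (⟨i + j + k, by omega⟩ : Fin (3 * n)) = q then β j * lam i else 0) = 0 := by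
      intro j i h2
      split_ifs with h3
      · exact key j i (by have := congrArg Fin.val h3; simp only at this; omega) h2
      · rfl
    beta_reduce
    rw [sum_eq_single d (fun j _ hj => sum_eq_zero fun i _ => h1 j i fun a => hj a.1) (by simp),
      sum_eq_single i0 (fun i _ hi => h1 d i fun a => hi a.2) (by simp),
      if_pos (Fin.ext hq.symm), hβ.1, hl.1, one_mul]
  · have hr' : q.val < r.val := hr
    refine sum_eq_zero fun j _ => sum_eq_zero fun i _ => ?_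
    split_ifs with h3
    · have := congrArg Fin.val h3
      simp only at this
      exact key j i (by omega) (by rintro ⟨rfl, rfl⟩; omega)
    · rfl
  · simp only [sum_mul, conv, mul_sum]
    rw [sum_comm]
    refine sum_congr rfl fun j _ => ?_
    rw [sum_comm]
    refine sum_congr rfl fun i _ => ?_
    simp only [ite_mul, zero_mul, sum_ite_eq, mem_univ, if_true, mul_assoc]

/-- Let `i0` be the top of `lam`. The equation for `(s, k)` reads `∑ q, c q * y q = 0`, where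
`c q = ∑ j i, if i + j + k = q then β s j * lam i else 0` is one at `q = i0 + d s + k` and zero
for larger `q`. Choose one pair `(s, k)` for each value of `d s + k`; use `card_tri` and
`card_sumset`. -/
theorem card_sol {lam : Fin n → ZMod 2} (hl : lam ≠ 0) {h t p : ℕ} {A' : Finset (Fin n)}
    (hA : Sid h A') (β : Fin t → Fin n → ZMod 2) (d : Fin t → Fin n) (hd : Function.Injective d)
    (hβ : ∀ s, IsTop (β s) (d s)) (ht : t * h ≤ #A') (hp : 2 * p ≤ t * #A') :
    #{y : Fin (3 * n) → ZMod 2 | ∀ s, ∀ k ∈ A', ∑ j, β s j * conv lam y j k = 0} * 2 ^ p ≤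
      2 ^ (3 * n) := by
  obtain ⟨i0, hi⟩ := exists_top hl
  set Top : Finset (Fin (3 * n)) :=
    univ.filter fun q => ∃ s, ∃ k ∈ A', q.val = i0 + d s + k with hTop
  have hc : ∀ q : Fin (3 * n), ∃ c : Fin (3 * n) → ZMod 2, q ∈ Top → c q = 1 ∧
      (∀ r, q < r → c r = 0) ∧
      ∃ s, ∃ k ∈ A', ∀ y, ∑ r, c r * y r = ∑ j, β s j * conv lam y j k := fun q => by
    by_cases hq : q ∈ Top
    · obtain ⟨s, k, hk, e⟩ := (mem_filter.1 hq).2
      obtain ⟨c, h1, h2, h3⟩ := Sol_row hi (hβ s) k q e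
      exact ⟨c, fun _ => ⟨h1, h2, s, k, hk, h3⟩⟩
    · exact ⟨0, fun a => (hq a).elim⟩
  choose c hc using hc
  have h1 := card_tri Top c (fun q hq => (hc q hq).1) fun q hq => (hc q hq).2.1
  have h2 : #(univ.image d) = t := by rw [card_image_of_injective _ hd]; simp
  have h3 := card_sumset hA (univ.image d) (by rwa [h2])
  have h4 : #((univ.image d ×ˢ A').image fun p => p.1.val + p.2.val) ≤ #Top := by
    refine le_trans (card_le_card (t := Top.image fun q => q.val - i0.val) fun x hx => ?_)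
      card_image_le
    simp only [mem_image, mem_product, mem_univ, true_and, Prod.exists] at hx
    obtain ⟨_, k, ⟨⟨s, rfl⟩, hk⟩, rfl⟩ := hx
    exact mem_image.2 ⟨⟨i0 + d s + k, by omega⟩, mem_filter.2 ⟨mem_univ _, s, k, hk, rfl⟩,
      by simp only; omega⟩
  rw [h2] at h3
  refine le_trans (Nat.mul_le_mul (card_le_card fun y hy => ?_)
    (Nat.pow_le_pow_right two_pos (by omega))) h1
  refine mem_filter.2 ⟨mem_univ _, fun q hq => ?_⟩
  obtain ⟨s, k, hk, e⟩ := (hc q hq).2.2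
  rw [e]
  exact (mem_filter.1 hy).2 s k hk

end Pool.Agent.MP_47ff19_lc.H43

end

-- part MP_47ff19_lc.H43.BadY
section

/-! Most seeds are good. -/

namespace Pool.Agent.MP_47ff19_lc.H43

open Finset

variable {n : ℕ}

/-- a vector over the field with two elements is determined by its support (`card_small`) -/
theorem card_light {a R : ℕ} (ha : 1 ≤ a) (h : n ≤ a * R) :
    #{β : Fin n → ZMod 2 | #{j | β j ≠ 0} ≤ R} ≤ (3 * a) ^ R := by
  refine le_trans (card_le_card_of_injOn (fun β => ({j | β j ≠ 0} : Finset (Fin n))) ?_ ?_)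
    (card_small (univ : Finset (Fin n)) ha (by simpa using h))
  · intro β hβ
    simp only [coe_filter, mem_univ, true_and, Set.mem_ofPred_eq] at hβ
    simp only [coe_filter, mem_powerset, subset_univ, true_and, Set.mem_ofPred_eq]
    exact hβ
  · intro β _ β' _ e
    funext j
    have h1 : β j ≠ 0 ↔ β' j ≠ 0 := by
      have := Finset.ext_iff.1 e j
      simpa using this
    revert h1
    generalize β j = x
    generalize β' j = y
    revert x y
    decide

theorem BadY_union {ι Y : Type} [DecidableEq Y] (S : Finset ι) (f : ι → Finset Y) {c B N : ℕ}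
    (hS : #S ≤ N) (h : ∀ i ∈ S, #(f i) * c ≤ B) : #(S.biUnion f) * c ≤ N * B := by
  calc #(S.biUnion f) * c ≤ (∑ i ∈ S, #(f i)) * c := Nat.mul_le_mul_right _ card_biUnion_le
    _ = ∑ i ∈ S, #(f i) * c := sum_mul _ _ _
    _ ≤ #S * B := by simpa using sum_le_card_nsmul S _ B h
    _ ≤ N * B := Nat.mul_le_mul_right _ hS

open Classical in
/-- Union bound. A bad `y` gives `j < J`, a nonzero `lam ∈ sup (win n w j)` (at most `2 ^ w`
choices), a set `A'` with `#A' = m` and `Sid h A'` (at most `(3 a) ^ m` choices, as `R ≤ m`) and,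
by `exists_vecs` for `K = ker lam y A A'`, a family of `t` vectors of weight at most `R` with
distinct tops (at most `((3 a) ^ R) ^ t` choices); for each such choice `card_sol` bounds the
number of `y`. -/
theorem card_badY {w J m R h t p a : ℕ} (hw : 0 < w) (ha : 1 ≤ a) (hn : n ≤ a * R) (hRm : R ≤ m)
    (ht : t + R ≤ m + 1) (hh : t * h ≤ m) (hp : 2 * p ≤ t * m) :
    #{y : Fin (3 * n) → ZMod 2 | ¬ GoodY w J m R h y} * 2 ^ p ≤
      J * 2 ^ w * (3 * a) ^ m * (3 * a) ^ (R * t) * 2 ^ (3 * n) := by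
  let L : Finset (Fin n → ZMod 2) := {β : Fin n → ZMod 2 | #{j | β j ≠ 0} ≤ R}
  let S : (Fin n → ZMod 2) → Finset (Fin n) → (Fin t → Fin n → ZMod 2) →
      Finset (Fin (3 * n) → ZMod 2) := fun lam A' β =>
    {y | (lam ≠ 0 ∧ #A' = m ∧ Sid h A' ∧
      ∃ d : Fin t → Fin n, Function.Injective d ∧ ∀ s, IsTop (β s) (d s)) ∧
        ∀ s, ∀ k ∈ A', ∑ j, β s j * conv lam y j k = 0}
  have hS : ∀ lam A' β, #(S lam A' β) * 2 ^ p ≤ 2 ^ (3 * n) := by
    intro lam A' β
    rcases (S lam A' β).eq_empty_or_nonempty with e | ⟨y, hy⟩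
    · simp [e]
    · obtain ⟨⟨h1, h2, h3, d, h4, h5⟩, -⟩ := (mem_filter.1 hy).2
      refine le_trans (Nat.mul_le_mul_right _ (card_le_card fun z hz => ?_))
        (card_sol h1 h3 β d h4 h5 (h2 ▸ hh) (h2 ▸ hp))
      exact mem_filter.2 ⟨mem_univ _, (mem_filter.1 hz).2.2⟩
  have hsub : ({y : Fin (3 * n) → ZMod 2 | ¬ GoodY w J m R h y} : Finset _) ⊆
      (range J).biUnion fun j => (sup (win n w j)).biUnion fun lam =>
        ({E ∈ (univ : Finset (Fin n)).powerset | #E ≤ m}).biUnion fun A' =>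
          (Fintype.piFinset fun _ : Fin t => L).biUnion fun β => S lam A' β := by
    intro y hy
    have hy := (mem_filter.1 hy).2
    unfold GoodY at hy
    push Not at hy
    obtain ⟨j, hj, lam, hlam, hl, A, A', hA, hA', hsid, hk⟩ := hy
    obtain ⟨β, d, hd, hβ⟩ := exists_vecs A (ker lam y A A') (filter_subset _ _)
      (fun β hβ β' hβ' => by
        obtain ⟨h1, h2⟩ := mem_filter.1 hβ
        obtain ⟨h3, h4⟩ := mem_filter.1 hβ'
        refine mem_filter.2 ⟨mem_filter.2 ⟨mem_univ _, fun i hi => ?_⟩, fun k hk => ?_⟩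
        · rw [Pi.add_apply, (mem_filter.1 h1).2 i hi, (mem_filter.1 h3).2 i hi, add_zero]
        · simp only [Pi.add_apply, add_mul, sum_add_distrib, h2 k hk, h4 k hk, add_zero])
      (R := R) (t := t) (hA ▸ hk) (hA ▸ ht)
    refine mem_biUnion.2 ⟨j, mem_range.2 hj, mem_biUnion.2 ⟨lam, hlam, mem_biUnion.2
      ⟨A', mem_filter.2 ⟨mem_powerset.2 (subset_univ _), hA'.le⟩, mem_biUnion.2 ⟨β, ?_, ?_⟩⟩⟩⟩
    · exact Fintype.mem_piFinset.2 fun s => mem_filter.2 ⟨mem_univ _, (hβ s).2.2⟩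
    · exact mem_filter.2 ⟨mem_univ _, ⟨hl, hA', hsid, d, hd, fun s => (hβ s).2.1⟩,
        fun s => (mem_filter.1 (hβ s).1).2⟩
  refine le_trans (Nat.mul_le_mul_right _ (card_le_card hsub)) ?_
  rw [mul_assoc, mul_assoc, mul_assoc]
  refine BadY_union _ _ (card_range J).le fun j _ => BadY_union _ _ ?_ fun lam _ =>
    BadY_union _ _ ?_ fun A' _ => BadY_union _ _ ?_ fun β _ => hS lam A' β
  · rw [card_sup]
    exact Nat.pow_le_pow_right (by norm_num) (card_win_le hw j)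
  · exact card_small _ ha (by simpa using hn.trans (Nat.mul_le_mul_left a hRm))
  · rw [Fintype.card_piFinset, prod_const, card_univ, Fintype.card_fin, pow_mul]
    exact Nat.pow_le_pow_left (card_light ha hn) t

end Pool.Agent.MP_47ff19_lc.H43

end

-- part MP_47ff19_lc.H43.Sid
section

/-! Large subsets with few repeated differences. -/

namespace Pool.Agent.MP_47ff19_lc.H43

open Finset

/-- `Nat.choose_le_pow_div` and `Real.pow_div_factorial_le_exp` -/
theorem choose_mul_le (N h : ℕ) : N.choose h * h ^ h ≤ (3 * N) ^ h := by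
  have h1 : (N.choose h : ℝ) ≤ (N : ℝ) ^ h / h.factorial := Nat.choose_le_pow_div h N
  have h2 : (h : ℝ) ^ h / h.factorial ≤ Real.exp h :=
    Real.pow_div_factorial_le_exp _ (Nat.cast_nonneg h) h
  have h3 : Real.exp h ≤ 3 ^ h := by
    rw [← Real.exp_one_pow]
    exact pow_le_pow_left₀ (Real.exp_pos 1).le (by linarith [Real.exp_one_lt_d9]) h
  have h4 : (N.choose h : ℝ) * (h : ℝ) ^ h ≤ (3 * (N : ℝ)) ^ h :=
    calc (N.choose h : ℝ) * (h : ℝ) ^ h ≤ (N : ℝ) ^ h / h.factorial * (h : ℝ) ^ h := by gcongr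
      _ = (h : ℝ) ^ h / h.factorial * (N : ℝ) ^ h := by ring
      _ ≤ 3 ^ h * (N : ℝ) ^ h := by gcongr; exact h2.trans h3
      _ = (3 * (N : ℝ)) ^ h := (mul_pow _ _ _).symm
  exact_mod_cast h4

theorem Sid_const {n J : ℕ} (F : Finset (Fin n)) (c : Fin J) :
    #{ω : Fin n → Fin J | ∀ k ∈ F, ω k = c} * J ^ #F = J ^ n := by
  have e : ({ω : Fin n → Fin J | ∀ k ∈ F, ω k = c} : Finset _) =
      Fintype.piFinset fun k => if k ∈ F then {c} else univ := by
    ext ω
    simp only [mem_filter, mem_univ, true_and, Fintype.mem_piFinset]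
    refine forall_congr' fun k => ?_
    by_cases hk : k ∈ F <;> simp [hk]
  have e2 : J ^ #F = ∏ k : Fin n, if k ∈ F then J else 1 := by simp
  rw [e, Fintype.card_piFinset, e2, ← prod_mul_distrib]
  rw [prod_congr rfl (g := fun _ => J) fun k _ => by by_cases hk : k ∈ F <;> simp [hk]]
  simp

/-- the colourings that are bad because of `E` -/
def Sid_bad {n J : ℕ} (c : Fin J) (δ e : ℕ) (E : Finset (Fin n)) : Finset (Fin n → Fin J) :=
  {ω | ∀ k ∈ E, k.val / δ % 2 = e ∧ ω k = c ∧ ∃ k' : Fin n, k'.val = k.val + δ ∧ ω k' = c}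

theorem Sid_pair {n J : ℕ} (c : Fin J) {δ : ℕ} (hδ : 0 < δ) (e : ℕ) (E : Finset (Fin n)) :
    #(Sid_bad c δ e E) * J ^ (2 * #E) ≤ J ^ n := by
  rcases (Sid_bad c δ e E).eq_empty_or_nonempty with h0 | ⟨ω, hω⟩
  · simp [h0]
  have h1 := (mem_filter.mp hω).2
  set G : Finset (Fin n) := {k' | ∃ k ∈ E, k'.val = k.val + δ} with hG
  have h2 : #E ≤ #G := by
    rw [← card_image_of_injective E (f := fun k => k.val + δ)
      fun a b hab => Fin.ext (Nat.add_right_cancel hab)]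
    refine (card_le_card fun x hx => ?_).trans (card_image_le (f := Fin.val))
    obtain ⟨k, hk, rfl⟩ := mem_image.mp hx
    obtain ⟨k', h3, -⟩ := (h1 k hk).2.2
    exact mem_image.mpr ⟨k', mem_filter.mpr ⟨mem_univ _, k, hk, h3⟩, h3⟩
  have h3 : Disjoint E G := by
    refine disjoint_left.mpr fun k' hk' hg => ?_
    obtain ⟨k, hk, h4⟩ := (mem_filter.mp hg).2
    have h5 := (h1 k hk).1
    have h6 := (h1 k' hk').1
    rw [h4, Nat.add_div_right _ hδ] at h6
    omega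
  rw [← Sid_const (E ∪ G) c, card_union_of_disjoint h3]
  refine Nat.mul_le_mul (card_le_card fun ω' hω' => ?_)
    (Nat.pow_le_pow_right (Fin.pos c) (by omega))
  have h4 := (mem_filter.mp hω').2
  refine mem_filter.mpr ⟨mem_univ _, fun k' hk' => ?_⟩
  rcases mem_union.mp hk' with h5 | h5
  · exact (h4 k' h5).2.1
  · obtain ⟨k, hk, h6⟩ := (mem_filter.mp h5).2
    obtain ⟨k'', h7, h8⟩ := (h4 k hk).2.2
    rwa [show k' = k'' from Fin.ext (h6.trans h7.symm)]

theorem Sid_good {n : ℕ} (C : Finset (Fin n)) {m J h : ℕ} (hJ : 0 < J) (hC : #C = J * m)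
    (h1 : 6 * m ≤ h * J) (h2 : 2 * n * J < 2 ^ h) : ∃ ω : Fin n → Fin J, ∀ c δ e E,
      0 < δ → δ < n → e < 2 → E ⊆ C → #E = h → ω ∉ Sid_bad c δ e E := by
  set I : Finset (Fin J × ℕ × ℕ × Finset (Fin n)) :=
    univ ×ˢ Ioo 0 n ×ˢ range 2 ×ˢ powersetCard h C with hI
  set B := I.biUnion fun i => Sid_bad i.1 i.2.1 i.2.2.1 i.2.2.2 with hB
  have a1 : #I ≤ 2 * n * J * (J * m).choose h := by
    simp only [hI, card_product, card_univ, Fintype.card_fin, Nat.card_Ioo, card_range,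
      card_powersetCard, hC]
    calc J * ((n - 0 - 1) * (2 * (J * m).choose h)) ≤ J * (n * (2 * (J * m).choose h)) := by
          gcongr; omega
      _ = _ := by ring
  have a2 : #B * J ^ (2 * h) ≤ #I * J ^ n := by
    refine (Nat.mul_le_mul_right _ card_biUnion_le).trans ?_
    rw [sum_mul, ← smul_eq_mul]
    refine sum_le_card_nsmul _ _ _ fun i hi => ?_
    simp only [hI, mem_product, mem_Ioo, mem_powersetCard] at hi
    rw [← hi.2.2.2.2]
    exact Sid_pair _ hi.2.1.1 _ _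
  have a3 : (J * m).choose h * 2 ^ h ≤ J ^ (2 * h) := by
    have b1 : 0 < h ^ h := by
      rcases Nat.eq_zero_or_pos h with rfl | h0
      · simp
      · exact pow_pos h0 h
    refine Nat.le_of_mul_le_mul_right ?_ b1
    calc (J * m).choose h * 2 ^ h * h ^ h = (J * m).choose h * h ^ h * 2 ^ h := by ring
      _ ≤ (3 * (J * m)) ^ h * 2 ^ h := Nat.mul_le_mul_right _ (choose_mul_le _ _)
      _ = (J * (6 * m)) ^ h := by rw [← mul_pow]; congr 1; ring
      _ ≤ (J * (h * J)) ^ h := by gcongr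
      _ = J ^ (2 * h) * h ^ h := by rw [pow_mul, ← mul_pow]; congr 1; ring
  have a4 : #B < J ^ n := by
    have b1 : 0 < J ^ (2 * h) * J ^ n := by positivity
    refine Nat.lt_of_mul_lt_mul_right (a := J ^ (2 * h) * 2 ^ h) ?_
    calc #B * (J ^ (2 * h) * 2 ^ h) = #B * J ^ (2 * h) * 2 ^ h := by ring
      _ ≤ 2 * n * J * (J * m).choose h * J ^ n * 2 ^ h :=
          Nat.mul_le_mul_right _ (a2.trans (Nat.mul_le_mul_right _ a1))
      _ = 2 * n * J * ((J * m).choose h * 2 ^ h * J ^ n) := by ring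
      _ ≤ 2 * n * J * (J ^ (2 * h) * J ^ n) := by gcongr
      _ < 2 ^ h * (J ^ (2 * h) * J ^ n) := Nat.mul_lt_mul_of_pos_right h2 b1
      _ = _ := by ring
  obtain ⟨ω, -, hω⟩ := exists_mem_notMem_of_card_lt_card (s := B) (t := univ) (by simpa using a4)
  refine ⟨ω, fun c δ e E c1 c2 c3 c4 c5 c6 => hω (mem_biUnion.mpr ⟨(c, δ, e, E), ?_, c6⟩)⟩
  simp [hI, c1, c2, c3, c4, c5]

/-- Let `C' ⊆ C` have `J m` elements and count colourings `ω : Fin n → Fin J`. Call `ω` bad for a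
colour `c`, a difference `0 < δ < n` and a parity `e < 2` if there is a set `E ⊆ C'` of `h` points
`k` with `k / δ % 2 = e`, `k + δ < n` and `ω k = ω (k + δ) = c`. The sets `E` and `E + δ` are
disjoint (`(k + δ) / δ = k / δ + 1`), so for fixed `E` at most `J ^ n / J ^ (2 h)` colourings
qualify, and `(J m).choose h / J ^ (2 h) ≤ 2⁻¹ ^ h`. So some `ω` is never bad. One colour class of
`C'` has at least `m` points; take `m` of them. (If `h = 0` then `n = 0`.) -/
theorem exists_sid {n : ℕ} (C : Finset (Fin n)) {m J h : ℕ} (hJ : 0 < J) (hC : J * m ≤ #C)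
    (h1 : 6 * m ≤ h * J) (h2 : 2 * n * J < 2 ^ h) : ∃ A ⊆ C, #A = m ∧ Sid (2 * h) A := by
  obtain ⟨C', hs, hC'⟩ := exists_subset_card_eq hC
  obtain ⟨ω, hω⟩ := Sid_good C' hJ hC' h1 h2
  obtain ⟨c, -, hc⟩ := exists_le_card_fiber_of_mul_le_card_of_maps_to (s := C') (t := univ)
    (f := ω) (n := m) (fun _ _ => mem_univ _) ⟨⟨0, hJ⟩, mem_univ _⟩ (by simp [hC'])
  obtain ⟨A, hA, hm⟩ := exists_subset_card_eq hc
  refine ⟨A, fun k hk => hs (mem_filter.mp (hA hk)).1, hm, fun δ hδ => le_of_not_gt fun hlt => ?_⟩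
  obtain ⟨k, hk⟩ := card_pos.mp (Nat.zero_lt_of_lt hlt)
  obtain ⟨k', -, hk'⟩ := (mem_filter.mp hk).2
  obtain ⟨e, he, h3⟩ := exists_le_card_fiber_of_mul_le_card_of_maps_to (t := range 2)
    (f := fun k : Fin n => k.val / δ % 2) (n := h)
    (fun _ _ => mem_range.mpr (Nat.mod_lt _ two_pos)) ⟨0, by simp⟩
    (by rw [card_range]; exact hlt.le)
  obtain ⟨E, hE, h4⟩ := exists_subset_card_eq h3
  refine hω c δ e E hδ (by omega) (mem_range.mp he)
    (fun j hj => (mem_filter.mp (hA (mem_filter.mp (mem_filter.mp (hE hj)).1).1)).1) h4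
    (mem_filter.mpr ⟨mem_univ _, fun j hj => ?_⟩)
  obtain ⟨h5, h6⟩ := mem_filter.mp (hE hj)
  obtain ⟨h7, j', h8, h9⟩ := mem_filter.mp h5
  exact ⟨h6, (mem_filter.mp (hA h7)).2, j', h9, (mem_filter.mp (hA h8)).2⟩

end Pool.Agent.MP_47ff19_lc.H43

end

-- part MP_47ff19_lc.H43.BStruct
section

/-! The correlation bound for the cubic form. -/

namespace Pool.Agent.MP_47ff19_lc.H43

open Finset Sum

variable {n : ℕ}

theorem card_inputs : Fintype.card (Var n → ZMod 2) = 2 ^ (6 * n) := by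
  simp only [Fintype.card_fun, Fintype.card_sum, Fintype.card_fin, ZMod.card]
  congr 1
  ring

theorem card_yy (Y : Finset (Fin (3 * n) → ZMod 2)) :
    #{x : Var n → ZMod 2 | yy x ∈ Y} ≤ 2 ^ (3 * n) * #Y := by
  have h := card_le_card_of_injOn (s := ({x | yy x ∈ Y} : Finset (Var n → ZMod 2)))
    (t := (univ : Finset ((Fin n → ZMod 2) × (Fin n → ZMod 2) × (Fin n → ZMod 2))) ×ˢ Y)
    (fun x => ((fun i => x (inl i), fun j => x (inr (inl j)), fun k => x (inr (inr (inl k)))),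
      yy x)) (fun x hx => by simpa using hx) (fun x _ x' _ he => by
        simp only [Prod.mk.injEq] at he
        funext v
        rcases v with i | j | k | s
        · exact congrFun he.1.1 i
        · exact congrFun he.1.2.1 j
        · exact congrFun he.1.2.2 k
        · exact congrFun he.2 s)
  refine h.trans (le_of_eq ?_)
  simp only [card_product, card_univ, Fintype.card_prod, Fintype.card_fun, Fintype.card_fin,
    ZMod.card]
  ring

open Classical in
/-- the labels of the small side -/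
noncomputable def lab2 (n m h : ℕ) : Finset (Finset (Fin n) × Finset (Fin n)) :=
  {p ∈ powersetCard m univ ×ˢ powersetCard m univ | Sid h p.2}

theorem card_lab2 {m h a : ℕ} (ha : 1 ≤ a) (hn : n ≤ a * m) :
    #(lab2 n m h) ≤ (3 * a) ^ (2 * m) := by
  classical
  refine (card_filter_le _ _).trans ?_
  rw [card_product, two_mul, pow_add]
  exact Nat.mul_le_mul (card_powersetCard_le ha hn) (card_powersetCard_le ha hn)

theorem good_of_big {r : ℕ} (Rd : Fin r → Finset (Var n)) (F : Finset (Fin r))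
    {K w J b m Jc h : ℕ} (hK : 0 < K) (hJ : 0 < J) (hJc : 0 < Jc) (hm : 4 * K * (Jc * m) ≤ n)
    (h1 : 6 * m ≤ h * Jc) (h2 : 2 * n * Jc < 2 ^ h)
    (hB : Big Rd (e2 univ ∅) (e2 ∅ univ) n K (J * b) F) :
    (∃ I ∈ lab n w J b, ∀ i ∈ F, Disjoint (e1 I) (Rd i)) ∧
      ∃ p ∈ lab2 n m (2 * h), ∀ i, i ∉ F → Disjoint (e2 p.1 p.2) (Rd i) := by
  constructor
  · obtain ⟨I, hI, hd⟩ := exists_lab w hJ {i : Fin n | inl i ∈ F.biUnion Rd} (b := b) (by
      refine le_trans ?_ (card_biUnion_le.trans hB.2.2)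
      exact card_le_card_of_injOn inl (fun i hi => by simpa using hi)
        fun _ _ _ _ he => inl_injective he)
    refine ⟨I, hI, fun i hi => disjoint_left.2 fun v hv hv' => ?_⟩
    obtain ⟨j, hj, rfl⟩ := mem_image.1 hv
    exact disjoint_left.1 hd hj (mem_filter.2 ⟨mem_univ _, mem_biUnion.2 ⟨i, hi, hv'⟩⟩)
  · have c1 : Jc * m ≤ #{j : Fin n | ∀ i, i ∉ F → inr (inl j) ∉ Rd i} := by
      refine Nat.le_of_mul_le_mul_left (hm.trans (hB.1.trans ?_)) (by positivity)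
      gcongr
      refine le_trans (card_le_card fun v hv => ?_) (card_image_le (f := fun j => inr (inl j)))
      simp only [e2, image_empty, union_empty, mem_filter, mem_image, mem_univ, true_and] at hv ⊢
      obtain ⟨⟨j, rfl⟩, hj⟩ := hv
      exact ⟨j, hj, rfl⟩
    have c2 : Jc * m ≤ #{k : Fin n | ∀ i, i ∉ F → inr (inr (inl k)) ∉ Rd i} := by
      refine Nat.le_of_mul_le_mul_left (hm.trans (hB.2.1.trans ?_)) (by positivity)
      gcongr
      refine le_trans (card_le_card fun v hv => ?_)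
        (card_image_le (f := fun k => inr (inr (inl k))))
      simp only [e2, image_empty, empty_union, mem_filter, mem_image, mem_univ, true_and] at hv ⊢
      obtain ⟨⟨j, rfl⟩, hj⟩ := hv
      exact ⟨j, hj, rfl⟩
    obtain ⟨A, hA, hAm⟩ := exists_subset_card_eq ((Nat.le_mul_of_pos_left m hJc).trans c1)
    obtain ⟨A', hA', hAm', hS⟩ := exists_sid _ hJc c2 h1 h2
    refine ⟨(A, A'), by simp [lab2, hAm, hAm', hS], fun i hi => disjoint_left.2 fun v hv => ?_⟩
    simp only [e2, mem_union, mem_image] at hv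
    rcases hv with ⟨j, hj, rfl⟩ | ⟨k, hk, rfl⟩
    · exact (mem_filter.1 (hA hj)).2 i hi
    · exact (mem_filter.1 (hA' hk)).2 i hi

open Classical in
theorem rect_good {w J b m h s p : ℕ} (hw : 0 < w) (hJw : J * w ≤ n) (hp : 2 * p + b ≤ w)
    {I : Finset (Fin n)} (hI : I ∈ lab n w J b) {q : Finset (Fin n) × Finset (Fin n)}
    (hq : q ∈ lab2 n m h) {G1 G2 : Finset (Var n → ZMod 2)} (h1 : Inv (e2 q.1 q.2) G1)
    (h2 : Inv (e1 I) G2) :
    |∑ x ∈ G1 ∩ G2, if GoodY w J m (2 * s) h (yy x) then sg (cub n x) else 0| ≤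
      (1 / 2) ^ s * #G1 + (1 / 2) ^ p * Fintype.card (Var n → ZMod 2) := by
  have h3 := lab_card hw hJw hI
  simp only [lab2, mem_filter, mem_product, mem_powersetCard] at hq
  obtain ⟨j, hj, hIj, -⟩ := (mem_filter.1 hI).2
  rw [← sum_filter, ← filter_inter]
  refine (cub_rect I q.1 q.2 (G1 := {x ∈ G1 | GoodY w J m (2 * s) h (yy x)}) (s := s) (p := p)
    ?_ h2 (by omega) ?_).trans ?_
  · intro x hx x' hx'
    have : yy x' = yy x := funext fun t => hx' _ (by simp [e2])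
    rw [mem_filter, this]
    exact ⟨h1 x (mem_filter.1 hx).1 x' hx', (mem_filter.1 hx).2⟩
  · intro x hx lam hl hl0
    rw [hq.1.1.2]
    refine (mem_filter.1 hx).2 j hj lam ?_ hl0 _ _ hq.1.1.2 hq.1.2.2 hq.2
    simp only [sup, mem_filter, mem_univ, true_and] at hl ⊢
    exact fun i hi => hl i fun hi' => hi (hIj hi')
  · gcongr
    exact filter_subset _ _

open Classical in
theorem b_struct (P : BP (Var n) (ZMod 2)) {T l r M κ w J b m a a2 Jc h s p : ℕ}
    (hT : T ≤ r * l) (hM : 0 < M) (hn : 0 < n) (hJ : 0 < J) (hb : 0 < b) (hw : 0 < w) (ha : 1 ≤ a)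
    (ha2 : 1 ≤ a2) (hκ : 0 < κ) (hJc : 0 < Jc) (h3 : 2 * T ≤ κ * n)
    (h4 : 8 * κ * l * M ^ κ * κ ≤ n) (h5 : T * κ ≤ M * (J * b))
    (hm : 4 * M ^ κ * (Jc * m) ≤ n) (h6 : 6 * m ≤ h * Jc) (h7 : 2 * n * Jc < 2 ^ h)
    (hwa : w ≤ a * b) (hJw : J * w ≤ n) (hna : n ≤ a2 * m) (hp : 2 * p + b ≤ w)
    (hY : #{y : Fin (3 * n) → ZMod 2 | ¬ GoodY w J m (2 * s) (2 * h) y} * κ ≤ 2 ^ (3 * n)) :
    2 * (#{x | P.out T x = true ↔ cub n x = 1} : ℝ) ≤ (1 + 4 / κ + (P.size : ℝ) ^ (r + 1) *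
      (J * (3 * a) ^ b) * ((1 / 2) ^ s + (3 * a2) ^ (2 * m) * (1 / 2) ^ p)) * 2 ^ (6 * n) := by
  have hκ' : (0 : ℝ) < κ := by exact_mod_cast hκ
  obtain ⟨F, hF⟩ := P.exists_big T l r hM (W1 := e2 univ ∅) (W2 := e2 ∅ univ) hn
    (Nat.mul_pos hJ hb)
    (by rw [e2, image_empty, union_empty, card_image_of_injective _
      fun _ _ he => inl_injective (inr_injective he), card_univ, Fintype.card_fin])
    (by rw [e2, image_empty, empty_union, card_image_of_injective _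
      fun _ _ he => inl_injective (inr_injective (inr_injective he)), card_univ, Fintype.card_fin])
    h3 (η := 1 / κ)
    (by rw [one_div, ← div_eq_inv_mul, le_div_iff₀ hκ']
        exact_mod_cast h4)
    (by rw [one_div, ← div_eq_inv_mul, le_div_iff₀ hκ']
        exact_mod_cast h5) univ
  have hc := P.core hT F (lab n w J b) e1 (lab2 n m (2 * h)) (fun q => e2 q.1 q.2)
    (fun x => (if P.out T x = true then -1 else 1) *
      if GoodY w J m (2 * s) (2 * h) (yy x) then sg (cub n x) else 0)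
    (α := (1 / 2) ^ s) (β := (1 / 2) ^ p) (by positivity) (by positivity) (by
      rintro I hI q hq G1 G2 h1 h2 ⟨o, ho⟩
      rw [sum_congr rfl fun x hx => by rw [ho x hx], ← mul_sum, abs_mul]
      refine le_trans (le_of_eq ?_) (rect_good hw hJw hp hI hq h1 h2)
      cases o <;> simp)
  have hpt : ∀ x, 2 * (if (P.out T x = true ↔ cub n x = 1) then (1 : ℝ) else 0) ≤ 1 +
      (if P.Good T l F (lab n w J b) e1 (lab2 n m (2 * h)) (fun q => e2 q.1 q.2) x then
        (if P.out T x = true then -1 else 1) *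
          if GoodY w J m (2 * s) (2 * h) (yy x) then sg (cub n x) else 0 else 0) +
      (if ¬ Big (fun i : Fin r => P.Rd T l x i) (e2 univ ∅) (e2 ∅ univ) n (M ^ κ) (J * b) F
        then 1 else 0) +
      if yy x ∈ ({y | ¬ GoodY w J m (2 * s) (2 * h) y} : Finset _) then 1 else 0 := fun x => by
    have hg := good_of_big (fun i : Fin r => P.Rd T l x i) F (w := w) (b := b) (pow_pos hM κ) hJ
      hJc hm h6 h7
    have h01 : ∀ c : ZMod 2, c = 0 ∨ c = 1 := by decide
    simp only [mem_filter, mem_univ, true_and]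
    by_cases c1 : P.Good T l F (lab n w J b) e1 (lab2 n m (2 * h)) (fun q => e2 q.1 q.2) x
    · rw [if_pos c1]
      by_cases c2 : GoodY w J m (2 * s) (2 * h) (yy x) <;> rcases h01 (cub n x) with c3 | c3 <;>
        cases P.out T x <;> simp [c2, c3, sg] <;> split_ifs <;> norm_num
    · rw [if_neg c1, if_pos (fun hB => c1 (hg hB))]
      split_ifs <;> norm_num
  have hsum := sum_le_sum fun x (_ : x ∈ univ) => hpt x
  rw [← mul_sum, sum_boole, sum_add_distrib, sum_add_distrib, sum_add_distrib, sum_boole,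
    sum_boole, ← sum_filter, sum_const, card_univ, nsmul_eq_mul, mul_one] at hsum
  have hY' : (#{x : Var n → ZMod 2 | yy x ∈ ({y | ¬ GoodY w J m (2 * s) (2 * h) y} : Finset _)} :
      ℝ) ≤ 1 / κ * 2 ^ (6 * n) := by
    rw [one_div, ← div_eq_inv_mul, le_div_iff₀ hκ']
    have := (Nat.mul_le_mul_right κ (card_yy _)).trans
      ((mul_assoc _ _ _).le.trans (Nat.mul_le_mul_left _ hY))
    rw [← pow_add, show 3 * n + 3 * n = 6 * n by ring] at this
    exact_mod_cast this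
  have hc2 := (le_abs_self _).trans hc
  rw [card_univ] at hF
  rw [card_inputs] at hsum hF hc2
  push_cast at hsum hF hc2
  have hc3 : (P.size : ℝ) ^ (r + 1) * #(lab n w J b) * ((1 / 2) ^ s + #(lab2 n m (2 * h)) *
      (1 / 2) ^ p) * 2 ^ (6 * n) ≤ (P.size : ℝ) ^ (r + 1) * (J * (3 * a) ^ b) *
      ((1 / 2) ^ s + (3 * a2) ^ (2 * m) * (1 / 2) ^ p) * 2 ^ (6 * n) := by
    gcongr
    · exact_mod_cast card_lab hw ha hwa J
    · exact_mod_cast card_lab2 ha2 hna
  have e : (4 : ℝ) / κ = 4 * (1 / κ) := by ring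
  rw [e]
  linarith

end Pool.Agent.MP_47ff19_lc.H43

end

-- part MP_47ff19_lc.H43.BMain
section

/-! The time-space bound for the cubic form. -/

namespace Pool.Agent.MP_47ff19_lc.H43

open Finset

open Classical in
theorem b_seed {n κ u Q J : ℕ} (hκ : 128 ≤ κ) (hu : 1 ≤ u) (hQ0 : 1 ≤ Q) (hn : n ≤ 2 * Q * u)
    (hQ : 3 * Q ≤ 2 ^ κ ^ 2) (hJ : J ≤ Q) :
    #{y : Fin (3 * n) → ZMod 2 | ¬ GoodY (16 * κ ^ 6 * u) J (2 * κ ^ 4 * u) (2 * (κ * u))
      (2 * (κ * u)) y} * κ ≤ 2 ^ (3 * n) := by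
  have hκ0 : 0 < κ := by omega
  have p1 : ∀ i j : ℕ, i ≤ j → κ ^ i * u ≤ κ ^ j * u := fun i j h =>
    Nat.mul_le_mul_right _ (Nat.pow_le_pow_right hκ0 h)
  have p2 : ∀ i : ℕ, κ ^ i ≤ κ ^ i * u := fun i => Nat.le_mul_of_pos_right _ hu
  have p3 : ∀ i : ℕ, 128 * (κ ^ i * u) ≤ κ ^ (i + 1) * u := fun i => by
    rw [pow_succ', mul_assoc]
    gcongr
  have h := card_badY (n := n) (w := 16 * κ ^ 6 * u) (J := J) (m := 2 * κ ^ 4 * u)
    (R := 2 * (κ * u)) (h := 2 * (κ * u)) (t := κ ^ 3) (p := κ ^ 7 * u) (a := Q) (by positivity)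
    hQ0 (hn.trans (by nlinarith [Nat.mul_le_mul_left (2 * Q * u) hκ0]))
    (by nlinarith [p1 1 4 (by norm_num)])
    (by have h1 := p1 1 3 (by norm_num)
        have h2 : 128 * (κ ^ 3 * u) ≤ κ ^ 4 * u := p3 3
        have h3 := p2 3
        rw [pow_one] at h1
        rw [mul_assoc]
        omega) (le_of_eq (by ring)) (le_of_eq (by ring))
  refine Nat.le_of_mul_le_mul_right ?_ (pow_pos two_pos (κ ^ 7 * u))
  calc _ = _ * 2 ^ (κ ^ 7 * u) * κ := by ring
    _ ≤ J * 2 ^ (16 * κ ^ 6 * u) * (3 * Q) ^ (2 * κ ^ 4 * u) * (3 * Q) ^ (2 * (κ * u) * κ ^ 3) *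
        2 ^ (3 * n) * κ := Nat.mul_le_mul_right _ h
    _ ≤ 2 ^ κ ^ 2 * 2 ^ (16 * κ ^ 6 * u) * (2 ^ κ ^ 2) ^ (2 * κ ^ 4 * u) *
        (2 ^ κ ^ 2) ^ (2 * (κ * u) * κ ^ 3) * 2 ^ (3 * n) * 2 ^ κ := by
      gcongr
      · omega
      · exact Nat.lt_two_pow_self.le
    _ = 2 ^ (3 * n) * 2 ^ (κ ^ 2 + 20 * (κ ^ 6 * u) + κ ^ 1) := by
      simp only [← pow_mul, ← pow_add]
      congr 1
      ring
    _ ≤ _ := by
      gcongr
      · norm_num
      · have : 128 * (κ ^ 6 * u) ≤ κ ^ 7 * u := p3 6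
        have := (p2 2).trans (p1 2 6 (by norm_num))
        have := (p2 1).trans (p1 1 6 (by norm_num))
        omega

open Classical in
theorem b_num {n S T κ : ℕ} (P : BP (Var n) (ZMod 2)) {δ : ℝ} (hS : 1 ≤ S) (hs : P.size ≤ 2 ^ S)
    (hden : (1 / 2 + δ) * 2 ^ (6 * n) ≤ #{x | P.out T x = true ↔ cub n x = 1}) (hκ : 128 ≤ κ)
    (hδ : 3 ≤ δ * κ) (h3 : 2 * T ≤ κ * n) : n ≤ S * κ ^ (19 * κ) := by
  obtain ⟨K, hK⟩ : ∃ K, K = (κ ^ 9) ^ κ := ⟨_, rfl⟩
  have hK' : K = κ ^ (9 * κ) := by rw [hK, pow_mul]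
  have hκ0 : 0 < κ := by omega
  have hK0 : 0 < K := by rw [hK]; positivity
  obtain ⟨Q, hQ⟩ : ∃ Q, Q = κ ^ 8 * K := ⟨_, rfl⟩
  have hQ0 : 0 < Q := by rw [hQ]; positivity
  obtain ⟨u, hu1, hu2⟩ : ∃ u, Q * u ≤ n ∧ n < Q * (u + 1) :=
    ⟨n / Q, Nat.mul_div_le _ _, Nat.lt_mul_div_succ _ hQ0⟩
  by_cases hu : u < 2 * κ
  · have h1 := absorb (c := 2) (j := 9) (a := 9) (b := 19) hκ (by norm_num) (by norm_num)
      (by norm_num)
    calc n ≤ Q * (2 * κ) := hu2.le.trans (by gcongr; omega)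
      _ = 1 * (2 * κ ^ 9 * κ ^ (9 * κ)) := by rw [hQ, hK']; ring
      _ ≤ _ := by gcongr
  have hu : 2 * κ ≤ u := by omega
  have hu0 : 1 ≤ u := by omega
  have hn2 : n ≤ 2 * Q * u := by
    have : Q * (u + 1) ≤ Q * (2 * u) := by gcongr; omega
    linarith
  have p0 : ∀ c i j : ℕ, c ≤ 128 → i < j → c * κ ^ i ≤ κ ^ j := fun c i j hc h =>
    calc c * κ ^ i ≤ κ * κ ^ i := by gcongr; omega
      _ = κ ^ (i + 1) := by ring
      _ ≤ _ := Nat.pow_le_pow_right hκ0 h
  have hQn : Q ≤ n := (Nat.le_mul_of_pos_right _ hu0).trans hu1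
  have hn16 : 16 * κ ^ 2 * K ≤ n := by
    refine le_trans ?_ hQn
    rw [hQ]
    gcongr
    exact p0 _ _ _ (by norm_num) (by norm_num)
  obtain ⟨l, hl1, hl2⟩ := exists_len T (8 * κ ^ 3 * K) (by positivity)
  have hw0 : 0 < 16 * κ ^ 6 * u := by positivity
  have hwn : 16 * κ ^ 6 * u ≤ n := by
    refine le_trans ?_ hu1
    rw [hQ]
    exact Nat.mul_le_mul_right _
      ((p0 16 6 8 (by norm_num) (by norm_num)).trans (Nat.le_mul_of_pos_right _ hK0))
  obtain ⟨J, hJ1, hJ2⟩ : ∃ J, J * (16 * κ ^ 6 * u) ≤ n ∧ n < 16 * κ ^ 6 * u * (J + 1) :=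
    ⟨n / (16 * κ ^ 6 * u), Nat.div_mul_le_self _ _, Nat.lt_mul_div_succ _ hw0⟩
  have hJ0 : 0 < J := by
    rcases Nat.eq_zero_or_pos J with rfl | h
    · omega
    · exact h
  have hJQ : J ≤ Q := by
    refine Nat.le_of_mul_le_mul_right ?_ hw0
    calc _ ≤ 2 * Q * u := hJ1.trans hn2
      _ = Q * (2 * 1 * u) := by ring
      _ ≤ _ := by
        gcongr
        · norm_num
        · exact Nat.one_le_pow _ _ hκ0
  have hQL : 48 * κ ^ 3 * Q ≤ 2 ^ (κ ^ 2) := by
    have := absorb (c := 48) (j := 11) (a := 9) (b := 16) hκ (by norm_num) (by norm_num)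
      (by norm_num)
    refine le_trans (le_of_eq ?_) (this.trans (pow16 hκ))
    rw [hQ, hK']
    ring
  have hQL' : 3 * Q ≤ 2 ^ (κ ^ 2) := by
    refine le_trans ?_ hQL
    gcongr
    have := Nat.one_le_pow 3 _ hκ0
    omega
  have hst := b_struct P (M := κ ^ 9) (κ := κ) (w := 16 * κ ^ 6 * u) (J := J) (b := u)
    (m := 2 * κ ^ 4 * u) (a := 16 * κ ^ 6) (a2 := Q) (Jc := 12 * κ ^ 3) (h := κ * u) (s := κ * u)
    (p := κ ^ 2 * (2 * (2 * κ ^ 4 * u)) + κ * u) hl1 (by positivity) (by omega) hJ0 hu0 hw0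
    (Nat.succ_le_of_lt (by positivity)) hQ0 hκ0 (by positivity) h3
    (by rw [← hK]
        refine Nat.le_of_mul_le_mul_left (c := 2 * κ) ?_ (by positivity)
        have : κ * (16 * κ ^ 2 * K) ≤ κ * n := by gcongr
        nlinarith)
    (by refine Nat.le_of_mul_le_mul_left (c := 2) ?_ two_pos
        calc 2 * (T * κ) = 2 * T * κ := by ring
          _ ≤ κ * (16 * κ ^ 6 * u * (2 * J)) * κ := Nat.mul_le_mul_right _
            (h3.trans (Nat.mul_le_mul_left _ (hJ2.le.trans (Nat.mul_le_mul_left _ (by omega)))))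
          _ = 2 * (16 * κ ^ 8 * (J * u)) := by ring
          _ ≤ _ := by gcongr; exact p0 _ _ _ (by norm_num) (by norm_num))
    (by rw [← hK]
        calc _ = 96 * κ ^ 7 * K * u := by ring
          _ ≤ κ ^ 8 * K * u := by gcongr; exact p0 _ _ _ (by norm_num) (by norm_num)
          _ ≤ n := hQ ▸ hu1)
    (le_of_eq (by ring))
    (by calc 2 * n * (12 * κ ^ 3) ≤ 2 * (2 * Q * u) * (12 * κ ^ 3) := by gcongr
          _ = 48 * κ ^ 3 * Q * u := by ring
          _ ≤ 2 ^ κ ^ 2 * u := by gcongr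
          _ < 2 ^ κ ^ 2 * 2 ^ u := by gcongr; exact Nat.lt_two_pow_self
          _ ≤ _ := by
            rw [← pow_add]
            refine Nat.pow_le_pow_right two_pos ?_
            nlinarith [Nat.mul_le_mul_left κ hu, Nat.mul_le_mul_right u hκ])
    le_rfl hJ1
    (by calc n ≤ Q * (2 * 1 * u) := hn2.trans (le_of_eq (by ring))
          _ ≤ _ := by gcongr; exact Nat.one_le_pow _ _ hκ0)
    (by have h1 : κ ^ 1 * u ≤ κ ^ 6 * u := by gcongr <;> omega
        have h2 : u ≤ κ * u := Nat.le_mul_of_pos_left _ hκ0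
        nlinarith)
    (b_seed hκ hu0 hQ0 hn2 hQL' hJQ)
  have h1 : (1 : ℝ) ≤ 2 ^ (S * (8 * κ ^ 3 * K + 1) + (κ ^ 2 + κ / 2 * u) + 1 + κ) *
      (1 / 2) ^ (κ * u) := by
    have hκ' : (0 : ℝ) < κ := by exact_mod_cast hκ0
    have e1 : (P.size : ℝ) ^ (8 * κ ^ 3 * K + 1) ≤ 2 ^ (S * (8 * κ ^ 3 * K + 1)) := by
      rw [pow_mul]
      gcongr
      exact_mod_cast hs
    have e2 : (J : ℝ) * (3 * (16 * κ ^ 6 : ℕ)) ^ u ≤ 2 ^ (κ ^ 2 + κ / 2 * u) := by
      have : J * (3 * (16 * κ ^ 6)) ^ u ≤ 2 ^ (κ ^ 2 + κ / 2 * u) := by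
        rw [pow_add, pow_mul]
        gcongr
        · omega
        · refine le_trans ?_ (pow8 hκ)
          rw [← mul_assoc]
          exact p0 _ _ _ (by norm_num) (by norm_num)
      exact_mod_cast this
    have e3 : (3 * Q : ℝ) ^ (2 * (2 * κ ^ 4 * u)) *
        (1 / 2) ^ (κ ^ 2 * (2 * (2 * κ ^ 4 * u)) + κ * u) ≤ (1 / 2) ^ (κ * u) := by
      rw [pow_add, ← mul_assoc, pow_mul (1 / 2 : ℝ) (κ ^ 2), ← mul_pow]
      refine mul_le_of_le_one_left (by positivity) (pow_le_one₀ (by positivity) ?_)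
      rw [one_div, inv_pow, ← div_eq_mul_inv, div_le_one (by positivity)]
      exact_mod_cast hQL'
    have e4 := mul_le_mul (mul_le_mul e1 e2 (by positivity) (by positivity))
      (add_le_add (le_refl ((1 / 2 : ℝ) ^ (κ * u))) e3) (by positivity) (by positivity)
    have e5 := le_of_mul_le_mul_right (((mul_assoc _ _ _).le.trans
      (mul_le_mul_of_nonneg_left hden two_pos.le)).trans hst) (by positivity)
    have e6 : (κ : ℝ) ≤ 2 ^ κ := by exact_mod_cast Nat.lt_two_pow_self.le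
    have e7 : 4 / (κ : ℝ) * κ = 4 := by field_simp
    have e8 := mul_le_mul_of_nonneg_right (e5.trans (add_le_add le_rfl e4)) hκ'.le
    simp only [pow_add (2 : ℝ)] at e8 ⊢
    calc (1 : ℝ) ≤ 2 ^ (S * (8 * κ ^ 3 * K + 1)) * (2 ^ κ ^ 2 * 2 ^ (κ / 2 * u)) * 2 ^ 1 * κ *
          (1 / 2) ^ (κ * u) := by nlinarith
      _ ≤ _ := by gcongr
  have h2 := exp_le h1
  have h4 : u ≤ S * (9 * κ ^ 3 * K) := by
    have h5 : κ / 2 * u + u ≤ κ * u := by
      rw [← add_one_mul]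
      gcongr
      omega
    have h6 : κ ^ 2 + κ + 2 ≤ κ ^ 3 * K := by
      have := p0 3 2 3 (by norm_num) (by norm_num)
      nlinarith [Nat.le_mul_of_pos_right (κ ^ 3) hK0]
    nlinarith
  have h7 := absorb (c := 18) (j := 11) (a := 18) (b := 19) hκ (by norm_num) (by norm_num)
    (by norm_num)
  calc n ≤ 2 * Q * (S * (9 * κ ^ 3 * K)) := hn2.trans (by gcongr)
    _ = S * (18 * κ ^ 11 * κ ^ (18 * κ)) := by rw [hQ, hK']; ring
    _ ≤ _ := by gcongr

theorem b_main : ∃ c : ℝ, 0 < c ∧ ∀ δ : ℝ, 0 < δ → ∃ C : ℕ,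
    ∀ (n S T : ℕ) (P : BP (Var n) (ZMod 2)), 1 ≤ S → C * S ≤ n → P.size ≤ 2 ^ S →
    (1 / 2 + δ) * 2 ^ (6 * n) ≤ #{x | P.out T x = true ↔ cub n x = 1} →
    c * n * Real.log (n / S) / Real.log (Real.log (n / S)) ≤ T := by
  obtain ⟨c, hc, h⟩ := last_step 19
  refine ⟨c, hc, fun δ hδ => ?_⟩
  obtain ⟨C, hC⟩ := h (max 128 ⌈3 / δ⌉₊)
  refine ⟨C, fun n S T P hS hn hs hden => hC n S T hS hn fun κ hκ h3 =>
    b_num P hS hs (by convert hden) (le_of_max_le_left hκ) ?_ h3⟩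
  have := Nat.ceil_le.1 (le_of_max_le_right hκ)
  rwa [div_le_iff₀' hδ] at this

end Pool.Agent.MP_47ff19_lc.H43

end
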