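import Mathlib
import Pool.Agent.MP_47ff19_lc.H43.Defs

-- part MP_47ff19_lc.H43.Cub
section

/-! The cubic form. -/

namespace Pool.Agent.MP_47ff19_lc.H43

open Sum

/-- the `6 n` input bits `u`, `v`, `w` (`n` bits each) and `y` (`3 n` bits) -/
abbrev Var (n : ℕ) : Type := Fin n ⊕ Fin n ⊕ Fin n ⊕ Fin (3 * n)

/-- the form `∑ u_i v_j w_k y_(i+j+k)` over the field with two elements -/
def cub (n : ℕ) (x : Var n → ZMod 2) : ZMod 2 :=
  ∑ i : Fin n, ∑ j : Fin n, ∑ k : Fin n, x (inl i) * x (inr (inl j)) * x (inr (inr (inl k))) *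
    x (inr (inr (inr ⟨i + j + k, by omega⟩)))

end Pool.Agent.MP_47ff19_lc.H43

end

-- part MP_47ff19_lc.H43.Base
section

/-! Working definitions. -/

namespace Pool.Agent.MP_47ff19_lc.H43

open Finset Sum

/-- `G` is invariant under changing the coordinates in `A` -/
def Inv {V D : Type} (A : Finset V) (G : Finset (V → D)) : Prop :=
  ∀ x ∈ G, ∀ x' : V → D, (∀ v, v ∉ A → x' v = x v) → x' ∈ G

variable {n : ℕ}

/-- the window number `j` of width `w` -/
def win (n w j : ℕ) : Finset (Fin n) := univ.filter fun i => i.val / w = j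

/-- the subsets of one of the first `J` windows that miss at most `b` points of it -/
def lab (n w J b : ℕ) : Finset (Finset (Fin n)) :=
  univ.filter fun A => ∃ j < J, A ⊆ win n w j ∧ #(win n w j \ A) ≤ b

/-- the vectors supported in `A` -/
def sup (A : Finset (Fin n)) : Finset (Fin n → ZMod 2) := univ.filter fun β => ∀ j, j ∉ A → β j = 0

/-- the Hankel matrix of `lam * y` -/
def conv (lam : Fin n → ZMod 2) (y : Fin (3 * n) → ZMod 2) (j k : Fin n) : ZMod 2 :=
  ∑ i : Fin n, lam i * y ⟨i + j + k, by omega⟩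

/-- the left kernel of the submatrix with rows `A` and columns `A'` -/
def ker (lam : Fin n → ZMod 2) (y : Fin (3 * n) → ZMod 2) (A A' : Finset (Fin n)) :
    Finset (Fin n → ZMod 2) :=
  (sup A).filter fun β => ∀ k ∈ A', ∑ j, β j * conv lam y j k = 0

/-- every positive difference occurs at most `h` times in `A` -/
def Sid (h : ℕ) (A : Finset (Fin n)) : Prop :=
  ∀ δ : ℕ, 0 < δ → #{k ∈ A | ∃ k' ∈ A, k'.val = k.val + δ} ≤ h

/-- all relevant submatrices have rank at least `R` -/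
def GoodY (w J m R h : ℕ) (y : Fin (3 * n) → ZMod 2) : Prop :=
  ∀ j < J, ∀ lam ∈ sup (win n w j), lam ≠ 0 → ∀ A A' : Finset (Fin n), #A = m → #A' = m →
    Sid h A' → #(ker lam y A A') * 2 ^ R ≤ 2 ^ m

/-- the sign character -/
def sg (a : ZMod 2) : ℝ := if a = 0 then 1 else -1

/-- the `y` part of an input -/
def yy (x : Var n → ZMod 2) : Fin (3 * n) → ZMod 2 := fun s => x (inr (inr (inr s)))

/-- a set of `u` variables -/
def e1 (I : Finset (Fin n)) : Finset (Var n) := I.image inl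

/-- a set of `v` variables and a set of `w` variables -/
def e2 (A A' : Finset (Fin n)) : Finset (Var n) :=
  A.image (fun j => inr (inl j)) ∪ A'.image fun k => inr (inr (inl k))

end Pool.Agent.MP_47ff19_lc.H43

end

-- part MP_47ff19_lc.H43.Core
section

/-! Segments of a computation and the decomposition into unbalanced rectangles. -/

namespace Pool.Agent.MP_47ff19_lc.H43

open Finset

/-- the time at which segment `i` starts -/
def cut (T l i : ℕ) : ℕ := min (i * l) T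

/-- the length of segment `i` -/
def len (T l i : ℕ) : ℕ := cut T l (i + 1) - cut T l i

theorem cut_succ (T l i : ℕ) : cut T l (i + 1) = cut T l i + len T l i := by
  have : cut T l i ≤ cut T l (i + 1) := min_le_min_right _ (Nat.mul_le_mul_right _ (Nat.le_succ i))
  unfold len
  omega

theorem len_le (T l i : ℕ) : len T l i ≤ l := by
  unfold len cut
  rw [Nat.succ_mul]
  omega

theorem sum_len (T l r : ℕ) : ∑ i ∈ range r, len T l i = cut T l r := by
  induction r with
  | zero => simp [cut]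
  | succ r ih => rw [sum_range_succ, ih, cut_succ]

namespace BP

variable {V D : Type} (P : BP V D)

/-- the node reached from `s` after `t` queries -/
def go (x : V → D) (s : Fin P.size) : ℕ → Fin P.size
  | 0 => s
  | t + 1 => P.next (go x s t) (x (P.var (go x s t)))

theorem run_add (x : V → D) (a t : ℕ) : P.run x (a + t) = P.go x (P.run x a) t := by
  induction t with
  | zero => rfl
  | succ t ih => rw [← Nat.add_assoc, BP.run, ih, go]

variable [DecidableEq V]

/-- the variables read in `t` steps from `s` -/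
def rd (x : V → D) (s : Fin P.size) (t : ℕ) : Finset V :=
  (range t).image fun k => P.var (P.go x s k)

theorem card_rd (x : V → D) (s : Fin P.size) (t : ℕ) : #(P.rd x s t) ≤ t :=
  card_image_le.trans (card_range t).le

theorem go_loc {x x' : V → D} {s : Fin P.size} {t : ℕ} (h : ∀ v ∈ P.rd x s t, x' v = x v) :
    ∀ k ≤ t, P.go x' s k = P.go x s k := by
  intro k hk
  induction k with
  | zero => rfl
  | succ k ih =>
    rw [go, go, ih (by omega), h _ (mem_image.2 ⟨k, mem_range.2 (by omega), rfl⟩)]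

theorem rd_loc {x x' : V → D} {s : Fin P.size} {t : ℕ} (h : ∀ v ∈ P.rd x s t, x' v = x v) :
    P.rd x' s t = P.rd x s t :=
  image_congr fun k hk => by
    rw [P.go_loc h k (mem_range.1 (mem_coe.1 hk)).le]

/-- the variables read in segment `i` -/
def Rd (T l : ℕ) (x : V → D) (i : ℕ) : Finset V := P.rd x (P.run x (cut T l i)) (len T l i)

theorem card_Rd (T l : ℕ) (x : V → D) (i : ℕ) : #(P.Rd T l x i) ≤ l :=
  (P.card_rd _ _ _).trans (len_le T l i)

theorem sum_Rd (T l r : ℕ) (x : V → D) : ∑ i : Fin r, #(P.Rd T l x i) ≤ T := by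
  calc _ ≤ ∑ i : Fin r, len T l i := sum_le_sum fun i _ => P.card_rd _ _ _
    _ = cut T l r := by rw [Fin.sum_univ_eq_sum_range (len T l) r, sum_len]
    _ ≤ T := min_le_right _ _

variable {r : ℕ} {ι ι' : Type}

/-- the label `a` avoids what the segments in `F` read when they start as `φ` prescribes -/
def Av (T l : ℕ) (φ : Fin (r + 1) → Fin P.size) (F : Finset (Fin r)) (L : Finset ι)
    (s : ι → Finset V) (x : V → D) (a : ι) : Prop :=
  a ∈ L ∧ ∀ i ∈ F, Disjoint (s a) (P.rd x (φ i.castSucc) (len T l i))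

variable [Fintype V] [Fintype D]

open Classical in
/-- the inputs that follow `φ` on the segments in `F` and whose chosen label is `a` -/
noncomputable def side [Nonempty ι] (T l : ℕ) (φ : Fin (r + 1) → Fin P.size) (F : Finset (Fin r))
    (L : Finset ι) (s : ι → Finset V) (a : ι) : Finset (V → D) :=
  {x | (∀ i ∈ F, P.go x (φ i.castSucc) (len T l i) = φ i.succ) ∧ P.Av T l φ F L s x a ∧
    Classical.epsilon (P.Av T l φ F L s x) = a}

theorem side_inv [Nonempty ι] (T l : ℕ) (φ : Fin (r + 1) → Fin P.size) (F : Finset (Fin r))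
    (L : Finset ι) (s : ι → Finset V) (a : ι) : Inv (s a) (P.side T l φ F L s a) := by
  intro x hx x' h
  simp only [side, mem_filter, mem_univ, true_and] at hx ⊢
  have h1 : ∀ i ∈ F, ∀ v ∈ P.rd x (φ i.castSucc) (len T l i), x' v = x v := fun i hi v hv =>
    h v fun hv' => disjoint_left.1 (hx.2.1.2 i hi) hv' hv
  have h2 : P.Av T l φ F L s x' = P.Av T l φ F L s x := by
    funext b
    unfold Av
    congr 1
    exact propext (forall₂_congr fun i hi => by rw [P.rd_loc (h1 i hi)])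
  rw [h2]
  exact ⟨fun i hi => by rw [P.go_loc (h1 i hi) _ le_rfl, hx.1 i hi], hx.2⟩

theorem sum_side [Nonempty ι] (T l : ℕ) (φ : Fin (r + 1) → Fin P.size) (F : Finset (Fin r))
    (L : Finset ι) (s : ι → Finset V) :
    ∑ a ∈ L, #(P.side T l φ F L s a) ≤ Fintype.card (V → D) := by
  classical
  rw [← card_biUnion]
  · exact card_le_univ _
  · intro a _ b _ hab
    refine disjoint_left.2 fun x hx hy => hab ?_
    simp only [side, mem_filter, mem_univ, true_and] at hx hy
    rw [← hx.2.2, hy.2.2]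

/-- both kinds of labels exist for the input `x` -/
def Good (T l : ℕ) (F : Finset (Fin r)) (L : Finset ι) (s : ι → Finset V) (L' : Finset ι')
    (s' : ι' → Finset V) (x : V → D) : Prop :=
  (∃ a ∈ L, ∀ i ∈ F, Disjoint (s a) (P.Rd T l x i)) ∧
    ∃ a ∈ L', ∀ i, i ∉ F → Disjoint (s' a) (P.Rd T l x i)

theorem trace_eq [Nonempty ι] [Nonempty ι'] {T l : ℕ} {φ : Fin (r + 1) → Fin P.size}
    (h0 : φ 0 = P.start) {F : Finset (Fin r)} {L : Finset ι} {s : ι → Finset V} {L' : Finset ι'}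
    {s' : ι' → Finset V} {a : ι} {a' : ι'} {x : V → D} (h : x ∈ P.side T l φ F L s a)
    (h' : x ∈ P.side T l φ Fᶜ L' s' a') (i : Fin (r + 1)) : P.run x (cut T l i) = φ i := by
  simp only [side, mem_filter, mem_univ, true_and] at h h'
  induction i using Fin.induction with
  | zero => simp [cut, h0, BP.run]
  | succ i ih =>
    rw [Fin.val_succ, cut_succ, run_add]
    rw [Fin.val_castSucc] at ih
    rw [ih]
    by_cases hi : i ∈ F
    · exact h.1 i hi
    · exact h'.1 i (mem_compl.2 hi)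

open Classical in
/-- The good inputs are partitioned into rectangles. -/
theorem core [DecidableEq D] [Nonempty ι] [Nonempty ι'] {T l : ℕ} (hT : T ≤ r * l) (F : Finset (Fin r))
    (L : Finset ι) (s : ι → Finset V) (L' : Finset ι') (s' : ι' → Finset V) (ψ : (V → D) → ℝ)
    {α β : ℝ} (hα : 0 ≤ α) (hβ : 0 ≤ β)
    (H : ∀ a ∈ L, ∀ a' ∈ L', ∀ G1 G2 : Finset (V → D), Inv (s' a') G1 → Inv (s a) G2 →
      (∃ o, ∀ x ∈ G1 ∩ G2, P.out T x = o) →
      |∑ x ∈ G1 ∩ G2, ψ x| ≤ α * #G1 + β * Fintype.card (V → D)) :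
    |∑ x with P.Good T l F L s L' s' x, ψ x| ≤
      (P.size : ℝ) ^ (r + 1) * #L * (α + #L' * β) * Fintype.card (V → D) := by
  set tr : (V → D) → Fin (r + 1) → Fin P.size := fun x i => P.run x (cut T l i) with htr
  set lb : (V → D) → (Fin (r + 1) → Fin P.size) × ι × ι' := fun x =>
    (tr x, Classical.epsilon (P.Av T l (tr x) F L s x),
      Classical.epsilon (P.Av T l (tr x) Fᶜ L' s' x)) with hlb
  have hgood : ∀ x, P.Good T l F L s L' s' x ↔
      (∃ a, P.Av T l (tr x) F L s x a) ∧ ∃ a, P.Av T l (tr x) Fᶜ L' s' x a := fun x => by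
    simp only [Good, Av, Rd, htr, Fin.val_castSucc, mem_compl]
  have hseg : ∀ x (i : Fin r), P.go x (tr x i.castSucc) (len T l i) = tr x i.succ := fun x i => by
    simp only [htr, Fin.val_castSucc, Fin.val_succ, cut_succ, run_add]
  have hmap : ∀ x ∈ ({x | P.Good T l F L s L' s' x} : Finset (V → D)),
      lb x ∈ ({φ : Fin (r + 1) → Fin P.size | φ 0 = P.start} : Finset _) ×ˢ L ×ˢ L' := by
    intro x hx
    have h := (hgood x).1 (mem_filter.1 hx).2
    simp only [hlb, mem_product, mem_filter, mem_univ, true_and]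
    exact ⟨by simp [htr, cut, BP.run], (Classical.epsilon_spec h.1).1,
      (Classical.epsilon_spec h.2).1⟩
  have hfib : ∀ p ∈ ({φ : Fin (r + 1) → Fin P.size | φ 0 = P.start} : Finset _) ×ˢ L ×ˢ L',
      ({x ∈ ({x | P.Good T l F L s L' s' x} : Finset (V → D)) | lb x = p}) =
        P.side T l p.1 Fᶜ L' s' p.2.2 ∩ P.side T l p.1 F L s p.2.1 := by
    rintro ⟨φ, a, a'⟩ hp
    have h0 : φ 0 = P.start := (mem_filter.1 (mem_product.1 hp).1).2
    ext x
    constructor
    · intro hx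
      have h := (hgood x).1 (mem_filter.1 (mem_filter.1 hx).1).2
      have he := (mem_filter.1 hx).2
      simp only [hlb, Prod.mk.injEq] at he
      obtain ⟨rfl, rfl, rfl⟩ := he
      simp only [side, mem_inter, mem_filter, mem_univ, true_and, and_true]
      exact ⟨⟨fun i _ => hseg x i, Classical.epsilon_spec h.2⟩, fun i _ => hseg x i,
        Classical.epsilon_spec h.1⟩
    · intro hx
      have h := mem_inter.1 hx
      have he : tr x = φ := funext (P.trace_eq h0 h.2 h.1)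
      subst he
      simp only [side, mem_filter, mem_univ, true_and] at h
      refine mem_filter.2 ⟨mem_filter.2 ⟨mem_univ _, (hgood x).2 ⟨⟨a, h.2.2.1⟩, a', h.1.2.1⟩⟩, ?_⟩
      simp only [hlb, h.1.2.2, h.2.2.2]
  rw [← sum_fiberwise_of_maps_to hmap]
  refine (abs_sum_le_sum_abs _ _).trans ?_
  calc _ ≤ ∑ p ∈ ({φ : Fin (r + 1) → Fin P.size | φ 0 = P.start} : Finset _) ×ˢ L ×ˢ L',
        (α * #(P.side T l p.1 Fᶜ L' s' p.2.2) + β * Fintype.card (V → D)) := by
        refine sum_le_sum fun p hp => ?_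
        rw [hfib p hp]
        have hp' := mem_product.1 hp
        refine H _ (mem_product.1 hp'.2).1 _ (mem_product.1 hp'.2).2 _ _
          (P.side_inv _ _ _ _ _ _ _) (P.side_inv _ _ _ _ _ _ _)
          ⟨P.acc (p.1 (Fin.last r)), fun x hx => ?_⟩
        have h := P.trace_eq (mem_filter.1 hp'.1).2 (mem_inter.1 hx).2 (mem_inter.1 hx).1
          (Fin.last r)
        rw [Fin.val_last, cut, min_eq_right hT] at h
        rw [out, h]
    _ ≤ ∑ _φ ∈ ({φ : Fin (r + 1) → Fin P.size | φ 0 = P.start} : Finset _), ∑ _a ∈ L,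
        (α + #L' * β) * Fintype.card (V → D) := by
        rw [sum_product]
        refine sum_le_sum fun φ _ => ?_
        rw [sum_product]
        refine sum_le_sum fun a _ => ?_
        have h : (∑ a' ∈ L', (#(P.side T l φ Fᶜ L' s' a') : ℝ)) ≤ Fintype.card (V → D) := by
          exact_mod_cast P.sum_side T l φ Fᶜ L' s'
        simp only [sum_add_distrib, ← mul_sum, sum_const, nsmul_eq_mul]
        nlinarith
    _ ≤ _ := by
        have h : (#({φ : Fin (r + 1) → Fin P.size | φ 0 = P.start} : Finset _) : ℝ) ≤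
            (P.size : ℝ) ^ (r + 1) := by
          have := card_le_univ ({φ : Fin (r + 1) → Fin P.size | φ 0 = P.start} : Finset _)
          rw [Fintype.card_fun, Fintype.card_fin, Fintype.card_fin] at this
          exact_mod_cast this
        simp only [sum_const, nsmul_eq_mul]
        rw [mul_assoc, mul_assoc]
        gcongr

end BP

end Pool.Agent.MP_47ff19_lc.H43

end

-- part MP_47ff19_lc.H43.Sel
section

/-! A random set of segments: segment `i` is chosen when `ω i = 0`. -/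

namespace Pool.Agent.MP_47ff19_lc.H43

open Finset

variable {V : Type} [DecidableEq V] {r M : ℕ}

/-- `ω` vanishes on `N` for exactly `M ^ (r - #N)` colourings (`Fintype.card_piFinset`) -/
theorem card_zero_on (hM : 0 < M) (N : Finset (Fin r)) :
    #{ω : Fin r → Fin M | ∀ i ∈ N, (ω i).val = 0} * M ^ #N = M ^ r := by
  have e : ({ω : Fin r → Fin M | ∀ i ∈ N, (ω i).val = 0} : Finset _) =
      Fintype.piFinset fun i => if i ∈ N then {(⟨0, hM⟩ : Fin M)} else univ := by
    ext ω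
    simp only [mem_filter, mem_univ, true_and, Fintype.mem_piFinset]
    refine forall_congr' fun i => ?_
    split_ifs with h <;> simp [h, Fin.ext_iff]
  have e2 : M ^ #N = ∏ i : Fin r, if i ∈ N then M else 1 := by simp
  rw [e, Fintype.card_piFinset, e2, ← prod_mul_distrib]
  rw [prod_congr rfl (g := fun _ => M) fun i _ => by split_ifs <;> simp]
  simp

/-- indicator that `ω` vanishes on `N` -/
def Sel_ind (ω : Fin r → Fin M) (N : Finset (Fin r)) : ℝ :=
  if ∀ i ∈ N, (ω i).val = 0 then 1 else 0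

theorem Sel_sum (hM : 0 < M) (N : Finset (Fin r)) :
    ∑ ω : Fin r → Fin M, Sel_ind ω N = M ^ r * ((M : ℝ) ^ #N)⁻¹ := by
  have h : (#{ω : Fin r → Fin M | ∀ i ∈ N, (ω i).val = 0} : ℝ) * M ^ #N = M ^ r := by
    exact_mod_cast card_zero_on hM N
  have hM' : (0 : ℝ) < M := by exact_mod_cast hM
  simp only [Sel_ind, sum_boole]
  rw [← h, mul_inv_cancel_right₀ (by positivity)]

theorem Sel_mul (ω : Fin r → Fin M) (N N' : Finset (Fin r)) :
    Sel_ind ω N * Sel_ind ω N' = Sel_ind ω (N ∪ N') := by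
  simp only [Sel_ind, forall_mem_union]
  split_ifs <;> simp_all

omit [DecidableEq V] in
/-- the second moment -/
theorem Sel_var (hM : 0 < M) (W : Finset V) (N : V → Finset (Fin r)) (D : ℕ)
    (hD : ∀ v ∈ W, #{v' ∈ W | ¬ Disjoint (N v) (N v')} ≤ D) :
    ∑ ω : Fin r → Fin M, (∑ v ∈ W, (Sel_ind ω (N v) - ((M : ℝ) ^ #(N v))⁻¹)) ^ 2 ≤
      M ^ r * (D * ∑ v ∈ W, ((M : ℝ) ^ #(N v))⁻¹) := by
  have hM' : (0 : ℝ) < M := by exact_mod_cast hM
  have hM1 : (1 : ℝ) ≤ M := by exact_mod_cast hM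
  simp only [sq, sum_mul_sum]
  rw [sum_comm, mul_sum, mul_sum]
  refine sum_le_sum fun v hv => ?_
  rw [sum_comm]
  calc _ ≤ ∑ v' ∈ W, if ¬ Disjoint (N v) (N v') then (M : ℝ) ^ r * ((M : ℝ) ^ #(N v))⁻¹ else 0 := by
        refine sum_le_sum fun v' _ => ?_
        have e : ∑ ω : Fin r → Fin M, (Sel_ind ω (N v) - ((M : ℝ) ^ #(N v))⁻¹) *
            (Sel_ind ω (N v') - ((M : ℝ) ^ #(N v'))⁻¹) = M ^ r * (((M : ℝ) ^ #(N v ∪ N v'))⁻¹ -
              ((M : ℝ) ^ #(N v))⁻¹ * ((M : ℝ) ^ #(N v'))⁻¹) := by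
          simp only [sub_mul, mul_sub, sum_sub_distrib, Sel_mul, ← sum_mul, ← mul_sum, Sel_sum hM,
            sum_const, card_univ, Fintype.card_fun, Fintype.card_fin, nsmul_eq_mul]
          push_cast
          ring
        rw [e]
        split_ifs with h
        · rw [card_union_of_disjoint h, pow_add, mul_inv, sub_self, mul_zero]
        · gcongr
          refine (sub_le_self _ (by positivity)).trans (inv_anti₀ (by positivity) ?_)
          exact pow_le_pow_right₀ hM1 (card_le_card subset_union_left)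
    _ = #{v' ∈ W | ¬ Disjoint (N v) (N v')} * ((M : ℝ) ^ r * ((M : ℝ) ^ #(N v))⁻¹) := by
        rw [← sum_filter, sum_const, nsmul_eq_mul]
    _ ≤ D * ((M : ℝ) ^ r * ((M : ℝ) ^ #(N v))⁻¹) := by
        gcongr
        exact hD v hv
    _ = _ := by ring

/-- Chebyshev. Let `N v = {i | v ∈ Rd i}` and let `W'` be the set of `v ∈ W` with `#(N v) ≤ κ`;
double counting gives `2 * #W' ≥ #W`. Let `Z ω` be the number of `v ∈ W'` with `ω = 0` on `N v`
and `μ = ∑ v ∈ W', M⁻¹ ^ #(N v) ≥ #W / (2 M ^ κ)`. Then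
`∑ ω, (Z ω - μ) ^ 2 = M ^ r * ∑ v v', (M⁻¹ ^ #(N v ∪ N v') - M⁻¹ ^ (#(N v) + #(N v')))`; the term
vanishes if `N v`, `N v'` are disjoint and is at most `M⁻¹ ^ #(N v)` otherwise, and for each `v`
at most `κ * l` elements `v'` have `N v ∩ N v' ≠ ∅` (they lie in `⋃ i ∈ N v, Rd i`). So the sum is
at most `M ^ r * κ l μ`. For `ω` in the set below `Z ω < μ / 2`. -/
theorem sel_out (hM : 0 < M) (Rd : Fin r → Finset V) (W : Finset V) {l T κ : ℕ}
    (h1 : ∀ i, #(Rd i) ≤ l) (h2 : ∑ i, #(Rd i) ≤ T) (h3 : 2 * T ≤ κ * #W) :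
    #{ω : Fin r → Fin M | 4 * M ^ κ * #{v ∈ W | ∀ i, (ω i).val ≠ 0 → v ∉ Rd i} < #W} * #W ≤
      8 * κ * l * M ^ κ * M ^ r := by
  rcases Nat.eq_zero_or_pos #W with h0 | hW
  · simp [h0]
  set N : V → Finset (Fin r) := fun v => {i | v ∈ Rd i} with hN
  set W' : Finset V := {v ∈ W | #(N v) ≤ κ} with hW'
  have hc : #W ≤ 2 * #W' := by
    have a1 : ∑ v ∈ W, #(N v) ≤ T := by
      refine le_trans ?_ h2
      simp only [hN, card_filter]
      rw [sum_comm]
      refine sum_le_sum fun i _ => ?_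
      rw [← card_filter]
      exact card_le_card fun v hv => (mem_filter.1 hv).2
    have a2 : #{v ∈ W | ¬ #(N v) ≤ κ} * (κ + 1) ≤ ∑ v ∈ W, #(N v) := by
      rw [← smul_eq_mul, ← sum_const]
      exact (sum_le_sum fun v hv => by have := (mem_filter.1 hv).2; omega).trans
        (sum_le_sum_of_subset (filter_subset _ _))
    have a3 := card_filter_add_card_filter_not (s := W) fun v => #(N v) ≤ κ
    have a4 : 2 * #{v ∈ W | ¬ #(N v) ≤ κ} * (κ + 1) ≤ #W * (κ + 1) := by nlinarith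
    have := Nat.le_of_mul_le_mul_right a4 (Nat.succ_pos κ)
    rw [← hW'] at a3
    omega
  have hM' : (0 : ℝ) < M := by exact_mod_cast hM
  have hM1 : (1 : ℝ) ≤ M := by exact_mod_cast hM
  set μ : ℝ := ∑ v ∈ W', ((M : ℝ) ^ #(N v))⁻¹ with hμ
  have hμ1 : (#W : ℝ) ≤ 2 * M ^ κ * μ := by
    have : (#W' : ℝ) ≤ M ^ κ * μ := by
      rw [hμ, mul_sum, card_eq_sum_ones, Nat.cast_sum]
      refine sum_le_sum fun v hv => ?_
      rw [← div_eq_mul_inv, Nat.cast_one, one_le_div (by positivity)]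
      exact pow_le_pow_right₀ hM1 (mem_filter.1 hv).2
    have h' : (#W : ℝ) ≤ 2 * #W' := by exact_mod_cast hc
    linarith
  have hW0 : (0 : ℝ) < #W := by exact_mod_cast hW
  have hK : (0 : ℝ) < M ^ κ := by positivity
  have hμ0 : 0 < μ := by
    by_contra h
    nlinarith
  have hv := Sel_var hM W' N (κ * l) fun v hv => by
    calc #{v' ∈ W' | ¬ Disjoint (N v) (N v')} ≤ #((N v).biUnion Rd) := by
          refine card_le_card fun v' hv' => ?_
          obtain ⟨i, h1, h2⟩ := not_disjoint_iff.1 (mem_filter.1 hv').2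
          exact mem_biUnion.2 ⟨i, h1, (mem_filter.1 h2).2⟩
      _ ≤ #(N v) * l := card_biUnion_le_card_mul _ _ _ fun i _ => h1 i
      _ ≤ κ * l := Nat.mul_le_mul_right l (mem_filter.1 hv).2
  set Bad : Finset (Fin r → Fin M) :=
    {ω | 4 * M ^ κ * #{v ∈ W | ∀ i, (ω i).val ≠ 0 → v ∉ Rd i} < #W} with hBad
  have hb : (#Bad : ℝ) * (μ / 2) ^ 2 ≤ M ^ r * ((κ * l : ℕ) * μ) := by
    refine le_trans ?_ hv
    rw [← nsmul_eq_mul, ← sum_const]
    refine (sum_le_sum fun ω hω => ?_).trans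
      (sum_le_sum_of_subset_of_nonneg (subset_univ _) fun _ _ _ => sq_nonneg _)
    have b1 : (4 * M ^ κ * #{v ∈ W | ∀ i, (ω i).val ≠ 0 → v ∉ Rd i} : ℝ) < #W := by
      exact_mod_cast (mem_filter.1 hω).2
    have b2 : (∑ v ∈ W', Sel_ind ω (N v) : ℝ) ≤ #{v ∈ W | ∀ i, (ω i).val ≠ 0 → v ∉ Rd i} := by
      simp only [Sel_ind, sum_boole, Nat.cast_le]
      refine card_le_card fun v hv => ?_
      simp only [mem_filter, hW', hN, mem_univ, true_and] at hv ⊢
      exact ⟨hv.1.1, fun i hi hv' => hi (hv.2 i hv')⟩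
    have b3 : ∑ v ∈ W', Sel_ind ω (N v) ≤ μ / 2 := by
      by_contra h
      nlinarith
    rw [sum_sub_distrib, ← hμ]
    nlinarith
  have hfin : (#Bad : ℝ) * μ ≤ 4 * (M ^ r * (κ * l : ℕ)) := by
    refine le_of_mul_le_mul_right ?_ hμ0
    nlinarith
  have : (#Bad : ℝ) * #W ≤ 8 * κ * l * M ^ κ * M ^ r := by
    calc (#Bad : ℝ) * #W ≤ #Bad * (2 * M ^ κ * μ) := by gcongr
      _ = 2 * M ^ κ * (#Bad * μ) := by ring
      _ ≤ 2 * M ^ κ * (4 * (M ^ r * (κ * l : ℕ))) := by gcongr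
      _ = _ := by push_cast; ring
  exact_mod_cast this

/-- Markov -/
theorem sel_in (hM : 0 < M) (c : Fin r → ℕ) {T : ℕ} (h2 : ∑ i, c i ≤ T) (B : ℕ) :
    #{ω : Fin r → Fin M | B < ∑ i with (ω i).val = 0, c i} * (M * B) ≤ T * M ^ r := by
  have a1 : (∑ ω : Fin r → Fin M, ∑ i with (ω i).val = 0, c i) * M = (∑ i, c i) * M ^ r := by
    simp only [sum_filter]
    rw [sum_comm, sum_mul, sum_mul]
    refine sum_congr rfl fun i _ => ?_
    have := card_zero_on hM ({i} : Finset (Fin r))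
    simp only [mem_singleton, forall_eq, card_singleton, pow_one] at this
    rw [← sum_filter, sum_const, smul_eq_mul, ← this]
    ring
  have a2 : #{ω : Fin r → Fin M | B < ∑ i with (ω i).val = 0, c i} * B ≤
      ∑ ω : Fin r → Fin M, ∑ i with (ω i).val = 0, c i := by
    rw [← smul_eq_mul, ← sum_const]
    exact (sum_le_sum fun ω hω => (mem_filter.1 hω).2.le).trans
      (sum_le_sum_of_subset (filter_subset _ _))
  calc _ = #{ω : Fin r → Fin M | B < ∑ i with (ω i).val = 0, c i} * B * M := by ring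
    _ ≤ (∑ i, c i) * M ^ r := a1 ▸ Nat.mul_le_mul_right M a2
    _ ≤ _ := Nat.mul_le_mul_right _ h2

open Classical in
/-- averaging -/
theorem pick {Ω α : Type} [Fintype Ω] [Nonempty Ω] (X : Finset α) (bad : Ω → α → Prop) (η : ℝ)
    (h : ∀ x ∈ X, (#{ω | bad ω x} : ℝ) ≤ η * Fintype.card Ω) :
    ∃ ω, (#{x ∈ X | bad ω x} : ℝ) ≤ η * #X := by
  have : ∑ ω : Ω, (#{x ∈ X | bad ω x} : ℝ) ≤ ∑ _ω : Ω, η * #X := by
    calc ∑ ω : Ω, (#{x ∈ X | bad ω x} : ℝ) = ∑ x ∈ X, (#{ω | bad ω x} : ℝ) := by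
          simp only [card_filter, Nat.cast_sum]
          exact sum_comm
      _ ≤ ∑ _x ∈ X, η * Fintype.card Ω := sum_le_sum h
      _ = _ := by simp only [sum_const, card_univ, nsmul_eq_mul]; ring
  obtain ⟨ω, -, hω⟩ := exists_le_of_sum_le univ_nonempty this
  exact ⟨ω, hω⟩

end Pool.Agent.MP_47ff19_lc.H43

end

-- part MP_47ff19_lc.H43.Pick
section

/-! A set of segments that is good for most inputs. -/

namespace Pool.Agent.MP_47ff19_lc.H43

open Finset

variable {V D : Type} [DecidableEq V]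

/-- many variables of `W1` and of `W2` are read only in `F`, and few variables are read in `F` -/
def Big {r : ℕ} (Rd : Fin r → Finset V) (W1 W2 : Finset V) (n K B : ℕ) (F : Finset (Fin r)) :
    Prop :=
  n ≤ 4 * K * #{v ∈ W1 | ∀ i, i ∉ F → v ∉ Rd i} ∧ n ≤ 4 * K * #{v ∈ W2 | ∀ i, i ∉ F → v ∉ Rd i} ∧
    ∑ i ∈ F, #(Rd i) ≤ B

open Classical in
theorem card_not_big {r M : ℕ} (hM : 0 < M) (Rd : Fin r → Finset V) {W1 W2 : Finset V}
    {n l T κ B : ℕ} (hn : 0 < n) (hB : 0 < B) (hW1 : #W1 = n) (hW2 : #W2 = n)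
    (h1 : ∀ i, #(Rd i) ≤ l) (h2 : ∑ i, #(Rd i) ≤ T) (h3 : 2 * T ≤ κ * n) {η : ℝ}
    (h4 : (8 * κ * l * M ^ κ : ℝ) ≤ η * n) (h5 : (T : ℝ) ≤ η * (M * B)) :
    (#{ω : Fin r → Fin M | ¬ Big Rd W1 W2 n (M ^ κ) B {i | (ω i).val = 0}} : ℝ) ≤
      3 * η * Fintype.card (Fin r → Fin M) := by
  have hn' : (0 : ℝ) < n := by exact_mod_cast hn
  have hMB : (0 : ℝ) < M * B := by exact_mod_cast Nat.mul_pos hM hB
  have hout : ∀ W : Finset V, #W = n → (#{ω : Fin r → Fin M |
      4 * M ^ κ * #{v ∈ W | ∀ i, (ω i).val ≠ 0 → v ∉ Rd i} < n} : ℝ) ≤ η * M ^ r := fun W hW => by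
    have h := sel_out hM Rd W h1 h2 (hW ▸ h3)
    rw [hW] at h
    have h' : (#{ω : Fin r → Fin M | 4 * M ^ κ * #{v ∈ W | ∀ i, (ω i).val ≠ 0 → v ∉ Rd i} < n} : ℝ)
        * n ≤ 8 * κ * l * M ^ κ * M ^ r := by exact_mod_cast h
    refine le_of_mul_le_mul_right (h'.trans ?_) hn'
    calc _ ≤ η * n * M ^ r := by gcongr
      _ = _ := by ring
  have hin : (#{ω : Fin r → Fin M | B < ∑ i with (ω i).val = 0, #(Rd i)} : ℝ) ≤ η * M ^ r := by
    have h := sel_in hM (fun i => #(Rd i)) h2 B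
    have h' : (#{ω : Fin r → Fin M | B < ∑ i with (ω i).val = 0, #(Rd i)} : ℝ) * (M * B) ≤
        T * M ^ r := by exact_mod_cast h
    refine le_of_mul_le_mul_right (h'.trans ?_) hMB
    calc _ ≤ η * (M * B) * M ^ r := by gcongr
      _ = _ := by ring
  have hsub : ({ω : Fin r → Fin M | ¬ Big Rd W1 W2 n (M ^ κ) B {i | (ω i).val = 0}} : Finset _) ⊆
      (({ω : Fin r → Fin M | 4 * M ^ κ * #{v ∈ W1 | ∀ i, (ω i).val ≠ 0 → v ∉ Rd i} < n} :
        Finset _) ∪
        ({ω : Fin r → Fin M | 4 * M ^ κ * #{v ∈ W2 | ∀ i, (ω i).val ≠ 0 → v ∉ Rd i} < n} :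
        Finset _)) ∪
        ({ω : Fin r → Fin M | B < ∑ i with (ω i).val = 0, #(Rd i)} : Finset _) := by
    intro ω hω
    simp only [Big, mem_filter, mem_univ, true_and, mem_union, not_and_or, not_le] at hω ⊢
    tauto
  have h6 := (card_le_card hsub).trans ((card_union_le _ _).trans
    (Nat.add_le_add_right (card_union_le _ _) _))
  have h7 := (Nat.cast_le (α := ℝ)).2 h6
  rw [Nat.cast_add, Nat.cast_add] at h7
  rw [Fintype.card_fun, Fintype.card_fin, Fintype.card_fin, Nat.cast_pow]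
  linarith [hout W1 hW1, hout W2 hW2]

open Classical in
theorem BP.exists_big (P : BP V D) (T l r : ℕ) {M : ℕ} (hM : 0 < M) {W1 W2 : Finset V}
    {n κ B : ℕ} (hn : 0 < n) (hB : 0 < B) (hW1 : #W1 = n) (hW2 : #W2 = n) (h3 : 2 * T ≤ κ * n)
    {η : ℝ} (h4 : (8 * κ * l * M ^ κ : ℝ) ≤ η * n) (h5 : (T : ℝ) ≤ η * (M * B))
    (X : Finset (V → D)) : ∃ F : Finset (Fin r),
      (#{x ∈ X | ¬ Big (fun i : Fin r => P.Rd T l x i) W1 W2 n (M ^ κ) B F} : ℝ) ≤ 3 * η * #X := by
  have : Nonempty (Fin M) := ⟨⟨0, hM⟩⟩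
  obtain ⟨ω, hω⟩ := pick X (fun (ω : Fin r → Fin M) x =>
    ¬ Big (fun i : Fin r => P.Rd T l x i) W1 W2 n (M ^ κ) B {i | (ω i).val = 0}) (3 * η)
    fun x _ => by
      convert card_not_big hM _ hn hB hW1 hW2 (fun i => P.card_Rd T l x i) (P.sum_Rd T l r x)
        h3 h4 h5
  exact ⟨_, by convert hω⟩

/-- the number `r` of segments and their length `l` -/
theorem exists_len (T r : ℕ) (hr : 0 < r) : ∃ l, T ≤ r * l ∧ r * l ≤ T + r :=
  ⟨T / r + 1, by
    have := Nat.div_add_mod T r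
    have := Nat.mod_lt T hr
    rw [mul_add, mul_one]
    omega⟩

end Pool.Agent.MP_47ff19_lc.H43

end

-- part MP_47ff19_lc.H43.Small
section

/-! Counting small sets; windows. -/

namespace Pool.Agent.MP_47ff19_lc.H43

open Finset

theorem Small_sum_pow {α : Type} (W : Finset α) (x : ℝ) :
    ∑ E ∈ W.powerset, x ^ #E = (1 + x) ^ #W := by
  classical
  have h := Finset.prod_one_add (s := W) (f := fun _ => x)
  simp only [Finset.prod_const] at h
  exact h.symm

/-- `∑ E ⊆ W, a⁻¹ ^ #E = (1 + a⁻¹) ^ #W ≤ exp (#W / a) ≤ 3 ^ b` (`Finset.prod_one_add` or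
`Finset.sum_pow_of_commute`-like), and each small `E` contributes at least `a⁻¹ ^ b`. -/
theorem card_small {α : Type} (W : Finset α) {a b : ℕ} (ha : 1 ≤ a) (h : #W ≤ a * b) :
    #{E ∈ W.powerset | #E ≤ b} ≤ (3 * a) ^ b := by
  have ha1 : (1 : ℝ) ≤ a := by exact_mod_cast ha
  have ha0 : (0 : ℝ) < a := by linarith
  have hx0 : (0 : ℝ) ≤ (a : ℝ)⁻¹ := by positivity
  have hx1 : (a : ℝ)⁻¹ ≤ 1 := inv_le_one_of_one_le₀ ha1
  have h1 : (#{E ∈ W.powerset | #E ≤ b} : ℝ) * (a : ℝ)⁻¹ ^ b ≤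
      ∑ E ∈ W.powerset, (a : ℝ)⁻¹ ^ #E := by
    calc (#{E ∈ W.powerset | #E ≤ b} : ℝ) * (a : ℝ)⁻¹ ^ b
        = ∑ E ∈ {E ∈ W.powerset | #E ≤ b}, (a : ℝ)⁻¹ ^ b := by
          rw [Finset.sum_const, nsmul_eq_mul]
      _ ≤ ∑ E ∈ {E ∈ W.powerset | #E ≤ b}, (a : ℝ)⁻¹ ^ #E := by
          refine Finset.sum_le_sum fun E hE => ?_
          exact pow_le_pow_of_le_one hx0 hx1 (Finset.mem_filter.1 hE).2
      _ ≤ ∑ E ∈ W.powerset, (a : ℝ)⁻¹ ^ #E :=
          Finset.sum_le_sum_of_subset_of_nonneg (Finset.filter_subset _ _)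
            fun E _ _ => by positivity
  rw [Small_sum_pow] at h1
  have h2 : (1 + (a : ℝ)⁻¹) ^ #W ≤ (1 + (a : ℝ)⁻¹) ^ (a * b) :=
    pow_le_pow_right₀ (by linarith) h
  have h3 : (1 + (a : ℝ)⁻¹) ^ a ≤ 3 := by
    have e1 : (1 + (a : ℝ)⁻¹) ≤ Real.exp ((a : ℝ)⁻¹) := by
      have := Real.add_one_le_exp ((a : ℝ)⁻¹)
      linarith
    have e2 : (1 + (a : ℝ)⁻¹) ^ a ≤ Real.exp ((a : ℝ)⁻¹) ^ a :=
      pow_le_pow_left₀ (by linarith) e1 a
    rw [← Real.exp_nat_mul, mul_inv_cancel₀ ha0.ne'] at e2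
    have e3 := Real.exp_one_lt_d9
    linarith
  have h4 : (1 + (a : ℝ)⁻¹) ^ (a * b) ≤ 3 ^ b := by
    rw [pow_mul]
    exact pow_le_pow_left₀ (by positivity) h3 b
  have h5 : (#{E ∈ W.powerset | #E ≤ b} : ℝ) ≤ (3 * a) ^ b := by
    have hp : (0 : ℝ) < (a : ℝ) ^ b := by positivity
    have h6 : (#{E ∈ W.powerset | #E ≤ b} : ℝ) * (a : ℝ)⁻¹ ^ b ≤ 3 ^ b := h1.trans (h2.trans h4)
    rw [inv_pow, ← div_eq_mul_inv, div_le_iff₀ hp] at h6
    rw [mul_pow]
    exact h6
  exact_mod_cast h5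

variable {n : ℕ}

theorem Small_mem_win {w j : ℕ} {i : Fin n} : i ∈ win n w j ↔ i.val / w = j := by
  simp [win]

theorem card_win_le {w : ℕ} (hw : 0 < w) (j : ℕ) : #(win n w j) ≤ w := by
  have h : #(win n w j) ≤ #(Finset.range w) := by
    refine Finset.card_le_card_of_injOn (fun i => i.val % w) ?_ ?_
    · intro i _
      simp only [Finset.coe_range, Set.mem_Iio]
      exact Nat.mod_lt _ hw
    · intro i hi i' hi' e
      have h1 := Small_mem_win.1 (Finset.mem_coe.1 hi)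
      have h2 := Small_mem_win.1 (Finset.mem_coe.1 hi')
      apply Fin.ext
      have e' : i.val % w = i'.val % w := e
      rw [← Nat.div_add_mod i.val w, ← Nat.div_add_mod i'.val w, h1, h2, e']
  simpa using h

theorem card_win {w j : ℕ} (hw : 0 < w) (h : (j + 1) * w ≤ n) : #(win n w j) = w := by
  refine le_antisymm (card_win_le hw j) ?_
  have hlt : ∀ r : Fin w, j * w + r.val < n := fun r => by
    have := r.isLt
    nlinarith
  have h1 : #(Finset.univ : Finset (Fin w)) ≤ #(win n w j) := by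
    refine Finset.card_le_card_of_injOn (fun r => ⟨j * w + r.val, hlt r⟩) ?_ ?_
    · intro r _
      refine Finset.mem_coe.2 (Small_mem_win.2 ?_)
      show (j * w + r.val) / w = j
      rw [add_comm, Nat.add_mul_div_right _ _ hw, Nat.div_eq_of_lt r.isLt, zero_add]
    · intro r _ r' _ e
      have e' : j * w + r.val = j * w + r'.val := congrArg Fin.val e
      exact Fin.ext (by omega)
  simpa using h1

theorem Small_mem_lab {w J b : ℕ} {A : Finset (Fin n)} :
    A ∈ lab n w J b ↔ ∃ j < J, A ⊆ win n w j ∧ #(win n w j \ A) ≤ b := by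
  simp [lab]

/-- `A` is determined by `j` and `win n w j \ A` -/
theorem card_lab {w a b : ℕ} (hw : 0 < w) (ha : 1 ≤ a) (h : w ≤ a * b) (J : ℕ) :
    #(lab n w J b) ≤ J * (3 * a) ^ b := by
  have hsub : lab n w J b ⊆ (Finset.range J).biUnion fun j =>
      ({E ∈ (win n w j).powerset | #E ≤ b}).image fun E => win n w j \ E := by
    intro A hA
    obtain ⟨j, hj, hs, hc⟩ := Small_mem_lab.1 hA
    refine Finset.mem_biUnion.2 ⟨j, Finset.mem_range.2 hj, Finset.mem_image.2
      ⟨win n w j \ A, Finset.mem_filter.2 ⟨Finset.mem_powerset.2 Finset.sdiff_subset, hc⟩, ?_⟩⟩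
    exact Finset.sdiff_sdiff_eq_self hs
  refine (Finset.card_le_card hsub).trans ?_
  refine (Finset.card_biUnion_le_card_mul _ _ ((3 * a) ^ b) ?_).trans (by simp)
  intro j _
  exact Finset.card_image_le.trans (card_small _ ha ((card_win_le hw j).trans h))

/-- the windows are disjoint, so one of them contains at most `b` points of `R` -/
theorem exists_lab (w : ℕ) {J b : ℕ} (hJ : 0 < J) (R : Finset (Fin n)) (h : #R ≤ J * b) :
    ∃ A ∈ lab n w J b, Disjoint A R := by
  have key : ∃ j < J, #(win n w j ∩ R) ≤ b := by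
    by_contra hc
    push Not at hc
    have h1 : ∑ j ∈ Finset.range J, #(win n w j ∩ R) ≤ #R := by
      rw [← Finset.card_biUnion]
      · refine Finset.card_le_card ?_
        intro i hi
        obtain ⟨j, _, hj⟩ := Finset.mem_biUnion.1 hi
        exact (Finset.mem_inter.1 hj).2
      · intro j _ j' _ hne
        refine Finset.disjoint_left.2 fun i hi hi' => hne ?_
        rw [← Small_mem_win.1 (Finset.mem_inter.1 hi).1,
          ← Small_mem_win.1 (Finset.mem_inter.1 hi').1]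
    have h2 : ∑ j ∈ Finset.range J, (b + 1) ≤ ∑ j ∈ Finset.range J, #(win n w j ∩ R) :=
      Finset.sum_le_sum fun j hj => hc j (Finset.mem_range.1 hj)
    rw [Finset.sum_const, Finset.card_range, smul_eq_mul] at h2
    nlinarith
  obtain ⟨j, hj, hc⟩ := key
  refine ⟨win n w j \ R, Small_mem_lab.2 ⟨j, hj, Finset.sdiff_subset, ?_⟩, Finset.sdiff_disjoint⟩
  rwa [Finset.sdiff_sdiff_self_left]

theorem lab_card {w J b : ℕ} (hw : 0 < w) (hJ : J * w ≤ n) {A : Finset (Fin n)}
    (hA : A ∈ lab n w J b) : w ≤ #A + b := by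
  obtain ⟨j, hj, hs, hc⟩ := Small_mem_lab.1 hA
  have h1 : #(win n w j) = w := card_win hw ((Nat.mul_le_mul_right w hj).trans hJ)
  have h2 := Finset.card_sdiff_add_card_eq_card hs
  omega

theorem card_sup (A : Finset (Fin n)) : #(sup A) = 2 ^ #A := by
  have h : sup A = Fintype.piFinset fun j => if j ∈ A then (Finset.univ : Finset (ZMod 2)) else {0} := by
    ext β
    simp only [sup, Finset.mem_filter, Finset.mem_univ, true_and, Fintype.mem_piFinset]
    refine forall_congr' fun j => ?_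
    by_cases hj : j ∈ A <;> simp [hj]
  rw [h, Fintype.card_piFinset]
  have h2 : ∀ j : Fin n, #(if j ∈ A then (Finset.univ : Finset (ZMod 2)) else {0}) =
      if j ∈ A then 2 else 1 := fun j => by
    by_cases hj : j ∈ A <;> simp [hj]
  simp only [h2]
  rw [Finset.prod_ite]
  simp

end Pool.Agent.MP_47ff19_lc.H43

end

-- part MP_47ff19_lc.H43.EDRect
section

/-! Unbalanced rectangles of injective inputs. -/

namespace Pool.Agent.MP_47ff19_lc.H43

open Finset

variable {V D : Type} [Fintype V] [DecidableEq V] [Fintype D] [DecidableEq D]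

theorem EDRect_fib (a : V) (G : Finset (V → D))
    (h : ∀ x ∈ G, ∀ d, Function.update x a d ∈ G) (d d' : D) :
    #{x ∈ G | x a = d} ≤ #{x ∈ G | x a = d'} := by
  refine card_le_card_of_injOn (fun x => Function.update x a d') ?_ ?_
  · intro x hx
    simp only [coe_filter, Set.mem_ofPred_eq] at hx ⊢
    exact ⟨h x hx.1 d', by simp⟩
  · intro x hx y hy hxy
    simp only [coe_filter, Set.mem_ofPred_eq] at hx hy
    funext v
    by_cases hv : v = a
    · subst hv; rw [hx.2, hy.2]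
    · have := congrFun hxy v
      simpa [Function.update_of_ne hv] using this

theorem EDRect_one (a : V) (G : Finset (V → D))
    (h : ∀ x ∈ G, ∀ d, Function.update x a d ∈ G) (S : Finset D)
    (hS : 2 * #S ≤ Fintype.card D) : #{x ∈ G | x a ∈ S} * 2 ≤ #G := by
  rcases S.eq_empty_or_nonempty with rfl | ⟨d0, -⟩
  · simp
  have hc : ∀ d, #{x ∈ G | x a = d} = #{x ∈ G | x a = d0} := fun d =>
    le_antisymm (EDRect_fib a G h d d0) (EDRect_fib a G h d0 d)
  have e1 : #G = Fintype.card D * #{x ∈ G | x a = d0} := by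
    rw [card_eq_sum_card_fiberwise (f := fun x => x a) (s := G) (t := univ) (by simp)]
    simp [hc]
  have e2 : #{x ∈ G | x a ∈ S} = #S * #{x ∈ G | x a = d0} := by
    rw [card_eq_sum_card_fiberwise (f := fun x => x a) (s := {x ∈ G | x a ∈ S}) (t := S)
      (by intro x hx; simpa using (mem_filter.1 (mem_coe.1 hx)).2)]
    rw [sum_congr rfl (g := fun _ => #{x ∈ G | x a = d0}), sum_const, smul_eq_mul]
    intro d hd
    rw [← hc d, filter_filter]
    congr 1
    refine filter_congr fun x _ => ⟨fun hx => hx.2, fun hx => ⟨hx ▸ hd, hx⟩⟩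
  rw [e1, e2]
  nlinarith [Nat.mul_le_mul_right (#{x ∈ G | x a = d0}) hS]

/-- Induction on `A`. For one coordinate `v`, the number of `x ∈ G` with `x v = c` does not depend
on `c` (`Function.update`), so at most half of the elements of `G` have `x v ∈ S`. -/
theorem inv_half (A : Finset V) (G : Finset (V → D)) (h : Inv A G) (S : Finset D)
    (hS : 2 * #S ≤ Fintype.card D) : #{x ∈ G | ∀ v ∈ A, x v ∈ S} * 2 ^ #A ≤ #G := by
  induction A using Finset.induction_on generalizing G with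
  | empty => simp
  | insert a B ha ih =>
    have h1 : Inv B {x ∈ G | x a ∈ S} := by
      intro x hx x' hx'
      rw [mem_filter] at hx ⊢
      refine ⟨h x hx.1 x' fun v hv => hx' v fun hb => hv (mem_insert_of_mem hb), ?_⟩
      rw [hx' a ha]; exact hx.2
    have h2 := ih _ h1
    have h3 := EDRect_one a G (fun x hx d => h x hx _ fun v hv =>
      Function.update_of_ne (fun e : v = a => hv (by rw [e]; exact mem_insert_self a B)) _ _) S hS
    have e : {x ∈ G | ∀ v ∈ insert a B, x v ∈ S} =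
        {x ∈ {x ∈ G | x a ∈ S} | ∀ v ∈ B, x v ∈ S} := by
      rw [filter_filter]
      exact filter_congr fun x _ => by simp
    rw [e, card_insert_of_notMem ha, pow_succ, ← mul_assoc]
    exact (Nat.mul_le_mul_right 2 h2).trans h3

theorem EDRect_class {A1 A2 : Finset V} (hd : Disjoint A1 A2) {G1 G2 : Finset (V → D)}
    (h1 : Inv A2 G1) (h2 : Inv A1 G2) (h : ∀ x ∈ G1 ∩ G2, Function.Injective x)
    (hk : ∀ x ∈ G1 ∩ G2, ∀ x' ∈ G1 ∩ G2, ∀ v, v ∉ A1 → v ∉ A2 → x v = x' v) :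
    (#(G1 ∩ G2) : ℝ) ≤ (1 / 2) ^ #A2 * #G1 + (1 / 2) ^ #A1 * #G2 := by
  classical
  set S1 : Finset D := univ.filter fun d => ∃ x ∈ G1 ∩ G2, ∃ v ∈ A1, x v = d with hS1
  set S2 : Finset D := univ.filter fun d => ∃ x ∈ G1 ∩ G2, ∃ v ∈ A2, x v = d with hS2
  have hdis : Disjoint S1 S2 := by
    rw [disjoint_left]
    intro d hd1 hd2
    obtain ⟨x, hx, v, hv, e⟩ := (mem_filter.1 hd1).2
    obtain ⟨x', hx', v', hv', e'⟩ := (mem_filter.1 hd2).2
    have hv2 : v ∉ A2 := disjoint_left.1 hd hv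
    have hz : (fun u => if u ∈ A2 then x' u else x u) ∈ G1 ∩ G2 := by
      rw [mem_inter]
      refine ⟨h1 x (mem_inter.1 hx).1 _ fun u hu => if_neg hu,
        h2 x' (mem_inter.1 hx').2 _ fun u hu => ?_⟩
      by_cases hu2 : u ∈ A2
      · exact if_pos hu2
      · rw [if_neg hu2]; exact hk x hx x' hx' u hu hu2
    have : v = v' := h _ hz (by simp only [if_neg hv2, if_pos hv', e, e'])
    exact hv2 (this ▸ hv')
  have hsum : #S1 + #S2 ≤ Fintype.card D := by
    rw [← card_union_of_disjoint hdis]; exact card_le_univ _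
  have key : ∀ (A : Finset V) (G : Finset (V → D)) (S : Finset D), Inv A G →
      2 * #S ≤ Fintype.card D → (∀ x ∈ G1 ∩ G2, x ∈ G ∧ ∀ v ∈ A, x v ∈ S) →
      (#(G1 ∩ G2) : ℝ) ≤ (1 / 2) ^ #A * #G := by
    intro A G S hI hS hx
    have a1 := inv_half A G hI S hS
    have a2 : #(G1 ∩ G2) ≤ #{x ∈ G | ∀ v ∈ A, x v ∈ S} :=
      card_le_card fun x hx' => mem_filter.2 (hx x hx')
    have a3 : (#(G1 ∩ G2) : ℝ) * 2 ^ #A ≤ #G := by
      exact_mod_cast (Nat.mul_le_mul_right _ a2).trans a1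
    rw [one_div, inv_pow, inv_mul_eq_div, le_div_iff₀ (by positivity)]
    exact a3
  have p1 : (0 : ℝ) ≤ (1 / 2) ^ #A2 * #G1 := by positivity
  have p2 : (0 : ℝ) ≤ (1 / 2) ^ #A1 * #G2 := by positivity
  rcases le_total (#S1) (#S2) with hl | hl
  · have := key A1 G2 S1 h2 (by omega) fun x hx => ⟨(mem_inter.1 hx).2, fun v hv =>
      mem_filter.2 ⟨mem_univ _, x, hx, v, hv, rfl⟩⟩
    linarith
  · have := key A2 G1 S2 h1 (by omega) fun x hx => ⟨(mem_inter.1 hx).1, fun v hv =>
      mem_filter.2 ⟨mem_univ _, x, hx, v, hv, rfl⟩⟩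
    linarith

/-- Split the inputs into classes according to the values off `A1 ∪ A2` (for instance the fibres of
`fun x v => if v ∈ A1 ∪ A2 then none else some (x v)`). In a class let `S1`, `S2` be the sets of
values taken on `A1`, `A2` by the elements of `G1 ∩ G2`. They are disjoint: the input equal to `x'`
on `A2` and to `x` elsewhere is in `G1 ∩ G2`. So one of them has at most half of the values; apply
`inv_half` to `A1` and the part of `G2` in the class, or to `A2` and the part of `G1`. -/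
theorem ed_rect {A1 A2 : Finset V} (hd : Disjoint A1 A2) {G1 G2 : Finset (V → D)}
    (h1 : Inv A2 G1) (h2 : Inv A1 G2) (h : ∀ x ∈ G1 ∩ G2, Function.Injective x) :
    (#(G1 ∩ G2) : ℝ) ≤ (1 / 2) ^ #A2 * #G1 + (1 / 2) ^ #A1 * #G2 := by
  classical
  set k : (V → D) → V → Option D := fun x v => if v ∈ A1 ∪ A2 then none else some (x v) with hk
  have hsplit : ∀ G : Finset (V → D), (#G : ℝ) = ∑ κ, (#{x ∈ G | k x = κ} : ℝ) := by
    intro G
    exact_mod_cast card_eq_sum_card_fiberwise (f := k) (s := G) (t := univ) (by simp)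
  have hinv : ∀ (A : Finset V) (G : Finset (V → D)), A ⊆ A1 ∪ A2 → Inv A G → ∀ κ,
      Inv A {x ∈ G | k x = κ} := by
    intro A G hA hI κ x hx x' hx'
    rw [mem_filter] at hx ⊢
    refine ⟨hI x hx.1 x' hx', ?_⟩
    rw [← hx.2]
    funext v
    by_cases hv : v ∈ A1 ∪ A2
    · simp only [hk, if_pos hv]
    · simp only [hk, if_neg hv]
      rw [hx' v fun e => hv (hA e)]
  rw [hsplit (G1 ∩ G2), hsplit G1, hsplit G2, mul_sum, mul_sum, ← sum_add_distrib]
  refine sum_le_sum fun κ _ => ?_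
  have e : {x ∈ G1 ∩ G2 | k x = κ} = {x ∈ G1 | k x = κ} ∩ {x ∈ G2 | k x = κ} := by
    ext x; simp only [mem_filter, mem_inter]; tauto
  rw [e]
  refine EDRect_class hd (hinv A2 G1 subset_union_right h1 κ) (hinv A1 G2 subset_union_left h2 κ)
    (fun x hx => h x ?_) ?_
  · rw [← e] at hx; exact (mem_filter.1 hx).1
  · intro x hx x' hx' v hv1 hv2
    rw [← e] at hx hx'
    have := congrFun ((mem_filter.1 hx).2.trans (mem_filter.1 hx').2.symm) v
    have hv : v ∉ A1 ∪ A2 := by simp [hv1, hv2]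
    simp only [hk, if_neg hv] at this
    exact Option.some.inj this

end Pool.Agent.MP_47ff19_lc.H43

end

-- part MP_47ff19_lc.H43.Num
section

/-! Numerical facts. -/

namespace Pool.Agent.MP_47ff19_lc.H43

theorem pow8_aux (q : ℕ) (hq : 64 ≤ q) : (2 * q + 1) ^ 8 ≤ 2 ^ q := by
  induction q, hq using Nat.le_induction with
  | base => norm_num
  | succ q hq ih =>
    have h1 : (2 * (q + 1) + 1) * 16 ≤ (2 * q + 1) * 17 := by omega
    have h2 := Nat.pow_le_pow_left h1 8
    rw [mul_pow, mul_pow] at h2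
    rw [pow_succ 2 q]
    omega

theorem pow8 {κ : ℕ} (h : 128 ≤ κ) : κ ^ 8 ≤ 2 ^ (κ / 2) :=
  (Nat.pow_le_pow_left (by omega) 8).trans (pow8_aux _ (by omega))

theorem pow16 {κ : ℕ} (h : 128 ≤ κ) : κ ^ (16 * κ) ≤ 2 ^ (κ ^ 2) := by
  have h1 : κ ^ 16 ≤ 2 ^ κ := by
    calc κ ^ 16 = κ ^ 8 * κ ^ 8 := by ring
      _ ≤ 2 ^ (κ / 2) * 2 ^ (κ / 2) := Nat.mul_le_mul (pow8 h) (pow8 h)
      _ ≤ 2 ^ κ := by
        rw [← pow_add]
        exact Nat.pow_le_pow_right two_pos (by omega)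
  rw [pow_mul, sq, pow_mul]
  exact Nat.pow_le_pow_left h1 κ

/-- a constant and a few powers of `κ` are absorbed by `κ ^ κ` -/
theorem absorb {κ c j a b : ℕ} (h : 128 ≤ κ) (hc : c ≤ 16384) (hj : j ≤ 100) (hab : a + 1 ≤ b) :
    c * κ ^ j * κ ^ (a * κ) ≤ κ ^ (b * κ) := by
  have h1 : c ≤ κ ^ 2 := by nlinarith
  calc c * κ ^ j * κ ^ (a * κ) ≤ κ ^ 2 * κ ^ j * κ ^ (a * κ) := by gcongr
    _ = κ ^ (2 + j + a * κ) := by rw [pow_add, pow_add]
    _ ≤ _ := Nat.pow_le_pow_right (by omega) (by nlinarith)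

/-- reading off the exponents -/
theorem exp_le {A B : ℕ} (h : (1 : ℝ) ≤ 2 ^ A * (1 / 2) ^ B) : B ≤ A := by
  rw [one_div, inv_pow, ← div_eq_mul_inv, le_div_iff₀ (by positivity), one_mul] at h
  exact (pow_le_pow_iff_right₀ one_lt_two).1 h

end Pool.Agent.MP_47ff19_lc.H43

end

-- part MP_47ff19_lc.H43.Last
section

/-! The last step of the time-space bounds; the birthday bound. -/

namespace Pool.Agent.MP_47ff19_lc.H43

open Finset

/-- Take `c = 1 / (4 (C + 1))`, `k = max κ0 2`, `C' = max 16 (k ^ (C k) + 1)`. The hypothesis fails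
for `κ = k`, so `k n < 2 T`; apply it to `κ = ⌈2 T / n⌉ ≤ 4 T / n`. With `λ = log (n / S)` we get
`λ ≤ C κ log κ`, and `log λ ≥ 1`. If `κ ≤ λ` then `λ ≤ C κ log λ`, otherwise `λ ≤ κ log λ`. -/
theorem last_step (C : ℕ) : ∃ c : ℝ, 0 < c ∧ ∀ κ0 : ℕ, ∃ C' : ℕ, ∀ n S T : ℕ, 1 ≤ S →
    C' * S ≤ n → (∀ κ, κ0 ≤ κ → 2 * T ≤ κ * n → n ≤ S * κ ^ (C * κ)) →
    c * n * Real.log (n / S) / Real.log (Real.log (n / S)) ≤ T := by
  refine ⟨1 / (4 * (C + 1)), by positivity, fun κ0 =>
    ⟨max 16 ((max κ0 2) ^ (C * max κ0 2) + 1), fun n S T hS hn H => ?_⟩⟩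
  set k := max κ0 2 with hk
  have k0 : κ0 ≤ k := le_max_left _ _
  have k2 : 2 ≤ k := le_max_right _ _
  have h16 : 16 * S ≤ n := (Nat.mul_le_mul_right S (le_max_left _ _)).trans hn
  have hT : k * n < 2 * T := by
    by_contra hc
    have h1 := H k k0 (not_lt.1 hc)
    have h2 : (k ^ (C * k) + 1) * S ≤ n := (Nat.mul_le_mul_right S (le_max_right _ _)).trans hn
    rw [add_mul, mul_comm] at h2
    omega
  have n0 : 0 < n := by omega
  set κ := 2 * T / n + 1 with hκ
  have a1 : 2 * T ≤ κ * n := by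
    rw [hκ, mul_comm (_ + 1)]; exact (Nat.lt_mul_div_succ _ n0).le
  have a2 : k ≤ κ := by
    have := (Nat.le_div_iff_mul_le n0).2 hT.le
    omega
  have a3 : κ * n ≤ 4 * T := by
    have := Nat.div_mul_le_self (2 * T) n
    have : 2 * n ≤ k * n := Nat.mul_le_mul_right n k2
    rw [hκ, add_mul]
    omega
  have a4 := H κ (k0.trans a2) a1
  have S0 : (0 : ℝ) < S := by exact_mod_cast hS
  have κ1 : (1 : ℝ) ≤ κ := by exact_mod_cast (by omega : 1 ≤ κ)
  have b1 : (16 : ℝ) ≤ n / S := by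
    rw [le_div_iff₀ S0]; exact_mod_cast h16
  have b2 : (n : ℝ) / S ≤ (κ : ℝ) ^ (C * κ) := by
    rw [div_le_iff₀ S0, mul_comm]; exact_mod_cast a4
  have b3 : Real.log (n / S) ≤ C * κ * Real.log κ := by
    have := Real.log_le_log (by linarith) b2
    rwa [Real.log_pow, Nat.cast_mul] at this
  have b4 : Real.exp 1 ≤ Real.log (n / S) := by
    have h1 := Real.log_le_log (by norm_num) b1
    have h2 : Real.log 16 = 4 * Real.log 2 := by
      rw [show (16 : ℝ) = 2 ^ 4 by norm_num, Real.log_pow]; norm_num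
    linarith [Real.log_two_gt_d9, Real.exp_one_lt_d9]
  generalize Real.log ((n : ℝ) / S) = l at *
  have l0 : 0 < l := (Real.exp_pos 1).trans_le b4
  have b5 : 1 ≤ Real.log l := (Real.le_log_iff_exp_le l0).2 b4
  have C0 : (0 : ℝ) ≤ C := Nat.cast_nonneg C
  have b6 : l ≤ (C + 1) * κ * Real.log l := by
    have e1 : 0 ≤ (κ : ℝ) * Real.log l := by positivity
    rcases le_total (κ : ℝ) l with h | h
    · have : C * κ * Real.log κ ≤ C * κ * Real.log l := by
        gcongr
      nlinarith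
    · have : (κ : ℝ) * 1 ≤ κ * Real.log l := by gcongr
      nlinarith [mul_nonneg C0 e1]
  have b7 : (κ : ℝ) * n ≤ 4 * T := by exact_mod_cast a3
  rw [div_le_iff₀ (by linarith)]
  calc 1 / (4 * ((C : ℝ) + 1)) * n * l
      ≤ 1 / (4 * ((C : ℝ) + 1)) * n * ((C + 1) * κ * Real.log l) := by gcongr
    _ = (κ * n) / 4 * Real.log l := by field_simp
    _ ≤ T * Real.log l := by
      gcongr
      linarith

theorem Last_exp {t : ℝ} (h0 : 0 ≤ t) (h1 : 2 * t ≤ 1) :
    1 ≤ Real.exp (Real.log 2 * (2 * t)) * (1 - t) := by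
  have h := convexOn_exp.2 (Set.mem_univ 0) (Set.mem_univ (-Real.log 2))
    (by linarith : 0 ≤ 1 - 2 * t) (by linarith : 0 ≤ 2 * t) (by ring)
  simp only [smul_eq_mul, mul_zero, zero_add, Real.exp_zero, mul_one] at h
  rw [Real.exp_neg (Real.log 2), Real.exp_log two_pos] at h
  calc (1 : ℝ) = Real.exp (Real.log 2 * (2 * t)) * Real.exp (2 * t * -Real.log 2) := by
        rw [← Real.exp_add, ← Real.exp_zero]; congr 1; ring
    _ ≤ _ := by
      gcongr
      linarith

theorem Last_desc {d : ℕ} (hd : 0 < d) : ∀ m : ℕ, 2 * m ≤ d →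
    (d : ℝ) ^ m ≤ Real.exp (Real.log 2 * (m ^ 2 / d)) * d.descFactorial m := by
  intro m
  induction m with
  | zero => intro; simp
  | succ m ih =>
    intro hm
    have d0 : (0 : ℝ) < d := by exact_mod_cast hd
    have h1 := ih (by omega)
    have h2 := Last_exp (t := m / d) (by positivity) (by
      rw [← mul_div_assoc, div_le_one d0]; exact_mod_cast (by omega : 2 * m ≤ d))
    have h3 : (d : ℝ) ≤ Real.exp (Real.log 2 * (2 * (m / d))) * (d - m) := by
      have := mul_le_mul_of_nonneg_right h2 d0.le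
      rw [one_mul, mul_assoc, sub_mul, div_mul_cancel₀ _ d0.ne', one_mul] at this
      exact this
    have h4 : (0 : ℝ) ≤ d - m := by
      have : (m : ℝ) ≤ d := by exact_mod_cast (by omega : m ≤ d)
      linarith
    have l2 := Real.log_pos (by norm_num : (1 : ℝ) < 2)
    rw [pow_succ, Nat.descFactorial_succ, Nat.cast_mul, Nat.cast_sub (by omega)]
    calc (d : ℝ) ^ m * d ≤ (Real.exp (Real.log 2 * (m ^ 2 / d)) * d.descFactorial m) *
          (Real.exp (Real.log 2 * (2 * (m / d))) * (d - m)) := by gcongr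
      _ = Real.exp (Real.log 2 * ((m ^ 2 + 2 * m) / d)) * ((d - m) * d.descFactorial m) := by
          rw [add_div, mul_add, Real.exp_add, mul_div_assoc]; ring
      _ ≤ _ := by
          gcongr
          push_cast
          nlinarith

/-- The number of injective maps is `d.descFactorial n` (`Fintype.card_embedding_eq`); `2 n ≤ d`,
and `1 - t ≥ 4 ^ (-t)` for `0 ≤ t ≤ 1 / 2` (concavity, or `log (1 - t) ≥ - t log 4`), so the
product of `1 - i / d` over `i < n` is at least `4 ^ (- n ^ 2 / (2 d)) ≥ 2 ^ (-S)`. -/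
theorem birthday {n d S : ℕ} (h1 : n ^ 2 ≤ d * S) (h2 : 2 * S ≤ n) :
    d ^ n ≤ 2 ^ S * #{x : Fin n → Fin d | Function.Injective x} := by
  have hc : #{x : Fin n → Fin d | Function.Injective x} = d.descFactorial n := by
    rw [← Fintype.card_subtype, Fintype.card_congr (Equiv.subtypeInjectiveEquivEmbedding _ _),
      Fintype.card_embedding_eq, Fintype.card_fin, Fintype.card_fin]
  rw [hc]
  rcases Nat.eq_zero_or_pos n with rfl | n0
  · simpa using Nat.one_le_two_pow
  have h3 : 2 * n ≤ d := by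
    refine Nat.le_of_mul_le_mul_right ?_ n0
    have : d * (2 * S) ≤ d * n := Nat.mul_le_mul_left d h2
    nlinarith
  have d0 : 0 < d := by omega
  have h4 := Last_desc d0 n h3
  have h5 : Real.exp (Real.log 2 * (n ^ 2 / d)) ≤ 2 ^ S := by
    have l2 := Real.log_pos (by norm_num : (1 : ℝ) < 2)
    have : (n : ℝ) ^ 2 / d ≤ S := by
      rw [div_le_iff₀ (by exact_mod_cast d0), mul_comm]; exact_mod_cast h1
    calc _ ≤ Real.exp (Real.log 2 * S) := by gcongr
      _ = 2 ^ S := by rw [mul_comm, Real.exp_nat_mul, Real.exp_log two_pos]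
  have h6 : (d : ℝ) ^ n ≤ 2 ^ S * d.descFactorial n := h4.trans (by gcongr)
  exact_mod_cast h6

end Pool.Agent.MP_47ff19_lc.H43

end

-- part MP_47ff19_lc.H43.EDMain
section

/-! The time-space bound for element distinctness. -/

namespace Pool.Agent.MP_47ff19_lc.H43

open Finset

theorem card_powersetCard_le {n m a : ℕ} (ha : 1 ≤ a) (h : n ≤ a * m) :
    #(powersetCard m (univ : Finset (Fin n))) ≤ (3 * a) ^ m := by
  refine le_trans (card_le_card fun A hA => ?_) (card_small (univ : Finset (Fin n)) ha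
    (by simpa using h))
  simp [(mem_powersetCard.1 hA).2]

theorem Inv.mono {V D : Type} {A B : Finset V} {G : Finset (V → D)} (h : Inv A G) (hB : B ⊆ A) :
    Inv B G := fun x hx x' h' => h x hx x' fun v hv => h' v fun hv' => hv (hB hv')

theorem exists_avoid {V : Type} [DecidableEq V] {r : ℕ} (Rd : Fin r → Finset V) (W : Finset V)
    (F : Finset (Fin r)) {n K m : ℕ} (hK : 0 < K) (hm : 4 * K * m ≤ n)
    (h : n ≤ 4 * K * #{v ∈ W | ∀ i, i ∉ F → v ∉ Rd i}) :
    ∃ A ⊆ W, #A = m ∧ ∀ i, i ∉ F → Disjoint A (Rd i) := by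
  obtain ⟨A, hA, hc⟩ := exists_subset_card_eq
    (Nat.le_of_mul_le_mul_left (hm.trans h) (by positivity))
  exact ⟨A, hA.trans (filter_subset _ _), hc, fun i hi =>
    disjoint_left.2 fun v hv => (mem_filter.1 (hA hv)).2 i hi⟩

theorem ed_struct {n d : ℕ} (P : BP (Fin n) (Fin d)) {T l r M κ w J b m a a2 e : ℕ}
    (hacc : ∀ x, P.out T x = true → Function.Injective x) (hT : T ≤ r * l) (hM : 0 < M)
    (hn : 0 < n) (hJ : 0 < J) (hb : 0 < b) (hw : 0 < w) (ha : 1 ≤ a) (ha2 : 1 ≤ a2)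
    (h3 : 2 * T ≤ κ * n) (h4 : 32 * κ * l * M ^ κ ≤ n) (h5 : 4 * T ≤ M * (J * b))
    (hm : 4 * M ^ κ * m ≤ n) (hwa : w ≤ a * b) (hJw : J * w ≤ n) (hna : n ≤ a2 * m)
    (he : e + b + m ≤ w) :
    (#{x | P.out T x = true} : ℝ) / 4 ≤ (P.size : ℝ) ^ (r + 1) * (J * (3 * a) ^ b) *
      ((1 / 2) ^ m + (3 * a2) ^ m * (1 / 2) ^ e) * d ^ n := by
  classical
  obtain ⟨F, hF⟩ := P.exists_big T l r hM (W1 := univ) (W2 := univ) hn (Nat.mul_pos hJ hb)
    (by simp) (by simp) h3 (η := 1 / 4)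
    (by have : (32 * κ * l * M ^ κ : ℝ) ≤ n := by exact_mod_cast h4
        linarith)
    (by have : (4 * T : ℝ) ≤ M * (J * b : ℕ) := by exact_mod_cast h5
        linarith) {x | P.out T x = true}
  have hc := P.core hT F (lab n w J b) id (powersetCard m univ) id
    (fun x => if P.out T x = true then 1 else 0) (α := (1 / 2) ^ m) (β := (1 / 2) ^ e)
    (by positivity) (by positivity) (by
      rintro A1 hA1 A2 hA2 G1 G2 h1 h2 ⟨o, ho⟩
      have hA2' := (mem_powersetCard.1 hA2).2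
      cases o
      · rw [sum_eq_zero fun x hx => by simp [ho x hx], abs_zero]
        positivity
      · rw [sum_congr rfl fun x hx => if_pos (ho x hx), sum_const, nsmul_eq_mul, mul_one,
          abs_of_nonneg (by positivity)]
        refine (ed_rect sdiff_disjoint h1 (h2.mono (sdiff_subset (t := A2)))
          fun x hx => hacc x (ho x hx)).trans ?_
        have h6 := lab_card hw hJw hA1
        have h7 := le_card_sdiff A2 A1
        simp only [id] at *
        rw [hA2']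
        gcongr ?_ + ?_ * ?_
        · exact le_rfl
        · exact pow_le_pow_of_le_one (by norm_num) (by norm_num) (by omega)
        · exact_mod_cast card_le_univ G2)
  have hgood : ∀ x, Big (fun i : Fin r => P.Rd T l x i) univ univ n (M ^ κ) (J * b) F →
      P.Good T l F (lab n w J b) id (powersetCard m univ) id x := fun x hx => by
    obtain ⟨A, hA, hd⟩ := exists_lab w hJ (F.biUnion fun i => P.Rd T l x i)
      (card_biUnion_le.trans hx.2.2)
    obtain ⟨A', -, hA', hd'⟩ := exists_avoid _ _ F (pow_pos hM κ) hm hx.1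
    exact ⟨⟨A, hA, (disjoint_biUnion_right _ _ _).1 hd⟩, A', by simp [hA'], hd'⟩
  have h6 : (#{x | P.out T x = true} : ℝ) / 4 ≤
      ∑ x with P.Good T l F (lab n w J b) id (powersetCard m univ) id x,
        if P.out T x = true then (1 : ℝ) else 0 := by
    rw [sum_boole]
    have h7 := card_filter_add_card_filter_not (s := ({x | P.out T x = true} : Finset _))
      fun x => Big (fun i : Fin r => P.Rd T l x i) univ univ n (M ^ κ) (J * b) F
    have h8 : #{x ∈ ({x | P.out T x = true} : Finset _) |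
        Big (fun i : Fin r => P.Rd T l x i) univ univ n (M ^ κ) (J * b) F} ≤
        #{x ∈ ({x | P.Good T l F (lab n w J b) id (powersetCard m univ) id x} : Finset _) |
          P.out T x = true} := card_le_card fun x hx => by
      simp only [mem_filter, mem_univ, true_and] at hx ⊢
      exact ⟨hgood x hx.2, hx.1⟩
    have h7' := congrArg (Nat.cast (R := ℝ)) h7
    have h8' := (Nat.cast_le (α := ℝ)).2 h8
    rw [Nat.cast_add] at h7'
    linarith
  refine h6.trans ((le_abs_self _).trans (hc.trans ?_))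
  rw [Fintype.card_fun, Fintype.card_fin, Fintype.card_fin, Nat.cast_pow]
  gcongr
  · exact_mod_cast card_lab hw ha hwa J
  · exact_mod_cast card_powersetCard_le ha2 hna

theorem ed_num {n d S T κ : ℕ} (P : BP (Fin n) (Fin d)) (hS : 1 ≤ S) (hd : 0 < d)
    (hs : P.size ≤ 2 ^ S) (hacc : ∀ x, P.out T x = true → Function.Injective x)
    (hden : d ^ n ≤ 2 ^ (2 * S) * #{x | P.out T x = true}) (hκ : 128 ≤ κ) (h3 : 2 * T ≤ κ * n) :
    n ≤ S * κ ^ (11 * κ) := by
  obtain ⟨K, hK⟩ : ∃ K, K = (κ ^ 5) ^ κ := ⟨_, rfl⟩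
  have hK' : K = κ ^ (5 * κ) := by rw [hK, pow_mul]
  have hκ0 : 0 < κ := by omega
  have hK2 : 2 * κ ^ 2 ≤ K := by
    have := absorb (c := 2) (j := 2) (a := 0) (b := 5) hκ (by norm_num) (by norm_num) (by norm_num)
    simpa [hK'] using this
  have hK0 : 0 < K := by rw [hK]; positivity
  obtain ⟨u, hu1, hu2⟩ : ∃ u, 4 * K * κ * u ≤ n ∧ n < 4 * K * κ * (u + 1) :=
    ⟨n / (4 * K * κ), Nat.mul_div_le _ _, Nat.lt_mul_div_succ _ (by positivity)⟩
  by_cases hu : u < 16
  · have h1 := absorb (c := 64) (j := 1) (a := 5) (b := 11) hκ (by norm_num) (by norm_num)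
      (by norm_num)
    rw [← hK'] at h1
    have h2 : 4 * K * κ * (u + 1) ≤ 4 * K * κ * 16 := by gcongr; omega
    nlinarith
  have hu : 16 ≤ u := by omega
  have hn2 : n ≤ 8 * K * (κ * u) := by
    have : 4 * K * κ * (u + 1) ≤ 4 * K * κ * (2 * u) := by gcongr; omega
    nlinarith
  have hn64 : 64 * κ * K ≤ n := by
    have : 4 * K * κ * 16 ≤ 4 * K * κ * u := by gcongr
    nlinarith
  obtain ⟨l, hl1, hl2⟩ := exists_len T (32 * κ ^ 2 * K) (by positivity)
  have hw0 : 0 < 8 * κ ^ 3 * u := by positivity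
  have hwn : 8 * κ ^ 3 * u ≤ n := by
    calc 8 * κ ^ 3 * u = 4 * (2 * κ ^ 2) * κ * u := by ring
      _ ≤ 4 * K * κ * u := by gcongr
      _ ≤ n := hu1
  obtain ⟨J, hJ1, hJ2⟩ : ∃ J, J * (8 * κ ^ 3 * u) ≤ n ∧ n < 8 * κ ^ 3 * u * (J + 1) :=
    ⟨n / (8 * κ ^ 3 * u), Nat.div_mul_le_self _ _, Nat.lt_mul_div_succ _ hw0⟩
  have hJ0 : 0 < J := by
    rcases Nat.eq_zero_or_pos J with rfl | h
    · omega
    · exact h
  have hJK : J ≤ K := by
    refine Nat.le_of_mul_le_mul_right ?_ hw0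
    calc _ ≤ 8 * K * (κ * u) := hJ1.trans hn2
      _ = K * (8 * κ ^ 1 * u) := by ring
      _ ≤ _ := by gcongr <;> omega
  have hKL : 24 * K ≤ 2 ^ (κ ^ 2) := by
    have := absorb (c := 24) (j := 0) (a := 5) (b := 16) hκ (by norm_num) (by norm_num)
      (by norm_num)
    rw [← hK'] at this
    simpa using this.trans (pow16 hκ)
  have hst := ed_struct P (M := κ ^ 5) (κ := κ) (w := 8 * κ ^ 3 * u) (J := J) (b := u)
    (m := κ * u) (a := 8 * κ ^ 3) (a2 := 8 * K) (e := κ ^ 2 * (κ * u) + κ * u) hacc hl1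
    (by positivity) (by omega) hJ0 (by omega) hw0 (Nat.succ_le_of_lt (by positivity))
    (by omega) h3
    (by rw [← hK]
        refine Nat.le_of_mul_le_mul_left (c := 2 * κ) ?_ (by positivity)
        have : κ * (64 * κ * K) ≤ κ * n := by gcongr
        nlinarith)
    (by calc 4 * T ≤ 2 * (κ * n) := by omega
          _ ≤ 2 * (κ * (8 * κ ^ 3 * u * (2 * J))) := by
            gcongr
            exact hJ2.le.trans (by gcongr; omega)
          _ = 32 * κ ^ 4 * (J * u) := by ring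
          _ ≤ κ * κ ^ 4 * (J * u) := by gcongr; omega
          _ = _ := by ring)
    (by rw [← hK, ← mul_assoc]; exact hu1) le_rfl hJ1 hn2
    (by have h1 : κ * u ≤ κ ^ 3 * u := by
          gcongr
          exact Nat.le_self_pow (by norm_num) κ
        have h2 : u ≤ κ * u := Nat.le_mul_of_pos_left _ hκ0
        nlinarith)
  have hpos : (0 : ℝ) < #{x | P.out T x = true} := by
    have : 0 < d ^ n := by positivity
    have h2 : 0 < #{x | P.out T x = true} := Nat.pos_of_mul_pos_left (this.trans_le hden)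
    exact_mod_cast h2
  have h1 : (1 : ℝ) ≤ 2 ^ (S * (32 * κ ^ 2 * K + 1) + (κ ^ 2 + κ / 2 * u) + 1 + 2 * S + 2) *
      (1 / 2) ^ (κ * u) := by
    have e1 : (P.size : ℝ) ^ (32 * κ ^ 2 * K + 1) ≤ 2 ^ (S * (32 * κ ^ 2 * K + 1)) := by
      rw [pow_mul]
      gcongr
      exact_mod_cast hs
    have e2 : (J : ℝ) * (3 * (8 * κ ^ 3 : ℕ)) ^ u ≤ 2 ^ (κ ^ 2 + κ / 2 * u) := by
      have : J * (3 * (8 * κ ^ 3)) ^ u ≤ 2 ^ (κ ^ 2 + κ / 2 * u) := by
        rw [pow_add, pow_mul]
        gcongr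
        · omega
        · refine le_trans ?_ (pow8 hκ)
          calc 3 * (8 * κ ^ 3) = 24 * κ ^ 3 := by ring
            _ ≤ κ ^ 5 * κ ^ 3 := by
              gcongr
              exact le_trans (by omega) (Nat.le_self_pow (by norm_num) κ)
            _ = _ := by ring
      exact_mod_cast this
    have e3 : (3 * (8 * K : ℕ) : ℝ) ^ (κ * u) * (1 / 2) ^ (κ ^ 2 * (κ * u) + κ * u) ≤
        (1 / 2) ^ (κ * u) := by
      rw [pow_add, ← mul_assoc, pow_mul (1 / 2 : ℝ) (κ ^ 2), ← mul_pow]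
      refine mul_le_of_le_one_left (by positivity) (pow_le_one₀ (by positivity) ?_)
      have : (24 * K : ℝ) ≤ 2 ^ (κ ^ 2) := by exact_mod_cast hKL
      rw [one_div, inv_pow, ← div_eq_mul_inv, div_le_one (by positivity)]
      push_cast
      linarith
    have e4 : (d : ℝ) ^ n ≤ 2 ^ (2 * S) * #{x | P.out T x = true} := by exact_mod_cast hden
    have e5 := hst.trans (mul_le_mul (mul_le_mul (mul_le_mul e1 e2 (by positivity)
      (by positivity)) (add_le_add le_rfl e3) (by positivity) (by positivity)) e4 (by positivity)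
      (by positivity))
    refine le_of_mul_le_mul_right ?_ hpos
    simp only [pow_add (2 : ℝ)] at e5 ⊢
    linarith
  have h2 := exp_le h1
  have h4 : u ≤ S * (34 * κ ^ 2 * K) := by
    have h5 : κ / 2 * u + u ≤ κ * u := by
      rw [← add_one_mul]
      gcongr
      omega
    have h6 : κ ^ 2 + 6 ≤ 2 * κ ^ 2 * K := by nlinarith
    nlinarith
  have h7 := absorb (c := 272) (j := 3) (a := 10) (b := 11) hκ (by norm_num) (by norm_num)
    (by norm_num)
  calc n ≤ 8 * K * (κ * (S * (34 * κ ^ 2 * K))) := hn2.trans (by gcongr)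
    _ = S * (272 * κ ^ 3 * κ ^ (10 * κ)) := by rw [hK']; ring
    _ ≤ _ := by gcongr

theorem ed_main : ∃ c : ℝ, 0 < c ∧ ∃ C : ℕ, ∀ (n d S T : ℕ) (P : BP (Fin n) (Fin d)),
    1 ≤ S → C * S ≤ n → n ^ 2 ≤ d * S → P.size ≤ 2 ^ S →
    (∀ x, P.out T x = true → Function.Injective x) →
    #{x : Fin n → Fin d | Function.Injective x} ≤ 2 ^ S * #{x | P.out T x = true} →
    c * n * Real.log (n / S) / Real.log (Real.log (n / S)) ≤ T := by
  obtain ⟨c, hc, h⟩ := last_step 11
  obtain ⟨C, hC⟩ := h 128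
  refine ⟨c, hc, C + 2, fun n d S T P hS hn hd hs hacc hden => hC n S T hS (by nlinarith)
    fun κ hκ h3 => ed_num P hS ?_ hs hacc ?_ hκ h3⟩
  · rcases Nat.eq_zero_or_pos d with rfl | h
    · have : 0 < n := by nlinarith
      nlinarith
    · exact h
  · calc d ^ n ≤ 2 ^ S * #{x : Fin n → Fin d | Function.Injective x} := birthday hd (by nlinarith)
      _ ≤ 2 ^ S * (2 ^ S * #{x | P.out T x = true}) := by gcongr
      _ = _ := by ring

end Pool.Agent.MP_47ff19_lc.H43

end
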