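import Pool.Agent.Lib.Cx.All
import Pool.Agent.MP_47ff19_lc.Mg.H43_BMain

/-! The language of the cubic form, its membership in P and the time-space bound. -/

namespace Pool.Agent.MP_47ff19_lc.H43

open Finset Sum Pool.Agent.Lib.Cx

/-- With `n` the integer part of a sixth of the length: the parity of the number of `(i, j, k)`
such that the bits at `i`, `n + j`, `2 n + k` and `3 n + (i + j + k)` are set. -/
def lang (x : List Bool) : Bool :=
  decide (((List.range (x.length / 6)).countP fun i => decide
    (((List.range (x.length / 6)).countP fun j => decide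
      (((List.range (x.length / 6)).countP fun k => x.getD i false &&
        x.getD (x.length / 6 + j) false && x.getD (2 * (x.length / 6) + k) false &&
        x.getD (3 * (x.length / 6) + (i + j + k)) false) % 2 = 1)) % 2 = 1)) % 2 = 1)

theorem sixth_pb {α : Type} [Enc α] {l : α → List Bool} (hl : PT l) :
    PB fun x => (l x).length / 6 :=
  (PB.length hl).mono fun _ => Nat.div_le_self _ _

attribute [local fun_prop] sixth_pb in
theorem lang_mem_P : lang ∈ N68a2faeb.P := by
  have : PT lang := by
    unfold lang
    fun_prop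
  exact this.isPolyTime

/-- a bit as an element of the field with two elements -/
def bit (b : Bool) : ZMod 2 := if b then 1 else 0

theorem bit_and (a b : Bool) : bit (a && b) = bit a * bit b := by
  cases a <;> cases b <;> simp [bit]

theorem bit_decide (c : ZMod 2) : bit (decide (c = 1)) = c := by
  revert c
  decide

theorem bit_eq_one (b : Bool) : bit b = 1 ↔ b = true := by
  cases b <;> simp [bit]

theorem bit_par (n : ℕ) (q : ℕ → Bool) :
    bit (decide ((List.range n).countP q % 2 = 1)) = ∑ i : Fin n, bit (q i) := by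
  have h : ∀ c : ℕ, bit (decide (c % 2 = 1)) = (c : ZMod 2) := fun c => by
    rw [← ZMod.natCast_mod c 2]
    rcases Nat.mod_two_eq_zero_or_one c with h | h <;> simp [h, bit]
  rw [h]
  induction n with
  | zero => simp
  | succ n ih =>
    rw [List.range_succ, List.countP_append, Fin.sum_univ_castSucc, Nat.cast_add, ih]
    cases hq : q n <;> simp [hq, bit]

/-- the position of a variable in the word -/
def pos {n : ℕ} : Var n → ℕ
  | inl i => i
  | inr (inl j) => n + j
  | inr (inr (inl k)) => 2 * n + k
  | inr (inr (inr s)) => 3 * n + s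

theorem pos_lt {n : ℕ} (v : Var n) : pos v < 6 * n := by
  rcases v with i | j | k | s <;> simp only [pos] <;> omega

theorem pos_inj {n : ℕ} : Function.Injective (pos : Var n → ℕ) := by
  rintro (i | j | k | s) (i' | j' | k' | s') h <;> simp only [pos] at h <;>
    first | omega | (congr; ext; omega)

/-- the position as an element of `Fin N` -/
def emb (N : ℕ) (v : Var (N / 6)) : Fin N := ⟨pos v, by have := pos_lt v; omega⟩

theorem emb_inj (N : ℕ) : Function.Injective (emb N) := fun _ _ h =>
  pos_inj (congrArg Fin.val h)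

theorem lang_eq {N : ℕ} (x : Fin N → Bool) :
    bit (lang (List.ofFn x)) = cub (N / 6) fun v => bit (x (emb N v)) := by
  have h : ∀ v : Var (N / 6), (List.ofFn x).getD (pos v) false = x (emb N v) := fun v => by
    rw [List.getD_eq_getElem _ _ (by rw [List.length_ofFn]; exact (emb N v).2), List.getElem_ofFn]
    rfl
  simp only [lang, List.length_ofFn, bit_par, bit_and, cub, ← h, pos]

/-- the program with the variables outside the range of `e` fixed according to `x0` -/
noncomputable def BP.fix {V W : Type} (P : BP W Bool) (e : V → W) (v0 : V) (x0 : W → Bool) :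
    BP V (ZMod 2) where
  size := P.size
  start := P.start
  var s := Function.extend e id (fun _ => v0) (P.var s)
  next s c := P.next s (Function.extend e (fun _ => decide (c = 1)) x0 (P.var s))
  acc := P.acc

theorem BP.fix_run {V W : Type} (P : BP W Bool) {e : V → W} (he : Function.Injective e) (v0 : V)
    (x0 : W → Bool) (z : V → ZMod 2) (t : ℕ) :
    (P.fix e v0 x0).run z t = P.run (Function.extend e (fun v => decide (z v = 1)) x0) t := by
  induction t with
  | zero => rfl
  | succ t ih =>
    rw [BP.run, BP.run, ih]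
    simp only [BP.fix]
    congr 1
    by_cases h : ∃ v, e v = P.var (P.run (Function.extend e (fun v => decide (z v = 1)) x0) t)
    · obtain ⟨v, hv⟩ := h
      rw [← hv, he.extend_apply, he.extend_apply, he.extend_apply, id]
    · rw [Function.extend_apply' _ _ _ h, Function.extend_apply' _ _ _ h]

theorem exists_fix {V W : Type} [Fintype V] [DecidableEq V] [Fintype W] [DecidableEq W]
    {e : V → W} (he : Function.Injective e) (G : (W → Bool) → Prop) [DecidablePred G] :
    ∃ x0 : W → Bool, #{x | G x} * Fintype.card (V → ZMod 2) ≤ Fintype.card (W → Bool) *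
      #{z : V → ZMod 2 | G (Function.extend e (fun v => decide (z v = 1)) x0)} := by
  have hinv : Function.Involutive fun q : (W → Bool) × (V → ZMod 2) =>
      (Function.extend e (fun v => decide (q.2 v = 1)) q.1, fun v => bit (q.1 (e v))) := by
    rintro ⟨x, z⟩
    refine Prod.ext (funext fun w => ?_) (funext fun v => ?_)
    · by_cases h : ∃ v, e v = w
      · obtain ⟨v, rfl⟩ := h
        simp [he.extend_apply, bit_eq_one]
      · simp only [Function.extend_apply' _ _ _ h]
    · simp only [he.extend_apply, bit_decide]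
  have h1 : ∑ x0 : W → Bool,
      #{z : V → ZMod 2 | G (Function.extend e (fun v => decide (z v = 1)) x0)} =
      #{x | G x} * Fintype.card (V → ZMod 2) := by
    simp only [card_filter]
    rw [← Fintype.sum_prod_type' fun (x0 : W → Bool) (z : V → ZMod 2) =>
        if G (Function.extend e (fun v => decide (z v = 1)) x0) then 1 else 0,
      hinv.bijective.sum_comp fun q : (W → Bool) × (V → ZMod 2) => if G q.1 then 1 else 0,
      Fintype.sum_prod_type, sum_mul]
    refine sum_congr rfl fun Y _ => ?_
    by_cases hY : G Y <;> simp [hY]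
  obtain ⟨x0, -, h⟩ := exists_le_of_sum_le (s := (univ : Finset (W → Bool))) univ_nonempty
    (f := fun _ => #{x | G x} * Fintype.card (V → ZMod 2))
    (g := fun x0 => Fintype.card (W → Bool) *
      #{z : V → ZMod 2 | G (Function.extend e (fun v => decide (z v = 1)) x0)}) (by
      rw [sum_const, ← mul_sum, h1, card_univ, smul_eq_mul])
  exact ⟨x0, h⟩

theorem lang_num {N S T κ : ℕ} (P : BP (Fin N) Bool) {δ : ℝ} (hS : 1 ≤ S) (hs : P.size ≤ 2 ^ S)
    (hden : (1 / 2 + δ) * 2 ^ N ≤ #{x | P.out T x = lang (List.ofFn x)}) (hκ : 128 ≤ κ)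
    (hδ : 3 ≤ δ * κ) (h3 : 2 * T ≤ κ * N) : N ≤ S * κ ^ (457 * κ) := by
  classical
  have hpow : 12 ≤ κ ^ κ := le_trans (by omega) (Nat.le_self_pow (by omega) κ)
  rcases Nat.eq_zero_or_pos (N / 6) with h0 | h0
  · have : κ ^ κ ≤ κ ^ (457 * κ) := Nat.pow_le_pow_right (by omega) (by omega)
    nlinarith [show N ≤ 12 by omega]
  obtain ⟨x0, hx⟩ := exists_fix (emb_inj N) fun x => P.out T x = lang (List.ofFn x)
  have hδ0 : 0 < δ := by
    by_contra h
    nlinarith [(Nat.cast_nonneg κ : (0 : ℝ) ≤ κ)]
  have h := b_num (κ := 12 * κ) (T := T) (P.fix (emb N) (inl ⟨0, h0⟩) x0) (δ := δ) hS hs (by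
      have h2 : ∀ z : Var (N / 6) → ZMod 2,
          P.out T (Function.extend (emb N) (fun v => decide (z v = 1)) x0) =
            lang (List.ofFn (Function.extend (emb N) (fun v => decide (z v = 1)) x0)) ↔
          ((P.fix (emb N) (inl ⟨0, h0⟩) x0).out T z = true ↔ cub (N / 6) z = 1) := fun z => by
        have h4 := lang_eq (Function.extend (emb N) (fun v => decide (z v = 1)) x0)
        simp only [(emb_inj N).extend_apply, bit_decide] at h4
        rw [← h4, bit_eq_one, BP.out, BP.out, P.fix_run (emb_inj N), Bool.eq_iff_iff]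
        rfl
      simp only [h2] at hx
      rw [card_inputs, Fintype.card_fun, Fintype.card_bool, Fintype.card_fin] at hx
      have hx' := (Nat.cast_le (α := ℝ)).2 hx
      push_cast at hx'
      refine le_of_mul_le_mul_left ?_ (by positivity : (0 : ℝ) < 2 ^ N)
      calc _ = (1 / 2 + δ) * 2 ^ N * 2 ^ (6 * (N / 6)) := by ring
        _ ≤ _ := mul_le_mul_of_nonneg_right hden (by positivity)
        _ ≤ _ := hx') (by omega)
    (by push_cast; nlinarith)
    (h3.trans (by rw [mul_comm 12, mul_assoc]; gcongr; omega))
  calc N ≤ 12 * (N / 6) := by omega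
    _ ≤ κ ^ κ * (S * (κ * κ) ^ (19 * (12 * κ))) := by
      refine Nat.mul_le_mul hpow (h.trans ?_)
      gcongr
      omega
    _ = _ := by ring

theorem lang_main : ∃ c : ℝ, 0 < c ∧ ∀ δ : ℝ, 0 < δ → ∃ C : ℕ,
    ∀ (N S T : ℕ) (P : BP (Fin N) Bool), 1 ≤ S → C * S ≤ N → P.size ≤ 2 ^ S →
    (1 / 2 + δ) * 2 ^ N ≤ #{x | P.out T x = lang (List.ofFn x)} →
    c * N * Real.log (N / S) / Real.log (Real.log (N / S)) ≤ T := by
  obtain ⟨c, hc, h⟩ := last_step 457
  refine ⟨c, hc, fun δ hδ => ?_⟩
  obtain ⟨C, hC⟩ := h (max 128 ⌈3 / δ⌉₊)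
  refine ⟨C, fun N S T P hS hn hs hden => hC N S T hS hn fun κ hκ h3 =>
    lang_num P hS hs hden (le_of_max_le_left hκ) ?_ h3⟩
  have := Nat.ceil_le.1 (le_of_max_le_right hκ)
  rwa [div_le_iff₀' hδ] at this

end Pool.Agent.MP_47ff19_lc.H43
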