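import Mathlib
import Pool.Agent.MP_47ff19_lc.H50.Defs

-- part MP_47ff19_lc.H50.Menger
section

/-!
Lifetimes of pebbles as a graph with an interval structure; a Menger-type dichotomy.
-/

namespace Pool.Agent.MP_47ff19_lc.H50

open Finset

/-- Events with lifetimes, predecessors, check times and depths. -/
structure Sys (A : Type) where
  C : ℕ → Finset A
  P : A → A → Prop
  χ : A → ℕ
  d : A → ℕ
  D : ℕ
  ival : ∀ e t₁ t t₂, e ∈ C t₁ → e ∈ C t₂ → t₁ ≤ t → t ≤ t₂ → e ∈ C t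
  pl : ∀ x y, P x y → x ∈ C (χ y)
  pr : ∀ x y, P x y → y ∈ C (χ y)
  dlt : ∀ x y, P x y → d x < d y
  dD : ∀ x, d x < D

variable {A : Type} [DecidableEq A] (G : Sys A)

namespace Sys

theorem btw (e : A) {t₁ t t₂ : ℕ} (h1 : e ∈ G.C t₁) (h2 : e ∈ G.C t₂)
    (h : (t₁ ≤ t ∧ t ≤ t₂) ∨ (t₂ ≤ t ∧ t ≤ t₁)) : e ∈ G.C t := by
  rcases h with h | h
  · exact G.ival e _ _ _ h1 h2 h.1 h.2
  · exact G.ival e _ _ _ h2 h1 h.1 h.2

open Classical in
/-- Predecessors inside `S`. -/
noncomputable def pre (S : Set A) (y : A) : Finset A :=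
  (G.C (G.χ y)).filter (fun x => G.P x y ∧ x ∈ S)

theorem mem_pre {S : Set A} {x y : A} : x ∈ G.pre S y ↔ G.P x y ∧ x ∈ S := by
  unfold pre
  simp only [mem_filter]
  exact ⟨fun h => h.2, fun h => ⟨G.pl _ _ h.1, h⟩⟩

/-- The boundary of `B` with respect to the target set `X`. -/
noncomputable def bd (S : Set A) (X B : Finset A) : Finset A := (X ∪ B.biUnion (G.pre S)) \ B

/-- Every boundary of a set avoiding time `a` has at least `n` elements. -/
def Rk (S : Set A) (a : ℕ) (X : Finset A) (n : ℕ) : Prop :=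
  ∀ B : Finset A, (∀ x ∈ B, x ∉ G.C a) → n ≤ (G.bd S X B).card

theorem bd_submod (S : Set A) (X₁ X₂ J B₁ B₂ : Finset A) (h1 : J ⊆ X₁) (h2 : J ⊆ X₂) :
    (G.bd S (X₁ ∪ X₂) (B₁ ∪ B₂)).card + (G.bd S J (B₁ ∩ B₂)).card ≤
      (G.bd S X₁ B₁).card + (G.bd S X₂ B₂).card := by
  rw [← card_union_add_card_inter (G.bd S X₁ B₁), ← card_union_add_card_inter]
  refine Nat.add_le_add (card_le_card ?_) (card_le_card ?_)
  · intro x hx
    simp only [bd, mem_union, mem_sdiff, mem_biUnion, mem_inter] at hx ⊢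
    have := @h1 x
    have := @h2 x
    grind
  · intro x hx
    simp only [bd, mem_union, mem_sdiff, mem_biUnion, mem_inter] at hx ⊢
    have := @h1 x
    have := @h2 x
    grind

theorem augment (S : Set A) (a : ℕ) (J Y : Finset A) (hJ : G.Rk S a J J.card)
    (h : G.Rk S a (J ∪ Y) (J.card + 1)) :
    ∃ p ∈ Y, p ∉ J ∧ G.Rk S a (insert p J) (J.card + 1) := by
  by_contra hc
  push Not at hc
  have key : ∀ Y' : Finset A, Y' ⊆ Y →
      ∃ B : Finset A, (∀ x ∈ B, x ∉ G.C a) ∧ (G.bd S (J ∪ Y') B).card ≤ J.card := by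
    intro Y'
    induction Y' using Finset.induction_on with
    | empty => exact fun _ => ⟨∅, by simp, by simp [bd]⟩
    | insert p Y' _ ih =>
      intro hY
      obtain ⟨B₁, hB₁, h1⟩ := ih ((subset_insert _ _).trans hY)
      by_cases hp : p ∈ J
      · refine ⟨B₁, hB₁, ?_⟩
        rwa [union_insert, insert_eq_of_mem (mem_union_left _ hp)]
      have h2 := hc p (hY (mem_insert_self _ _)) hp
      unfold Rk at h2
      push Not at h2
      obtain ⟨B₂, hB₂, h2⟩ := h2
      have h3 := G.bd_submod S (J ∪ Y') (insert p J) J B₁ B₂ subset_union_left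
        (subset_insert _ _)
      have h4 := hJ (B₁ ∩ B₂) (fun x hx => hB₁ x (mem_inter.1 hx).1)
      refine ⟨B₁ ∪ B₂, fun x hx => ?_, ?_⟩
      · rcases mem_union.1 hx with hx | hx
        · exact hB₁ x hx
        · exact hB₂ x hx
      · have : J ∪ insert p Y' = J ∪ Y' ∪ insert p J := by
          ext x
          simp only [mem_union, mem_insert]
          tauto
        rw [this]
        omega
  obtain ⟨B, hB, h1⟩ := key Y (subset_refl _)
  have := h B hB
  omega

theorem exists_indep (S : Set A) (a : ℕ) (X : Finset A) (K : ℕ) (h : G.Rk S a X K) :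
    ∀ n ≤ K, ∃ I ⊆ X, I.card = n ∧ G.Rk S a I n := by
  intro n
  induction n with
  | zero => exact fun _ => ⟨∅, empty_subset _, rfl, fun _ _ => Nat.zero_le _⟩
  | succ n ih =>
    intro hn
    obtain ⟨I, hI, rfl, h2⟩ := ih (by omega)
    obtain ⟨p, hp, hpI, h3⟩ := G.augment S a I X h2 (by
      rw [union_eq_right.2 hI]
      exact fun B hB => hn.trans (h B hB))
    exact ⟨insert p I, insert_subset hp hI, card_insert_of_notMem hpI, h3⟩

/-- The vertex set of a path from time `a` to `x`. -/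
structure Good (S : Set A) (a : ℕ) (x : A) (W : Finset A) : Prop where
  sub : ∀ w ∈ W, w ∈ S
  dep : ∀ w ∈ W, w = x ∨ (G.d w < G.d x ∧ x ∉ G.C a)
  card : W.card ≤ G.d x + 1
  cov : ∀ t t', x ∈ G.C t' → (a ≤ t ∧ t ≤ t') ∨ (t' ≤ t ∧ t ≤ a) → ∃ w ∈ W, w ∈ G.C t

theorem linked (S : Set A) (a : ℕ) : ∀ (n : ℕ) (I : Finset A), ∑ x ∈ I, G.d x ≤ n →
    (∀ x ∈ I, x ∈ S) → G.Rk S a I I.card →
    ∃ W : A → Finset A, (∀ x ∈ I, G.Good S a x (W x)) ∧
      ∀ x ∈ I, ∀ y ∈ I, x ≠ y → Disjoint (W x) (W y) := by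
  intro n
  induction n using Nat.strong_induction_on with
  | _ n ih =>
  intro I hn hS hI
  by_cases h0 : (I.filter (fun x => x ∉ G.C a)).Nonempty
  swap
  · refine ⟨fun x => {x}, fun x hx => ⟨by simpa using hS x hx, by simp, by simp, ?_⟩,
      fun x _ y _ h => by simpa using h⟩
    intro t t' h1 h2
    have : x ∈ G.C a := by
      by_contra hc
      exact h0 ⟨x, mem_filter.2 ⟨hx, hc⟩⟩
    exact ⟨x, mem_singleton_self _, G.btw x this h1 h2⟩
  obtain ⟨y, hy, hmax⟩ := exists_max_image _ G.d h0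
  obtain ⟨hyI, hya⟩ := mem_filter.1 hy
  set J := I.erase y with hJ
  have hc : J.card + 1 = I.card := card_erase_add_one hyI
  have h1 : G.Rk S a J J.card := by
    intro B hB
    have h2 := hI B hB
    have h3 : G.bd S I B ⊆ insert y (G.bd S J B) := by
      intro x hx
      simp only [bd, hJ, mem_union, mem_sdiff, mem_insert, mem_erase] at hx ⊢
      tauto
    have := (card_le_card h3).trans (card_insert_le _ _)
    omega
  have h2 : G.Rk S a (J ∪ G.pre S y) (J.card + 1) := by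
    intro B hB
    have h2 := hI (insert y B) (fun x hx => by
      rcases mem_insert.1 hx with rfl | hx
      · exact hya
      · exact hB x hx)
    have h3 : G.bd S I (insert y B) ⊆ G.bd S (J ∪ G.pre S y) B := by
      intro x hx
      simp only [bd, hJ, mem_union, mem_sdiff, mem_insert, mem_erase, biUnion_insert] at hx ⊢
      tauto
    have := card_le_card h3
    omega
  obtain ⟨p, hp, hpJ, h3⟩ := G.augment S a J _ h1 h2
  obtain ⟨hpy, hpS⟩ := G.mem_pre.1 hp
  have hd := G.dlt _ _ hpy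
  have hsum : ∑ x ∈ insert p J, G.d x < n := by
    rw [sum_insert hpJ]
    have : G.d y + ∑ x ∈ J, G.d x = ∑ x ∈ I, G.d x := add_sum_erase I G.d hyI
    omega
  obtain ⟨W, hW1, hW2⟩ := ih _ hsum (insert p J) le_rfl (fun x hx => by
    rcases mem_insert.1 hx with rfl | hx
    · exact hpS
    · exact hS x (mem_of_mem_erase hx)) (by rwa [card_insert_of_notMem hpJ])
  have hWp := hW1 p (mem_insert_self _ _)
  have hyW : ∀ x ∈ J, y ∉ W x := by
    intro x hx hyx
    rcases (hW1 x (mem_insert_of_mem hx)).dep y hyx with h | h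
    · exact (mem_erase.1 hx).1 h.symm
    · have := hmax x (mem_filter.2 ⟨mem_of_mem_erase hx, h.2⟩)
      omega
  have hdis : ∀ x ∈ J, Disjoint (insert y (W p)) (W x) := by
    intro x hx
    rw [disjoint_insert_left]
    exact ⟨hyW x hx, hW2 p (mem_insert_self _ _) x (mem_insert_of_mem hx)
      (fun h => hpJ (h ▸ hx))⟩
  refine ⟨fun x => if x = y then insert y (W p) else W x, fun x hx => ?_, ?_⟩
  · by_cases hxy : x = y
    · subst hxy
      beta_reduce
      rw [if_pos rfl]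
      refine ⟨fun w hw => ?_, fun w hw => ?_, ?_, fun t t' h4 h5 => ?_⟩
      · rcases mem_insert.1 hw with rfl | hw
        · exact hS _ hx
        · exact hWp.sub w hw
      · rcases mem_insert.1 hw with rfl | hw
        · exact Or.inl rfl
        · right
          rcases hWp.dep w hw with rfl | h
          · exact ⟨hd, hya⟩
          · exact ⟨by omega, hya⟩
      · have := card_insert_le x (W p)
        have := hWp.card
        omega
      · by_cases h6 : (G.χ x ≤ t ∧ t ≤ t') ∨ (t' ≤ t ∧ t ≤ G.χ x)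
        · exact ⟨x, mem_insert_self _ _, G.btw x (G.pr _ _ hpy) h4 h6⟩
        · obtain ⟨w, hw, h7⟩ := hWp.cov t _ (G.pl _ _ hpy) (by omega)
          exact ⟨w, mem_insert_of_mem hw, h7⟩
    · beta_reduce
      rw [if_neg hxy]
      exact hW1 x (mem_insert_of_mem (mem_erase.2 ⟨hxy, hx⟩))
  · intro x hx x' hx' hne
    by_cases h4 : x = y
    · have h5 : x' ≠ y := fun h => hne (h4.trans h.symm)
      simp only [if_pos h4, if_neg h5]
      exact hdis x' (mem_erase.2 ⟨h5, hx'⟩)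
    · by_cases h5 : x' = y
      · simp only [if_neg h4, if_pos h5]
        exact (hdis x (mem_erase.2 ⟨h4, hx⟩)).symm
      · simp only [if_neg h4, if_neg h5]
        exact hW2 x (mem_insert_of_mem (mem_erase.2 ⟨h4, hx⟩)) x'
          (mem_insert_of_mem (mem_erase.2 ⟨h5, hx'⟩)) hne

end Sys

end Pool.Agent.MP_47ff19_lc.H50

end

-- part MP_47ff19_lc.H50.Tracks
section

/-!
Tracks, cuts and the trichotomy.
-/

namespace Pool.Agent.MP_47ff19_lc.H50

open Finset

variable {A : Type} [DecidableEq A]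

/-- Number of switches of `τ` inside the window `[lo, hi)`. -/
def sw (τ : ℕ → A) (lo hi : ℕ) : ℕ :=
  ((Ico lo hi).filter (fun t => t + 1 < hi ∧ τ t ≠ τ (t + 1))).card

theorem sw_split (τ : ℕ → A) {l m r : ℕ} (h1 : l ≤ m) (h2 : m ≤ r) :
    sw τ l m + sw τ m r ≤ sw τ l r := by
  unfold sw
  rw [← card_union_of_disjoint]
  · refine card_le_card (fun t ht => ?_)
    simp only [mem_union, mem_filter, mem_Ico] at ht ⊢
    rcases ht with ht | ht
    · exact ⟨by omega, by omega, ht.2.2⟩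
    · exact ⟨by omega, by omega, ht.2.2⟩
  · rw [disjoint_left]
    intro t h3 h4
    simp only [mem_filter, mem_Ico] at h3 h4
    omega

theorem sw_mono (τ : ℕ → A) {l r l' r' : ℕ} (h1 : l ≤ l') (h2 : r' ≤ r) :
    sw τ l' r' ≤ sw τ l r := by
  unfold sw
  refine card_le_card (fun t ht => ?_)
  simp only [mem_filter, mem_Ico] at ht ⊢
  exact ⟨by omega, by omega, ht.2.2⟩

theorem sw_zero (τ : ℕ → A) {l r : ℕ} (h : sw τ l r = 0) : ∀ t, l ≤ t → t < r → τ t = τ l := by
  intro t h1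
  induction t, h1 using Nat.le_induction with
  | base => exact fun _ => rfl
  | succ t h1 ih =>
    intro h2
    rw [← ih (by omega)]
    by_contra hc
    unfold sw at h
    rw [card_eq_zero, filter_eq_empty_iff] at h
    exact h (x := t) (mem_Ico.2 ⟨h1, by omega⟩) ⟨h2, fun h => hc h.symm⟩

namespace Sys

variable (G : Sys A)

/-- `K` pointwise distinct tracks inside `S` on the window `[lo, hi)`, with at most `m` switches. -/
def Tr (S : Set A) (K lo hi m : ℕ) : Prop :=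
  ∃ τ : ℕ → ℕ → A, (∀ i < K, ∀ t, lo ≤ t → t < hi → τ i t ∈ G.C t ∧ τ i t ∈ S) ∧
    (∀ t, lo ≤ t → t < hi → ∀ i < K, ∀ j < K, τ i t = τ j t → i = j) ∧
    ∀ i < K, sw (τ i) lo hi ≤ m

theorem Tr_empty [Inhabited A] (S : Set A) (K c m : ℕ) : G.Tr S K c c m :=
  ⟨fun _ _ => default, fun _ _ _ _ _ => by omega, fun _ _ _ => by omega, fun _ _ => by simp [sw]⟩

theorem Tr_glue {S : Set A} {K lo h₁ l₂ hi p q : ℕ} (t1 : G.Tr S K lo h₁ p)
    (t2 : G.Tr S K l₂ hi q) (h : l₂ ≤ h₁) : G.Tr S K lo hi (p + q + 1) := by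
  obtain ⟨τ, a1, a2, a3⟩ := t1
  obtain ⟨σ, b1, b2, b3⟩ := t2
  refine ⟨fun i t => if t < h₁ then τ i t else σ i t, ?_, ?_, ?_⟩
  · intro i hi t h1 h2
    beta_reduce
    split_ifs with h3
    · exact a1 i hi t h1 h3
    · exact b1 i hi t (by omega) h2
  · intro t h1 h2 i hi j hj
    beta_reduce
    split_ifs with h3
    · exact a2 t h1 h3 i hi j hj
    · exact b2 t (by omega) h2 i hi j hj
  · intro i hiK
    have e1 := a3 i hiK
    have e2 := b3 i hiK
    unfold sw at e1 e2 ⊢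
    refine le_trans (card_le_card (t := insert (h₁ - 1)
      ((Ico lo h₁).filter (fun t => t + 1 < h₁ ∧ τ i t ≠ τ i (t + 1)) ∪
      (Ico l₂ hi).filter (fun t => t + 1 < hi ∧ σ i t ≠ σ i (t + 1)))) ?_) ?_
    · intro t ht
      simp only [mem_insert, mem_union, mem_filter, mem_Ico] at ht ⊢
      obtain ⟨h1, h2, h3⟩ := ht
      by_cases h4 : t + 1 < h₁
      · rw [if_pos (by omega), if_pos h4] at h3
        exact Or.inr (Or.inl ⟨by omega, h4, h3⟩)
      · by_cases h5 : t < h₁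
        · exact Or.inl (by omega)
        · rw [if_neg h5, if_neg h4] at h3
          exact Or.inr (Or.inr ⟨by omega, h2, h3⟩)
    · refine (card_insert_le _ _).trans (Nat.succ_le_succ ((card_union_le _ _).trans ?_))
      omega

theorem lazy [Inhabited A] (W : Finset A) (lo hi : ℕ)
    (h : ∀ t, lo ≤ t → t < hi → ∃ w ∈ W, w ∈ G.C t) :
    ∃ τ : ℕ → A, (∀ t, lo ≤ t → t < hi → τ t ∈ W ∧ τ t ∈ G.C t) ∧ sw τ lo hi ≤ W.card := by
  classical
  have h' : ∀ t, ∃ w, lo ≤ t → t < hi → w ∈ W ∧ w ∈ G.C t := by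
    intro t
    by_cases h1 : lo ≤ t ∧ t < hi
    · obtain ⟨w, hw⟩ := h t h1.1 h1.2
      exact ⟨w, fun _ _ => hw⟩
    · exact ⟨default, fun h2 h3 => absurd ⟨h2, h3⟩ h1⟩
  choose c hc using h'
  let st : ℕ → A → A := fun n e => if e ∈ W ∧ e ∈ G.C (n + 1) then e else c (n + 1)
  let τ : ℕ → A := fun t => Nat.rec (motive := fun _ => A) (c 0) st t
  have hs : ∀ n : ℕ, τ (n + 1) = st n (τ n) := fun n => rfl
  have h0 : τ 0 = c 0 := rfl
  clear_value τ
  have h1 : ∀ t, lo ≤ t → t < hi → τ t ∈ W ∧ τ t ∈ G.C t := by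
    intro t h1 h2
    cases t with
    | zero => rw [h0]; exact hc 0 h1 h2
    | succ n =>
      rw [hs]
      simp only [st]
      split_ifs with h3
      · exact h3
      · exact hc _ h1 h2
  refine ⟨τ, h1, ?_⟩
  unfold sw
  have h2 : ∀ t ∈ (Ico lo hi).filter (fun t => t + 1 < hi ∧ τ t ≠ τ (t + 1)),
      τ t ∈ W ∧ τ t ∈ G.C t ∧ τ t ∉ G.C (t + 1) := by
    intro t ht
    simp only [mem_filter, mem_Ico] at ht
    have h3 := h1 t ht.1.1 ht.1.2
    refine ⟨h3.1, h3.2, fun h4 => ht.2.2 ?_⟩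
    rw [hs]
    simp only [st]
    rw [if_pos ⟨h3.1, h4⟩]
  refine card_le_card_of_injOn τ (fun t ht => (h2 t ht).1) ?_
  intro t ht t' ht' he
  obtain ⟨-, a1, a2⟩ := h2 t ht
  obtain ⟨-, b1, b2⟩ := h2 t' ht'
  rw [← he] at b1 b2
  rcases lt_trichotomy t t' with h | h | h
  · exact absurd (G.ival _ _ _ _ a1 b1 (by omega) (by omega)) a2
  · exact h
  · exact absurd (G.ival _ _ _ _ b1 a1 (by omega) (by omega)) b2

/-- Directed paths whose vertices, except possibly the last, lie in `S`. -/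
def Path (S : Set A) : A → A → Prop := Relation.ReflTransGen (fun u v => G.P u v ∧ u ∈ S)

/-- Every element of `S` has a path inside `S` to an element alive at time `c`. -/
def Conn (S : Set A) (c : ℕ) : Prop := ∀ x ∈ S, ∃ y ∈ S, y ∈ G.C c ∧ G.Path S x y

/-- `Z` meets every path inside `S` from time `a` to time `b`. -/
def Cut (S : Set A) (a b : ℕ) (Z : Finset A) : Prop :=
  ∀ S' : Set A, S' ⊆ S → (∀ x ∈ Z, x ∉ S') →
    ∀ x y, x ∈ G.C a → y ∈ G.C b → y ∈ S' → ¬ G.Path S' x y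

theorem dich [Inhabited A] (S : Set A) (a b K lo hi : ℕ)
    (h : (a = lo ∧ b + 1 = hi) ∨ (b = lo ∧ a + 1 = hi)) :
    (∃ Z : Finset A, Z.card < K ∧ G.Cut S a b Z) ∨ G.Tr S K lo hi G.D := by
  classical
  let X := (G.C b).filter (· ∈ S)
  by_cases hR : G.Rk S a X K
  · right
    obtain ⟨I, hI, hc, h2⟩ := G.exists_indep S a X K hR K le_rfl
    obtain ⟨W, hW1, hW2⟩ := G.linked S a _ I le_rfl (fun x hx => (mem_filter.1 (hI hx)).2)
      (by rwa [hc])
    have h3 : ∀ x, ∃ τ : ℕ → A, x ∈ I →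
        (∀ t, lo ≤ t → t < hi → τ t ∈ W x ∧ τ t ∈ G.C t) ∧ sw τ lo hi ≤ (W x).card := by
      intro x
      by_cases hx : x ∈ I
      · obtain ⟨τ, hτ⟩ := G.lazy (W x) lo hi (fun t h1 h2 =>
          (hW1 x hx).cov t b (mem_filter.1 (hI hx)).1 (by omega))
        exact ⟨τ, fun _ => hτ⟩
      · exact ⟨fun _ => default, fun h => absurd h hx⟩
    choose τ hτ using h3
    let e := I.equivFinOfCardEq hc
    let ι : ℕ → A := fun i => if h : i < K then (e.symm ⟨i, h⟩ : A) else default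
    have hι : ∀ i < K, ι i ∈ I := by
      intro i hi
      simp only [ι, dif_pos hi]
      exact (e.symm ⟨i, hi⟩).2
    have hιi : ∀ i < K, ∀ j < K, ι i = ι j → i = j := by
      intro i hi j hj h
      simp only [ι, dif_pos hi, dif_pos hj] at h
      have := e.symm.injective (Subtype.ext h)
      simpa using this
    refine ⟨fun i => τ (ι i), fun i hi t h1 h2 => ?_, fun t h1 h2 i hi j hj he => ?_,
      fun i hi => ?_⟩
    · have := (hτ _ (hι i hi)).1 t h1 h2
      exact ⟨this.2, (hW1 _ (hι i hi)).sub _ this.1⟩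
    · by_contra hne
      have h4 := hW2 _ (hι i hi) _ (hι j hj) (fun h => hne (hιi i hi j hj h))
      have h5 := ((hτ _ (hι i hi)).1 t h1 h2).1
      have h6 := ((hτ _ (hι j hj)).1 t h1 h2).1
      simp only at he
      rw [← he] at h6
      exact disjoint_left.1 h4 h5 h6
    · have h4 := (hτ _ (hι i hi)).2
      have h5 := (hW1 _ (hι i hi)).card
      have h6 := G.dD (ι i)
      simp only
      omega
  · left
    unfold Rk at hR
    push Not at hR
    obtain ⟨B, hB, h1⟩ := hR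
    refine ⟨_, h1, ?_⟩
    intro S' hS hZ x y hx hy hyS hp
    have key : x ∈ B := by
      clear hx
      induction hp using Relation.ReflTransGen.head_induction_on with
      | refl =>
        by_contra hc
        exact hZ y (mem_sdiff.2 ⟨mem_union_left _ (mem_filter.2 ⟨hy, hS hyS⟩), hc⟩) hyS
      | head h _ ih =>
        by_contra hc
        exact hZ _ (mem_sdiff.2 ⟨mem_union_right _ (mem_biUnion.2
          ⟨_, ih, G.mem_pre.2 ⟨h.1, hS h.2⟩⟩), hc⟩) h.2
    exact hB x key hx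

theorem path_cross {S : Set A} {x y : A} (hp : G.Path S x y) (hy : y ∈ S) {t' a : ℕ}
    (h2 : y ∈ G.C t') : ∀ t, x ∈ G.C t → (t ≤ a ∧ a ≤ t') ∨ (t' ≤ a ∧ a ≤ t) →
      ∃ w ∈ S, w ∈ G.C a ∧ G.Path S x w ∧ G.Path S w y := by
  induction hp using Relation.ReflTransGen.head_induction_on with
  | refl =>
    intro t h1 h3
    exact ⟨y, hy, G.btw y h1 h2 h3, Relation.ReflTransGen.refl, Relation.ReflTransGen.refl⟩
  | @head x x' h hp ih =>
    intro t h1 h3
    by_cases h4 : (t ≤ a ∧ a ≤ G.χ x') ∨ (G.χ x' ≤ a ∧ a ≤ t)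
    · exact ⟨x, h.2, G.btw x h1 (G.pl _ _ h.1) h4, Relation.ReflTransGen.refl,
        Relation.ReflTransGen.head h hp⟩
    · obtain ⟨w, a1, a2, a3, a4⟩ := ih _ (G.pr _ _ h.1) (by omega)
      exact ⟨w, a1, a2, Relation.ReflTransGen.head h a3, a4⟩

theorem confine {S S' : Set A} {a b c : ℕ} {Z : Finset A} (hc : G.Cut S a b Z) (hS : S' ⊆ S)
    (hZ : ∀ x ∈ Z, x ∉ S') (hconn : G.Conn S' c) {x : A} (hx : x ∈ S') {t : ℕ} (ht : x ∈ G.C t)
    (h : (t ≤ a ∧ a ≤ b ∧ b ≤ c) ∨ (c ≤ b ∧ b ≤ a ∧ a ≤ t)) : False := by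
  obtain ⟨y, hy, h1, h2⟩ := hconn x hx
  obtain ⟨w, -, a2, -, a4⟩ := G.path_cross h2 hy (a := a) h1 t ht (by omega)
  obtain ⟨w', b1, b2, b3, -⟩ := G.path_cross a4 hy (a := b) h1 a a2 (by omega)
  exact hc S' hS hZ w w' a2 b2 b1 b3

/-- All lifetimes of elements of `S` lie in `[l, r)`. -/
def Win (S : Set A) (l r : ℕ) : Prop := ∀ x ∈ S, ∀ t, x ∈ G.C t → l ≤ t ∧ t < r

theorem extL [Inhabited A] {S : Set A} {l r : ℕ} (hw : G.Win S l r) {K : ℕ} (hK : 0 < K) (c : ℕ)
    (hc : l ≤ c) : ∃ a, l ≤ a ∧ a ≤ c ∧ G.Tr S K a c G.D ∧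
      (∃ Z : Finset A, Z.card < K ∧ ∀ S' ⊆ S, (∀ x ∈ Z, x ∉ S') → ∀ χ, G.Conn S' χ →
        c ≤ χ + 1 → ∀ x ∈ S', ∀ t, x ∈ G.C t → a ≤ t) ∧
      (∃ Z : Finset A, Z.card < K ∧ ∀ S' ⊆ S, (∀ x ∈ Z, x ∉ S') → ∀ χ, G.Conn S' χ →
        χ < a → ∀ x ∈ S', ∀ t, x ∈ G.C t → t + 1 < c) := by
  classical
  have hex : ∃ a, l ≤ a ∧ G.Tr S K a c G.D := ⟨c, hc, G.Tr_empty S K c _⟩
  have h1 := Nat.find_spec hex
  have h2 : Nat.find hex ≤ c := Nat.find_min' hex ⟨hc, G.Tr_empty S K c _⟩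
  refine ⟨Nat.find hex, h1.1, h2, h1.2, ?_⟩
  by_cases h3 : Nat.find hex = l
  · rw [h3]
    refine ⟨⟨∅, hK, fun S' hS _ χ _ _ x hx t ht => (hw x (hS hx) t ht).1⟩,
      ⟨∅, hK, fun S' hS _ χ hconn h x hx t _ => ?_⟩⟩
    obtain ⟨y, hy, h4, -⟩ := hconn x hx
    have := (hw y (hS hy) _ h4).1
    omega
  · have h4 : ¬ G.Tr S K (Nat.find hex - 1) c G.D := fun h =>
      Nat.find_min hex (m := Nat.find hex - 1) (by omega) ⟨by omega, h⟩
    obtain ⟨Z, hZ, hcut⟩ := (G.dich S (Nat.find hex - 1) (c - 1) K _ c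
      (Or.inl ⟨rfl, by omega⟩)).resolve_right h4
    obtain ⟨Z', hZ', hcut'⟩ := (G.dich S (c - 1) (Nat.find hex - 1) K _ c
      (Or.inr ⟨rfl, by omega⟩)).resolve_right h4
    refine ⟨⟨Z, hZ, fun S' hS hz χ hconn h x hx t ht => ?_⟩,
      ⟨Z', hZ', fun S' hS hz χ hconn h x hx t ht => ?_⟩⟩
    · by_contra h5
      exact G.confine hcut hS hz hconn hx ht (by omega)
    · by_contra h5
      exact G.confine hcut' hS hz hconn hx ht (by omega)

theorem extR [Inhabited A] {S : Set A} {l r : ℕ} (hw : G.Win S l r) {K : ℕ} (hK : 0 < K) (c : ℕ)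
    (hc : c ≤ r) : ∃ a, c ≤ a ∧ a ≤ r ∧ G.Tr S K c a G.D ∧
      (∃ Z : Finset A, Z.card < K ∧ ∀ S' ⊆ S, (∀ x ∈ Z, x ∉ S') → ∀ χ, G.Conn S' χ →
        χ ≤ c → ∀ x ∈ S', ∀ t, x ∈ G.C t → t < a) ∧
      (∃ Z : Finset A, Z.card < K ∧ ∀ S' ⊆ S, (∀ x ∈ Z, x ∉ S') → ∀ χ, G.Conn S' χ →
        a ≤ χ → ∀ x ∈ S', ∀ t, x ∈ G.C t → c < t) := by
  classical
  have h1 : G.Tr S K c (Nat.findGreatest (fun a => G.Tr S K c a G.D) r) G.D :=
    Nat.findGreatest_spec (P := fun a => G.Tr S K c a G.D) hc (G.Tr_empty S K c _)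
  have h2 : c ≤ Nat.findGreatest (fun a => G.Tr S K c a G.D) r :=
    Nat.le_findGreatest hc (G.Tr_empty S K c _)
  have h0 := Nat.findGreatest_le (P := fun a => G.Tr S K c a G.D) r
  set a := Nat.findGreatest (fun a => G.Tr S K c a G.D) r with ha
  refine ⟨a, h2, h0, h1, ?_⟩
  by_cases h3 : a = r
  · rw [h3]
    refine ⟨⟨∅, hK, fun S' hS _ χ _ _ x hx t ht => (hw x (hS hx) t ht).2⟩,
      ⟨∅, hK, fun S' hS _ χ hconn h x hx t _ => ?_⟩⟩
    obtain ⟨y, hy, h4, -⟩ := hconn x hx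
    have := (hw y (hS hy) _ h4).2
    omega
  · have h4 : ¬ G.Tr S K c (a + 1) G.D :=
      Nat.findGreatest_is_greatest (P := fun a => G.Tr S K c a G.D) (n := r) (by omega) (by omega)
    obtain ⟨Z, hZ, hcut⟩ := (G.dich S a c K c (a + 1) (Or.inr ⟨rfl, rfl⟩)).resolve_right h4
    obtain ⟨Z', hZ', hcut'⟩ := (G.dich S c a K c (a + 1) (Or.inl ⟨rfl, rfl⟩)).resolve_right h4
    refine ⟨⟨Z, hZ, fun S' hS hz χ hconn h x hx t ht => ?_⟩,
      ⟨Z', hZ', fun S' hS hz χ hconn h x hx t ht => ?_⟩⟩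
    · by_contra h5
      exact G.confine hcut hS hz hconn hx ht (by omega)
    · by_contra h5
      exact G.confine hcut' hS hz hconn hx ht (by omega)

theorem tri [Inhabited A] {S : Set A} {l r : ℕ} (hw : G.Win S l r) (k m : ℕ)
    (h1 : l ≤ m) (h2 : m < r) : ∃ (Z : Finset A) (lo hi : ℕ), Z.card ≤ 4 * k ∧ l ≤ lo ∧ hi ≤ r ∧
      G.Tr S (k + 1) lo hi (4 * G.D + 3) ∧
      ∀ S' ⊆ S, (∀ x ∈ Z, x ∉ S') → ∀ χ, G.Conn S' χ →
        G.Win S' l m ∨ G.Win S' (m + 1) r ∨ G.Win S' lo hi := by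
  obtain ⟨a₁, p1, p2, p3, -, Z₁, p4, p5⟩ := G.extL hw (Nat.succ_pos k) (m + 1) (by omega)
  obtain ⟨a₂, q1, q2, q3, ⟨Z₂, q4, q5⟩, -⟩ := G.extL hw (Nat.succ_pos k) a₁ p1
  obtain ⟨a₃, r1, r2, r3, -, Z₃, r4, r5⟩ := G.extR hw (Nat.succ_pos k) m (by omega)
  obtain ⟨a₄, s1, s2, s3, ⟨Z₄, s4, s5⟩, -⟩ := G.extR hw (Nat.succ_pos k) a₃ r2
  refine ⟨Z₁ ∪ Z₂ ∪ Z₃ ∪ Z₄, a₂, a₄, ?_, q1, s2, ?_, ?_⟩
  · have := card_union_le (Z₁ ∪ Z₂ ∪ Z₃) Z₄
    have := card_union_le (Z₁ ∪ Z₂) Z₃
    have := card_union_le Z₁ Z₂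
    omega
  · have := G.Tr_glue (G.Tr_glue q3 p3 le_rfl) (G.Tr_glue r3 s3 le_rfl) (by omega)
    rwa [show G.D + G.D + 1 + (G.D + G.D + 1) + 1 = 4 * G.D + 3 by ring] at this
  · intro S' hS hZ χ hconn
    simp only [mem_union] at hZ
    by_cases c1 : χ < a₁
    · left
      intro x hx t ht
      have := p5 S' hS (fun x h => hZ x (by tauto)) χ hconn c1 x hx t ht
      exact ⟨(hw x (hS hx) t ht).1, by omega⟩
    by_cases c2 : a₃ ≤ χ
    · right; left
      intro x hx t ht
      exact ⟨r5 S' hS (fun x h => hZ x (by tauto)) χ hconn c2 x hx t ht, (hw x (hS hx) t ht).2⟩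
    · right; right
      intro x hx t ht
      exact ⟨q5 S' hS (fun x h => hZ x (by tauto)) χ hconn (by omega) x hx t ht,
        s5 S' hS (fun x h => hZ x (by tauto)) χ hconn (by omega) x hx t ht⟩

end Sys

end Pool.Agent.MP_47ff19_lc.H50

end

-- part MP_47ff19_lc.H50.Game
section

/-!
The strategy and its potential function.
-/

namespace Pool.Agent.MP_47ff19_lc.H50

open Finset

variable {A : Type} [DecidableEq A]

namespace Sys

variable (G : Sys A)

/-- Proper ancestors of `z` along paths avoiding `F`. -/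
def Anc (F : Finset A) (z : A) : Set A :=
  {x | Relation.TransGen (fun u v => G.P u v ∧ u ∉ F) x z}

theorem anc_d {F : Finset A} {z x : A} (h : x ∈ G.Anc F z) : G.d x < G.d z := by
  induction h with
  | single h => exact G.dlt _ _ h.1
  | tail _ h ih => exact lt_trans ih (G.dlt _ _ h.1)

theorem anc_notMem {F : Finset A} {z x : A} (h : x ∈ G.Anc F z) : x ∉ F := by
  obtain ⟨y, h1, -⟩ := Relation.TransGen.head'_iff.1 h
  exact h1.2

theorem anc_mono {F F' : Finset A} (h : F ⊆ F') (z : A) : G.Anc F' z ⊆ G.Anc F z := by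
  intro x hx
  induction hx with
  | single h1 => exact Relation.TransGen.single ⟨h1.1, fun h2 => h1.2 (h h2)⟩
  | tail _ h1 ih => exact Relation.TransGen.tail ih ⟨h1.1, fun h2 => h1.2 (h h2)⟩

theorem anc_trans {F : Finset A} {z w : A} (h : w ∈ G.Anc F z) : G.Anc F w ⊆ G.Anc F z :=
  fun _ hx => Relation.TransGen.trans hx h

theorem anc_conn (F : Finset A) (z : A) : G.Conn (G.Anc F z) (G.χ z) := by
  intro x hx
  induction hx using Relation.TransGen.head_induction_on with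
  | single h => exact ⟨_, Relation.TransGen.single h, G.pl _ _ h.1, Relation.ReflTransGen.refl⟩
  | head h hp ih =>
    obtain ⟨y, h1, h2, h3⟩ := ih
    exact ⟨y, h1, h2, Relation.ReflTransGen.head ⟨h.1, Relation.TransGen.head h hp⟩ h3⟩

variable (Q : Finset A → A → ℕ → Prop) (real : A → Prop)
  (hreal : ∀ x y, G.P x y → real x)
  (hbase : ∀ F y, real y → (∀ x, G.P x y → x ∈ F) → Q F y 1)
  (hstep : ∀ F w z c, Q F w c → Q (insert w F) z c → Q F z (c + 1))
  (hmono : ∀ F z c c', Q F z c → c ≤ c' → Q F z c')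

include hreal hstep hmono in
theorem place (Z : Finset A) (c : ℕ) (S : Set A)
    (h : ∀ F z, real z → G.Anc F z ⊆ S → (∀ x ∈ Z, x ∉ G.Anc F z) → Q F z c) :
    ∀ F z, real z → G.Anc F z ⊆ S → Q F z (c + Z.card) := by
  classical
  have key : ∀ n F z, real z → G.Anc F z ⊆ S → (Z.filter (· ∈ G.Anc F z)).card ≤ n →
      Q F z (c + n) := by
    intro n
    induction n with
    | zero =>
      intro F z h1 h2 h3
      refine h F z h1 h2 (fun x hx h4 => ?_)
      have : 0 < (Z.filter (· ∈ G.Anc F z)).card := card_pos.2 ⟨x, mem_filter.2 ⟨hx, h4⟩⟩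
      omega
    | succ n ih =>
      intro F z h1 h2 h3
      by_cases h4 : (Z.filter (· ∈ G.Anc F z)).card ≤ n
      · exact hmono _ _ _ _ (ih F z h1 h2 h4) (by omega)
      obtain ⟨w, hw⟩ := card_pos.1 (show 0 < (Z.filter (· ∈ G.Anc F z)).card by omega)
      have hw' := (mem_filter.1 hw).2
      have h5 := card_erase_add_one hw
      refine hstep F w z _ (ih F w ?_ ((G.anc_trans hw').trans h2) ?_)
        (ih _ z h1 ((G.anc_mono (subset_insert _ _) z).trans h2) ?_)
      · obtain ⟨y, h6, -⟩ := Relation.TransGen.head'_iff.1 hw'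
        exact hreal _ _ h6.1
      · refine le_trans (card_le_card (t := (Z.filter (· ∈ G.Anc F z)).erase w) ?_) (by omega)
        intro x hx
        obtain ⟨h6, h7⟩ := mem_filter.1 hx
        refine mem_erase.2 ⟨?_, mem_filter.2 ⟨h6, G.anc_trans hw' h7⟩⟩
        rintro rfl
        exact lt_irrefl _ (G.anc_d h7)
      · refine le_trans (card_le_card (t := (Z.filter (· ∈ G.Anc F z)).erase w) ?_) (by omega)
        intro x hx
        obtain ⟨h6, h7⟩ := mem_filter.1 hx
        refine mem_erase.2 ⟨?_, mem_filter.2 ⟨h6, G.anc_mono (subset_insert _ _) z h7⟩⟩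
        rintro rfl
        exact G.anc_notMem h7 (mem_insert_self _ _)
  exact fun F z h1 h2 => key _ F z h1 h2 (card_filter_le _ _)

/-- The invariant of the strategy. -/
structure Inv (S : Set A) (l r : ℕ) (R : Finset A) (I : Finset ℕ) (τ : ℕ → ℕ → A) (j : ℕ → ℕ) :
    Prop where
  win : G.Win S l r
  alive : ∀ e ∈ R, ∀ t, l ≤ t → t < r → e ∈ G.C t
  out : ∀ e ∈ R, e ∉ S
  tr : ∀ i ∈ I, ∀ t, l ≤ t → t < r → τ i t ∈ G.C t ∧ τ i t ∉ R
  inj : ∀ t, l ≤ t → t < r → ∀ i ∈ I, ∀ i' ∈ I, τ i t = τ i' t → i = i'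
  lev : ∀ i ∈ I, sw (τ i) l r < 2 ^ j i

theorem Inv.card {G : Sys A} {S : Set A} {l r : ℕ} {R : Finset A} {I : Finset ℕ} {τ : ℕ → ℕ → A}
    {j : ℕ → ℕ} (h : G.Inv S l r R I τ j) {s : ℕ} (hs : ∀ t, (G.C t).card ≤ s) {t : ℕ}
    (h1 : l ≤ t) (h2 : t < r) : R.card + I.card ≤ s := by
  have h3 : (I.image (fun i => τ i t)).card = I.card :=
    card_image_of_injOn (fun i hi i' hi' he => h.inj t h1 h2 i hi i' hi' he)
  rw [← h3, ← card_union_of_disjoint]
  · refine le_trans (card_le_card ?_) (hs t)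
    intro x hx
    rcases mem_union.1 hx with hx | hx
    · exact h.alive x hx t h1 h2
    · obtain ⟨i, hi, rfl⟩ := mem_image.1 hx
      exact (h.tr i hi t h1 h2).1
  · rw [disjoint_right]
    intro x hx
    obtain ⟨i, hi, rfl⟩ := mem_image.1 hx
    exact (h.tr i hi t h1 h2).2

theorem Inv.shrink {G : Sys A} {S S' : Set A} {l r l' r' : ℕ} {R : Finset A} {I : Finset ℕ}
    {τ : ℕ → ℕ → A} {j : ℕ → ℕ} (h : G.Inv S l r R I τ j) (hS : S' ⊆ S) (hw : G.Win S' l' r')
    (h1 : l ≤ l') (h2 : r' ≤ r) (hj : ∀ i ∈ I, 1 ≤ j i)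
    (h3 : I.card ≤ 2 * (I.filter (fun i => sw (τ i) l' r' < 2 ^ (j i - 1))).card) :
    ∃ j' : ℕ → ℕ, G.Inv S' l' r' R I τ j' ∧
      I.card + 2 * ∑ i ∈ I, (j' i + 1) ≤ 2 * ∑ i ∈ I, (j i + 1) := by
  refine ⟨fun i => if sw (τ i) l' r' < 2 ^ (j i - 1) then j i - 1 else j i,
    ⟨hw, fun e he t a b => h.alive e he t (by omega) (by omega), fun e he a => h.out e he (hS a),
      fun i hi t a b => h.tr i hi t (by omega) (by omega),
      fun t a b => h.inj t (by omega) (by omega), fun i hi => ?_⟩, ?_⟩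
  · split_ifs with h4
    · exact h4
    · exact lt_of_le_of_lt (sw_mono _ h1 h2) (h.lev i hi)
  · have : (I.filter (fun i => sw (τ i) l' r' < 2 ^ (j i - 1))).card +
        ∑ i ∈ I, ((if sw (τ i) l' r' < 2 ^ (j i - 1) then j i - 1 else j i) + 1) =
        ∑ i ∈ I, (j i + 1) := by
      rw [card_filter, ← sum_add_distrib]
      refine sum_congr rfl (fun i hi => ?_)
      have := hj i hi
      split_ifs <;> omega
    beta_reduce
    omega

include hreal hbase hstep hmono in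
theorem main [Inhabited A] (s b : ℕ) (hs : ∀ t, (G.C t).card ≤ s) (hb : 4 * G.D + 3 < 2 ^ b) :
    ∀ (n : ℕ) (S : Set A) (l r : ℕ) (R : Finset A) (I : Finset ℕ) (τ : ℕ → ℕ → A) (j : ℕ → ℕ),
      G.Inv S l r R I τ j → ∑ i ∈ I, (j i + 1) + 2 * (b + 1) * (s - R.card - I.card) ≤ n →
      ∀ F z, real z → G.Anc F z ⊆ S → Q F z (16 * n + 1) := by
  intro n
  induction n using Nat.strong_induction_on with
  | _ n ih =>
  intro S l r R I τ j inv hn F z hz hS
  -- the trivial case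
  have triv : ∀ F z, real z → (G.Anc F z).Nonempty ∨ Q F z 1 := by
    intro F z hz
    by_cases h : (G.Anc F z).Nonempty
    · exact Or.inl h
    · refine Or.inr (hbase F z hz (fun x hx => ?_))
      by_contra hc
      exact h ⟨x, Relation.TransGen.single ⟨hx, hc⟩⟩
  rcases triv F z hz with ⟨x₀, hx₀⟩ | h0
  swap
  · exact hmono _ _ _ _ h0 (by omega)
  obtain ⟨y₀, hy₀, hy₁, -⟩ := G.anc_conn F z x₀ hx₀
  obtain ⟨hl, hr⟩ := inv.win y₀ (hS hy₀) _ hy₁
  by_cases hc : ∃ i ∈ I, j i = 0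
  · -- a constant track
    obtain ⟨i, hi, hji⟩ := hc
    have h1 : sw (τ i) l r = 0 := by
      have := inv.lev i hi
      rw [hji] at this
      omega
    have h2 := sw_zero _ h1
    have h3 := inv.tr i hi l le_rfl (by omega)
    have h4 := add_sum_erase I (fun i => j i + 1) hi
    have h5 := card_erase_add_one hi
    have h6 := card_insert_of_notMem h3.2
    simp only [hji] at h4
    refine hmono _ _ _ _ (G.place Q real hreal hstep hmono {τ i l} (16 * (n - 1) + 1) S
      (fun F' z' a1 a2 a3 => ih (n - 1) (by omega) (G.Anc F' z') l r (insert (τ i l) R)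
        (I.erase i) τ j ⟨fun x hx => inv.win x (a2 hx), ?_, ?_, ?_, ?_, ?_⟩ ?_ F' z' a1
        (subset_refl _)) F z hz hS) (by rw [card_singleton]; omega)
    · intro e he t b1 b2
      rcases mem_insert.1 he with rfl | he
      · rw [← h2 t b1 b2]
        exact (inv.tr i hi t b1 b2).1
      · exact inv.alive e he t b1 b2
    · intro e he
      rcases mem_insert.1 he with rfl | he
      · exact a3 _ (mem_singleton_self _)
      · exact fun h => inv.out e he (a2 h)
    · intro i' hi' t b1 b2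
      obtain ⟨b3, b4⟩ := mem_erase.1 hi'
      refine ⟨(inv.tr i' b4 t b1 b2).1, fun h => ?_⟩
      rcases mem_insert.1 h with h | h
      · rw [← h2 t b1 b2] at h
        exact b3 (inv.inj t b1 b2 i' b4 i hi h)
      · exact (inv.tr i' b4 t b1 b2).2 h
    · exact fun t b1 b2 i₁ h₁ i₂ h₂ =>
        inv.inj t b1 b2 i₁ (mem_of_mem_erase h₁) i₂ (mem_of_mem_erase h₂)
    · exact fun i' hi' => inv.lev i' (mem_of_mem_erase hi')
    · rw [h6, show s - (R.card + 1) - (I.erase i).card = s - R.card - I.card by omega]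
      omega
  have hj : ∀ i ∈ I, 1 ≤ j i := fun i hi => Nat.pos_of_ne_zero (fun h => hc ⟨i, hi, h⟩)
  have hsum : 2 * I.card ≤ ∑ i ∈ I, (j i + 1) := by
    rw [mul_comm, ← smul_eq_mul]
    exact card_nsmul_le_sum _ _ _ (fun i hi => by have := hj i hi; omega)
  -- the middle outcome
  have mid : ∀ lo hi, l ≤ lo → hi ≤ r → G.Tr S (2 * I.card + 1) lo hi (4 * G.D + 3) →
      ∀ F' z', real z' → G.Anc F' z' ⊆ S → G.Win (G.Anc F' z') lo hi →
      Q F' z' 1 ∨ ∃ n', n' + 2 * I.card + 1 ≤ n ∧ Q F' z' (16 * n' + 1) := by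
    intro lo hi a1 a2 ⟨σ, b1, b2, b3⟩ F' z' a3 a4 a5
    rcases triv F' z' a3 with ⟨x₁, hx₁⟩ | h0
    swap
    · exact Or.inl h0
    right
    obtain ⟨y₁, hy₂, hy₃, -⟩ := G.anc_conn F' z' x₁ hx₁
    obtain ⟨hl', hr'⟩ := a5 y₁ hy₂ _ hy₃
    have inv' : G.Inv (G.Anc F' z') lo hi R (range (2 * I.card + 1)) σ (fun _ => b) :=
      ⟨a5, fun e he t c1 c2 => inv.alive e he t (by omega) (by omega),
        fun e he h => inv.out e he (a4 h),
        fun i hi t c1 c2 => ⟨(b1 i (mem_range.1 hi) t c1 c2).1,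
          fun h => inv.out _ h (b1 i (mem_range.1 hi) t c1 c2).2⟩,
        fun t c1 c2 i hi i' hi' => b2 t c1 c2 i (mem_range.1 hi) i' (mem_range.1 hi'),
        fun i hi => lt_of_le_of_lt (b3 i (mem_range.1 hi)) hb⟩
    have hcard : R.card + (2 * I.card + 1) ≤ s := by
      simpa using inv'.card hs hl' hr'
    obtain ⟨u, hu⟩ : ∃ u, s = R.card + (2 * I.card + 1) + u := ⟨s - (R.card + (2 * I.card + 1)), by omega⟩
    have e1 : s - R.card - I.card = I.card + 1 + u := by omega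
    have e2 : s - R.card - (2 * I.card + 1) = u := by omega
    rw [e1] at hn
    have e3 : (2 * I.card + 1) * (b + 1) + 2 * (b + 1) * u + 2 * I.card + 1 ≤ n := by nlinarith
    refine ⟨_, e3, ih _ (by omega) _ lo hi R _ σ _ inv' ?_ F' z' a3 (subset_refl _)⟩
    simp [e2]
  have side : ∀ l' r', l ≤ l' → r' ≤ r → 1 ≤ I.card →
      I.card ≤ 2 * (I.filter (fun i => sw (τ i) l' r' < 2 ^ (j i - 1))).card →
      ∀ F' z', real z' → G.Anc F' z' ⊆ S → G.Win (G.Anc F' z') l' r' →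
      Q F' z' (16 * n + 1 - 8 * I.card) := by
    intro l' r' a1 a2 a3 a4 F' z' a5 a6 a7
    obtain ⟨j', b1, b2⟩ := inv.shrink a6 a7 a1 a2 hj a4
    refine hmono _ _ _ _ (ih _ (by omega) _ l' r' R I τ j' b1 le_rfl F' z' a5 (subset_refl _)) ?_
    omega
  rcases Nat.eq_zero_or_pos I.card with hk | hk
  · obtain ⟨Z, lo, hi, c1, c2, c3, c4, c5⟩ := G.tri inv.win (2 * I.card) (G.χ z) hl hr
    have hZ : Z = ∅ := card_eq_zero.1 (by omega)
    rcases c5 _ hS (by simp [hZ]) _ (G.anc_conn F z) with h | h | h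
    · have := (h y₀ hy₀ _ hy₁).2
      omega
    · have := (h y₀ hy₀ _ hy₁).1
      omega
    · rcases mid lo hi c2 c3 c4 F z hz hS h with h | ⟨n', h1, h2⟩
      · exact hmono _ _ _ _ h (by omega)
      · exact hmono _ _ _ _ h2 (by omega)
  let p : ℕ → Prop := fun m =>
    I.card ≤ 2 * (I.filter (fun i => sw (τ i) l m < 2 ^ (j i - 1))).card
  have hp : p l := by
    simp only [p]
    rw [filter_true_of_mem (fun i _ => by simp [sw])]
    omega
  have m1 : p (Nat.findGreatest p r) := Nat.findGreatest_spec (show l ≤ r by omega) hp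
  have m2 : l ≤ Nat.findGreatest p r := Nat.le_findGreatest (by omega) hp
  have m3 : Nat.findGreatest p r ≤ r := Nat.findGreatest_le r
  set m := Nat.findGreatest p r with hm
  by_cases m4 : m = r
  · rw [m4] at m1
    exact hmono _ _ _ _ (side l r le_rfl le_rfl hk m1 F z hz hS
      (fun x hx => inv.win x (hS hx))) (by omega)
  have m5 : ¬ p (m + 1) := Nat.findGreatest_is_greatest (P := p) (n := r) (by omega) (by omega)
  have m6 : I.card ≤ 2 * (I.filter (fun i => sw (τ i) (m + 1) r < 2 ^ (j i - 1))).card := by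
    simp only [p] at m5
    have : I ⊆ I.filter (fun i => sw (τ i) l (m + 1) < 2 ^ (j i - 1)) ∪
        I.filter (fun i => sw (τ i) (m + 1) r < 2 ^ (j i - 1)) := by
      intro i hi
      simp only [mem_union, mem_filter, hi, true_and]
      have e1 := sw_split (τ i) (show l ≤ m + 1 by omega) (show m + 1 ≤ r by omega)
      have e2 := inv.lev i hi
      have e3 : 2 ^ j i = 2 * 2 ^ (j i - 1) := by
        rw [← pow_succ', Nat.sub_add_cancel (hj i hi)]
      omega
    have := (card_le_card this).trans (card_union_le _ _)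
    omega
  obtain ⟨Z, lo, hi, c1, c2, c3, c4, c5⟩ := G.tri inv.win (2 * I.card) m m2 (by omega)
  refine hmono _ _ _ _ (G.place Q real hreal hstep hmono Z (16 * n + 1 - 8 * I.card) S
    (fun F' z' a1 a2 a3 => ?_) F z hz hS) (by omega)
  rcases c5 _ a2 a3 _ (G.anc_conn F' z') with h | h | h
  · exact side l m le_rfl m3 hk m1 F' z' a1 a2 h
  · exact side (m + 1) r (by omega) le_rfl hk m6 F' z' a1 a2 h
  · rcases mid lo hi c2 c3 c4 F' z' a1 a2 h with h | ⟨n', h1, h2⟩
    · exact hmono _ _ _ _ h (by omega)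
    · exact hmono _ _ _ _ h2 (by omega)

end Sys

end Pool.Agent.MP_47ff19_lc.H50

end

-- part MP_47ff19_lc.H50.Main
section

namespace Pool.Agent.MP_47ff19_lc.H50

open Finset

variable {V : Type} [DecidableEq V] {E : V → V → Prop}

/-- Reachability in the reversible game with a bound on the number of pebbles. -/
def Reach (E : V → V → Prop) (c : ℕ) : Finset V → Finset V → Prop :=
  Relation.ReflTransGen (fun P Q => RevMove E P Q ∧ Q.card ≤ c)

theorem Reach.mono {c c' : ℕ} {P Q : Finset V} (h : Reach E c P Q) (hc : c ≤ c') :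
    Reach E c' P Q := by
  induction h with
  | refl => exact Relation.ReflTransGen.refl
  | tail _ h ih => exact Relation.ReflTransGen.tail ih ⟨h.1, h.2.trans hc⟩

theorem RevMove.symm (hE : ∀ v, ¬ E v v) {P Q : Finset V} (h : RevMove E P Q) :
    RevMove E Q P := by
  obtain ⟨v, h1, ⟨h2, rfl⟩ | ⟨h2, rfl⟩⟩ := h
  · exact ⟨v, fun u hu => mem_insert_of_mem (h1 u hu),
      Or.inr ⟨mem_insert_self _ _, (erase_insert h2).symm⟩⟩
  · exact ⟨v, fun u hu => mem_erase.2 ⟨fun h => hE v (h ▸ hu), h1 u hu⟩,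
      Or.inl ⟨notMem_erase _ _, (insert_erase h2).symm⟩⟩

theorem Reach.symm (hE : ∀ v, ¬ E v v) {c : ℕ} {P Q : Finset V} (h : Reach E c P Q)
    (hP : P.card ≤ c) : Reach E c Q P := by
  induction h using Relation.ReflTransGen.head_induction_on with
  | refl => exact Relation.ReflTransGen.refl
  | head h _ ih => exact Relation.ReflTransGen.tail (ih h.2) ⟨h.1.symm hE, hP⟩

theorem Reach.seq {c : ℕ} {P Q : Finset V} (h : Reach E c P Q) (hP : P.card ≤ c) :
    ∃ (T : ℕ) (X : ℕ → Finset V), X 0 = P ∧ X T = Q ∧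
      (∀ t < T, RevMove E (X t) (X (t + 1))) ∧ ∀ t ≤ T, (X t).card ≤ c := by
  induction h with
  | refl => exact ⟨0, fun _ => P, rfl, rfl, by simp, fun _ _ => hP⟩
  | @tail Q R _ h ih =>
    obtain ⟨T, X, h1, h2, h3, h4⟩ := ih
    refine ⟨T + 1, fun t => if t ≤ T then X t else R, by simp [h1], by simp, ?_, ?_⟩
    · intro t ht
      beta_reduce
      rw [if_pos (by omega)]
      split_ifs with h5
      · exact h3 t h5
      · rw [show t = T by omega, h2]
        exact h.1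
    · intro t ht
      beta_reduce
      split_ifs with h5
      · exact h4 t h5
      · exact h.2

/-- A pebble can be put on `z` with `c` extra pebbles, from any position containing `F`. -/
def Pay (E : V → V → Prop) (F : Finset V) (z : V) (c : ℕ) : Prop :=
  ∀ F', F ⊆ F' → Reach E (F'.card + c) F' (insert z F')

theorem pay_base {F : Finset V} {z : V} (h : ∀ u, E u z → u ∈ F) : Pay E F z 1 := by
  intro F' hF
  by_cases hz : z ∈ F'
  · rw [insert_eq_of_mem hz]
    exact Relation.ReflTransGen.refl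
  · exact Relation.ReflTransGen.single
      ⟨⟨z, fun u hu => hF (h u hu), Or.inl ⟨hz, rfl⟩⟩, card_insert_le _ _⟩

theorem pay_step (hE : ∀ v, ¬ E v v) {F : Finset V} {w z : V} {c : ℕ} (h1 : Pay E F w c)
    (h2 : Pay E (insert w F) z c) : Pay E F z (c + 1) := by
  intro F' hF
  have a1 := (h1 F' hF).mono (c' := F'.card + (c + 1)) (by omega)
  have a2 := (h2 (insert w F') (insert_subset_insert _ hF)).mono (c' := F'.card + (c + 1))
    (by have := card_insert_le w F'; omega)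
  have h3 := card_insert_le z F'
  have a3 := ((h1 (insert z F') (hF.trans (subset_insert _ _))).mono (c' := F'.card + (c + 1))
    (by omega)).symm hE (by omega)
  rw [insert_comm] at a3
  exact Relation.ReflTransGen.trans a1 (Relation.ReflTransGen.trans a2 a3)

/-- Start of the period of presence of a pebble on `v` that contains time `t`. -/
def st (Pb : ℕ → Finset V) (v : V) : ℕ → ℕ
  | 0 => 0
  | t + 1 => if v ∈ Pb t then st Pb v t else t + 1

theorem st_le (Pb : ℕ → Finset V) (v : V) (t : ℕ) : st Pb v t ≤ t := by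
  induction t with
  | zero => exact le_rfl
  | succ t ih =>
    unfold st
    split_ifs <;> omega

theorem st_between (Pb : ℕ → Finset V) (v : V) (t₂ : ℕ) (h : v ∈ Pb t₂) :
    ∀ t ≤ t₂, st Pb v t₂ ≤ t → v ∈ Pb t ∧ st Pb v t = st Pb v t₂ := by
  induction t₂ with
  | zero =>
    intro t h1 _
    obtain rfl : t = 0 := by omega
    exact ⟨h, rfl⟩
  | succ n ih =>
    intro t h1 h2
    by_cases h3 : t = n + 1
    · subst h3
      exact ⟨h, rfl⟩
    · by_cases h4 : v ∈ Pb n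
      · have : st Pb v (n + 1) = st Pb v n := by simp [st, h4]
        rw [this] at h2 ⊢
        exact ih h4 t (by omega) h2
      · have : st Pb v (n + 1) = n + 1 := by simp [st, h4]
        omega

theorem exists_depth {D : ℕ} (hD : ∀ l : List V, l.IsChain E → l.length ≤ D) :
    ∃ d : V → ℕ, (∀ v, d v < D) ∧ ∀ u v, E u v → d u < d v := by
  classical
  let p : V → ℕ → Prop := fun v n => ∃ l : List V, l.length = n ∧ (l ++ [v]).IsChain E
  have h1 : ∀ v, p v (Nat.findGreatest (p v) D) := fun v =>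
    Nat.findGreatest_spec (P := p v) (Nat.zero_le D) ⟨[], rfl, by simp⟩
  have h2 : ∀ v, Nat.findGreatest (p v) D < D := by
    intro v
    obtain ⟨l, h3, h4⟩ := h1 v
    have := hD _ h4
    simp at this
    omega
  refine ⟨fun v => Nat.findGreatest (p v) D, h2, fun u v h => ?_⟩
  obtain ⟨l, h3, h4⟩ := h1 u
  refine Nat.le_findGreatest (h2 u) ⟨l ++ [u], by simp [h3], ?_⟩
  rw [List.append_assoc]
  exact List.isChain_append_cons_cons.2 ⟨h4, h, by simp⟩

theorem rev_of_bw {D s : ℕ} (hD : ∀ l : List V, l.IsChain E → l.length ≤ D) {z : V}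
    (h : BWPebbling E z s) : RevPebbling E z (32 * s * (Nat.log 2 D + 4) + 1) := by
  classical
  obtain ⟨T, X, h0, hT, hm, hs, t₀, ht₀, hz⟩ := h
  obtain ⟨d, hd1, hd2⟩ := exists_depth hD
  have hE : ∀ v, ¬ E v v := fun v h => lt_irrefl _ (hd2 v v h)
  let Pb : ℕ → Finset V := fun t => if t ≤ T then (X t).1 ∪ (X t).2 else ∅
  have hPb : ∀ t ≤ T, Pb t = (X t).1 ∪ (X t).2 := fun t ht => if_pos ht
  have hPb' : ∀ t v, v ∈ Pb t → t ≤ T := by
    intro t v h
    by_contra hc
    simp [Pb, hc] at h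
  let chk : V × ℕ → ℕ → Prop := fun y t =>
    y.1 ∈ Pb t ∧ st Pb y.1 t = y.2 ∧ ∀ u, E u y.1 → u ∈ Pb t
  have hblack : ∀ v t, t ≤ T → v ∈ (X t).1 → ∃ t', chk (v, st Pb v t) t' := by
    intro v t
    induction t with
    | zero => intro _ h; simp [h0] at h
    | succ t ih =>
      intro h1 h2
      by_cases h3 : v ∈ (X t).1
      · have : st Pb v (t + 1) = st Pb v t := by
          simp [st, hPb t (by omega), h3]
        rw [this]
        exact ih (by omega) h3
      · refine ⟨t + 1, by simp [hPb _ h1, h2], rfl, ?_⟩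
        obtain ⟨w, h4 | h4 | h4 | h4⟩ := hm t h1
        · rw [h4.2.2] at h2
          obtain rfl : v = w := (mem_insert.1 h2).resolve_right h3
          intro u hu
          have := h4.2.1 u hu
          rw [hPb _ h1, h4.2.2]
          simp only [mem_union, mem_insert] at this ⊢
          tauto
        · rw [h4.2] at h2
          exact absurd (mem_of_mem_erase h2) h3
        · rw [h4.2] at h2
          exact absurd h2 h3
        · rw [h4.2.2] at h2
          exact absurd h2 h3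
  have hwhite : ∀ v n t, t + n = T → v ∈ (X t).2 → ∃ t', chk (v, st Pb v t) t' := by
    intro v n
    induction n with
    | zero =>
      intro t h1 h2
      obtain rfl : t = T := by omega
      simp [hT] at h2
    | succ n ih =>
      intro t h1 h2
      by_cases h3 : v ∈ (X (t + 1)).2
      · have : st Pb v (t + 1) = st Pb v t := by
          simp [st, hPb t (by omega), h2]
        rw [← this]
        exact ih _ (by omega) h3
      · refine ⟨t, by simp [hPb t (by omega), h2], rfl, ?_⟩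
        obtain ⟨w, h4 | h4 | h4 | h4⟩ := hm t (by omega)
        · rw [h4.2.2] at h3
          exact absurd h2 h3
        · rw [h4.2] at h3
          exact absurd h2 h3
        · rw [h4.2] at h3
          exact absurd (mem_insert_of_mem h2) h3
        · rw [h4.2.2] at h3
          obtain rfl : v = w := by
            by_contra hc
            exact h3 (mem_erase.2 ⟨hc, h2⟩)
          rw [hPb t (by omega)]
          exact h4.2.1
  let C : ℕ → Finset (V × ℕ) := fun t => (Pb t).image (fun v => (v, st Pb v t))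
  have hC : ∀ t y, y ∈ C t ↔ y.1 ∈ Pb t ∧ st Pb y.1 t = y.2 := by
    rintro t ⟨v, a⟩
    simp only [C, mem_image, Prod.mk.injEq]
    constructor
    · rintro ⟨u, h1, rfl, h2⟩
      exact ⟨h1, h2⟩
    · exact fun h => ⟨v, h.1, rfl, h.2⟩
  have hchk : ∀ y, ∃ t', (∃ t, y ∈ C t) → chk y t' := by
    rintro ⟨v, a⟩
    by_cases h : ∃ t, (v, a) ∈ C t
    · obtain ⟨t, ht⟩ := h
      obtain ⟨h1, h2⟩ := (hC _ _).1 ht
      have h3 := hPb' _ _ h1
      simp only at h1 h2
      rw [hPb t h3] at h1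
      rw [← h2]
      rcases mem_union.1 h1 with h4 | h4
      · obtain ⟨t', h5⟩ := hblack v t h3 h4
        exact ⟨t', fun _ => h5⟩
      · obtain ⟨t', h5⟩ := hwhite v (T - t) t (by omega) h4
        exact ⟨t', fun _ => h5⟩
    · exact ⟨0, fun h' => absurd h' h⟩
  choose χ hχ using hchk
  let G : Sys (V × ℕ) :=
    { C := C
      P := fun x y => E x.1 y.1 ∧ x ∈ C (χ y) ∧ y ∈ C (χ y)
      χ := χ
      d := fun y => d y.1
      D := D
      ival := by
        intro e t₁ t t₂ h1 h2 h3 h4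
        rw [hC] at h1 h2 ⊢
        have := st_le Pb e.1 t₁
        have h5 := st_between Pb e.1 t₂ h2.1 t h4 (by omega)
        exact ⟨h5.1, h5.2.trans h2.2⟩
      pl := fun _ _ h => h.2.1
      pr := fun _ _ h => h.2.2
      dlt := fun _ _ h => hd2 _ _ h.1
      dD := fun y => hd1 y.1 }
  haveI : Inhabited (V × ℕ) := ⟨(z, 0)⟩
  have hcard : ∀ t, (G.C t).card ≤ s := by
    intro t
    refine card_image_le.trans ?_
    by_cases ht : t ≤ T
    · rw [hPb t ht]
      exact hs t ht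
    · simp [Pb, ht]
  have hb : 4 * G.D + 3 < 2 ^ (Nat.log 2 D + 3) := by
    have := Nat.lt_pow_succ_log_self (b := 2) (by norm_num) D
    rw [pow_succ] at this
    rw [pow_add]
    change 4 * D + 3 < _
    omega
  have key := G.main (fun F y c => Pay E (F.image Prod.fst) y.1 c) (fun y => ∃ t, y ∈ C t)
    (fun x y h => ⟨_, h.2.1⟩)
    (fun F y hy h => pay_base (fun u hu => by
      have h1 := hχ y hy
      exact mem_image.2 ⟨(u, st Pb u (χ y)), h _ ⟨hu, (hC _ _).2 ⟨h1.2.2 u hu, rfl⟩,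
        (hC _ _).2 ⟨h1.1, h1.2.1⟩⟩, rfl⟩))
    (fun F w y c h1 h2 => pay_step hE h1 (by rwa [image_insert] at h2))
    (fun F y c c' h1 h2 F' hF => (h1 F' hF).mono (by omega))
    s (Nat.log 2 D + 3) hcard hb (2 * (Nat.log 2 D + 3 + 1) * s) {y | ∃ t, y ∈ C t} 0 (T + 1)
    ∅ ∅ (fun _ _ => default) (fun _ => 0)
    ⟨fun x _ t ht => ⟨Nat.zero_le _, Nat.lt_succ_of_le (hPb' _ _ ((hC _ _).1 ht).1)⟩,
      by simp, by simp, by simp, by simp, by simp⟩ (by simp) ∅ (z, st Pb z t₀)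
    ⟨t₀, (hC _ _).2 ⟨by rw [hPb _ ht₀]; exact hz, rfl⟩⟩
    (fun x hx => by
      obtain ⟨y, h1, -⟩ := Relation.TransGen.head'_iff.1 hx
      exact ⟨_, h1.1.2.1⟩)
  have h2 := key ∅ (by simp)
  rw [card_empty, zero_add, show 16 * (2 * (Nat.log 2 D + 3 + 1) * s) + 1 =
    32 * s * (Nat.log 2 D + 4) + 1 by ring] at h2
  exact h2.seq (by simp)

end Pool.Agent.MP_47ff19_lc.H50

end
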