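import Mathlib

-- part MP_47ff19_lc.H51.Hit
section

/-! Random subcubes meeting a set, and slices off a certified set of coordinates. -/

namespace Pool.Agent.MP_47ff19_lc.H51

open Finset

set_option linter.unusedSectionVars false

variable {ι : Type} [Fintype ι] [DecidableEq ι]

/-- The number of points of `Z` that agree with `w` off `D`. -/
def cnt (D : Finset ι) (Z : Finset (ι → Bool)) (w : ι → Bool) : ℕ :=
  (Z.filter fun z => ∀ i, i ∉ D → z i = w i).card

/-- The points that agree off `F` with some point of `Z`. -/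
def cyl (F : Finset ι) (Z : Finset (ι → Bool)) : Finset (ι → Bool) :=
  univ.filter fun w => ∃ z ∈ Z, ∀ i, i ∉ F → z i = w i

/-- Flip one coordinate. -/
def flip (x : ι) (w : ι → Bool) : ι → Bool := Function.update w x (!w x)

lemma flip_self (x : ι) (w : ι → Bool) : flip x w x = !w x := by simp [flip]

lemma flip_ne {x i : ι} (h : i ≠ x) (w : ι → Bool) : flip x w i = w i := by
  simp [flip, Function.update_of_ne h]

lemma flip_flip (x : ι) (w : ι → Bool) : flip x (flip x w) = w := by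
  funext i
  by_cases h : i = x
  · subst h; simp [flip_self]
  · rw [flip_ne h, flip_ne h]

/-- Flipping as a permutation. -/
def flipEquiv (x : ι) : (ι → Bool) ≃ (ι → Bool) :=
  ⟨flip x, flip x, flip_flip x, flip_flip x⟩

lemma sum_flip (x : ι) (g : (ι → Bool) → ℝ) : ∑ w, g (flip x w) = ∑ w, g w :=
  Equiv.sum_comp (flipEquiv x) g

lemma card_agree (D : Finset ι) (z : ι → Bool) :
    (univ.filter fun w : ι → Bool => ∀ i, i ∉ D → z i = w i).card = 2 ^ D.card := by
  have : (univ.filter fun w : ι → Bool => ∀ i, i ∉ D → z i = w i)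
      = Fintype.piFinset fun i => if i ∈ D then (univ : Finset Bool) else {z i} := by
    ext w
    simp only [mem_filter, mem_univ, true_and, Fintype.mem_piFinset]
    constructor
    · intro h i
      by_cases hi : i ∈ D
      · simp [hi]
      · simp [hi, h i hi]
    · intro h i hi
      have := h i
      simp only [hi, if_false, mem_singleton] at this
      exact this.symm
  rw [this, Fintype.card_piFinset]
  have : ∀ i, (if i ∈ D then (univ : Finset Bool) else {z i}).card = if i ∈ D then 2 else 1 := by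
    intro i; by_cases hi : i ∈ D <;> simp [hi]
  simp only [this]
  rw [Finset.prod_ite]
  simp

lemma sum_cnt (D : Finset ι) (Z : Finset (ι → Bool)) :
    ∑ w, (cnt D Z w : ℝ) = Z.card * 2 ^ D.card := by
  have : ∑ w, cnt D Z w = Z.card * 2 ^ D.card := by
    unfold cnt
    simp only [card_filter]
    rw [Finset.sum_comm]
    rw [Finset.sum_congr rfl (g := fun _ => 2 ^ D.card)]
    · simp
    · intro z _
      rw [← card_agree D z, card_filter]
  exact_mod_cast this

lemma cnt_insert {D : Finset ι} {x : ι} (hx : x ∉ D) (Z : Finset (ι → Bool)) (w : ι → Bool) :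
    cnt (insert x D) Z w = cnt D Z w + cnt D Z (flip x w) := by
  unfold cnt
  rw [← card_union_of_disjoint]
  · congr 1
    ext z
    simp only [mem_filter, mem_union, mem_insert, not_or]
    constructor
    · rintro ⟨hz, h⟩
      by_cases hzx : z x = w x
      · left
        refine ⟨hz, fun i hi => ?_⟩
        by_cases hix : i = x
        · subst hix; exact hzx
        · exact h i ⟨hix, hi⟩
      · right
        refine ⟨hz, fun i hi => ?_⟩
        by_cases hix : i = x
        · subst hix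
          rw [flip_self]
          cases h1 : z i <;> cases h2 : w i <;> simp_all
        · rw [flip_ne hix]; exact h i ⟨hix, hi⟩
    · rintro (⟨hz, h⟩ | ⟨hz, h⟩)
      · exact ⟨hz, fun i hi => h i hi.2⟩
      · refine ⟨hz, fun i hi => ?_⟩
        rw [h i hi.2, flip_ne hi.1]
  · rw [disjoint_filter]
    intro z _ h1 h2
    have a := h1 x hx
    have b := h2 x hx
    rw [flip_self, a] at b
    cases h : w x <;> simp [h] at b

lemma cyl_insert (F : Finset ι) (x : ι) (Z : Finset (ι → Bool)) :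
    cyl (insert x F) Z = cyl F (cyl {x} Z) := by
  ext w
  simp only [cyl, mem_filter, mem_univ, true_and, mem_insert, not_or, mem_singleton]
  constructor
  · rintro ⟨z, hz, h⟩
    refine ⟨Function.update z x (w x), ⟨z, hz, fun i hi => ?_⟩, fun i hi => ?_⟩
    · rw [Function.update_of_ne hi]
    · by_cases hix : i = x
      · subst hix; simp
      · rw [Function.update_of_ne hix]; exact h i ⟨hix, hi⟩
  · rintro ⟨u, ⟨z, hz, h1⟩, h2⟩
    exact ⟨z, hz, fun i hi => (h1 i hi.1).trans (h2 i hi.2)⟩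

lemma cnt_le_cyl (D : Finset ι) (x : ι) (Z : Finset (ι → Bool)) (w : ι → Bool) :
    cnt D Z w ≤ cnt D (cyl {x} Z) w := by
  unfold cnt
  apply card_le_card
  intro z hz
  simp only [mem_filter, cyl, mem_univ, true_and] at hz ⊢
  exact ⟨⟨z, hz.1, fun _ _ => rfl⟩, hz.2⟩

lemma cnt_flip_le_cyl (D : Finset ι) (x : ι) (Z : Finset (ι → Bool)) (w : ι → Bool) :
    cnt D Z (flip x w) ≤ cnt D (cyl {x} Z) w := by
  unfold cnt
  apply card_le_card_of_injOn (flip x)
  · intro z hz
    simp only [coe_filter, Set.mem_ofPred_eq, cyl, mem_filter, mem_univ, true_and,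
      mem_singleton] at hz ⊢
    refine ⟨⟨z, hz.1, fun i hi => (flip_ne hi z).symm⟩, fun i hi => ?_⟩
    have := hz.2 i hi
    by_cases hix : i = x
    · subst hix
      rw [flip_self] at this ⊢
      rw [this]; simp
    · rw [flip_ne hix] at this ⊢; exact this
  · intro a _ b _ h
    exact (flipEquiv x).injective h

lemma rpow_step {a q A B C : ℝ} (ha0 : 0 < a) (ha1 : a ≤ 1) (hq : 1 + q = 2 ^ (1 - a))
    (hB : 0 ≤ B) (hAB : B ≤ A) (hC : A ≤ C) :
    ((A + B) / 2) ^ a ≤ (1 - q) * ((A ^ a + B ^ a) / 2) + q * C ^ a := by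
  have hA : 0 ≤ A := hB.trans hAB
  have hq0 : 0 ≤ q := by
    have : (1 : ℝ) ≤ 2 ^ (1 - a) := Real.one_le_rpow (by norm_num) (by linarith)
    linarith
  have h2 : (0 : ℝ) < 2 ^ a := by positivity
  have hq2 : (1 + q) * 2 ^ a = 2 := by
    rw [hq, ← Real.rpow_add (by norm_num)]; simp
  have key : (A + B) ^ a + B ^ a ≤ A ^ a + (2 * B) ^ a := by
    rcases hA.eq_or_lt with h0 | hpos
    · have hB0 : B = 0 := le_antisymm (h0 ▸ hAB) hB
      subst hB0; subst h0; simp
    · have hc := Real.concaveOn_rpow ha0.le ha1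
      have hl0 : 0 ≤ B / A := div_nonneg hB hA
      have hl1 : 0 ≤ 1 - B / A := by
        have : B / A ≤ 1 := (div_le_one hpos).2 hAB
        linarith
      have e1 := hc.2 (x := A + B) (y := B) (show A + B ∈ Set.Ici (0 : ℝ) by
        simp; linarith) (show B ∈ Set.Ici (0 : ℝ) from hB) hl1 hl0 (by ring)
      have e2 := hc.2 (x := A + B) (y := B) (show A + B ∈ Set.Ici (0 : ℝ) by
        simp; linarith) (show B ∈ Set.Ici (0 : ℝ) from hB) hl0 hl1 (by ring)
      simp only [smul_eq_mul] at e1 e2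
      have r1 : (1 - B / A) * (A + B) + B / A * B = A := by field_simp; ring
      have r2 : B / A * (A + B) + (1 - B / A) * B = 2 * B := by field_simp; ring
      rw [r1] at e1
      rw [r2] at e2
      linarith
  have hCa : A ^ a ≤ C ^ a := Real.rpow_le_rpow hA hC ha0.le
  rw [Real.div_rpow (by linarith) (by norm_num), div_le_iff₀ h2]
  rw [Real.mul_rpow (by norm_num) hB] at key
  have hqC : q * A ^ a ≤ q * C ^ a := mul_le_mul_of_nonneg_left hCa hq0
  have : ((1 - q) * ((A ^ a + B ^ a) / 2) + q * A ^ a) * 2 ^ a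
      = A ^ a - B ^ a + 2 ^ a * B ^ a := by
    have : (1 - q) * ((A ^ a + B ^ a) / 2) + q * A ^ a
        = (1 + q) * ((A ^ a - B ^ a) / 2) + B ^ a := by ring
    rw [this, add_mul, mul_right_comm, hq2]; ring
  nlinarith [mul_le_mul_of_nonneg_right hqC h2.le]

lemma hit {a q : ℝ} (ha0 : 0 < a) (ha1 : a ≤ 1) (hq : 1 + q = 2 ^ (1 - a)) (D : Finset ι) :
    ∀ Z : Finset (ι → Bool), ∑ w, ((cnt D Z w : ℝ) / 2 ^ D.card) ^ a ≤
      ∑ F ∈ D.powerset, q ^ F.card * (1 - q) ^ (D.card - F.card) * (cyl F Z).card := by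
  have hq0 : 0 ≤ q := by
    have : (1 : ℝ) ≤ 2 ^ (1 - a) := Real.one_le_rpow (by norm_num) (by linarith)
    linarith
  have hq1 : q ≤ 1 := by
    have : (2 : ℝ) ^ (1 - a) ≤ 2 ^ (1 : ℝ) :=
      Real.rpow_le_rpow_of_exponent_le (by norm_num) (by linarith)
    rw [Real.rpow_one] at this
    linarith
  induction D using Finset.induction_on with
  | empty =>
    intro Z
    simp only [card_empty, pow_zero, div_one, powerset_empty, sum_singleton, Nat.sub_self, mul_one,
      one_mul]
    have h1 : cyl (∅ : Finset ι) Z = Z := by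
      ext w
      simp only [cyl, mem_filter, mem_univ, true_and, notMem_empty, not_false_eq_true,
        forall_true_left]
      constructor
      · rintro ⟨z, hz, h⟩
        have : z = w := funext h
        exact this ▸ hz
      · intro hw; exact ⟨w, hw, fun _ => rfl⟩
    have h2 : ∀ w, ((cnt (∅ : Finset ι) Z w : ℝ)) ^ a = cnt (∅ : Finset ι) Z w := by
      intro w
      have : cnt (∅ : Finset ι) Z w ≤ 1 := by
        unfold cnt
        rw [card_le_one]
        intro u hu v hv
        simp only [mem_filter, notMem_empty, not_false_eq_true, forall_true_left] at hu hv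
        exact (funext hu.2).trans (funext hv.2).symm
      rcases Nat.le_one_iff_eq_zero_or_eq_one.1 this with h | h
      · rw [h]; simp [ha0.ne']
      · rw [h]; simp
    simp only [h1, h2, sum_cnt]
    simp
  | insert x D hx ih =>
    intro Z
    rw [sum_powerset_insert hx, card_insert_of_notMem hx]
    have e1 : ∑ F ∈ D.powerset, q ^ F.card * (1 - q) ^ (D.card + 1 - F.card) * ((cyl F Z).card : ℝ)
        = (1 - q) * ∑ F ∈ D.powerset, q ^ F.card * (1 - q) ^ (D.card - F.card) * (cyl F Z).card := by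
      rw [mul_sum]
      refine sum_congr rfl fun F hF => ?_
      have : F.card ≤ D.card := card_le_card (mem_powerset.1 hF)
      rw [show D.card + 1 - F.card = D.card - F.card + 1 by omega, pow_succ]; ring
    have e2 : ∑ F ∈ D.powerset, q ^ (insert x F).card * (1 - q) ^ (D.card + 1 - (insert x F).card) *
          ((cyl (insert x F) Z).card : ℝ)
        = q * ∑ F ∈ D.powerset, q ^ F.card * (1 - q) ^ (D.card - F.card) *
          (cyl F (cyl {x} Z)).card := by
      rw [mul_sum]
      refine sum_congr rfl fun F hF => ?_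
      have hxF : x ∉ F := fun h => hx (mem_powerset.1 hF h)
      rw [card_insert_of_notMem hxF, cyl_insert,
        show D.card + 1 - (F.card + 1) = D.card - F.card by omega, pow_succ]; ring
    rw [e1, e2]
    have i1 := mul_le_mul_of_nonneg_left (ih Z) (show 0 ≤ 1 - q by linarith)
    have i2 := mul_le_mul_of_nonneg_left (ih (cyl {x} Z)) hq0
    refine le_trans ?_ (add_le_add i1 i2)
    have hs : ∑ w, ((cnt D Z w : ℝ) / 2 ^ D.card) ^ a =
        ∑ w, (((cnt D Z w : ℝ) / 2 ^ D.card) ^ a +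
          ((cnt D Z (flip x w) : ℝ) / 2 ^ D.card) ^ a) / 2 := by
      rw [← sum_div, sum_add_distrib,
        sum_flip x (fun w => ((cnt D Z w : ℝ) / 2 ^ D.card) ^ a)]
      ring
    rw [hs, mul_sum, mul_sum, ← sum_add_distrib]
    refine sum_le_sum fun w _ => ?_
    have hp : (0 : ℝ) < 2 ^ D.card := by positivity
    have c1 : (cnt D Z w : ℝ) / 2 ^ D.card ≤ (cnt D (cyl {x} Z) w : ℝ) / 2 ^ D.card :=
      div_le_div_of_nonneg_right (by exact_mod_cast cnt_le_cyl D x Z w) hp.le
    have c2 : (cnt D Z (flip x w) : ℝ) / 2 ^ D.card ≤ (cnt D (cyl {x} Z) w : ℝ) / 2 ^ D.card :=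
      div_le_div_of_nonneg_right (by exact_mod_cast cnt_flip_le_cyl D x Z w) hp.le
    have e : (cnt (insert x D) Z w : ℝ) / 2 ^ (D.card + 1) =
        ((cnt D Z w : ℝ) / 2 ^ D.card + (cnt D Z (flip x w) : ℝ) / 2 ^ D.card) / 2 := by
      rw [cnt_insert hx]; push_cast; field_simp; ring
    rw [e]
    rcases le_total ((cnt D Z (flip x w) : ℝ) / 2 ^ D.card) ((cnt D Z w : ℝ) / 2 ^ D.card)
      with h | h
    · exact rpow_step ha0 ha1 hq (by positivity) h c1
    · have := rpow_step ha0 ha1 hq (by positivity) h c2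
      rw [add_comm ((cnt D Z (flip x w) : ℝ) / 2 ^ D.card),
        add_comm (((cnt D Z (flip x w) : ℝ) / 2 ^ D.card) ^ a)] at this
      exact this

/-- Few points have a sparse slice off a certified set of coordinates. -/
lemma sparse_slice {a q y : ℝ} (ha0 : 0 < a) (ha1 : a ≤ 1) (hq : 1 + q = 2 ^ (1 - a))
    (hy : 0 < y) (S : Finset (ι → Bool)) (dom : (ι → Bool) → Finset ι) (l : ℕ)
    (hcard : ∀ z ∈ S, (dom z).card = l)
    (hcert : ∀ z ∈ S, ∀ z' ∈ S, (∀ i ∈ dom z', z i = z' i) → dom z = dom z') :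
    ((S.filter fun z => (cnt (dom z)ᶜ S z : ℝ) ≤ y * 2 ^ (Fintype.card ι - l)).card : ℝ) *
      ((1 - q) ^ l * y ^ (a - 1)) ≤ 2 ^ Fintype.card ι := by
  have hq0 : 0 ≤ q := by
    have : (1 : ℝ) ≤ 2 ^ (1 - a) := Real.one_le_rpow (by norm_num) (by linarith)
    linarith
  have hq1 : 0 ≤ 1 - q := by
    have : (2 : ℝ) ^ (1 - a) ≤ 2 ^ (1 : ℝ) :=
      Real.rpow_le_rpow_of_exponent_le (by norm_num) (by linarith)
    rw [Real.rpow_one] at this
    linarith
  set bad := S.filter fun z => (cnt (dom z)ᶜ S z : ℝ) ≤ y * 2 ^ (Fintype.card ι - l) with hbad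
  set Z : Finset ι → Finset (ι → Bool) := fun A => bad.filter fun z => dom z = A with hZ
  set P : Finset (Finset ι) := powersetCard l univ with hP
  have hsum : (bad.card : ℝ) = ∑ A ∈ P, ((Z A).card : ℝ) := by
    have := card_eq_sum_card_fiberwise (s := bad) (t := P) (f := dom) (by
      intro z hz
      simp only [hP, mem_coe, mem_powersetCard, subset_univ, true_and]
      exact hcard z (mem_filter.1 hz).1)
    exact_mod_cast this
  have h1 : ∀ A ∈ P, ((Z A).card : ℝ) * y ^ (a - 1) ≤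
      ∑ F ∈ Aᶜ.powerset, q ^ F.card * (1 - q) ^ (Aᶜ.card - F.card) * (cyl F (Z A)).card := by
    intro A hA
    have hAl : A.card = l := (mem_powersetCard.1 hA).2
    refine le_trans ?_ (hit ha0 ha1 hq Aᶜ (Z A))
    have hp : (0 : ℝ) < 2 ^ Aᶜ.card := by positivity
    have : ((Z A).card : ℝ) * y ^ (a - 1) =
        ∑ w, (cnt Aᶜ (Z A) w : ℝ) / 2 ^ Aᶜ.card * y ^ (a - 1) := by
      rw [← sum_mul, ← sum_div, sum_cnt]; field_simp
    rw [this]
    refine sum_le_sum fun w _ => ?_
    rcases Nat.eq_zero_or_pos (cnt Aᶜ (Z A) w) with h0 | hpos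
    · rw [h0]; simp [ha0.ne']
    · obtain ⟨z, hz⟩ := card_pos.1 hpos
      simp only [hZ, hbad, mem_filter] at hz
      obtain ⟨⟨⟨hzS, hzb⟩, hzA⟩, hzw⟩ := hz
      have hle : cnt Aᶜ (Z A) w ≤ cnt Aᶜ S z := by
        unfold cnt
        apply card_le_card
        intro u hu
        simp only [hZ, hbad, mem_filter] at hu ⊢
        exact ⟨hu.1.1.1, fun i hi => (hu.2 i hi).trans (hzw i hi).symm⟩
      have hd : (cnt Aᶜ (Z A) w : ℝ) / 2 ^ Aᶜ.card ≤ y := by
        rw [div_le_iff₀ hp, card_compl, hAl]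
        rw [hzA] at hzb
        exact le_trans (by exact_mod_cast hle) hzb
      have hd0 : (0 : ℝ) < (cnt Aᶜ (Z A) w : ℝ) / 2 ^ Aᶜ.card := by
        apply div_pos _ hp; exact_mod_cast hpos
      set d := (cnt Aᶜ (Z A) w : ℝ) / 2 ^ Aᶜ.card
      have : d ^ a = d * d ^ (a - 1) := by
        rw [Real.rpow_sub_one hd0.ne']; field_simp
      rw [this]
      exact mul_le_mul_of_nonneg_left
        (Real.rpow_le_rpow_of_nonpos hd0 hd (by linarith)) hd0.le
  have h2 : ∀ F : Finset ι, ∑ A ∈ P.filter (fun A => F ⊆ Aᶜ), ((cyl F (Z A)).card : ℝ) ≤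
      2 ^ Fintype.card ι := by
    intro F
    have hd : ((P.filter fun A => F ⊆ Aᶜ : Finset (Finset ι)) : Set (Finset ι)).PairwiseDisjoint
        fun A => cyl F (Z A) := by
      intro A hA A' hA' hne
      rw [Function.onFun, disjoint_left]
      intro w hw hw'
      simp only [cyl, hZ, hbad, mem_filter, mem_univ, true_and] at hw hw'
      obtain ⟨z, ⟨⟨hzS, -⟩, hzA⟩, hzw⟩ := hw
      obtain ⟨z', ⟨⟨hzS', -⟩, hzA'⟩, hzw'⟩ := hw'
      apply hne
      rw [← hzA, ← hzA']
      refine hcert z hzS z' hzS' fun i hi => ?_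
      have hF : i ∉ F := by
        intro hiF
        have := (mem_filter.1 (mem_coe.1 hA')).2 hiF
        rw [mem_compl, ← hzA'] at this
        exact this hi
      exact (hzw i hF).trans (hzw' i hF).symm
    have := card_biUnion hd
    have hle := card_le_univ ((P.filter fun A => F ⊆ Aᶜ).biUnion fun A => cyl F (Z A))
    rw [this] at hle
    simp only [Fintype.card_pi, Fintype.card_bool, prod_const, card_univ] at hle
    exact_mod_cast hle
  calc (bad.card : ℝ) * ((1 - q) ^ l * y ^ (a - 1))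
      = ∑ A ∈ P, (1 - q) ^ l * (((Z A).card : ℝ) * y ^ (a - 1)) := by
        rw [hsum, sum_mul]; exact sum_congr rfl fun A _ => by ring
    _ ≤ ∑ A ∈ P, ∑ F : Finset ι, if F ⊆ Aᶜ then
          q ^ F.card * (1 - q) ^ (Fintype.card ι - F.card) * ((cyl F (Z A)).card : ℝ) else 0 := by
        refine sum_le_sum fun A hA => ?_
        have hAl : A.card = l := (mem_powersetCard.1 hA).2
        refine (mul_le_mul_of_nonneg_left (h1 A hA) (by positivity)).trans (le_of_eq ?_)
        rw [← sum_filter, mul_sum]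
        have : (univ.filter fun F : Finset ι => F ⊆ Aᶜ) = Aᶜ.powerset := by
          ext F; simp
        rw [this]
        refine sum_congr rfl fun F hF => ?_
        have h3 : F.card ≤ Aᶜ.card := card_le_card (mem_powerset.1 hF)
        have h4 : A.card ≤ Fintype.card ι := card_le_univ A
        rw [card_compl, hAl] at *
        rw [show Fintype.card ι - F.card = l + (Fintype.card ι - l - F.card) by omega, pow_add]
        ring
    _ = ∑ F : Finset ι, q ^ F.card * (1 - q) ^ (Fintype.card ι - F.card) *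
          ∑ A ∈ P.filter (fun A => F ⊆ Aᶜ), ((cyl F (Z A)).card : ℝ) := by
        rw [sum_comm]
        refine sum_congr rfl fun F _ => ?_
        rw [← sum_filter, mul_sum]
    _ ≤ ∑ F : Finset ι, q ^ F.card * (1 - q) ^ (Fintype.card ι - F.card) *
          2 ^ Fintype.card ι := by
        refine sum_le_sum fun F _ => mul_le_mul_of_nonneg_left (h2 F) (by positivity)
    _ = 2 ^ Fintype.card ι := by
        rw [← sum_mul]
        have := Finset.sum_pow_mul_eq_add_pow q (1 - q) (univ : Finset ι)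
        rw [powerset_univ, card_univ] at this
        rw [this]; simp

end Pool.Agent.MP_47ff19_lc.H51

end

-- part MP_47ff19_lc.H51.Seq
section

/-! Sequential conditional probabilities of a weight on the cube. -/

namespace Pool.Agent.MP_47ff19_lc.H51

open Finset

lemma sum_cons (n : ℕ) (g : (Fin (n + 1) → Bool) → ℝ) :
    ∑ A, g A = ∑ A : Fin n → Bool, g (Fin.cons false A) + ∑ A : Fin n → Bool, g (Fin.cons true A) := by
  rw [← Equiv.sum_comp (Fin.consEquiv fun _ : Fin (n + 1) => Bool) g, Fintype.sum_prod_type,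
    Fintype.sum_bool, add_comm]
  rfl

lemma seq (n : ℕ) : ∀ (ν : (Fin n → Bool) → ℝ), (∀ A, 0 ≤ ν A) →
    ∃ r : (Fin n → Bool) → Fin n → ℝ, (∀ A x, 0 ≤ r A x ∧ r A x ≤ 1) ∧
      (∀ A, (∑ A', ν A') * ∏ x, r A x = ν A) ∧
      ∀ G : Fin n → ℝ → Bool → ℝ, (∀ x p b, 0 ≤ p → p ≤ 1 → 0 ≤ G x p b) →
        (∀ x p p', 0 ≤ p → 0 ≤ p' → p + p' ≤ 1 → G x p false + G x p' true ≤ 1) →
        ∑ A, ∏ x, G x (r A x) (A x) ≤ 1 := by
  induction n with
  | zero =>
    intro ν _
    refine ⟨fun _ x => x.elim0, fun _ x => x.elim0, fun A => ?_, fun G _ _ => ?_⟩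
    · simp only [univ_unique, sum_singleton, univ_eq_empty, prod_empty, mul_one]
      congr 1
      exact Subsingleton.elim _ _
    · simp
  | succ n ih =>
    intro ν hν
    have hb : ∀ b : Bool, _ := fun b => ih (fun A => ν (Fin.cons b A)) (fun A => hν _)
    choose r hr0 hr1 hr2 using hb
    set m : Bool → ℝ := fun b => ∑ A : Fin n → Bool, ν (Fin.cons b A) with hm
    have hm0 : ∀ b, 0 ≤ m b := fun b => sum_nonneg fun A _ => hν _
    have hM : ∑ A', ν A' = m false + m true := sum_cons n ν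
    have hq0 : ∀ b, 0 ≤ m b / (m false + m true) :=
      fun b => div_nonneg (hm0 b) (add_nonneg (hm0 _) (hm0 _))
    have hqs : m false / (m false + m true) + m true / (m false + m true) ≤ 1 := by
      rw [← add_div]
      exact div_self_le_one _
    have hq1 : ∀ b, m b / (m false + m true) ≤ 1 := by
      intro b
      cases b
      · linarith [hq0 true]
      · linarith [hq0 false]
    refine ⟨fun A => Fin.cons (m (A 0) / (m false + m true)) (r (A 0) (Fin.tail A)), ?_, ?_, ?_⟩
    · intro A x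
      refine Fin.cases ?_ (fun i => ?_) x
      · exact ⟨hq0 _, hq1 _⟩
      · exact hr0 _ _ _
    · intro A
      rw [hM, Fin.prod_univ_succ]
      simp only [Fin.cons_zero, Fin.cons_succ]
      have h1 := hr1 (A 0) (Fin.tail A)
      simp only [Fin.cons_self_tail] at h1
      rcases (add_nonneg (hm0 false) (hm0 true)).eq_or_lt with h0 | hpos
      · have : m (A 0) = 0 := by
          have a := hm0 false
          have b := hm0 true
          cases A 0 <;> linarith
        rw [← h1, ← h0]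
        change _ = m (A 0) * _
        rw [this]; simp
      · rw [← h1]
        change _ = m (A 0) * _
        field_simp
    · intro G hG0 hG1
      rw [sum_cons]
      simp only [Fin.prod_univ_succ, Fin.cons_zero, Fin.cons_succ, Fin.tail_cons]
      rw [← mul_sum, ← mul_sum]
      have h1 := fun b => hr2 b (fun x => G x.succ) (fun x => hG0 x.succ) (fun x => hG1 x.succ)
      have g0 := fun b => hG0 0 _ b (hq0 b) (hq1 b)
      have := hG1 0 _ _ (hq0 false) (hq0 true) hqs
      have a := mul_le_mul_of_nonneg_left (h1 false) (g0 false)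
      have b := mul_le_mul_of_nonneg_left (h1 true) (g0 true)
      linarith

lemma sqrt_add_pow_le {p p' : ℝ} (hp : 0 ≤ p) (hp' : 0 ≤ p') (h : p + p' ≤ 1) :
    p ^ 6 + √p' ≤ 17 / 16 := by
  set u := √p' with hu
  have hu0 : 0 ≤ u := Real.sqrt_nonneg _
  have hu2 : u ^ 2 = p' := Real.sq_sqrt hp'
  have hu1 : u ≤ 1 := by nlinarith
  have h1 : p ^ 6 ≤ (1 - p') ^ 6 := pow_le_pow_left₀ hp (by linarith) 6
  have h2 : (1 - p') ^ 5 * (1 + 5 * p') ≤ 1 := by
    have a : 1 + 5 * p' ≤ (1 + p') ^ 5 := by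
      have := one_add_mul_le_pow (show (-2 : ℝ) ≤ p' by linarith) 5
      simpa using this
    have b : (1 - p') ^ 5 * (1 + p') ^ 5 ≤ 1 := by
      rw [← mul_pow]
      apply pow_le_one₀
      · nlinarith
      · nlinarith
    exact (mul_le_mul_of_nonneg_left a (pow_nonneg (by linarith) 5)).trans b
  have h3 : (1 - p') ^ 6 * (1 + 5 * p') ≤ 1 - p' := by
    have := mul_le_mul_of_nonneg_left h2 (show 0 ≤ 1 - p' by linarith)
    nlinarith
  have h4 : 1 - p' ≤ (17 / 16 - u) * (1 + 5 * p') := by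
    rw [← hu2]
    rcases le_total u (2 / 5) with h5 | h5
    · nlinarith [sq_nonneg (u - 8 / 69), mul_nonneg (sq_nonneg u) (sub_nonneg.2 h5)]
    · nlinarith [mul_nonneg (sub_nonneg.2 h5) (sub_nonneg.2 hu1), mul_nonneg hu0
        (mul_nonneg (sub_nonneg.2 h5) (sub_nonneg.2 hu1))]
  have h5 : (1 - p') ^ 6 ≤ 17 / 16 - u :=
    le_of_mul_le_mul_right (h3.trans h4) (by linarith)
  linarith

/-- Costs of avoiding coordinates: forcing avoidance of a set, and the square-root reweighting. -/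
lemma avoid (n : ℕ) (ν : (Fin n → Bool) → ℝ) (hν : ∀ A, 0 ≤ ν A) :
    ∃ r : (Fin n → Bool) → Fin n → ℝ, (∀ A x, 0 ≤ r A x) ∧
      (∀ (B : Finset (Fin n)) (θ : ℝ), 0 ≤ θ →
        ∑ A ∈ univ.filter (fun A : Fin n → Bool => (∀ x ∈ B, A x = false) ∧ ∏ x ∈ B, r A x ≤ θ),
          ν A ≤ θ * ∑ A, ν A) ∧
      (∀ η : ℝ, 0 < η →
        ∑ A ∈ univ.filter (fun A : Fin n → Bool =>
          η ≤ ∏ x ∈ univ.filter (fun x => A x = false), r A x), √(ν A) ≤
          √(∑ A, ν A) * (17 / 16) ^ n / η ^ 6) := by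
  obtain ⟨r, hr0, hr1, hr2⟩ := seq n ν hν
  have hM : 0 ≤ ∑ A, ν A := sum_nonneg fun A _ => hν A
  refine ⟨r, fun A x => (hr0 A x).1, fun B θ hθ => ?_, fun η hη => ?_⟩
  · have h := hr2 (fun x p b => if x ∈ B then (if b then 0 else 1) else p)
      (by
        intro x p b hp _
        by_cases hx : x ∈ B
        · cases b <;> simp [hx]
        · simp [hx, hp])
      (by
        intro x p p' _ _ hpp
        by_cases hx : x ∈ B
        · simp [hx]
        · simp [hx, hpp])
    have hG0 : ∀ A : Fin n → Bool,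
        0 ≤ ∏ x, (if x ∈ B then (if A x then (0 : ℝ) else 1) else r A x) := by
      intro A
      refine prod_nonneg fun x _ => ?_
      by_cases hx : x ∈ B
      · cases A x <;> simp [hx]
      · simp [hx, (hr0 A x).1]
    calc _ ≤ ∑ A ∈ univ.filter (fun A : Fin n → Bool =>
              (∀ x ∈ B, A x = false) ∧ ∏ x ∈ B, r A x ≤ θ), (θ * ∑ A, ν A) *
            ∏ x, (if x ∈ B then (if A x then (0 : ℝ) else 1) else r A x) := by
          refine sum_le_sum fun A hA => ?_
          obtain ⟨hA1, hA2⟩ := (mem_filter.1 hA).2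
          have e : ∏ x, (if x ∈ B then (if A x then (0 : ℝ) else 1) else r A x) =
              ∏ x ∈ Bᶜ, r A x := by
            rw [← prod_mul_prod_compl B, prod_eq_one, one_mul]
            · refine prod_congr rfl fun x hx => ?_
              rw [if_neg (mem_compl.1 hx)]
            · intro x hx
              simp [hx, hA1 x hx]
          rw [e, ← hr1 A, ← prod_mul_prod_compl B]
          have : 0 ≤ ∏ x ∈ Bᶜ, r A x := prod_nonneg fun x _ => (hr0 A x).1
          have := mul_le_mul_of_nonneg_right hA2 (mul_nonneg hM this)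
          nlinarith
      _ ≤ ∑ A : Fin n → Bool, (θ * ∑ A, ν A) *
            ∏ x, (if x ∈ B then (if A x then (0 : ℝ) else 1) else r A x) :=
          sum_le_sum_of_subset_of_nonneg (filter_subset _ _)
            fun A _ _ => mul_nonneg (mul_nonneg hθ hM) (hG0 A)
      _ ≤ θ * ∑ A, ν A := by
          rw [← mul_sum]
          exact mul_le_of_le_one_right (mul_nonneg hθ hM) h
  · have h := hr2 (fun _ p b => 16 / 17 * if b then √p else p ^ 6)
      (by
        intro x p b hp _
        cases b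
        · simp only [Bool.false_eq_true, if_false]; positivity
        · simp only [if_true]; positivity)
      (by
        intro x p p' hp hp' hpp
        have := sqrt_add_pow_le hp hp' hpp
        simp only [Bool.false_eq_true, if_false, if_true]
        linarith)
    have hG0 : ∀ A : Fin n → Bool,
        0 ≤ ∏ x, (16 / 17 * if A x then √(r A x) else r A x ^ 6) := by
      intro A
      refine prod_nonneg fun x _ => ?_
      have := (hr0 A x).1
      cases A x
      · simp only [Bool.false_eq_true, if_false]; positivity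
      · simp only [if_true]; positivity
    have hC : 0 ≤ √(∑ A, ν A) * (17 / 16) ^ n / η ^ 6 := by positivity
    calc _ ≤ ∑ A ∈ univ.filter (fun A : Fin n → Bool =>
              η ≤ ∏ x ∈ univ.filter (fun x => A x = false), r A x),
            (√(∑ A, ν A) * (17 / 16) ^ n / η ^ 6) *
            ∏ x, (16 / 17 * if A x then √(r A x) else r A x ^ 6) := by
          refine sum_le_sum fun A hA => ?_
          have hA1 := (mem_filter.1 hA).2
          set O := univ.filter (fun x => A x = false) with hO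
          have e : ∏ x, (16 / 17 * if A x then √(r A x) else r A x ^ 6) =
              (16 / 17) ^ n * ((∏ x ∈ O, r A x) ^ 6 * √(∏ x ∈ Oᶜ, r A x)) := by
            rw [prod_mul_distrib, prod_const, card_univ, Fintype.card_fin,
              ← prod_mul_prod_compl O, ← prod_pow, Real.sqrt_prod _ fun x _ => (hr0 A x).1]
            congr 2
            · refine prod_congr rfl fun x hx => ?_
              simp [(mem_filter.1 hx).2]
            · refine prod_congr rfl fun x hx => ?_
              have : A x = true := by simpa [hO] using hx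
              simp [this]
          have h1 : ∏ x ∈ O, r A x ≤ 1 :=
            prod_le_one (fun x _ => (hr0 A x).1) fun x _ => (hr0 A x).2
          have h2 : 0 ≤ ∏ x ∈ Oᶜ, r A x := prod_nonneg fun x _ => (hr0 A x).1
          have h3 : √(ν A) ≤ √(∑ A, ν A) * √(∏ x ∈ Oᶜ, r A x) := by
            rw [← Real.sqrt_mul hM]
            apply Real.sqrt_le_sqrt
            rw [← hr1 A, ← prod_mul_prod_compl O]
            exact mul_le_mul_of_nonneg_left (mul_le_of_le_one_left h2 h1) hM
          have h4 : 1 ≤ (∏ x ∈ O, r A x) ^ 6 / η ^ 6 := by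
            rw [← div_pow]
            exact one_le_pow₀ ((one_le_div hη).2 hA1)
          rw [e]
          have e2 : √(∑ A, ν A) * (17 / 16) ^ n / η ^ 6 *
              ((16 / 17) ^ n * ((∏ x ∈ O, r A x) ^ 6 * √(∏ x ∈ Oᶜ, r A x))) =
              ((17 / 16 : ℝ) * (16 / 17)) ^ n * ((√(∑ A, ν A) * √(∏ x ∈ Oᶜ, r A x)) *
                ((∏ x ∈ O, r A x) ^ 6 / η ^ 6)) := by
            rw [mul_pow]; ring
          rw [e2, show (17 / 16 : ℝ) * (16 / 17) = 1 by norm_num, one_pow, one_mul]
          exact h3.trans (le_mul_of_one_le_right (by positivity) h4)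
      _ ≤ ∑ A : Fin n → Bool, (√(∑ A, ν A) * (17 / 16) ^ n / η ^ 6) *
            ∏ x, (16 / 17 * if A x then √(r A x) else r A x ^ 6) :=
          sum_le_sum_of_subset_of_nonneg (filter_subset _ _)
            fun A _ _ => mul_nonneg hC (hG0 A)
      _ ≤ _ := by
          rw [← mul_sum]
          exact mul_le_of_le_one_right hC h

end Pool.Agent.MP_47ff19_lc.H51

end

-- part MP_47ff19_lc.H51.Core
section

/-! A dense set of inputs whose accepting walks are cut into four exchangeable segments contains a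
large rectangle. -/

namespace Pool.Agent.MP_47ff19_lc.H51

open Finset

/-- The point equal to `u` on `U` and to `v` elsewhere. -/
def hyb {n : ℕ} (U : Finset (Fin n)) (u v : Fin n → Bool) : Fin n → Bool :=
  fun x => if x ∈ U then u x else v x

/-- No `K` by `K` rectangle, over any splitting of the coordinates, is accepted. -/
def NoRect {n : ℕ} (K : ℕ) (Acc : (Fin n → Bool) → Prop) : Prop :=
  ∀ (U : Finset (Fin n)) (X Y : Fin K → Fin n → Bool),
    Function.Injective (fun p : Fin K × Fin K => hyb U (X p.1) (Y p.2)) →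
      ¬ ∀ i j, Acc (hyb U (X i) (Y j))

/-- Four exchangeable segments. -/
structure Cuts {n : ℕ} (S : Finset (Fin n → Bool))
    (dom : Fin 4 → (Fin n → Bool) → Finset (Fin n)) (Acc : (Fin n → Bool) → Prop)
    (α β : ℕ) : Prop where
  total : n = α + 3 * β
  card0 : ∀ z ∈ S, (dom 0 z).card = α
  cardS : ∀ z ∈ S, ∀ j : Fin 3, (dom j.succ z).card = β
  disj : ∀ z ∈ S, ∀ i j, i ≠ j → Disjoint (dom i z) (dom j z)
  mix : ∀ ch : Fin 4 → Fin n → Bool, (∀ i, ch i ∈ S) → ∀ w : Fin n → Bool,
    (∀ i, ∀ x ∈ dom i (ch i), w x = ch i x) → Acc w ∧ ∀ x, ∃ i, x ∈ dom i (ch i)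

section

variable {n : ℕ} {S : Finset (Fin n → Bool)} {dom : Fin 4 → (Fin n → Bool) → Finset (Fin n)}
  {Acc : (Fin n → Bool) → Prop} {α β : ℕ}

lemma Cuts.cover (h : Cuts S dom Acc α β) {z : Fin n → Bool} (hz : z ∈ S) (x : Fin n) :
    ∃ i, x ∈ dom i z :=
  (h.mix (fun _ => z) (fun _ => hz) z fun _ _ _ => rfl).2 x

lemma Cuts.card_eq (h : Cuts S dom Acc α β) {z z' : Fin n → Bool} (hz : z ∈ S) (hz' : z' ∈ S)
    (i : Fin 4) : (dom i z).card = (dom i z').card := by
  refine Fin.cases ?_ (fun j => ?_) i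
  · rw [h.card0 z hz, h.card0 z' hz']
  · rw [h.cardS z hz, h.cardS z' hz']

lemma Cuts.cert (h : Cuts S dom Acc α β) (i : Fin 4) (z : Fin n → Bool) (hz : z ∈ S)
    (z' : Fin n → Bool) (hz' : z' ∈ S) (hag : ∀ x ∈ dom i z', z x = z' x) :
    dom i z = dom i z' := by
  apply eq_of_subset_of_card_le _ (h.card_eq hz' hz i).le
  intro x hx
  obtain ⟨k, hk⟩ := (h.mix (fun k => if k = i then z' else z)
    (fun k => by by_cases hk : k = i <;> simp [hk, hz, hz']) z (by
      intro k y hy
      by_cases hk : k = i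
      · simp only [hk, if_true] at hy ⊢
        exact hag y hy
      · simp [hk])).2 x
  by_cases hki : k = i
  · simpa [hki] using hk
  · simp only [hki, if_false] at hk
    exact absurd hx (disjoint_left.1 (h.disj z hz k i hki) hk)

/-- The coordinates read by the first segment and by segment `j + 1`. -/
def pairDom (dom : Fin 4 → (Fin n → Bool) → Finset (Fin n)) (j : Fin 3) (z : Fin n → Bool) :
    Finset (Fin n) := dom 0 z ∪ dom j.succ z

lemma Cuts.notMem_pair (h : Cuts S dom Acc α β) (j : Fin 3) {z : Fin n → Bool} (hz : z ∈ S)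
    (x : Fin n) : x ∉ pairDom dom j z ↔ ∃ k, k ≠ 0 ∧ k ≠ j.succ ∧ x ∈ dom k z := by
  simp only [pairDom, mem_union, not_or]
  constructor
  · rintro ⟨h1, h2⟩
    obtain ⟨k, hk⟩ := h.cover hz x
    exact ⟨k, fun e => h1 (e ▸ hk), fun e => h2 (e ▸ hk), hk⟩
  · rintro ⟨k, h1, h2, hk⟩
    exact ⟨disjoint_left.1 (h.disj z hz k 0 h1) hk, disjoint_left.1 (h.disj z hz k _ h2) hk⟩

lemma Cuts.card_pair (h : Cuts S dom Acc α β) (j : Fin 3) {z : Fin n → Bool} (hz : z ∈ S) :
    (pairDom dom j z)ᶜ.card = 2 * β := by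
  rw [card_compl, pairDom, card_union_of_disjoint (h.disj z hz 0 _ (Fin.succ_ne_zero j).symm),
    h.card0 z hz, h.cardS z hz, Fintype.card_fin]
  have := h.total
  omega

lemma Cuts.cert_pair (h : Cuts S dom Acc α β) (j : Fin 3) (z : Fin n → Bool) (hz : z ∈ S)
    (z' : Fin n → Bool) (hz' : z' ∈ S) (hag : ∀ x ∈ (pairDom dom j z')ᶜ, z x = z' x) :
    (pairDom dom j z)ᶜ = (pairDom dom j z')ᶜ := by
  have hk : ∀ k, k ≠ 0 → k ≠ j.succ → dom k z = dom k z' := fun k h1 h2 =>
    h.cert k z hz z' hz' fun x hx =>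
      hag x (mem_compl.2 ((h.notMem_pair j hz' x).2 ⟨k, h1, h2, hx⟩))
  ext x
  rw [mem_compl, mem_compl, h.notMem_pair j hz, h.notMem_pair j hz']
  constructor
  · rintro ⟨k, h1, h2, hx⟩; exact ⟨k, h1, h2, hk k h1 h2 ▸ hx⟩
  · rintro ⟨k, h1, h2, hx⟩; exact ⟨k, h1, h2, (hk k h1 h2).symm ▸ hx⟩

lemma exists_inj {γ : Type} {K : ℕ} (T : Finset γ) (hT : K ≤ T.card) :
    ∃ X : Fin K → γ, Function.Injective X ∧ ∀ i, X i ∈ T := by
  obtain ⟨T', hT', hc⟩ := exists_subset_card_eq hT
  refine ⟨fun i => (T'.equivFinOfCardEq hc).symm i, ?_, fun i => hT' (Subtype.prop _)⟩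
  exact Subtype.val_injective.comp (T'.equivFinOfCardEq hc).symm.injective

lemma Cuts.rect (h : Cuts S dom Acc α β) {K : ℕ} (hK : NoRect K Acc) (j : Fin 3)
    {z : Fin n → Bool} (hz : z ∈ S) :
    cnt (pairDom dom j z)ᶜ S z < K ∨ cnt (pairDom dom j z) S z < K := by
  by_contra hc
  rw [not_or, not_lt, not_lt] at hc
  obtain ⟨Y, hYi, hY⟩ := exists_inj _ hc.1
  obtain ⟨X, hXi, hX⟩ := exists_inj _ hc.2
  simp only [mem_filter, mem_compl, not_not] at hX hY
  refine hK (pairDom dom j z) X Y ?_ fun a b => ?_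
  · rintro ⟨a, b⟩ ⟨a', b'⟩ hab
    have e1 : X a = X a' := by
      funext x
      by_cases hx : x ∈ pairDom dom j z
      · simpa [hyb, hx] using congrFun hab x
      · rw [(hX a).2 x hx, (hX a').2 x hx]
    have e2 : Y b = Y b' := by
      funext x
      by_cases hx : x ∈ pairDom dom j z
      · rw [(hY b).2 x hx, (hY b').2 x hx]
      · simpa [hyb, hx] using congrFun hab x
    rw [hXi e1, hYi e2]
  · have e1 : pairDom dom j (X a) = pairDom dom j z :=
      compl_injective (h.cert_pair j _ (hX a).1 z hz fun x hx => (hX a).2 x (mem_compl.1 hx))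
    have e2 : pairDom dom j (Y b) = pairDom dom j z := by
      unfold pairDom
      rw [h.cert 0 _ (hY b).1 z hz fun x hx => (hY b).2 x (mem_union_left _ hx),
        h.cert j.succ _ (hY b).1 z hz fun x hx => (hY b).2 x (mem_union_right _ hx)]
    refine (h.mix (fun k => if k = 0 ∨ k = j.succ then X a else Y b) (fun k => ?_) _ ?_).1
    · by_cases hk : k = 0 ∨ k = j.succ
      · simp only [hk, if_true]; exact (hX a).1
      · simp only [hk, if_false]; exact (hY b).1
    · intro k x hx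
      by_cases hk : k = 0 ∨ k = j.succ
      · simp only [hk, if_true] at hx ⊢
        have : x ∈ pairDom dom j z := by
          rw [← e1]
          rcases hk with hk | hk
          · exact mem_union_left _ (hk ▸ hx)
          · exact mem_union_right _ (hk ▸ hx)
        simp [hyb, this]
      · simp only [hk, if_false] at hx ⊢
        rw [not_or] at hk
        have : x ∉ pairDom dom j z := by
          rw [← e2]
          exact (h.notMem_pair j (hY b).1 x).2 ⟨k, hk.1, hk.2, hx⟩
        simp [hyb, this]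

/-- What segment `i` reads. -/
def view (dom : Fin 4 → (Fin n → Bool) → Finset (Fin n)) (i : Fin 4) (z : Fin n → Bool) :
    Fin n → Option Bool := fun x => if x ∈ dom i z then some (z x) else none

/-- The coordinates on which a partial assignment is defined. -/
def ind (φ : Fin n → Option Bool) : Fin n → Bool := fun x => (φ x).isSome

lemma ind_view (i : Fin 4) (z : Fin n → Bool) (x : Fin n) :
    ind (view dom i z) x = true ↔ x ∈ dom i z := by
  by_cases hx : x ∈ dom i z <;> simp [ind, view, hx]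

lemma filter_ind_view (i : Fin 4) (z : Fin n → Bool) :
    (univ.filter fun x => ind (view dom i z) x = true) = dom i z := by
  ext x; simp [ind_view]

lemma agree_of_view {i : Fin 4} {z z' : Fin n → Bool} (h : view dom i z' = view dom i z)
    {x : Fin n} (hx : x ∈ dom i z) : z' x = z x := by
  have := congrFun h x
  simp only [view, hx, if_true] at this
  by_cases hx' : x ∈ dom i z'
  · simpa [hx'] using this
  · simp [hx'] at this

lemma Cuts.views_card (h : Cuts S dom Acc α β) (i : Fin 4) (T : Finset (Fin n → Bool))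
    (hT : T ⊆ S) (M : ℝ) (hM : ∀ z ∈ T, M ≤ cnt (dom i z)ᶜ S z) :
    ((T.image (view dom i)).card : ℝ) * M ≤ 2 ^ n := by
  have h1 : ∀ φ ∈ T.image (view dom i), M ≤ ((S.filter fun z => view dom i z = φ).card : ℝ) := by
    intro φ hφ
    obtain ⟨z, hz, rfl⟩ := mem_image.1 hφ
    refine (hM z hz).trans ?_
    have : cnt (dom i z)ᶜ S z ≤ (S.filter fun z' => view dom i z' = view dom i z).card := by
      unfold cnt
      apply card_le_card
      intro z' hz'
      simp only [mem_filter, mem_compl, not_not] at hz' ⊢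
      refine ⟨hz'.1, funext fun x => ?_⟩
      have e := h.cert i z' hz'.1 z (hT hz) hz'.2
      by_cases hx : x ∈ dom i z
      · simp [view, e, hx, hz'.2 x hx]
      · simp [view, e, hx]
    exact_mod_cast this
  have h2 := sum_card_fiberwise_eq_card_filter S (T.image (view dom i)) (view dom i)
  have h3 := card_le_univ (S.filter fun z => view dom i z ∈ T.image (view dom i))
  rw [← h2] at h3
  simp only [Fintype.card_pi, Fintype.card_bool, prod_const, card_univ, Fintype.card_fin] at h3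
  calc _ = ∑ _φ ∈ T.image (view dom i), M := by simp
    _ ≤ ∑ φ ∈ T.image (view dom i), ((S.filter fun z => view dom i z = φ).card : ℝ) :=
        sum_le_sum h1
    _ ≤ 2 ^ n := by exact_mod_cast h3

lemma pair_count {K : ℕ} (j : Fin 3) (T : Finset (Fin n → Bool)) (hT : T ⊆ S)
    (hK : ∀ z ∈ T, cnt (pairDom dom j z)ᶜ S z < K)
    (R : Finset ((Fin n → Option Bool) × (Fin n → Option Bool)))
    (hR : ∀ z ∈ T, (view dom 0 z, view dom j.succ z) ∈ R) : T.card ≤ K * R.card := by
  refine card_le_mul_card_image_of_maps_to hR K fun b _ => ?_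
  rcases (T.filter fun z => (view dom 0 z, view dom j.succ z) = b).eq_empty_or_nonempty
    with h0 | ⟨z, hz⟩
  · rw [h0]; simp
  · obtain ⟨hzT, hzb⟩ := mem_filter.1 hz
    refine le_trans ?_ (hK z hzT).le
    unfold cnt
    apply card_le_card
    intro z' hz'
    obtain ⟨hzT', hzb'⟩ := mem_filter.1 hz'
    rw [← hzb, Prod.mk.injEq] at hzb'
    simp only [mem_filter, mem_compl, not_not]
    refine ⟨hT hzT', fun x hx => ?_⟩
    rcases mem_union.1 hx with hx | hx
    · exact agree_of_view hzb'.1 hx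
    · exact agree_of_view hzb'.2 hx

lemma sum_fiber (F : Finset (Fin n → Option Bool)) (P : (Fin n → Bool) → Prop) [DecidablePred P] :
    ∑ A ∈ univ.filter P, ((F.filter fun φ => ind φ = A).card : ℝ) =
      (F.filter fun φ => P (ind φ)).card := by
  have := sum_card_fiberwise_eq_card_filter F (univ.filter P) ind
  simp only [mem_filter, mem_univ, true_and] at this
  exact_mod_cast this

lemma fiber_le (F : Finset (Fin n → Option Bool))
    (hF : ∀ φ ∈ F, (univ.filter fun x => ind φ x = true).card = α) (A : Fin n → Bool) :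
    (F.filter fun φ => ind φ = A).card ≤ 2 ^ α := by
  rcases (F.filter fun φ => ind φ = A).eq_empty_or_nonempty with h0 | ⟨φ, hφ⟩
  · rw [h0]; simp
  · obtain ⟨hφF, hφA⟩ := mem_filter.1 hφ
    rw [← hF φ hφF, hφA, ← card_agree _ fun _ => false]
    apply card_le_card_of_injOn fun ψ x => (ψ x).getD false
    · intro ψ hψ
      simp only [coe_filter, Set.mem_ofPred_eq, mem_univ, true_and, mem_filter] at hψ ⊢
      intro x hx
      have := congrFun hψ.2 x
      simp only [ind] at this
      cases h : ψ x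
      · rfl
      · rw [h] at this; exact absurd this.symm hx
    · intro ψ hψ ψ' hψ' e
      simp only [coe_filter, Set.mem_ofPred_eq] at hψ hψ'
      funext x
      have e1 := congrFun (hψ.2.trans hψ'.2.symm) x
      have e2 := congrFun e x
      simp only [ind] at e1
      cases h1 : ψ x <;> cases h2 : ψ' x <;> simp_all

lemma Cuts.typical (h : Cuts S dom Acc α β) {K : ℕ} (T : Finset (Fin n → Bool)) (hT : T ⊆ S)
    (hK : ∀ j : Fin 3, ∀ z ∈ T, cnt (pairDom dom j z)ᶜ S z < K) {Va Vb θ : ℝ} (hθ : 0 < θ)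
    (hVa : ((T.image (view dom 0)).card : ℝ) ≤ Va)
    (hVb : ∀ j : Fin 3, ((T.image (view dom j.succ)).card : ℝ) ≤ Vb) :
    (T.card : ℝ) ≤ 3 * (K * (Vb * (θ * Va))) +
      K * (Vb * (√(2 ^ α) * (√Va * (17 / 16) ^ n / (θ ^ 3) ^ 6))) := by
  set F := T.image (view dom 0) with hF
  obtain ⟨r, hr0, hr1, hr2⟩ := avoid n (fun A => ((F.filter fun φ => ind φ = A).card : ℝ))
    fun A => Nat.cast_nonneg _
  have hmass : ∑ A : Fin n → Bool, ((F.filter fun φ => ind φ = A).card : ℝ) = F.card := by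
    have := sum_fiber F fun _ => True
    simpa using this
  rw [hmass] at hr1 hr2
  have hVb0 : 0 ≤ Vb := le_trans (Nat.cast_nonneg _) (hVb 0)
  set bad : Fin 3 → Finset (Fin n → Bool) := fun j =>
    T.filter fun z => ∏ x ∈ dom j.succ z, r (ind (view dom 0 z)) x ≤ θ with hbad
  set good := T.filter fun z =>
    θ ^ 3 ≤ ∏ x ∈ univ.filter (fun x => ind (view dom 0 z) x = false), r (ind (view dom 0 z)) x
    with hgood
  have hb : ∀ j, ((bad j).card : ℝ) ≤ K * (Vb * (θ * Va)) := by
    intro j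
    set P : (Fin n → Option Bool) → (Fin n → Bool) → Prop := fun ψ A =>
      (∀ x ∈ univ.filter (fun x => ind ψ x = true), A x = false) ∧
        ∏ x ∈ univ.filter (fun x => ind ψ x = true), r A x ≤ θ with hP
    have h1 := pair_count (S := S) (dom := dom) (K := K) j (bad j)
      ((filter_subset _ _).trans hT) (fun z hz => hK j z (filter_subset _ _ hz))
      ((F ×ˢ T.image (view dom j.succ)).filter fun p => P p.2 (ind p.1)) (by
        intro z hz
        obtain ⟨hzT, hzb⟩ := mem_filter.1 hz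
        refine mem_filter.2 ⟨mem_product.2 ⟨mem_image_of_mem _ hzT, mem_image_of_mem _ hzT⟩, ?_⟩
        simp only [hP, filter_ind_view]
        refine ⟨fun x hx => ?_, hzb⟩
        have := disjoint_left.1 (h.disj z (hT hzT) j.succ 0 (Fin.succ_ne_zero j)) hx
        rw [← ind_view] at this
        simpa using this)
    have h2 : (((F ×ˢ T.image (view dom j.succ)).filter fun p => P p.2 (ind p.1)).card : ℝ) =
        ∑ ψ ∈ T.image (view dom j.succ), ((F.filter fun φ => P ψ (ind φ)).card : ℝ) := by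
      rw [card_filter, sum_product_right]
      push_cast
      refine sum_congr rfl fun ψ _ => ?_
      rw [card_filter]; push_cast; rfl
    have h3 : ∑ ψ ∈ T.image (view dom j.succ), ((F.filter fun φ => P ψ (ind φ)).card : ℝ) ≤
        ∑ _ψ ∈ T.image (view dom j.succ), θ * Va := by
      refine sum_le_sum fun ψ _ => ?_
      rw [← sum_fiber F (P ψ)]
      exact (hr1 _ θ hθ.le).trans (mul_le_mul_of_nonneg_left hVa hθ.le)
    rw [sum_const, nsmul_eq_mul] at h3
    have h4 : 0 ≤ θ * Va := mul_nonneg hθ.le (le_trans (Nat.cast_nonneg _) hVa)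
    calc ((bad j).card : ℝ) ≤ K * (((F ×ˢ T.image (view dom j.succ)).filter
            fun p => P p.2 (ind p.1)).card : ℝ) := by exact_mod_cast h1
      _ ≤ _ := by
        rw [h2]
        exact mul_le_mul_of_nonneg_left
          (h3.trans (mul_le_mul_of_nonneg_right (hVb j) h4)) (Nat.cast_nonneg _)
  have hg : (good.card : ℝ) ≤ K * (Vb * (√(2 ^ α) * (√Va * (17 / 16) ^ n / (θ ^ 3) ^ 6))) := by
    set P : (Fin n → Bool) → Prop := fun A =>
      θ ^ 3 ≤ ∏ x ∈ univ.filter (fun x => A x = false), r A x with hP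
    have h1 := pair_count (S := S) (dom := dom) (K := K) 0 good
      ((filter_subset _ _).trans hT) (fun z hz => hK 0 z (filter_subset _ _ hz))
      ((F.filter fun φ => P (ind φ)) ×ˢ T.image (view dom (Fin.succ 0))) (by
        intro z hz
        obtain ⟨hzT, hzb⟩ := mem_filter.1 hz
        exact mem_product.2 ⟨mem_filter.2 ⟨mem_image_of_mem _ hzT, hzb⟩, mem_image_of_mem _ hzT⟩)
    have h2 : ((F.filter fun φ => P (ind φ)).card : ℝ) ≤
        √(2 ^ α) * (√Va * (17 / 16) ^ n / (θ ^ 3) ^ 6) := by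
      rw [← sum_fiber F P]
      have h3 : ∀ A, ((F.filter fun φ => ind φ = A).card : ℝ) ≤
          √(2 ^ α) * √((F.filter fun φ => ind φ = A).card : ℝ) := by
        intro A
        have h4 : ((F.filter fun φ => ind φ = A).card : ℝ) ≤ 2 ^ α := by
          have := fiber_le (α := α) F (by
            intro φ hφ
            obtain ⟨z, hz, rfl⟩ := mem_image.1 hφ
            rw [filter_ind_view, h.card0 z (hT hz)]) A
          exact_mod_cast this
        have h5 := Real.mul_self_sqrt (Nat.cast_nonneg (α := ℝ) (F.filter fun φ => ind φ = A).card)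
        have h6 := mul_le_mul_of_nonneg_right (Real.sqrt_le_sqrt h4)
          (Real.sqrt_nonneg ((F.filter fun φ => ind φ = A).card : ℝ))
        linarith
      refine (sum_le_sum fun A _ => h3 A).trans ?_
      rw [← mul_sum]
      refine mul_le_mul_of_nonneg_left ((hr2 (θ ^ 3) (by positivity)).trans ?_) (Real.sqrt_nonneg _)
      gcongr
    have h5 : (good.card : ℝ) ≤ K * (((F.filter fun φ => P (ind φ)).card : ℝ) *
        (T.image (view dom (Fin.succ 0))).card) := by
      rw [card_product] at h1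
      exact_mod_cast h1
    refine h5.trans (mul_le_mul_of_nonneg_left ?_ (Nat.cast_nonneg _))
    rw [mul_comm]
    exact mul_le_mul (hVb 0) h2 (Nat.cast_nonneg _) hVb0
  have hsub : T ⊆ (univ.biUnion bad) ∪ good := by
    intro z hz
    by_contra hc
    rw [mem_union, not_or, mem_biUnion] at hc
    apply hc.2
    refine mem_filter.2 ⟨hz, ?_⟩
    have h1 : ∀ j : Fin 3, θ ≤ ∏ x ∈ dom j.succ z, r (ind (view dom 0 z)) x := by
      intro j
      by_contra h2
      exact hc.1 ⟨j, mem_univ _, mem_filter.2 ⟨hz, (not_le.1 h2).le⟩⟩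
    have h2 : (univ.filter fun x => ind (view dom 0 z) x = false) =
        univ.biUnion fun j : Fin 3 => dom j.succ z := by
      ext x
      simp only [mem_filter, mem_univ, true_and, mem_biUnion]
      rw [← Bool.not_eq_true, ind_view]
      constructor
      · intro hx
        obtain ⟨k, hk⟩ := h.cover (hT hz) x
        revert hk
        refine Fin.cases (fun hk => absurd hk hx) (fun j hk => ⟨j, hk⟩) k
      · rintro ⟨j, hj⟩
        exact disjoint_left.1 (h.disj z (hT hz) j.succ 0 (Fin.succ_ne_zero j)) hj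
    rw [h2, prod_biUnion fun a _ b _ hab =>
      h.disj z (hT hz) _ _ fun e => hab (Fin.succ_injective _ e)]
    calc θ ^ 3 = ∏ _j : Fin 3, θ := by simp
      _ ≤ _ := prod_le_prod (fun _ _ => hθ.le) fun j _ => h1 j
  have hc := (card_le_card hsub).trans ((card_union_le _ _).trans
    (Nat.add_le_add_right card_biUnion_le _))
  have hc' : (T.card : ℝ) ≤ ∑ j, ((bad j).card : ℝ) + good.card := by exact_mod_cast hc
  rw [Fin.sum_univ_three] at hc'
  linarith [hb 0, hb 1, hb 2]

theorem Cuts.core (h : Cuts S dom Acc α β) {K : ℕ} (hK0 : 0 < K) (hK : NoRect K Acc)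
    {a q ya yb θ : ℝ} (ha0 : 0 < a) (ha1 : a ≤ 1) (hq : 1 + q = 2 ^ (1 - a))
    (hya : 0 < ya) (hyb : 0 < yb) (hθ : 0 < θ) :
    (S.card : ℝ) ≤ 2 ^ n / ((1 - q) ^ α * ya ^ (a - 1)) +
      3 * (2 ^ n / ((1 - q) ^ β * yb ^ (a - 1))) +
      3 * (2 ^ n / ((1 - q) ^ (2 * β) * ((K : ℝ) / 2 ^ (n - 2 * β)) ^ (a - 1))) +
      (3 * (K * (2 ^ β / yb * (θ * (2 ^ α / ya)))) +
        K * (2 ^ β / yb * (√(2 ^ α) * (√(2 ^ α / ya) * (17 / 16) ^ n / (θ ^ 3) ^ 6)))) := by
  have hq1 : 0 < 1 - q := by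
    have : (2 : ℝ) ^ (1 - a) < 2 ^ (1 : ℝ) :=
      Real.rpow_lt_rpow_of_exponent_lt (by norm_num) (by linarith)
    rw [Real.rpow_one] at this
    linarith
  have hKr : (0 : ℝ) < K := by exact_mod_cast hK0
  have hyc : (0 : ℝ) < (K : ℝ) / 2 ^ (n - 2 * β) := by positivity
  set b0 := S.filter fun z => (cnt (dom 0 z)ᶜ S z : ℝ) ≤ ya * 2 ^ (n - α) with hb0
  set b1 : Fin 3 → Finset (Fin n → Bool) := fun j =>
    S.filter fun z => (cnt (dom j.succ z)ᶜ S z : ℝ) ≤ yb * 2 ^ (n - β) with hb1
  set b2 : Fin 3 → Finset (Fin n → Bool) := fun j =>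
    S.filter fun z => (cnt (pairDom dom j z)ᶜᶜ S z : ℝ) ≤
      (K : ℝ) / 2 ^ (n - 2 * β) * 2 ^ (n - 2 * β) with hb2
  have c0 : (b0.card : ℝ) ≤ 2 ^ n / ((1 - q) ^ α * ya ^ (a - 1)) := by
    rw [le_div_iff₀ (by positivity)]
    simpa using sparse_slice ha0 ha1 hq hya S (dom 0) α h.card0 (h.cert 0)
  have c1 : ∀ j, ((b1 j).card : ℝ) ≤ 2 ^ n / ((1 - q) ^ β * yb ^ (a - 1)) := by
    intro j
    rw [le_div_iff₀ (by positivity)]
    simpa using sparse_slice ha0 ha1 hq hyb S (dom j.succ) β (fun z hz => h.cardS z hz j)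
      (h.cert j.succ)
  have c2 : ∀ j, ((b2 j).card : ℝ) ≤
      2 ^ n / ((1 - q) ^ (2 * β) * ((K : ℝ) / 2 ^ (n - 2 * β)) ^ (a - 1)) := by
    intro j
    rw [le_div_iff₀ (by positivity)]
    have := sparse_slice ha0 ha1 hq hyc S (fun z => (pairDom dom j z)ᶜ) (2 * β)
      (fun z hz => h.card_pair j hz) (h.cert_pair j)
    rw [Fintype.card_fin] at this
    exact this
  set T := S.filter fun z => z ∉ b0 ∧ (∀ j, z ∉ b1 j) ∧ ∀ j, z ∉ b2 j with hT
  have hTS : T ⊆ S := filter_subset _ _
  have hn := h.total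
  have t0 : ((T.image (view dom 0)).card : ℝ) ≤ 2 ^ α / ya := by
    have := h.views_card 0 T hTS (ya * 2 ^ (n - α)) fun z hz => by
      obtain ⟨hzS, h1, -⟩ := mem_filter.1 hz
      by_contra hc
      exact h1 (mem_filter.2 ⟨hzS, (not_le.1 hc).le⟩)
    rw [le_div_iff₀ hya]
    have e : (2 : ℝ) ^ n = 2 ^ α * 2 ^ (n - α) := by
      rw [← pow_add]; congr 1; omega
    rw [e, ← mul_assoc] at this
    exact le_of_mul_le_mul_right this (by positivity)
  have t1 : ∀ j : Fin 3, ((T.image (view dom j.succ)).card : ℝ) ≤ 2 ^ β / yb := by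
    intro j
    have := h.views_card j.succ T hTS (yb * 2 ^ (n - β)) fun z hz => by
      obtain ⟨hzS, -, h1, -⟩ := mem_filter.1 hz
      by_contra hc
      exact h1 j (mem_filter.2 ⟨hzS, (not_le.1 hc).le⟩)
    rw [le_div_iff₀ hyb]
    have e : (2 : ℝ) ^ n = 2 ^ β * 2 ^ (n - β) := by
      rw [← pow_add]; congr 1; omega
    rw [e, ← mul_assoc] at this
    exact le_of_mul_le_mul_right this (by positivity)
  have t2 : ∀ j : Fin 3, ∀ z ∈ T, cnt (pairDom dom j z)ᶜ S z < K := by
    intro j z hz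
    obtain ⟨hzS, -, -, h1⟩ := mem_filter.1 hz
    refine (h.rect hK j hzS).resolve_right fun hc => h1 j (mem_filter.2 ⟨hzS, ?_⟩)
    rw [compl_compl, div_mul_cancel₀ _ (by positivity)]
    exact_mod_cast hc.le
  have hty := h.typical T hTS t2 hθ t0 t1
  have hsub : S ⊆ b0 ∪ univ.biUnion b1 ∪ univ.biUnion b2 ∪ T := by
    intro z hz
    by_contra hc
    simp only [mem_union, not_or, mem_biUnion, mem_univ, true_and, not_exists] at hc
    exact hc.2 (mem_filter.2 ⟨hz, hc.1.1.1, hc.1.1.2, hc.1.2⟩)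
  have hc : S.card ≤ b0.card + ∑ j, (b1 j).card + ∑ j, (b2 j).card + T.card := by
    refine (card_le_card hsub).trans ((card_union_le _ _).trans (Nat.add_le_add_right ?_ _))
    refine (card_union_le _ _).trans (Nat.add_le_add ?_ card_biUnion_le)
    exact (card_union_le _ _).trans (Nat.add_le_add_left card_biUnion_le _)
  have hc' : (S.card : ℝ) ≤ b0.card + ∑ j, ((b1 j).card : ℝ) + ∑ j, ((b2 j).card : ℝ) + T.card := by
    exact_mod_cast hc
  rw [Fin.sum_univ_three, Fin.sum_univ_three] at hc'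
  linarith [c1 0, c1 1, c1 2, c2 0, c2 1, c2 2]

end

end Pool.Agent.MP_47ff19_lc.H51

end

-- part MP_47ff19_lc.H66.Defs
section

/-! Averages over subcubes, relative entropy, random subsets and exchangeable segments. -/

namespace Pool.Agent.MP_47ff19_lc.H66

open Finset

section

variable {ι : Type} [Fintype ι] [DecidableEq ι]

/-- Two points agree off `E`. -/
abbrev Agr (E : Finset ι) (w z : ι → Bool) : Prop := ∀ i, i ∉ E → w i = z i

/-- A function that does not depend on the coordinates in `E`. -/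
def Inv (E : Finset ι) (f : (ι → Bool) → ℝ) : Prop := ∀ w z, Agr E w z → f w = f z

/-- The average over the coordinates in `E`. -/
noncomputable def avg (E : Finset ι) (f : (ι → Bool) → ℝ) (w : ι → Bool) : ℝ :=
  (∑ z ∈ univ.filter fun z => Agr E w z, f z) / 2 ^ E.card

/-- The integrand of the relative entropy of unnormalised weights. -/
noncomputable def phi (a b : ℝ) : ℝ := a * Real.log (a / b) - a + b

/-- Minus the entropy of the coordinates off `E`, up to a normalisation. -/
noncomputable def psi (ν : (ι → Bool) → ℝ) (E : Finset ι) : ℝ := ∑ z, ν z * Real.log (avg E ν z)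

/-- The entropy deficiency of the coordinates in `E` given the others. -/
noncomputable def dfc (ν : (ι → Bool) → ℝ) (E : Finset ι) : ℝ := psi ν ∅ - psi ν E

/-- The entropy deficiency of coordinate `x` given the coordinates off `E`. -/
noncomputable def dm (ν : (ι → Bool) → ℝ) (E : Finset ι) (x : ι) : ℝ :=
  psi ν (E.erase x) - psi ν E

/-- The probability of `E` when each `x` is kept independently with probability `k x`. -/
noncomputable def wt (k : ι → ℝ) (E : Finset ι) : ℝ := ∏ x, if x ∈ E then k x else 1 - k x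

/-- Keep each element of `G` with probability `u`. -/
noncomputable def cst (u : ℝ) (G : Finset ι) : ι → ℝ := fun x => if x ∈ G then u else 0

/-- The probability of keeping coordinate `x` of `E` in the value-dependent thinning. -/
noncomputable def keep (ν : (ι → Bool) → ℝ) (E : Finset ι) (z : ι → Bool) : ι → ℝ := fun x =>
  if x ∈ E then
    min (avg (E.erase x) ν z) (avg (E.erase x) ν (H51.flip x z)) / avg (E.erase x) ν z
  else 0

/-- The total size of the free set. -/
noncomputable def sz (μ : Finset ι → (ι → Bool) → ℝ) : ℝ := ∑ F, ∑ z, μ F z * F.card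

/-- The total deficiency on the free set. -/
noncomputable def dtot (μ : Finset ι → (ι → Bool) → ℝ) : ℝ := ∑ F, dfc (μ F) F

/-- The weight of the free sets containing `E`. -/
noncomputable def up (μ : Finset ι → (ι → Bool) → ℝ) (E : Finset ι) (z : ι → Bool) : ℝ :=
  ∑ F, if E ⊆ F then μ F z else 0

/-- The set `A z` is determined by the coordinates off any set that it avoids. -/
def Det (S : Finset (ι → Bool)) (A : (ι → Bool) → Finset ι) : Prop :=
  ∀ z ∈ S, ∀ z' ∈ S, ∀ E, Agr E z z' → Disjoint (A z) E → Disjoint (A z') E → A z = A z'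

end

/-- Exchangeable segments with canonical certificates. -/
structure Segs {n r : ℕ} (S : Finset (Fin n → Bool))
    (dom : Fin r → (Fin n → Bool) → Finset (Fin n)) (Acc : (Fin n → Bool) → Prop) (l : ℕ) :
    Prop where
  width : ∀ i, ∀ z ∈ S, (dom i z).card ≤ l
  det : ∀ i, Det S (dom i)
  mix : ∀ ch : Fin r → Fin n → Bool, (∀ i, ch i ∈ S) → ∀ w : Fin n → Bool,
    (∀ i, ∀ x ∈ dom i (ch i), w x = ch i x) → Acc w

end Pool.Agent.MP_47ff19_lc.H66

end

-- part MP_47ff19_lc.H66.Avg
section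

/-! Averaging operators. -/

namespace Pool.Agent.MP_47ff19_lc.H66

open Finset

set_option linter.unusedSectionVars false

variable {ι : Type} [Fintype ι] [DecidableEq ι] {E E' X Y : Finset ι} {f g h ν ρ : (ι → Bool) → ℝ}

lemma Inv.mono (hf : Inv E f) (hE : E' ⊆ E) : Inv E' f :=
  fun w z h => hf w z fun i hi => h i fun h' => hi (hE h')

lemma agr_comm {w z : ι → Bool} : Agr E w z ↔ Agr E z w :=
  ⟨fun h i hi => (h i hi).symm, fun h i hi => (h i hi).symm⟩

lemma card_agr (E : Finset ι) (w : ι → Bool) :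
    ((univ.filter fun z => Agr E w z).card : ℝ) = 2 ^ E.card := by
  exact_mod_cast H51.card_agree E w

lemma avg_inv (E : Finset ι) (f : (ι → Bool) → ℝ) : Inv E (avg E f) := by
  intro w z h
  unfold avg
  rw [filter_congr (q := fun u => Agr E z u) fun u _ =>
    ⟨fun h' i hi => (h i hi).symm.trans (h' i hi), fun h' i hi => (h i hi).trans (h' i hi)⟩]

lemma avg_nonneg (hf : ∀ z, 0 ≤ f z) (E : Finset ι) (w : ι → Bool) : 0 ≤ avg E f w :=
  div_nonneg (sum_nonneg fun z _ => hf z) (by positivity)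

lemma avg_pos (hf : ∀ z, 0 ≤ f z) {w z : ι → Bool} (h : Agr E w z) (hz : f z ≠ 0) :
    0 < avg E f w :=
  div_pos (sum_pos' (fun z _ => hf z)
    ⟨z, mem_filter.2 ⟨mem_univ _, h⟩, (hf z).lt_of_ne' hz⟩) (by positivity)

lemma avg_empty (f : (ι → Bool) → ℝ) : avg ∅ f = f := by
  funext w
  have : (univ.filter fun z => Agr ∅ w z) = {w} := by
    ext z
    rw [mem_filter, mem_singleton]
    exact ⟨fun h => funext fun i => (h.2 i (notMem_empty i)).symm,
      fun h => ⟨mem_univ _, fun i _ => h ▸ rfl⟩⟩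
  rw [avg, this, sum_singleton, card_empty, pow_zero, div_one]

lemma avg_mul_inv (hg : Inv E g) (f : (ι → Bool) → ℝ) (w : ι → Bool) :
    avg E (fun z => g z * f z) w = g w * avg E f w := by
  unfold avg
  rw [← mul_div_assoc, mul_sum]
  congr 1
  exact sum_congr rfl fun z hz => by rw [hg w z (mem_filter.1 hz).2]

lemma avg_of_inv (hg : Inv E g) : avg E g = g := by
  funext w
  unfold avg
  rw [sum_congr rfl fun z hz => (hg w z (mem_filter.1 hz).2).symm, sum_const, nsmul_eq_mul,
    card_agr, mul_div_cancel_left₀ _ (by positivity)]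

lemma sum_avg_aux (E : Finset ι) (f : (ι → Bool) → ℝ) : ∑ z, avg E f z = ∑ z, f z := by
  unfold avg
  rw [← sum_div, sum_comm' (t' := univ) (s' := fun u => univ.filter fun z => Agr E u z)
    (by simp only [mem_filter, mem_univ, true_and, and_true]; exact fun _ _ => agr_comm), sum_div]
  refine sum_congr rfl fun u _ => ?_
  rw [sum_const, nsmul_eq_mul, card_agr, mul_div_cancel_left₀ _ (by positivity)]

lemma sum_inv_mul (hg : Inv E g) (f : (ι → Bool) → ℝ) :
    ∑ z, g z * avg E f z = ∑ z, g z * f z := by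
  rw [← sum_avg_aux E fun z => g z * f z]
  exact sum_congr rfl fun z _ => (avg_mul_inv hg f z).symm

lemma sum_avg (E : Finset ι) (f : (ι → Bool) → ℝ) : ∑ z, avg E f z = ∑ z, f z :=
  sum_avg_aux E f

lemma avg_avg (X Y : Finset ι) (f : (ι → Bool) → ℝ) : avg X (avg Y f) = avg (X ∪ Y) f := by
  funext w
  unfold avg
  rw [← sum_div, sum_comm' (t' := univ.filter fun u => Agr (X ∪ Y) w u)
    (s' := fun u => univ.filter fun z => Agr (X ∩ Y) (fun i => if i ∈ X then u i else w i) z)]
  · have h2 : (2 : ℝ) ^ (X ∪ Y).card * 2 ^ (X ∩ Y).card = 2 ^ X.card * 2 ^ Y.card := by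
      rw [← pow_add, ← pow_add, card_union_add_card_inter]
    simp only [sum_const, nsmul_eq_mul, card_agr]
    rw [← mul_sum, div_div, div_eq_div_iff (by positivity) (by positivity)]
    linear_combination (∑ u ∈ univ.filter fun u => Agr (X ∪ Y) w u, f u) * h2
  · intro z u
    simp only [mem_filter, mem_univ, true_and]
    refine ⟨fun ⟨h1, h2⟩ => ⟨fun i hi => ?_, fun i hi => ?_⟩,
      fun ⟨h1, h2⟩ => ⟨fun i hi => ?_, fun i hi => ?_⟩⟩
    · by_cases hx : i ∈ X
      · exact (if_pos hx).trans (h2 i fun hy => hi (mem_inter.2 ⟨hx, hy⟩)).symm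
      · exact (if_neg hx).trans (h1 i hx)
    · exact (h1 i fun hx => hi (mem_union_left _ hx)).trans
        (h2 i fun hy => hi (mem_union_right _ hy))
    · exact (if_neg hi).symm.trans (h1 i fun h => hi (mem_inter.1 h).1)
    · have h3 := h1 i fun h => hi (mem_inter.1 h).2
      by_cases hx : i ∈ X
      · exact h3.symm.trans (if_pos hx)
      · exact h3.symm.trans ((if_neg hx).trans (h2 i fun h => (mem_union.1 h).elim hx hi))

lemma avg_single (x : ι) (f : (ι → Bool) → ℝ) (w : ι → Bool) :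
    avg {x} f w = (f w + f (H51.flip x w)) / 2 := by
  have h0 : w ≠ H51.flip x w := fun h => by
    have := congrFun h x
    rw [H51.flip_self] at this
    exact Bool.eq_not_self _ |>.1 this
  have : (univ.filter fun z => Agr {x} w z) = {w, H51.flip x w} := by
    ext z
    rw [mem_filter, mem_insert, mem_singleton]
    refine ⟨fun h => ?_, fun h => ⟨mem_univ _, fun i hi => ?_⟩⟩
    · by_cases hz : z x = w x
      · refine Or.inl (funext fun i => ?_)
        by_cases hi : i = x
        · rw [hi, hz]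
        · exact (h.2 i fun h' => hi (mem_singleton.1 h')).symm
      · refine Or.inr (funext fun i => ?_)
        by_cases hi : i = x
        · rw [hi, H51.flip_self]
          exact Bool.eq_not_of_ne hz
        · rw [H51.flip_ne hi]
          exact (h.2 i fun h' => hi (mem_singleton.1 h')).symm
    · rcases h with rfl | rfl
      · rfl
      · exact (H51.flip_ne (fun h' => hi (mem_singleton.2 h')) w).symm
  rw [avg, this, sum_pair h0, card_singleton, pow_one]

/-- A set meeting every `E`-fibre in at most `K` points has small weight for an invariant weight. -/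
lemma sum_ind_le (hρ : ∀ z, 0 ≤ ρ z) (hI : Inv E ρ) (T : Finset (ι → Bool)) {K : ℝ}
    (hT : ∀ w, ((T.filter fun z => Agr E w z).card : ℝ) ≤ K) :
    ∑ z ∈ T, ρ z ≤ K / 2 ^ E.card * ∑ z, ρ z := by
  have h1 : ∑ z ∈ T, ρ z = ∑ z, ρ z * if z ∈ T then 1 else 0 := by
    simp only [mul_ite, mul_one, mul_zero, sum_ite_mem, univ_inter]
  rw [h1, ← sum_inv_mul hI, mul_sum]
  refine sum_le_sum fun w _ => ?_
  rw [mul_comm]
  refine mul_le_mul_of_nonneg_right (div_le_div_of_nonneg_right ?_ (by positivity)) (hρ w)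
  rw [sum_boole, filter_comm, filter_univ_mem]
  exact hT w

end Pool.Agent.MP_47ff19_lc.H66

end

-- part MP_47ff19_lc.H66.Ent
section

/-! Entropy inequalities. -/

namespace Pool.Agent.MP_47ff19_lc.H66

open Finset

set_option linter.unusedSectionVars false

variable {ι : Type} [Fintype ι] [DecidableEq ι] {E E' X Y : Finset ι} {f g h ν ρ : (ι → Bool) → ℝ}

/-- The variational bound (from `Real.add_one_le_exp`). -/
lemma phi_dv {a b : ℝ} (ha : 0 ≤ a) (hb : 0 ≤ b) (hab : b = 0 → a = 0) (θ : ℝ) :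
    a * θ - b * (Real.exp θ - 1) ≤ phi a b := by
  unfold phi
  rcases ha.eq_or_lt with rfl | ha'
  · have := mul_nonneg hb (Real.exp_pos θ).le
    simp only [zero_mul]
    linarith
  have hb' : 0 < b := hb.lt_of_ne fun e => ha'.ne' (hab e.symm)
  have h1 := mul_le_mul_of_nonneg_left (Real.add_one_le_exp (θ - Real.log (a / b))) ha
  have h2 : a * Real.exp (θ - Real.log (a / b)) = b * Real.exp θ := by
    rw [Real.exp_sub, Real.exp_log (div_pos ha' hb')]
    field_simp
  rw [h2] at h1
  linarith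

lemma phi_nonneg {a b : ℝ} (ha : 0 ≤ a) (hb : 0 ≤ b) (hab : b = 0 → a = 0) : 0 ≤ phi a b := by
  simpa using phi_dv ha hb hab 0

lemma phi_mul (a b c : ℝ) : phi (a * c) (b * c) = phi a b * c := by
  unfold phi
  by_cases hc : c = 0
  · simp [hc]
  · rw [mul_div_mul_right _ _ hc]
    ring

/-- The log-sum inequality: `phi_dv` termwise at `θ = log (∑ a / ∑ b)`. -/
lemma phi_sum_le {κ : Type} (s : Finset κ) (a b : κ → ℝ) (ha : ∀ i, 0 ≤ a i) (hb : ∀ i, 0 ≤ b i)
    (hab : ∀ i, b i = 0 → a i = 0) :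
    phi (∑ i ∈ s, a i) (∑ i ∈ s, b i) ≤ ∑ i ∈ s, phi (a i) (b i) := by
  rcases (sum_nonneg fun i (_ : i ∈ s) => ha i).eq_or_lt with h0 | h0
  · have h1 := (sum_eq_zero_iff_of_nonneg fun i _ => ha i).1 h0.symm
    rw [← h0, sum_congr rfl fun i hi => show phi (a i) (b i) = b i by simp [phi, h1 i hi]]
    simp [phi]
  have hB : 0 < ∑ i ∈ s, b i := (sum_nonneg fun i _ => hb i).lt_of_ne fun e =>
    h0.ne' (sum_eq_zero fun i hi =>
      hab i ((sum_eq_zero_iff_of_nonneg fun i _ => hb i).1 e.symm i hi))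
  refine le_trans (le_of_eq ?_) (sum_le_sum fun i _ =>
    phi_dv (ha i) (hb i) (hab i) (Real.log ((∑ i ∈ s, a i) / ∑ i ∈ s, b i)))
  rw [sum_sub_distrib, ← sum_mul, ← sum_mul, Real.exp_log (div_pos h0 hB), phi]
  field_simp
  ring

lemma ent_pos (hν : ∀ z, 0 ≤ ν z) (E : Finset ι) {z : ι → Bool} (hz : ν z ≠ 0) : 0 < avg E ν z :=
  avg_pos hν (fun _ _ => rfl) hz

lemma ent_psi (hX : E ⊆ X) : psi ν X = ∑ z, avg E ν z * Real.log (avg X ν z) := by
  have h : Inv E fun z => Real.log (avg X ν z) := fun w z h => by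
    simp only [(avg_inv X ν).mono hX w z h]
  have h1 := sum_inv_mul h ν
  simp only [mul_comm (Real.log _)] at h1
  exact h1.symm

lemma dfc_eq (hν : ∀ z, 0 ≤ ν z) (E : Finset ι) :
    dfc ν E = ∑ z, ν z * Real.log (ν z / avg E ν z) := by
  rw [dfc, psi, psi, avg_empty, ← sum_sub_distrib]
  refine sum_congr rfl fun z _ => ?_
  by_cases hz : ν z = 0
  · simp [hz]
  · rw [Real.log_div hz (ent_pos hν E hz).ne', mul_sub]

/-- The deficiency is the least relative entropy to an invariant weight.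
Plan: with `g = avg E ν` the difference is `∑ ν * log (g / ρ) - ∑ ν + ∑ ρ = ∑ phi g ρ ≥ 0` by
`sum_inv_mul`, `sum_avg`; `ρ z = 0 → g z = 0` since `ρ` is invariant. -/
lemma dfc_le (hν : ∀ z, 0 ≤ ν z) (hρ : ∀ z, 0 ≤ ρ z) (hI : Inv E ρ) (hac : ∀ z, ρ z = 0 → ν z = 0) :
    dfc ν E ≤ ∑ z, phi (ν z) (ρ z) := by
  have h1 : ∑ z, phi (ν z) (ρ z) =
      dfc ν E + ∑ z, (Real.log (avg E ν z / ρ z) * ν z - ν z + ρ z) := by
    rw [dfc_eq hν, ← sum_add_distrib]
    refine sum_congr rfl fun z _ => ?_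
    unfold phi
    by_cases hz : ν z = 0
    · simp [hz]
    · have h2 : ρ z ≠ 0 := fun e => hz (hac z e)
      have h3 := (ent_pos hν E hz).ne'
      rw [Real.log_div hz h2, Real.log_div hz h3, Real.log_div h3 h2]
      ring
  have h2 : Inv E fun z => Real.log (avg E ν z / ρ z) := fun w z h => by
    simp only [avg_inv E ν w z h, hI w z h]
  have h3 : ∑ z, (Real.log (avg E ν z / ρ z) * ν z - ν z + ρ z) =
      ∑ z, phi (avg E ν z) (ρ z) := by
    simp only [phi, sum_add_distrib, sum_sub_distrib]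
    rw [← sum_inv_mul h2, sum_avg]
    simp only [mul_comm]
  have h4 : 0 ≤ ∑ z, phi (avg E ν z) (ρ z) := by
    refine sum_nonneg fun z _ => phi_nonneg (avg_nonneg hν E z) (hρ z) fun e => ?_
    rw [avg, sum_eq_zero fun w hw => hac w ((hI z w (mem_filter.1 hw).2).symm.trans e), zero_div]
  linarith

/-- Submodularity of entropy.
Plan: `g = avg E ν`, `a = avg X ν`, `b = avg Y ν`, `c = avg (X ∪ Y) ν` are `E`-invariant, so replace
the weight `ν` by `g` (`sum_inv_mul`); `g * log (a * b / (g * c)) ≤ a * b / c - g` where `g > 0`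
(then `a b c > 0` by `avg_avg`, `avg_pos`), and `∑ (a / c) * b = ∑ (a / c) * avg X b = ∑ (a / c) * c
≤ ∑ a = ∑ g` as `a / c` is `X`-invariant. -/
lemma psi_supermod (hν : ∀ z, 0 ≤ ν z) (hX : E ⊆ X) (hY : E ⊆ Y) :
    psi ν X + psi ν Y ≤ psi ν E + psi ν (X ∪ Y) := by
  have hg := avg_nonneg hν E
  have pX : ∀ z, avg E ν z ≠ 0 → ∀ Z, E ⊆ Z → 0 < avg Z ν z := fun z hz Z hZ => by
    have := ent_pos hg Z hz
    rwa [avg_avg, union_eq_left.2 hZ] at this
  have hU : E ⊆ X ∪ Y := hX.trans subset_union_left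
  rw [ent_psi hX, ent_psi hY, ent_psi (Subset.refl E), ent_psi hU, ← sum_add_distrib,
    ← sum_add_distrib, ← sub_nonpos, ← sum_sub_distrib]
  have h1 : ∀ z, avg E ν z * Real.log (avg X ν z) + avg E ν z * Real.log (avg Y ν z) -
      (avg E ν z * Real.log (avg E ν z) + avg E ν z * Real.log (avg (X ∪ Y) ν z)) ≤
      avg X ν z / avg (X ∪ Y) ν z * avg Y ν z - avg E ν z := fun z => by
    by_cases hz : avg E ν z = 0
    · have := mul_nonneg (div_nonneg (avg_nonneg hν X z) (avg_nonneg hν (X ∪ Y) z))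
        (avg_nonneg hν Y z)
      rw [hz]
      linarith
    · have a := pX z hz X hX
      have b := pX z hz Y hY
      have c := pX z hz _ hU
      have d := pX z hz E (Subset.refl E)
      have h2 := mul_le_mul_of_nonneg_left
        (Real.log_le_sub_one_of_pos (div_pos (mul_pos a b) (mul_pos d c))) d.le
      have h3 : avg E ν z * (avg X ν z * avg Y ν z / (avg E ν z * avg (X ∪ Y) ν z) - 1) =
          avg X ν z / avg (X ∪ Y) ν z * avg Y ν z - avg E ν z := by field_simp
      rw [h3, Real.log_div (mul_pos a b).ne' (mul_pos d c).ne', Real.log_mul a.ne' b.ne',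
        Real.log_mul d.ne' c.ne'] at h2
      linarith
  refine (sum_le_sum fun z _ => h1 z).trans ?_
  have h2 : Inv X fun z => avg X ν z / avg (X ∪ Y) ν z := fun w z h => by
    simp only [avg_inv X ν w z h, (avg_inv (X ∪ Y) ν).mono subset_union_left w z h]
  rw [sum_sub_distrib, ← sum_inv_mul h2, avg_avg, sum_avg, ← sum_avg X ν, sub_nonpos]
  refine sum_le_sum fun z _ => ?_
  by_cases hc : avg (X ∪ Y) ν z = 0
  · rw [hc, mul_zero]
    exact avg_nonneg hν X z
  · rw [div_mul_cancel₀ _ hc]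

lemma dfc_nonneg (hν : ∀ z, 0 ≤ ν z) (E : Finset ι) : 0 ≤ dfc ν E := by
  have h1 : dfc ν E = ∑ z, phi (ν z) (avg E ν z) := by
    simp only [phi, sum_add_distrib, sum_sub_distrib]
    rw [dfc_eq hν, sum_avg]
    ring
  rw [h1]
  exact sum_nonneg fun z _ => phi_nonneg (hν z) (avg_nonneg hν E z) fun e =>
    by_contra fun hz => (ent_pos hν E hz).ne' e

lemma dm_nonneg (hν : ∀ z, 0 ≤ ν z) (E : Finset ι) (x : ι) : 0 ≤ dm ν E x := by
  have h := dfc_nonneg (avg_nonneg hν (E.erase x)) E
  rw [dfc, psi, psi, avg_empty, avg_avg, union_eq_left.2 (erase_subset x E)] at h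
  rw [dm, ent_psi (Subset.refl (E.erase x)), ent_psi (erase_subset x E)]
  exact h

/-- Plan: induction on `E \ E'`; `dfc (insert x E) = dfc E + (psi E - psi (insert x E))` and
`psi_supermod` with `X = E`, `Y = insert x E'`. -/
lemma dfc_chain (hν : ∀ z, 0 ≤ ν z) (hE : E' ⊆ E) :
    dfc ν E ≤ dfc ν E' + ∑ x ∈ E \ E', dm ν (insert x E') x := by
  have key : ∀ s : Finset ι, Disjoint s E' →
      dfc ν (E' ∪ s) ≤ dfc ν E' + ∑ x ∈ s, dm ν (insert x E') x := fun s => by
    induction s using Finset.induction_on with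
    | empty => simp
    | insert x s hx ih =>
      intro hd
      obtain ⟨h1, h2⟩ := disjoint_insert_left.1 hd
      have h3 := ih h2
      have h4 := psi_supermod hν (E := E') (X := E' ∪ s) (Y := insert x E') subset_union_left
        (subset_insert x E')
      have e : E' ∪ s ∪ insert x E' = E' ∪ insert x s := by
        ext y; simp only [mem_union, mem_insert]; tauto
      rw [e] at h4
      rw [sum_insert hx, dm, erase_insert h1]
      unfold dfc at h3 ⊢
      linarith
  have h := key (E \ E') sdiff_disjoint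
  rwa [union_sdiff_of_subset hE] at h

end Pool.Agent.MP_47ff19_lc.H66

end

-- part MP_47ff19_lc.H66.Bern
section

/-! Random subsets with independent elements. -/

namespace Pool.Agent.MP_47ff19_lc.H66

open Finset

set_option linter.unusedSectionVars false

variable {ι : Type} [Fintype ι] [DecidableEq ι] {k : ι → ℝ} {u ρ : ℝ} {G E A : Finset ι}

lemma bern_prod_mem (E : Finset ι) (c : ι → ℝ) :
    ∏ x, (if x ∈ E then c x else 1) = ∏ x ∈ E, c x := by
  rw [prod_ite_mem, univ_inter]

lemma sum_prod_ite (a b : ι → ℝ) :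
    ∑ E : Finset ι, ∏ x, (if x ∈ E then a x else b x) = ∏ x, (a x + b x) := by
  rw [Fintype.prod_add]
  refine sum_congr rfl fun E _ => ?_
  rw [← bern_prod_mem E a, ← bern_prod_mem Eᶜ b, ← prod_mul_distrib]
  refine prod_congr rfl fun x _ => ?_
  by_cases h : x ∈ E <;> simp [h]

lemma wt_nonneg (h0 : ∀ x, 0 ≤ k x) (h1 : ∀ x, k x ≤ 1) (E : Finset ι) : 0 ≤ wt k E := by
  refine prod_nonneg fun x _ => ?_
  split_ifs
  · exact h0 x
  · linarith [h1 x]

lemma cst_nonneg (h : 0 ≤ u) (G : Finset ι) (x : ι) : 0 ≤ cst u G x := by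
  unfold cst; split_ifs
  · exact h
  · exact le_rfl

lemma cst_le_one (h : u ≤ 1) (G : Finset ι) (x : ι) : cst u G x ≤ 1 := by
  unfold cst; split_ifs
  · exact h
  · exact zero_le_one

lemma wt_cst_nonneg (h0 : 0 ≤ u) (h1 : u ≤ 1) (G E : Finset ι) : 0 ≤ wt (cst u G) E :=
  wt_nonneg (cst_nonneg h0 G) (cst_le_one h1 G) E

lemma sum_wt (k : ι → ℝ) : ∑ E, wt k E = 1 := by
  unfold wt
  rw [sum_prod_ite k fun x => 1 - k x]
  simp

lemma wt_gen (k c : ι → ℝ) : ∑ E, wt k E * ∏ x ∈ E, c x = ∏ x, (1 - k x + k x * c x) := by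
  have h := sum_prod_ite (fun x => k x * c x) fun x => 1 - k x
  rw [show (∏ x, (1 - k x + k x * c x)) = ∏ x, (k x * c x + (1 - k x)) from
    prod_congr rfl fun x _ => add_comm _ _, ← h]
  refine sum_congr rfl fun E _ => ?_
  rw [wt, ← bern_prod_mem E c, ← prod_mul_distrib]
  refine prod_congr rfl fun x _ => ?_
  by_cases h : x ∈ E <;> simp [h]

lemma wt_cst_gen (u c : ℝ) (G : Finset ι) :
    ∑ E, wt (cst u G) E * c ^ E.card = (1 - u + u * c) ^ G.card := by
  have h := wt_gen (cst u G) fun _ => c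
  simp only [prod_const] at h
  rw [h, ← prod_const, ← bern_prod_mem G]
  refine prod_congr rfl fun x _ => ?_
  by_cases h : x ∈ G <;> simp [cst, h]

lemma wt_sup (k : ι → ℝ) (E0 : Finset ι) :
    ∑ E, (if E0 ⊆ E then wt k E else 0) = ∏ x ∈ E0, k x := by
  have h := sum_prod_ite k fun x => if x ∈ E0 then 0 else 1 - k x
  rw [← bern_prod_mem E0 k, show (∏ x, if x ∈ E0 then k x else 1) =
    ∏ x, (k x + if x ∈ E0 then 0 else 1 - k x) from
      prod_congr rfl fun x _ => by split_ifs <;> ring, ← h]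
  refine sum_congr rfl fun E _ => ?_
  split_ifs with hE
  · refine prod_congr rfl fun x _ => ?_
    by_cases h1 : x ∈ E
    · simp [h1]
    · have h2 : x ∉ E0 := fun h2 => h1 (hE h2)
      simp [h1, h2]
  · obtain ⟨x, hx0, hx⟩ := not_subset.1 hE
    exact (prod_eq_zero (mem_univ x) (by simp [hx, hx0])).symm

lemma wt_cst_sup (u : ℝ) (G E0 : Finset ι) :
    ∑ E, (if E0 ⊆ E then wt (cst u G) E else 0) = if E0 ⊆ G then u ^ E0.card else 0 := by
  rw [wt_sup]
  split_ifs with h
  · rw [← prod_const]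
    exact prod_congr rfl fun x hx => by simp [cst, h hx]
  · obtain ⟨x, hx0, hx⟩ := not_subset.1 h
    exact prod_eq_zero hx0 (by simp [cst, hx])

lemma wt_sum (k f : ι → ℝ) : ∑ E, wt k E * ∑ x ∈ E, f x = ∑ x, k x * f x := by
  have h : ∀ E : Finset ι, wt k E * ∑ x ∈ E, f x =
      ∑ x, (if ({x} : Finset ι) ⊆ E then wt k E else 0) * f x := by
    intro E
    rw [mul_sum]
    simp only [singleton_subset_iff, ite_mul, zero_mul]
    rw [sum_ite_mem, univ_inter]
  simp only [h]
  rw [sum_comm]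
  refine sum_congr rfl fun x _ => ?_
  rw [← sum_mul, wt_sup, prod_singleton]

lemma ne_zero_of_wt (h : wt k E ≠ 0) {x : ι} (hx : x ∈ E) : k x ≠ 0 := by
  intro h0
  exact h (prod_eq_zero (mem_univ x) (by simp [hx, h0]))

lemma subset_of_wt (h : wt (cst u G) E ≠ 0) : E ⊆ G := by
  intro x hx
  by_contra h'
  exact ne_zero_of_wt h hx (by simp [cst, h'])

lemma wt_avoid (u : ℝ) (G A E : Finset ι) :
    wt (cst u (G \ A)) E * (1 - u) ^ (A ∩ G).card =
      if Disjoint E A then wt (cst u G) E else 0 := by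
  split_ifs with h
  · rw [← prod_const, ← bern_prod_mem (A ∩ G), wt, wt, ← prod_mul_distrib]
    refine prod_congr rfl fun x _ => ?_
    by_cases h1 : x ∈ E
    · have h2 : x ∉ A := disjoint_left.1 h h1
      simp [cst, h1, h2]
    · by_cases h2 : x ∈ A <;> by_cases h3 : x ∈ G <;> simp [cst, h1, h2, h3]
  · obtain ⟨x, hx, hxA⟩ := not_disjoint_iff.1 h
    rw [wt, prod_eq_zero (mem_univ x) (by simp [cst, hx, hxA]), zero_mul]

lemma bern_couple (u ρ : ℝ) (G E' E : Finset ι) : wt (cst u G) E * wt (cst ρ E) E' =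
    ∏ y, (if y ∈ E then cst u G y * (if y ∈ E' then ρ else 1 - ρ)
      else (1 - cst u G y) * (if y ∈ E' then 0 else 1)) := by
  rw [wt, wt, ← prod_mul_distrib]
  refine prod_congr rfl fun y _ => ?_
  by_cases h1 : y ∈ E <;> by_cases h2 : y ∈ E' <;> simp [cst, h1, h2]

lemma bern_factor (u ρ : ℝ) (G E' : Finset ι) (y : ι) :
    cst u G y * (if y ∈ E' then ρ else 1 - ρ) + (1 - cst u G y) * (if y ∈ E' then 0 else 1) =
      if y ∈ E' then cst (u * ρ) G y else 1 - cst (u * ρ) G y := by
  by_cases h1 : y ∈ G <;> by_cases h2 : y ∈ E' <;> simp [cst, h1, h2]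
  ring

lemma couple_one (u ρ : ℝ) (G E' : Finset ι) :
    ∑ E, wt (cst u G) E * wt (cst ρ E) E' = wt (cst (u * ρ) G) E' := by
  simp only [bern_couple]
  rw [sum_prod_ite, wt]
  exact prod_congr rfl fun y _ => bern_factor u ρ G E' y

lemma couple_two (u ρ : ℝ) (G E' : Finset ι) {x : ι} (hx : x ∉ E') :
    ρ * ∑ E, (if x ∈ E then wt (cst u G) E * wt (cst ρ E) E' else 0) =
      (1 - ρ) * wt (cst (u * ρ) G) (insert x E') := by
  have h : ∀ E : Finset ι, (if x ∈ E then wt (cst u G) E * wt (cst ρ E) E' else 0) =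
      ∏ y, (if y ∈ E then cst u G y * (if y ∈ E' then ρ else 1 - ρ)
        else if y = x then 0 else (1 - cst u G y) * (if y ∈ E' then 0 else 1)) := by
    intro E
    split_ifs with h1
    · rw [bern_couple]
      refine prod_congr rfl fun y _ => ?_
      by_cases h2 : y ∈ E
      · simp only [if_pos h2]
      · have h3 : y ≠ x := fun h3 => h2 (h3 ▸ h1)
        simp only [if_neg h2, if_neg h3]
    · exact (prod_eq_zero (mem_univ x) (by simp [h1])).symm
  simp only [h]
  rw [sum_prod_ite, wt, ← mul_prod_erase _ _ (mem_univ x), ← mul_prod_erase _ _ (mem_univ x),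
    ← mul_assoc, ← mul_assoc]
  congr 1
  · by_cases h1 : x ∈ G <;> simp [cst, h1, hx]
    ring
  · refine prod_congr rfl fun y hy => ?_
    have h3 : y ≠ x := ne_of_mem_erase hy
    rw [if_neg h3, bern_factor]
    simp only [mem_insert, h3, false_or]

lemma bern_insert (F : Finset ι → ℝ) (x : ι) :
    ∑ E', (if x ∈ E' then 0 else F (insert x E')) = ∑ E, (if x ∈ E then F E else 0) := by
  have h1 : ∑ E', (if x ∈ E' then 0 else F (insert x E')) =
      ∑ E' ∈ univ.filter (fun E' : Finset ι => x ∉ E'), F (insert x E') := by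
    rw [sum_filter]
    exact sum_congr rfl fun E _ => by by_cases h : x ∈ E <;> simp [h]
  rw [h1, ← sum_filter]
  refine sum_nbij' (fun E => insert x E) (fun E => E.erase x) ?_ ?_ ?_ ?_ ?_
  · intro E _; simp
  · intro E _; simp
  · intro E hE; exact erase_insert (mem_filter.1 hE).2
  · intro E hE; exact insert_erase (mem_filter.1 hE).2
  · intro E _; rfl

/-- Concavity of the multilinear extension of a submodular function along the diagonal. -/
lemma scale_ineq (hu0 : 0 ≤ u) (hu1 : u ≤ 1) (hρ0 : 0 ≤ ρ) (hρ1 : ρ ≤ 1) (G : Finset ι)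
    (f : Finset ι → ℝ) (d : Finset ι → ι → ℝ)
    (hf : ∀ E E', E' ⊆ E → f E ≤ f E' + ∑ x ∈ E \ E', d (insert x E') x) :
    ρ * ∑ E, wt (cst u G) E * f E ≤ ρ * ∑ E, wt (cst (u * ρ) G) E * f E +
      (1 - ρ) * ∑ E, wt (cst (u * ρ) G) E * ∑ x ∈ E, d E x := by
  have h1 : ∑ E, wt (cst u G) E * f E ≤ ∑ E, ∑ E', wt (cst u G) E * wt (cst ρ E) E' *
      (f E' + ∑ x ∈ E \ E', d (insert x E') x) := by
    refine sum_le_sum fun E _ => ?_
    have h2 : wt (cst u G) E * f E = ∑ E', wt (cst u G) E * wt (cst ρ E) E' * f E := by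
      rw [← sum_mul, ← mul_sum, sum_wt, mul_one]
    rw [h2]
    refine sum_le_sum fun E' _ => ?_
    by_cases h3 : wt (cst ρ E) E' = 0
    · simp [h3]
    · exact mul_le_mul_of_nonneg_left (hf E E' (subset_of_wt h3))
        (mul_nonneg (wt_cst_nonneg hu0 hu1 G E) (wt_cst_nonneg hρ0 hρ1 E E'))
  have h4 : ∑ E, ∑ E', wt (cst u G) E * wt (cst ρ E) E' * f E' =
      ∑ E, wt (cst (u * ρ) G) E * f E := by
    rw [sum_comm]
    refine sum_congr rfl fun E' _ => ?_
    rw [← sum_mul, couple_one]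
  have h5 : ∀ E E' : Finset ι, wt (cst u G) E * wt (cst ρ E) E' * ∑ x ∈ E \ E', d (insert x E') x =
      ∑ x, if x ∈ E' then 0 else
        (if x ∈ E then wt (cst u G) E * wt (cst ρ E) E' else 0) * d (insert x E') x := by
    intro E E'
    rw [mul_sum, ← univ_inter (E \ E'), ← sum_ite_mem]
    refine sum_congr rfl fun x _ => ?_
    by_cases a1 : x ∈ E <;> by_cases a2 : x ∈ E' <;> simp [a1, a2]
  have h6 : ρ * ∑ E, ∑ E', wt (cst u G) E * wt (cst ρ E) E' * ∑ x ∈ E \ E', d (insert x E') x =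
      (1 - ρ) * ∑ E, wt (cst (u * ρ) G) E * ∑ x ∈ E, d E x := by
    have h7 : ∀ E : Finset ι, wt (cst (u * ρ) G) E * ∑ x ∈ E, d E x =
        ∑ x, if x ∈ E then wt (cst (u * ρ) G) E * d E x else 0 := by
      intro E
      rw [mul_sum, sum_ite_mem, univ_inter]
    simp only [h5, h7]
    rw [sum_comm, sum_comm (f := fun E x => if x ∈ E then wt (cst (u * ρ) G) E * d E x else 0),
      mul_sum, mul_sum]
    have h8 : ∀ x, (1 - ρ) * ∑ E, (if x ∈ E then wt (cst (u * ρ) G) E * d E x else 0) =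
        ∑ E', (1 - ρ) * (if x ∈ E' then 0 else
          wt (cst (u * ρ) G) (insert x E') * d (insert x E') x) := by
      intro x
      rw [← mul_sum, bern_insert (fun E => wt (cst (u * ρ) G) E * d E x) x]
    simp only [h8]
    rw [sum_comm (f := fun x E' => (1 - ρ) * (if x ∈ E' then 0 else
      wt (cst (u * ρ) G) (insert x E') * d (insert x E') x))]
    refine sum_congr rfl fun E' _ => ?_
    rw [sum_comm, mul_sum]
    refine sum_congr rfl fun x _ => ?_
    by_cases a2 : x ∈ E'
    · simp [a2]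
    · simp only [if_neg a2]
      rw [← sum_mul, ← mul_assoc, couple_two u ρ G E' a2, mul_assoc]
  have h9 := mul_le_mul_of_nonneg_left h1 hρ0
  simp only [mul_add (wt (cst u G) _ * _), sum_add_distrib] at h9
  rw [mul_add, h4, h6] at h9
  exact h9

lemma sum_pow_card (c : ℝ) : ∑ F : Finset ι, c ^ F.card = (1 + c) ^ Fintype.card ι := by
  have h := sum_prod_ite (ι := ι) (fun _ => c) fun _ => 1
  simp only [bern_prod_mem, prod_const, card_univ] at h
  rw [h, add_comm]

end Pool.Agent.MP_47ff19_lc.H66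

end

-- part MP_47ff19_lc.H66.Thin
section

/-! Value-dependent thinning turns small total correlation into small deficiency. -/

namespace Pool.Agent.MP_47ff19_lc.H66

open Finset

set_option linter.unusedSectionVars false

variable {ι : Type} [Fintype ι] [DecidableEq ι] {ν : (ι → Bool) → ℝ}

lemma keep_nonneg (hν : ∀ z, 0 ≤ ν z) (E : Finset ι) (z : ι → Bool) (x : ι) :
    0 ≤ keep ν E z x := by
  unfold keep
  split_ifs
  · exact div_nonneg (le_min (avg_nonneg hν _ _) (avg_nonneg hν _ _)) (avg_nonneg hν _ _)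
  · exact le_rfl

lemma keep_le_one (hν : ∀ z, 0 ≤ ν z) (E : Finset ι) (z : ι → Bool) (x : ι) :
    keep ν E z x ≤ 1 := by
  unfold keep
  split_ifs
  · exact div_le_one_of_le₀ (min_le_left _ _) (avg_nonneg hν _ _)
  · exact zero_le_one

lemma subset_of_keep {E F : Finset ι} {z : ι → Bool} (h : wt (keep ν E z) F ≠ 0) : F ⊆ E := by
  intro x hx
  by_contra hE
  exact ne_zero_of_wt h hx (by simp [keep, hE])

lemma agr_flip {E : Finset ι} {w z : ι → Bool} (h : Agr E w z) (x : ι) :
    Agr E (H51.flip x w) (H51.flip x z) := by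
  intro i hi
  by_cases hx : i = x
  · subst hx
    rw [H51.flip_self, H51.flip_self, h i hi]
  · rw [H51.flip_ne hx, H51.flip_ne hx, h i hi]

lemma agr_erase {E : Finset ι} {w z : ι → Bool} (h : Agr E w z) {x : ι} (hx : w x = z x) :
    Agr (E.erase x) w z := by
  intro i hi
  by_cases hi' : i = x
  · rw [hi', hx]
  · exact h i fun h' => hi (mem_erase.2 ⟨hi', h'⟩)

lemma agr_flip_self {E : Finset ι} {x : ι} (hx : x ∈ E) (z : ι → Bool) :
    Agr E z (H51.flip x z) := fun i hi =>
  (H51.flip_ne (fun h => hi (by rw [h]; exact hx)) z).symm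

lemma min_inv {E : Finset ι} {x : ι} (hx : x ∈ E) {w z : ι → Bool} (h : Agr E w z) :
    min (avg (E.erase x) ν w) (avg (E.erase x) ν (H51.flip x w)) =
      min (avg (E.erase x) ν z) (avg (E.erase x) ν (H51.flip x z)) := by
  by_cases hwz : w x = z x
  · rw [avg_inv _ ν _ _ (agr_erase h hwz), avg_inv _ ν _ _ (agr_flip (agr_erase h hwz) x)]
  · have h1 : Agr E w (H51.flip x z) := fun i hi => (h i hi).trans (agr_flip_self hx z i hi)
    have h2 : w x = H51.flip x z x := by
      rw [H51.flip_self]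
      revert hwz
      cases w x <;> cases z x <;> simp
    have h3 := agr_flip (agr_erase h1 h2) x
    rw [H51.flip_flip] at h3
    rw [avg_inv _ ν _ _ (agr_erase h1 h2), avg_inv _ ν _ _ h3, min_comm]

lemma avg_erase {E : Finset ι} {x : ι} (hx : x ∈ E) :
    avg {x} (avg (E.erase x) ν) = avg E ν := by
  rw [avg_avg, ← insert_eq, insert_erase hx]

/-- The product of the conditional marginals. -/
noncomputable def prodRef (ν : (ι → Bool) → ℝ) (E : Finset ι) (z : ι → Bool) : ℝ :=
  avg E ν z * ∏ x ∈ E, avg (E.erase x) ν z / avg E ν z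

lemma sum_partial (E E1 : Finset ι) (h : E1 ⊆ E) :
    ∑ z, avg E ν z * ∏ x ∈ E1, avg (E.erase x) ν z / avg E ν z = ∑ z, ν z := by
  induction E1 using Finset.induction_on with
  | empty => simpa using sum_avg E ν
  | insert x E1 hx ih =>
    have hxE : x ∈ E := h (mem_insert_self _ _)
    rw [← ih fun y hy => h (mem_insert_of_mem hy)]
    have hI : Inv {x} fun z =>
        avg E ν z * (∏ y ∈ E1, avg (E.erase y) ν z / avg E ν z) / avg E ν z := by
      intro w z hwz
      have e1 : avg E ν w = avg E ν z := (avg_inv E ν).mono (singleton_subset_iff.2 hxE) w z hwz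
      simp only [e1]
      congr 2
      refine prod_congr rfl fun y hy => ?_
      rw [(avg_inv (E.erase y) ν).mono (singleton_subset_iff.2
        (mem_erase.2 ⟨fun e : x = y => hx (by rw [e]; exact hy), hxE⟩)) w z hwz]
    have key := sum_inv_mul hI (avg (E.erase x) ν)
    rw [avg_erase hxE] at key
    have e2 : ∀ z, avg E ν z * ∏ y ∈ insert x E1, avg (E.erase y) ν z / avg E ν z =
        avg E ν z * (∏ y ∈ E1, avg (E.erase y) ν z / avg E ν z) / avg E ν z *
          avg (E.erase x) ν z := fun z => by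
      rw [prod_insert hx]
      ring
    simp only [e2]
    rw [← key]
    refine sum_congr rfl fun z _ => ?_
    by_cases hz : avg E ν z = 0
    · simp [hz]
    · rw [div_mul_cancel₀ _ hz]

lemma prodRef_inv (hν : ∀ z, 0 ≤ ν z) (E F : Finset ι) :
    Inv F fun z => prodRef ν E z * wt (keep ν E z) F := by
  intro w z h
  by_cases hF : F ⊆ E
  swap
  · have h0 : ∀ v, wt (keep ν E v) F = 0 := fun v => by
      by_contra h'
      exact hF (subset_of_keep h')
    simp only [h0, mul_zero]
  have hE : Agr E w z := fun i hi => h i fun h' => hi (hF h')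
  have e1 : avg E ν w = avg E ν z := avg_inv E ν w z hE
  have e2 : ∀ v, prodRef ν E v * wt (keep ν E v) F = avg E ν v *
      ∏ x, ((if x ∈ E then avg (E.erase x) ν v / avg E ν v else 1) *
        if x ∈ F then keep ν E v x else 1 - keep ν E v x) := fun v => by
    rw [prod_mul_distrib, prod_ite_mem, univ_inter, prodRef, wt, mul_assoc]
  have e3 : ∀ (v : ι → Bool) (x : ι) (c : ℝ), avg (E.erase x) ν v / c *
      (min (avg (E.erase x) ν v) (avg (E.erase x) ν (H51.flip x v)) / avg (E.erase x) ν v) =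
      min (avg (E.erase x) ν v) (avg (E.erase x) ν (H51.flip x v)) / c := fun v x c => by
    by_cases h0 : avg (E.erase x) ν v = 0
    · rw [h0, min_eq_left (avg_nonneg hν _ _)]
      simp
    · field_simp
  simp only [e2, e1]
  congr 1
  refine prod_congr rfl fun x _ => ?_
  by_cases hxE : x ∈ E
  · by_cases hxF : x ∈ F
    · simp only [hxE, hxF, keep, if_true]
      rw [e3, e3, min_inv hxE hE]
    · simp only [hxE, hxF, keep, if_true, if_false]
      rw [min_inv hxE hE, avg_inv _ ν _ _ (agr_erase hE (h x hxF))]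
  · have hxF : x ∉ F := fun h' => hxE (hF h')
    simp [hxE, hxF, keep]

lemma prodRef_pos (hν : ∀ z, 0 ≤ ν z) (E : Finset ι) {z : ι → Bool} (hz : ν z ≠ 0) :
    0 < prodRef ν E z :=
  mul_pos (avg_pos hν (fun _ _ => rfl) hz) (prod_pos fun _ _ =>
    div_pos (avg_pos hν (fun _ _ => rfl) hz) (avg_pos hν (fun _ _ => rfl) hz))

lemma prodRef_nonneg (hν : ∀ z, 0 ≤ ν z) (E : Finset ι) (z : ι → Bool) : 0 ≤ prodRef ν E z :=
  mul_nonneg (avg_nonneg hν _ _) (prod_nonneg fun _ _ =>
    div_nonneg (avg_nonneg hν _ _) (avg_nonneg hν _ _))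

lemma sum_phi_prodRef (hν : ∀ z, 0 ≤ ν z) (E : Finset ι) :
    ∑ z, phi (ν z) (prodRef ν E z) = dfc ν E - ∑ x ∈ E, dm ν E x := by
  have e1 : ∀ z, ν z * Real.log (ν z / prodRef ν E z) =
      ν z * Real.log (ν z) - ν z * Real.log (avg E ν z) -
        ∑ x ∈ E, (ν z * Real.log (avg (E.erase x) ν z) - ν z * Real.log (avg E ν z)) := by
    intro z
    by_cases hz : ν z = 0
    · simp [hz]
    have hp : ∀ X : Finset ι, avg X ν z ≠ 0 := fun X => (avg_pos hν (fun _ _ => rfl) hz).ne'
    rw [Real.log_div hz (prodRef_pos hν E hz).ne', prodRef,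
      Real.log_mul (hp _) (prod_ne_zero_iff.2 fun x _ => div_ne_zero (hp _) (hp _)),
      Real.log_prod fun x _ => div_ne_zero (hp _) (hp _)]
    simp only [Real.log_div (hp _) (hp _), ← mul_sub, ← mul_sum]
    ring
  have e2 : ∑ z, prodRef ν E z = ∑ z, ν z := sum_partial E E Subset.rfl
  simp only [phi, sum_add_distrib, sum_sub_distrib, e1, e2, dfc, dm, psi, avg_empty]
  rw [sum_comm (s := univ) (t := E), sum_comm (s := univ) (t := E)]
  ring

theorem thin_ref (hν : ∀ z, 0 ≤ ν z) (E : Finset ι) :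
    ∃ ρ : Finset ι → (ι → Bool) → ℝ, (∀ F z, 0 ≤ ρ F z) ∧ (∀ F, Inv F (ρ F)) ∧
      (∀ F z, ρ F z = 0 → ν z * wt (keep ν E z) F = 0) ∧
      ∑ F, ∑ z, phi (ν z * wt (keep ν E z) F) (ρ F z) ≤ dfc ν E - ∑ x ∈ E, dm ν E x := by
  refine ⟨fun F z => prodRef ν E z * wt (keep ν E z) F, fun F z =>
    mul_nonneg (prodRef_nonneg hν E z) (wt_nonneg (keep_nonneg hν E z) (keep_le_one hν E z) F),
    prodRef_inv hν E, fun F z h => ?_, ?_⟩
  · by_cases hz : ν z = 0
    · rw [hz, zero_mul]
    · rw [(mul_eq_zero.1 h).resolve_left (prodRef_pos hν E hz).ne', mul_zero]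
  · rw [sum_comm, ← sum_phi_prodRef hν E]
    refine le_of_eq (sum_congr rfl fun z _ => ?_)
    simp only [phi_mul, ← mul_sum, sum_wt, mul_one]

lemma two_point_le {a b : ℝ} (ha : 0 ≤ a) (hab : a ≤ b) :
    0 ≤ a * (min a b / a + Real.log a - Real.log ((a + b) / 2) - 1 / 2) +
      b * (min b a / b + Real.log b - Real.log ((a + b) / 2) - 1 / 2) := by
  have l2 := Real.log_two_gt_d9
  have l2' := Real.log_two_lt_d9
  rw [min_eq_left hab, min_eq_right hab]
  rcases ha.eq_or_lt with rfl | ha'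
  · rcases hab.eq_or_lt with rfl | hb
    · simp
    · rw [zero_add, Real.log_div hb.ne' two_ne_zero]
      simp only [zero_mul, zero_div, zero_add]
      nlinarith
  have hb : 0 < b := ha'.trans_le hab
  obtain ⟨s, hs⟩ : ∃ s, s = (a + b) / 2 := ⟨_, rfl⟩
  rw [← hs]
  have hs0 : 0 < s := by linarith
  have l74 : 1 / 2 ≤ Real.log (7 / 4) := by
    rw [Real.le_log_iff_exp_le (by norm_num)]
    have e1 : Real.exp (1 / 2) * Real.exp (1 / 2) = Real.exp 1 := by
      rw [← Real.exp_add]; norm_num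
    have := Real.exp_one_lt_d9
    have := Real.exp_pos (1 / 2)
    nlinarith
  have h1 := Real.log_le_sub_one_of_pos (x := s / (2 * 2 * a)) (by positivity)
  have h2 := Real.log_le_sub_one_of_pos (x := 7 / 4 * s / b) (by positivity)
  rw [Real.log_div hs0.ne' (by positivity), Real.log_mul (by norm_num) ha'.ne',
    Real.log_mul (by norm_num) (by norm_num)] at h1
  rw [Real.log_div (by positivity) hb.ne', Real.log_mul (by norm_num) hs0.ne'] at h2
  have h3 := mul_le_mul_of_nonneg_left h1 ha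
  have h4 := mul_le_mul_of_nonneg_left h2 hb.le
  have e3 : a * (s / (2 * 2 * a) - 1) = s / 4 - a := by field_simp; ring
  have e4 : b * (7 / 4 * s / b - 1) = 7 / 4 * s - b := by field_simp
  have e5 : a * (a / a) = a := by field_simp
  have e6 : b * (a / b) = a := by field_simp
  rw [e3] at h3
  rw [e4] at h4
  have h5 := mul_le_mul_of_nonneg_left l74 hb.le
  have h6 := mul_le_mul_of_nonneg_left l2'.le ha
  nlinarith

lemma two_point {a b : ℝ} (ha : 0 ≤ a) (hb : 0 ≤ b) :
    0 ≤ a * (min a b / a + Real.log a - Real.log ((a + b) / 2) - 1 / 2) +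
      b * (min b a / b + Real.log b - Real.log ((a + b) / 2) - 1 / 2) := by
  rcases le_total a b with h | h
  · exact two_point_le ha h
  · have := two_point_le hb h
    rw [add_comm b a] at this
    linarith

lemma keep_coord (hν : ∀ z, 0 ≤ ν z) {E : Finset ι} {x : ι} (hx : x ∈ E) :
    1 / 2 * ∑ z, ν z - dm ν E x ≤ ∑ z, ν z * keep ν E z x := by
  obtain ⟨ψ, hψ⟩ : ∃ ψ : (ι → Bool) → ℝ, ∀ z, ψ z = keep ν E z x +
    Real.log (avg (E.erase x) ν z) - Real.log (avg E ν z) - 1 / 2 := ⟨_, fun _ => rfl⟩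
  have hI : Inv (E.erase x) ψ := by
    intro w z h
    have hE : Agr E w z := fun i hi => h i fun h' => hi (mem_of_mem_erase h')
    simp only [hψ, keep, hx, if_true]
    rw [min_inv hx hE, avg_inv _ ν w z h, avg_inv _ ν w z hE]
  have h1 := sum_inv_mul hI ν
  have h2 := H51.sum_flip x fun z => ψ z * avg (E.erase x) ν z
  have h3 : 0 ≤ ∑ z, (ψ z * avg (E.erase x) ν z +
      ψ (H51.flip x z) * avg (E.erase x) ν (H51.flip x z)) := by
    refine sum_nonneg fun z _ => ?_
    have e1 : avg E ν z = (avg (E.erase x) ν z + avg (E.erase x) ν (H51.flip x z)) / 2 := by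
      rw [← avg_erase hx, avg_single]
    have e2 : avg E ν (H51.flip x z) = avg E ν z := (avg_inv E ν _ _ (agr_flip_self hx z)).symm
    have := two_point (avg_nonneg hν (E.erase x) z) (avg_nonneg hν (E.erase x) (H51.flip x z))
    simp only [hψ, keep, hx, if_true, H51.flip_flip, e2]
    rw [e1]
    linarith
  rw [sum_add_distrib, h2, h1] at h3
  have h4 : ∑ z, ψ z * ν z = ∑ z, ν z * keep ν E z x + dm ν E x - 1 / 2 * ∑ z, ν z := by
    simp only [hψ, dm, psi, mul_sum, ← sum_add_distrib, ← sum_sub_distrib]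
    exact sum_congr rfl fun z _ => by ring
  linarith

theorem thin_size (hν : ∀ z, 0 ≤ ν z) (E : Finset ι) :
    (E.card : ℝ) / 2 * ∑ z, ν z - ∑ x ∈ E, dm ν E x ≤
      ∑ F, ∑ z, ν z * wt (keep ν E z) F * F.card := by
  have e1 : ∀ z, ∑ F, ν z * wt (keep ν E z) F * F.card = ∑ x ∈ E, ν z * keep ν E z x := by
    intro z
    have h := wt_sum (keep ν E z) fun _ => 1
    simp only [sum_const, nsmul_eq_mul, mul_one] at h
    simp only [mul_assoc, ← mul_sum, h]
    congr 1
    exact (sum_subset (subset_univ E) fun x _ hx => by simp [keep, hx]).symm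
  rw [sum_comm]
  simp only [e1]
  rw [sum_comm]
  have h := sum_le_sum fun x (hx : x ∈ E) => keep_coord hν hx
  rw [sum_sub_distrib, sum_const, nsmul_eq_mul] at h
  linarith

end Pool.Agent.MP_47ff19_lc.H66

end

-- part MP_47ff19_lc.H66.Step
section

/-! One step: a smaller free set that avoids a determined set and has tiny deficiency. -/

namespace Pool.Agent.MP_47ff19_lc.H66

open Finset

set_option linter.unusedSectionVars false

variable {ι : Type} [Fintype ι] [DecidableEq ι]

/-- The part of a weight on which the avoided set is `B`. -/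
noncomputable def atom (A : (ι → Bool) → Finset ι) (ν : (ι → Bool) → ℝ) (B : Finset ι)
    (z : ι → Bool) : ℝ := if A z = B then ν z else 0

lemma atom_nonneg {A : (ι → Bool) → Finset ι} {ν : (ι → Bool) → ℝ} (h : ∀ z, 0 ≤ ν z)
    (B : Finset ι) (z : ι → Bool) : 0 ≤ atom A ν B z := by
  unfold atom
  split_ifs
  · exact h z
  · exact le_rfl

lemma sum_atom (A : (ι → Bool) → Finset ι) (ν : (ι → Bool) → ℝ) (z : ι → Bool)
    (f : Finset ι → ℝ) : ∑ B, atom A ν B z * f B = ν z * f (A z) := by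
  simp [atom]

open Classical in
/-- The reference weight of an atom. -/
noncomputable def atomRef (S : Finset (ι → Bool)) (A : (ι → Bool) → Finset ι)
    (ν : (ι → Bool) → ℝ) (u : ℝ) (F B E : Finset ι) (z : ι → Bool) : ℝ :=
  avg F ν z * (1 - u) ^ (B ∩ F).card * if ∃ z' ∈ S, A z' = B ∧ Agr E z z' then 1 else 0

lemma atom_dfc {S : Finset (ι → Bool)} {A : (ι → Bool) → Finset ι} {ν : (ι → Bool) → ℝ}
    (h0 : ∀ z, 0 ≤ ν z) (hS : ∀ z, ν z ≠ 0 → z ∈ S) {u : ℝ} (hu : u < 1) {F B E : Finset ι}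
    (hE : E ⊆ F) :
    dfc (atom A ν B) E ≤ ∑ z, atom A (fun z => ν z * Real.log (ν z / avg F ν z) -
      ν z * (A z ∩ F).card * Real.log (1 - u) - ν z) B z + ∑ z, atomRef S A ν u F B E z := by
  classical
  have hu' : 0 < 1 - u := sub_pos.2 hu
  have hval : ∀ z, A z = B → ν z ≠ 0 →
      atomRef S A ν u F B E z = avg F ν z * (1 - u) ^ (B ∩ F).card := fun z h1 h2 => by
    rw [atomRef, if_pos ⟨z, hS z h2, h1, fun _ _ => rfl⟩, mul_one]
  refine (dfc_le (ρ := atomRef S A ν u F B E) (atom_nonneg h0 B) (fun z => ?_) ?_ ?_).trans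
    (le_of_eq ?_)
  · refine mul_nonneg (mul_nonneg (avg_nonneg h0 _ _) (by positivity)) ?_
    split_ifs
    · exact zero_le_one
    · exact le_rfl
  · intro w z h
    have e : (∃ z' ∈ S, A z' = B ∧ Agr E w z') ↔ ∃ z' ∈ S, A z' = B ∧ Agr E z z' :=
      ⟨fun ⟨v, h1, h2, h3⟩ => ⟨v, h1, h2, fun i hi => (h i hi).symm.trans (h3 i hi)⟩,
        fun ⟨v, h1, h2, h3⟩ => ⟨v, h1, h2, fun i hi => (h i hi).trans (h3 i hi)⟩⟩
    simp only [atomRef, e, (avg_inv F ν).mono hE w z h]
  · intro z hz
    by_contra h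
    have h1 : A z = B := by
      by_contra h1
      exact h (if_neg h1)
    have h2 : ν z ≠ 0 := fun h2 => h (by simp [atom, h2])
    rw [hval z h1 h2] at hz
    exact (mul_pos (avg_pos h0 (fun _ _ => rfl) h2) (pow_pos hu' _)).ne' hz
  · rw [← sum_add_distrib]
    refine sum_congr rfl fun z _ => ?_
    by_cases h1 : A z = B
    · by_cases h2 : ν z = 0
      · simp [atom, phi, h2]
      · have hp := (avg_pos h0 (fun _ _ => rfl : Agr F z z) h2).ne'
        simp only [atom, h1, if_true, phi, hval z h1 h2]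
        rw [Real.log_div h2 (mul_ne_zero hp (pow_pos hu' _).ne'), Real.log_div h2 hp,
          Real.log_mul hp (pow_pos hu' _).ne', Real.log_pow]
        ring
    · simp [atom, phi, h1]

lemma sum_atomRef {S : Finset (ι → Bool)} {A : (ι → Bool) → Finset ι} (hdet : Det S A)
    {ν : (ι → Bool) → ℝ} (h0 : ∀ z, 0 ≤ ν z) {u : ℝ} (hu0 : 0 ≤ u) (hu : u ≤ 1) (F : Finset ι) :
    ∑ B, ∑ E, wt (cst u (F \ B)) E * ∑ z, atomRef S A ν u F B E z ≤ ∑ z, ν z := by
  classical
  have e1 : ∀ B E z, wt (cst u (F \ B)) E * atomRef S A ν u F B E z =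
      wt (cst u F) E * avg F ν z *
        if Disjoint E B ∧ ∃ z' ∈ S, A z' = B ∧ Agr E z z' then 1 else 0 := by
    intro B E z
    have h := wt_avoid u F B E
    rw [atomRef, mul_comm (avg F ν z), ← mul_assoc, ← mul_assoc, h]
    by_cases h1 : Disjoint E B
    · simp only [h1, if_true, true_and]
    · simp only [h1, if_false, false_and, zero_mul, mul_zero]
  have e2 : ∀ E z, ∑ B : Finset ι,
      (if Disjoint E B ∧ ∃ z' ∈ S, A z' = B ∧ Agr E z z' then (1 : ℝ) else 0) ≤ 1 := by
    intro E z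
    rw [sum_boole]
    norm_cast
    refine card_le_one.2 fun B1 h1 B2 h2 => ?_
    obtain ⟨d1, z1, s1, rfl, a1⟩ := (mem_filter.1 h1).2
    obtain ⟨d2, z2, s2, rfl, a2⟩ := (mem_filter.1 h2).2
    exact hdet z1 s1 z2 s2 E (fun i hi => (a1 i hi).symm.trans (a2 i hi)) d1.symm d2.symm
  simp only [mul_sum, e1]
  rw [sum_comm]
  calc _ ≤ ∑ E, ∑ z, wt (cst u F) E * avg F ν z := by
        refine sum_le_sum fun E _ => ?_
        rw [sum_comm]
        refine sum_le_sum fun z _ => ?_
        rw [← mul_sum]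
        exact mul_le_of_le_one_right
          (mul_nonneg (wt_cst_nonneg hu0 hu _ _) (avg_nonneg h0 _ _)) (e2 E z)
    _ = ∑ z, ν z := by
        simp only [← mul_sum, ← sum_mul, sum_wt, one_mul, sum_avg]

/-- Subsampling off the avoided set costs little entropy. -/
lemma sub_cost {S : Finset (ι → Bool)} {A : (ι → Bool) → Finset ι} (hdet : Det S A)
    {ν : (ι → Bool) → ℝ} (h0 : ∀ z, 0 ≤ ν z) (hS : ∀ z, ν z ≠ 0 → z ∈ S) {u : ℝ} (hu0 : 0 ≤ u)
    (hu : u ≤ 1 / 2) (F : Finset ι) :
    ∑ B, ∑ E, wt (cst u (F \ B)) E * dfc (atom A ν B) E ≤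
      dfc ν F + 2 * u * ∑ z, ν z * (A z ∩ F).card := by
  obtain ⟨c, hc⟩ : ∃ c : (ι → Bool) → ℝ, c = fun z => ν z * Real.log (ν z / avg F ν z) -
      ν z * (A z ∩ F).card * Real.log (1 - u) - ν z := ⟨_, rfl⟩
  have h1 : ∑ B, ∑ E, wt (cst u (F \ B)) E * dfc (atom A ν B) E ≤
      ∑ B, ∑ E, (wt (cst u (F \ B)) E * ∑ z, atom A c B z +
        wt (cst u (F \ B)) E * ∑ z, atomRef S A ν u F B E z) := by
    refine sum_le_sum fun B _ => sum_le_sum fun E _ => ?_
    rw [← mul_add]
    by_cases hw : wt (cst u (F \ B)) E = 0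
    · rw [hw, zero_mul, zero_mul]
    · rw [hc]
      exact mul_le_mul_of_nonneg_left
        (atom_dfc h0 hS (by linarith) ((subset_of_wt hw).trans sdiff_subset))
        (wt_cst_nonneg hu0 (by linarith) _ _)
  have h2 := sum_atomRef hdet h0 hu0 (by linarith) F
  have h3 : ∑ B, ∑ E, wt (cst u (F \ B)) E * ∑ z, atom A c B z = ∑ z, c z := by
    simp only [← sum_mul, sum_wt, one_mul]
    rw [sum_comm]
    refine sum_congr rfl fun z _ => ?_
    simpa using sum_atom A c z fun _ => 1
  simp only [sum_add_distrib] at h1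
  rw [h3] at h1
  have h4 : -Real.log (1 - u) ≤ 2 * u := by
    have := Real.log_le_sub_one_of_pos (x := (1 - u)⁻¹) (inv_pos.2 (by linarith))
    rw [Real.log_inv] at this
    refine this.trans ?_
    rw [sub_le_iff_le_add, inv_le_comm₀ (by linarith) (by linarith), inv_eq_one_div,
      div_le_iff₀ (by linarith)]
    nlinarith
  have h5 : ∑ z, c z = dfc ν F + -Real.log (1 - u) * ∑ z, ν z * (A z ∩ F).card - ∑ z, ν z := by
    rw [dfc_eq h0, hc, mul_sum, ← sum_add_distrib, ← sum_sub_distrib]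
    exact sum_congr rfl fun z _ => by ring
  have h6 : 0 ≤ ∑ z, ν z * (A z ∩ F).card :=
    sum_nonneg fun z _ => mul_nonneg (h0 z) (Nat.cast_nonneg _)
  have h7 := mul_le_mul_of_nonneg_right h4 h6
  linarith

/-- The mixture of the thinned atoms. -/
noncomputable def mixThin {κ : Type} [Fintype κ] (c : κ → ℝ) (ν : κ → (ι → Bool) → ℝ)
    (E : κ → Finset ι) (F : Finset ι) (z : ι → Bool) : ℝ :=
  ∑ p, ν p z * wt (keep (ν p) (E p) z) F * c p

section

variable {κ : Type} [Fintype κ] {c : κ → ℝ} {ν : κ → (ι → Bool) → ℝ}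

lemma mix_term_nonneg (hc : ∀ p, 0 ≤ c p) (hν : ∀ p z, 0 ≤ ν p z) (E : κ → Finset ι)
    (F : Finset ι) (z : ι → Bool) (p : κ) : 0 ≤ ν p z * wt (keep (ν p) (E p) z) F * c p :=
  mul_nonneg (mul_nonneg (hν p z)
    (wt_nonneg (keep_nonneg (hν p) _ _) (keep_le_one (hν p) _ _) _)) (hc p)

lemma mix_nonneg (hc : ∀ p, 0 ≤ c p) (hν : ∀ p z, 0 ≤ ν p z) (E : κ → Finset ι)
    (F : Finset ι) (z : ι → Bool) : 0 ≤ mixThin c ν E F z :=
  sum_nonneg fun p _ => mix_term_nonneg hc hν E F z p

lemma mix_dtot (hc : ∀ p, 0 ≤ c p) (hν : ∀ p z, 0 ≤ ν p z) (E : κ → Finset ι) :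
    dtot (mixThin c ν E) ≤
      ∑ p, c p * dfc (ν p) (E p) - ∑ p, c p * ∑ x ∈ E p, dm (ν p) (E p) x := by
  choose ρ h0 hI hac hle using fun p => thin_ref (hν p) (E p)
  have hac' : ∀ F z p, ρ p F z * c p = 0 → ν p z * wt (keep (ν p) (E p) z) F * c p = 0 := by
    intro F z p h
    rcases mul_eq_zero.1 h with h | h
    · rw [hac p F z h, zero_mul]
    · rw [h, mul_zero]
  have h1 : ∀ F, dfc (mixThin c ν E F) F ≤
      ∑ z, ∑ p, phi (ν p z * wt (keep (ν p) (E p) z) F) (ρ p F z) * c p := by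
    intro F
    refine (dfc_le (ρ := fun z => ∑ p, ρ p F z * c p) (mix_nonneg hc hν E F)
      (fun z => sum_nonneg fun p _ => mul_nonneg (h0 p F z) (hc p)) ?_ ?_).trans ?_
    · intro w z h
      exact sum_congr rfl fun p _ => by rw [hI p F w z h]
    · intro z hz
      rw [sum_eq_zero_iff_of_nonneg fun p _ => mul_nonneg (h0 p F z) (hc p)] at hz
      exact sum_eq_zero fun p hp => hac' F z p (hz p hp)
    · refine sum_le_sum fun z _ => ?_
      simp only [← phi_mul]
      exact phi_sum_le univ _ _ (mix_term_nonneg hc hν E F z)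
        (fun p => mul_nonneg (h0 p F z) (hc p)) (hac' F z)
  refine (sum_le_sum fun F _ => h1 F).trans ?_
  rw [← sum_sub_distrib]
  calc _ = ∑ p, (∑ F, ∑ z, phi (ν p z * wt (keep (ν p) (E p) z) F) (ρ p F z)) * c p := by
        simp only [sum_mul]
        symm
        rw [sum_comm]
        refine sum_congr rfl fun F _ => ?_
        rw [sum_comm]
    _ ≤ _ := sum_le_sum fun p _ => by
        rw [← mul_sub, mul_comm]
        exact mul_le_mul_of_nonneg_left (hle p) (hc p)

lemma mix_sz (hc : ∀ p, 0 ≤ c p) (hν : ∀ p z, 0 ≤ ν p z) (E : κ → Finset ι) :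
    1 / 2 * ∑ p, c p * (E p).card * ∑ z, ν p z - ∑ p, c p * ∑ x ∈ E p, dm (ν p) (E p) x ≤
      sz (mixThin c ν E) := by
  rw [mul_sum, ← sum_sub_distrib]
  calc _ ≤ ∑ p, c p * ∑ F, ∑ z, ν p z * wt (keep (ν p) (E p) z) F * F.card :=
        sum_le_sum fun p _ => by
          have := mul_le_mul_of_nonneg_left (thin_size (hν p) (E p)) (hc p)
          linarith
    _ = _ := by
        simp only [sz, mixThin, mul_sum, sum_mul]
        rw [sum_comm]
        refine sum_congr rfl fun F _ => ?_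
        rw [sum_comm]
        exact sum_congr rfl fun z _ => sum_congr rfl fun p _ => by ring

lemma mix_up (hc : ∀ p, 0 ≤ c p) (hν : ∀ p z, 0 ≤ ν p z) (E : κ → Finset ι) (E0 : Finset ι)
    (z : ι → Bool) :
    up (mixThin c ν E) E0 z ≤ ∑ p, ν p z * if E0 ⊆ E p then c p else 0 := by
  have e : up (mixThin c ν E) E0 z =
      ∑ p, ν p z * (∑ F, if E0 ⊆ F then wt (keep (ν p) (E p) z) F else 0) * c p := by
    simp only [up, mixThin, mul_sum, sum_mul]
    rw [sum_comm]
    refine sum_congr rfl fun F _ => ?_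
    split_ifs <;> simp
  rw [e]
  refine sum_le_sum fun p _ => ?_
  rw [wt_sup, mul_assoc]
  refine mul_le_mul_of_nonneg_left ?_ (hν p z)
  split_ifs with h
  · exact mul_le_of_le_one_left (hc p)
      (prod_le_one (fun x _ => keep_nonneg (hν p) _ _ x) fun x _ => keep_le_one (hν p) _ _ x)
  · obtain ⟨x, hx, hx'⟩ := not_subset.1 h
    rw [prod_eq_zero hx (by simp [keep, hx']), zero_mul]

end

/-- Pigeonhole over the scales. -/
lemma pick_scale (M : ℕ) (hM : 2 ≤ M) {s : ℝ} (hs : 0 ≤ s) (Df Dm : ℝ → ℝ)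
    (h0 : ∀ u, 0 ≤ u → u ≤ 1 → 0 ≤ Dm u) (h1 : ∀ u, 0 ≤ u → u ≤ 1 → Dm u ≤ Df u)
    (h2 : ∀ u, 0 ≤ u → u ≤ 1 / 2 → Df u ≤ s / (14 * (M : ℝ) ^ (M + 1)) + 2 * u * (s / 14))
    (h3 : ∀ u ρ, 0 ≤ u → u ≤ 1 → 0 ≤ ρ → ρ ≤ 1 →
      ρ * Df u ≤ ρ * Df (u * ρ) + (1 - ρ) * Dm (u * ρ)) :
    ∃ u : ℝ, 1 / (M : ℝ) ^ M ≤ u ∧ u ≤ 1 / M ∧ Df u - Dm u ≤ 3 * u * s / (7 * M) ∧
      Dm u ≤ 3 * u * s / 14 := by
  have hM2 : (2 : ℝ) ≤ M := by exact_mod_cast hM
  obtain ⟨v, hv⟩ : ∃ v : ℕ → ℝ, ∀ j, v j = 1 / (M : ℝ) ^ (j + 1) := ⟨_, fun _ => rfl⟩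
  have vpos : ∀ j, 0 < v j := fun j => by rw [hv]; positivity
  have vanti : ∀ i j, i ≤ j → v j ≤ v i := fun i j h => by
    rw [hv, hv]
    exact one_div_le_one_div_of_le (by positivity) (pow_le_pow_right₀ (by linarith) (by omega))
  have vM : ∀ j, v j ≤ 1 / M := fun j => by
    have := vanti 0 j (Nat.zero_le _)
    rwa [hv 0, zero_add, pow_one] at this
  have hhalf : 1 / (M : ℝ) ≤ 1 / 2 := one_div_le_one_div_of_le (by norm_num) hM2
  have vhalf : ∀ j, v j ≤ 1 / 2 := fun j => (vM j).trans hhalf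
  have vsucc : ∀ j, v j * (1 / M) = v (j + 1) := fun j => by
    rw [hv, hv, pow_succ _ (j + 1)]
    field_simp
  have hDf : ∀ j, j ≤ M → Df (v j) ≤ 3 * v j * s / 14 := fun j hj => by
    have e : s / (14 * (M : ℝ) ^ (M + 1)) = v M * (s / 14) := by
      rw [hv]
      field_simp
    have := h2 (v j) (vpos j).le (vhalf j)
    have h' := mul_le_mul_of_nonneg_right (vanti j M hj) (by positivity : 0 ≤ s / 14)
    rw [e] at this
    linarith
  have hDm : ∀ j, j ≤ M → Dm (v j) ≤ 3 * v j * s / 14 := fun j hj =>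
    (h1 _ (vpos j).le (by linarith [vhalf j])).trans (hDf j hj)
  obtain ⟨d, hd⟩ : ∃ d : ℕ → ℝ, ∀ j, Dm (v j) = d j * v j :=
    ⟨fun j => Dm (v j) / v j, fun j => (div_mul_cancel₀ _ (vpos j).ne').symm⟩
  have d0 : ∀ j, 0 ≤ d j := fun j => by
    have := h0 _ (vpos j).le (by linarith [vhalf j])
    rw [hd] at this
    exact nonneg_of_mul_nonneg_left this (vpos j)
  have dM : d M ≤ 3 * s / 14 := by
    have := hDm M le_rfl
    rw [hd] at this
    exact le_of_mul_le_mul_right (by linarith) (vpos M)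
  obtain ⟨j, hj, hjd⟩ : ∃ j ∈ range M, d (j + 1) - d j ≤ 3 * s / (14 * M) := by
    refine exists_le_of_sum_le ⟨0, mem_range.2 (by omega)⟩ ?_
    rw [sum_range_sub, sum_const, card_range, nsmul_eq_mul]
    have e : (M : ℝ) * (3 * s / (14 * M)) = 3 * s / 14 := by field_simp
    linarith [d0 0]
  have hjM := mem_range.1 hj
  refine ⟨v j, ?_, vM j, ?_, hDm j hjM.le⟩
  · have := vanti j (M - 1) (by omega)
    rwa [hv (M - 1), Nat.sub_add_cancel (by omega)] at this
  · have h := h3 (v j) (1 / M) (vpos j).le (by linarith [vhalf j]) (by positivity) (by linarith)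
    have h4 := hDf (j + 1) hjM
    rw [vsucc, hd (j + 1)] at h
    rw [← vsucc j] at h4
    have h5 : (1 - 1 / (M : ℝ)) * (d (j + 1) * v (j + 1)) ≤ 1 / M * (d (j + 1) * v j) := by
      rw [← vsucc j]
      have : 0 ≤ 1 / (M : ℝ) * (d (j + 1) * (v j * (1 / M))) :=
        mul_nonneg (by positivity) (mul_nonneg (d0 _) (mul_nonneg (vpos j).le (by positivity)))
      linarith
    have h6 : Df (v j) ≤ Df (v (j + 1)) + d (j + 1) * v j :=
      le_of_mul_le_mul_left (a := 1 / (M : ℝ)) (by linarith) (by positivity)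
    have h7 := mul_le_mul_of_nonneg_right hjd (vpos j).le
    have e1 : 3 * v j * s / (7 * M) = 3 * (v j * (1 / M)) * s / 14 + 3 * s / (14 * M) * v j := by
      field_simp
      ring
    rw [vsucc j] at h4 e1
    rw [hd, e1]
    linarith

theorem step (M : ℕ) (hM : 2 ≤ M) (S : Finset (ι → Bool)) (A : (ι → Bool) → Finset ι)
    (hdet : Det S A) (μ : Finset ι → (ι → Bool) → ℝ) (h0 : ∀ F z, 0 ≤ μ F z)
    (hS : ∀ F z, μ F z ≠ 0 → z ∈ S) (ha : ∑ F, ∑ z, μ F z * (A z ∩ F).card ≤ sz μ / 14)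
    (hd : dtot μ ≤ sz μ / (14 * (M : ℝ) ^ (M + 1))) :
    ∃ u : ℝ, 1 / (M : ℝ) ^ M ≤ u ∧ u ≤ 1 / M ∧ ∃ μ' : Finset ι → (ι → Bool) → ℝ,
      (∀ F z, 0 ≤ μ' F z) ∧ (∀ F' z, μ' F' z ≠ 0 → ∃ F, μ F z ≠ 0 ∧ F' ⊆ F \ A z) ∧
      (∀ E z, up μ' E z ≤ u ^ E.card * up μ E z) ∧ u * sz μ / 4 ≤ sz μ' ∧
      dtot μ' ≤ 2 / M * sz μ' := by
  obtain ⟨c, hc⟩ : ∃ c : ℝ → Finset ι × Finset ι × Finset ι → ℝ,
    ∀ u p, c u p = wt (cst u (p.1 \ p.2.1)) p.2.2 := ⟨_, fun _ _ => rfl⟩
  obtain ⟨ν, hν⟩ : ∃ ν : Finset ι × Finset ι × Finset ι → (ι → Bool) → ℝ,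
    ∀ p, ν p = atom A (μ p.1) p.2.1 := ⟨_, fun _ => rfl⟩
  have c0 : ∀ u, 0 ≤ u → u ≤ 1 → ∀ p, 0 ≤ c u p := fun u h h' p => by
    rw [hc]
    exact wt_cst_nonneg h h' _ _
  have ν0 : ∀ p z, 0 ≤ ν p z := fun p z => by
    rw [hν]
    exact atom_nonneg (h0 _) _ _
  have hs : 0 ≤ sz μ := sum_nonneg fun F _ => sum_nonneg fun z _ =>
    mul_nonneg (h0 F z) (Nat.cast_nonneg _)
  obtain ⟨u, hu1, hu2, hu3, hu4⟩ := pick_scale M hM hs
    (fun u => ∑ p, c u p * dfc (ν p) p.2.2)
    (fun u => ∑ p, c u p * ∑ x ∈ p.2.2, dm (ν p) p.2.2 x)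
    (fun u h h' => sum_nonneg fun p _ => mul_nonneg (c0 u h h' p)
      (sum_nonneg fun x _ => dm_nonneg (ν0 p) _ _))
    (fun u h h' => by
      have h1 := mix_dtot (c0 u h h') ν0 fun p => p.2.2
      have h2 : 0 ≤ dtot (mixThin (c u) ν fun p => p.2.2) :=
        sum_nonneg fun F _ => dfc_nonneg (mix_nonneg (c0 u h h') ν0 _ F) F
      linarith)
    (fun u h h' => by
      simp only [Fintype.sum_prod_type, hc, hν]
      refine (sum_le_sum fun F _ => sub_cost hdet (h0 F) (hS F) h h' F).trans ?_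
      rw [sum_add_distrib, ← mul_sum]
      exact add_le_add hd (mul_le_mul_of_nonneg_left ha (by linarith)))
    (fun u ρ h h' g g' => by
      simp only [Fintype.sum_prod_type, hc, hν]
      rw [mul_sum, mul_sum, mul_sum, ← sum_add_distrib]
      refine sum_le_sum fun F _ => ?_
      rw [mul_sum, mul_sum, mul_sum, ← sum_add_distrib]
      exact sum_le_sum fun B _ => scale_ineq h h' g g' _ _ _ fun E E' hE =>
        dfc_chain (atom_nonneg (h0 F) B) hE)
  have hM2 : (2 : ℝ) ≤ M := by exact_mod_cast hM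
  have u0 : 0 < u := lt_of_lt_of_le (by positivity) hu1
  have u1 : u ≤ 1 := hu2.trans ((div_le_one (by linarith)).2 (by linarith))
  have hsz : u * sz μ / 4 ≤ sz (mixThin (c u) ν fun p => p.2.2) := by
    have h1 := mix_sz (c0 u u0.le u1) ν0 fun p => p.2.2
    have h2 : ∑ p, c u p * (p.2.2.card : ℝ) * ∑ z, ν p z =
        u * (sz μ - ∑ F, ∑ z, μ F z * (A z ∩ F).card) := by
      simp only [Fintype.sum_prod_type, hc, hν, ← sum_mul]
      rw [sz, ← sum_sub_distrib, mul_sum]
      refine sum_congr rfl fun F _ => ?_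
      have e : ∀ G : Finset ι, ∑ E, wt (cst u G) E * (E.card : ℝ) = u * G.card := fun G => by
        have h := wt_sum (cst u G) fun _ => 1
        simp only [sum_const, nsmul_eq_mul, mul_one] at h
        rw [h]
        simp [cst, mul_comm]
      simp only [e, mul_sum]
      rw [sum_comm, ← sum_sub_distrib, mul_sum]
      refine sum_congr rfl fun z _ => ?_
      have h3 := sum_atom A (μ F) z fun B => u * ((F \ B).card : ℝ)
      have h4 : ((F \ A z).card : ℝ) + (A z ∩ F).card = F.card := by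
        rw [inter_comm]
        exact_mod_cast card_sdiff_add_card_inter F (A z)
      simp only [mul_comm (atom A (μ F) _ z)] at h3
      rw [h3, ← h4]
      ring
    rw [h2] at h1
    have h5 := mul_le_mul_of_nonneg_left ha u0.le
    linarith
  refine ⟨u, hu1, hu2, mixThin (c u) ν fun p => p.2.2, mix_nonneg (c0 u u0.le u1) ν0 _,
    fun F' z h => ?_, fun E z => ?_, hsz, ?_⟩
  · obtain ⟨p, -, hp⟩ := exists_ne_zero_of_sum_ne_zero h
    have h1 := left_ne_zero_of_mul (left_ne_zero_of_mul hp)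
    have h2 := subset_of_keep (right_ne_zero_of_mul (left_ne_zero_of_mul hp))
    have h3 := right_ne_zero_of_mul hp
    rw [hc] at h3
    rw [hν, atom] at h1
    have h4 : A z = p.2.1 := by
      by_contra h4
      exact h1 (if_neg h4)
    rw [if_pos h4] at h1
    exact ⟨p.1, h1, h4 ▸ h2.trans (subset_of_wt h3)⟩
  · refine (mix_up (c0 u u0.le u1) ν0 _ E z).trans ?_
    simp only [Fintype.sum_prod_type, hc, hν, ← mul_sum, wt_cst_sup, up]
    rw [mul_sum]
    refine sum_le_sum fun F _ => ?_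
    rw [sum_atom A (μ F) z fun B => if E ⊆ F \ B then u ^ E.card else 0]
    by_cases h : E ⊆ F \ A z
    · rw [if_pos h, if_pos (h.trans sdiff_subset), mul_comm]
    · rw [if_neg h, mul_zero]
      refine mul_nonneg (by positivity) ?_
      split_ifs
      · exact h0 F z
      · exact le_rfl
  · refine ((mix_dtot (c0 u u0.le u1) ν0 fun p => p.2.2).trans hu3).trans ?_
    refine le_trans ?_ (mul_le_mul_of_nonneg_left hsz (by positivity))
    have e : 2 / (M : ℝ) * (u * sz μ / 4) = 3 * u * sz μ / (7 * M) + u * sz μ / (14 * M) := by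
      field_simp
      ring
    rw [e]
    exact le_add_of_nonneg_right (by positivity)

end Pool.Agent.MP_47ff19_lc.H66

end
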