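import Pool.Agent.MP_47ff19_lc.H51.Defs
import Pool.Agent.MP_47ff19_lc.Mg.H66_Step
import Mathlib

-- part MP_47ff19_lc.H51.Cut
section

/-! Cutting the accepting walks of a branching program into four exchangeable segments. -/

namespace Pool.Agent.MP_47ff19_lc.H51

open Finset

section

variable {V : Type} {B : NBP V}

lemma NBP.Path.append {I : V → Bool} {s t u : Fin B.size} {l l' : List V}
    (h : B.Path I s l t) (h' : B.Path I t l' u) : B.Path I s (l ++ l') u := by
  induction h with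
  | nil s => exact h'
  | free he _ ih => exact NBP.Path.free he (ih h')
  | test v he _ ih => exact NBP.Path.test v he (ih h')

lemma NBP.Path.split {I : V → Bool} {s t : Fin B.size} {l : List V} (h : B.Path I s l t) :
    ∀ l1 l2, l = l1 ++ l2 → ∃ m, B.Path I s l1 m ∧ B.Path I m l2 t := by
  induction h with
  | nil s =>
    intro l1 l2 e
    obtain ⟨rfl, rfl⟩ := List.append_eq_nil_iff.1 e.symm
    exact ⟨s, NBP.Path.nil s, NBP.Path.nil s⟩
  | free he _ ih =>
    intro l1 l2 e
    obtain ⟨m, h1, h2⟩ := ih l1 l2 e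
    exact ⟨m, NBP.Path.free he h1, h2⟩
  | @test s s' t l v he hp ih =>
    intro l1 l2 e
    cases l1 with
    | nil =>
      refine ⟨s, NBP.Path.nil s, ?_⟩
      rw [List.nil_append] at e
      exact e ▸ NBP.Path.test v he hp
    | cons x l1 =>
      rw [List.cons_append, List.cons.injEq] at e
      obtain ⟨m, h1, h2⟩ := ih l1 l2 e.2
      exact ⟨m, e.1 ▸ NBP.Path.test v he h1, h2⟩

lemma NBP.Path.congr {I J : V → Bool} {s t : Fin B.size} {l : List V} (h : B.Path I s l t)
    (hJ : ∀ v ∈ l, J v = I v) : B.Path J s l t := by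
  induction h with
  | nil s => exact NBP.Path.nil s
  | free he _ ih => exact NBP.Path.free he (ih hJ)
  | test v he _ ih =>
    refine NBP.Path.test v ?_ (ih fun x hx => hJ x (List.mem_cons_of_mem _ hx))
    rw [hJ v List.mem_cons_self]
    exact he

end

section

variable {n : ℕ} {B : NBP (Fin n)} {Acc : (Fin n → Bool) → Prop}

lemma reads_all (hc : B.Computes Acc) (hs : ∀ w x, Acc w → ¬ Acc (flip x w))
    {w : Fin n → Bool} {l : List (Fin n)} (h : B.Path w B.source l B.sink) (x : Fin n) :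
    x ∈ l := by
  by_contra hx
  refine hs w x ((hc w).2 ⟨l, h⟩) ((hc _).2 ⟨l, h.congr fun v hv => flip_ne ?_ w⟩)
  rintro rfl
  exact hx hv

lemma exists_segments (hc : B.Computes Acc) (hr : B.ReadOnceAccept)
    (hs : ∀ w x, Acc w → ¬ Acc (flip x w)) {α β : ℕ} (hn : n = α + 3 * β)
    {z : Fin n → Bool} (hz : Acc z) :
    ∃ (m : Fin B.size × Fin B.size × Fin B.size) (ls : Fin 4 → List (Fin n)),
      (B.Path z B.source (ls 0) m.1 ∧ B.Path z m.1 (ls 1) m.2.1 ∧ B.Path z m.2.1 (ls 2) m.2.2 ∧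
        B.Path z m.2.2 (ls 3) B.sink) ∧ (ls 0).toFinset.card = α ∧
      (∀ j : Fin 3, (ls j.succ).toFinset.card = β) ∧
      ∀ i j, i ≠ j → Disjoint (ls i).toFinset (ls j).toFinset := by
  obtain ⟨l0, h0⟩ := (hc z).1 hz
  obtain ⟨l, h, hl⟩ := hr z l0 h0
  have hlen : l.length = n := by
    rw [← List.toFinset_card_of_nodup hl]
    have : l.toFinset = univ := eq_univ_of_forall fun x => List.mem_toFinset.2 (reads_all hc hs h x)
    rw [this, card_univ, Fintype.card_fin]
  obtain ⟨a, r1, rfl, ha⟩ : ∃ a r, l = a ++ r ∧ a.length = α :=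
    ⟨l.take α, l.drop α, (List.take_append_drop _ _).symm, by rw [List.length_take]; omega⟩
  rw [List.length_append] at hlen
  obtain ⟨b, r2, rfl, hb⟩ : ∃ a r, r1 = a ++ r ∧ a.length = β :=
    ⟨r1.take β, r1.drop β, (List.take_append_drop _ _).symm, by rw [List.length_take]; omega⟩
  rw [List.length_append] at hlen
  obtain ⟨c, d, rfl, hc'⟩ : ∃ a r, r2 = a ++ r ∧ a.length = β :=
    ⟨r2.take β, r2.drop β, (List.take_append_drop _ _).symm, by rw [List.length_take]; omega⟩
  rw [List.length_append] at hlen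
  have hd : d.length = β := by omega
  obtain ⟨m1, p1, h⟩ := h.split _ _ rfl
  obtain ⟨m2, p2, h⟩ := h.split _ _ rfl
  obtain ⟨m3, p3, p4⟩ := h.split _ _ rfl
  simp only [List.nodup_append, List.mem_append] at hl
  obtain ⟨na, ⟨nb, ⟨nc, nd, cd⟩, bcd⟩, abcd⟩ := hl
  have ab : Disjoint a.toFinset b.toFinset := disjoint_left.2 fun x h1 h2 =>
    abcd x (List.mem_toFinset.1 h1) x (Or.inl (List.mem_toFinset.1 h2)) rfl
  have ac : Disjoint a.toFinset c.toFinset := disjoint_left.2 fun x h1 h2 =>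
    abcd x (List.mem_toFinset.1 h1) x (Or.inr (Or.inl (List.mem_toFinset.1 h2))) rfl
  have ad : Disjoint a.toFinset d.toFinset := disjoint_left.2 fun x h1 h2 =>
    abcd x (List.mem_toFinset.1 h1) x (Or.inr (Or.inr (List.mem_toFinset.1 h2))) rfl
  have bc : Disjoint b.toFinset c.toFinset := disjoint_left.2 fun x h1 h2 =>
    bcd x (List.mem_toFinset.1 h1) x (Or.inl (List.mem_toFinset.1 h2)) rfl
  have bd : Disjoint b.toFinset d.toFinset := disjoint_left.2 fun x h1 h2 =>
    bcd x (List.mem_toFinset.1 h1) x (Or.inr (List.mem_toFinset.1 h2)) rfl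
  have cd' : Disjoint c.toFinset d.toFinset := disjoint_left.2 fun x h1 h2 =>
    cd x (List.mem_toFinset.1 h1) x (List.mem_toFinset.1 h2) rfl
  refine ⟨(m1, m2, m3), ![a, b, c, d], ⟨p1, p2, p3, p4⟩, ?_, ?_, ?_⟩
  · simpa [List.toFinset_card_of_nodup na] using ha
  · intro j
    fin_cases j
    · simpa [List.toFinset_card_of_nodup nb] using hb
    · simpa [List.toFinset_card_of_nodup nc] using hc'
    · simpa [List.toFinset_card_of_nodup nd] using hd
  · intro i j hij
    fin_cases i <;> fin_cases j <;>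
      first
        | exact absurd rfl hij
        | assumption
        | exact Disjoint.symm (by assumption)

theorem exists_cuts (hc : B.Computes Acc) (hr : B.ReadOnceAccept)
    (hs : ∀ w x, Acc w → ¬ Acc (flip x w)) {α β : ℕ} (hn : n = α + 3 * β)
    (S0 : Finset (Fin n → Bool)) (hS0 : ∀ z ∈ S0, Acc z) :
    ∃ S dom, Cuts S dom Acc α β ∧ S0.card ≤ B.size ^ 3 * S.card := by
  classical
  have key : ∀ z : Fin n → Bool, ∃ (m : Fin B.size × Fin B.size × Fin B.size)
      (ls : Fin 4 → List (Fin n)), Acc z →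
      (B.Path z B.source (ls 0) m.1 ∧ B.Path z m.1 (ls 1) m.2.1 ∧ B.Path z m.2.1 (ls 2) m.2.2 ∧
        B.Path z m.2.2 (ls 3) B.sink) ∧ (ls 0).toFinset.card = α ∧
      (∀ j : Fin 3, (ls j.succ).toFinset.card = β) ∧
      ∀ i j, i ≠ j → Disjoint (ls i).toFinset (ls j).toFinset := by
    intro z
    by_cases hz : Acc z
    · obtain ⟨m, ls, h⟩ := exists_segments hc hr hs hn hz
      exact ⟨m, ls, fun _ => h⟩
    · exact ⟨(B.source, B.source, B.source), fun _ => [], fun h => absurd h hz⟩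
  choose m ls hk using key
  obtain ⟨μ, -, hμ⟩ := exists_max_image (univ : Finset (Fin B.size × Fin B.size × Fin B.size))
    (fun μ => (S0.filter fun z => m z = μ).card) ⟨(B.source, B.source, B.source), mem_univ _⟩
  refine ⟨S0.filter fun z => m z = μ, fun i z => (ls z i).toFinset,
    ⟨hn, fun z hz => (hk z (hS0 z (mem_filter.1 hz).1)).2.1,
      fun z hz => (hk z (hS0 z (mem_filter.1 hz).1)).2.2.1,
      fun z hz => (hk z (hS0 z (mem_filter.1 hz).1)).2.2.2, ?_⟩, ?_⟩
  · intro ch hch w hw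
    have hm : ∀ i, m (ch i) = μ := fun i => (mem_filter.1 (hch i)).2
    have hp := fun i => (hk (ch i) (hS0 _ (mem_filter.1 (hch i)).1)).1
    have q0 := (hp 0).1.congr fun v hv => hw 0 v (List.mem_toFinset.2 hv)
    have q1 := (hp 1).2.1.congr fun v hv => hw 1 v (List.mem_toFinset.2 hv)
    have q2 := (hp 2).2.2.1.congr fun v hv => hw 2 v (List.mem_toFinset.2 hv)
    have q3 := (hp 3).2.2.2.congr fun v hv => hw 3 v (List.mem_toFinset.2 hv)
    rw [hm] at q0 q1 q2 q3
    have q := q0.append (q1.append (q2.append q3))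
    refine ⟨(hc w).2 ⟨_, q⟩, fun x => ?_⟩
    have := reads_all hc hs q x
    simp only [List.mem_append] at this
    rcases this with h | h | h | h
    · exact ⟨0, List.mem_toFinset.2 h⟩
    · exact ⟨1, List.mem_toFinset.2 h⟩
    · exact ⟨2, List.mem_toFinset.2 h⟩
    · exact ⟨3, List.mem_toFinset.2 h⟩
  · rw [card_eq_sum_card_fiberwise (f := m) (t := univ) fun _ _ => mem_coe.2 (mem_univ _)]
    refine (sum_le_sum fun μ' h => hμ μ' h).trans ?_
    rw [sum_const, card_univ, smul_eq_mul, Fintype.card_prod, Fintype.card_prod, Fintype.card_fin]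
    apply le_of_eq
    ring

end

/-- The position of a variable among the first `n` variables. -/
def idx {n r : ℕ} (v : Fin (n + r)) : Option (Fin n) := Fin.addCases some (fun _ => none) v

/-- The program obtained by fixing all variables except the first `n`. -/
def NBP.fix {n r : ℕ} (B : NBP (Fin (n + r))) (I : Fin r → Bool) : NBP (Fin n) where
  size := B.size
  source := B.source
  sink := B.sink
  edge s o t := match o with
    | none => B.edge s none t ∨ ∃ j, B.edge s (some (Fin.natAdd n j, I j)) t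
    | some (i, b) => B.edge s (some (Fin.castAdd r i, b)) t

section

variable {n r : ℕ} {B : NBP (Fin (n + r))} {I : Fin r → Bool}

lemma fix_of_path {w : Fin n → Bool} {s t : Fin B.size} {l : List (Fin (n + r))}
    (h : B.Path (Fin.append w I) s l t) : (B.fix I).Path w s (l.filterMap idx) t := by
  induction h with
  | nil s => exact NBP.Path.nil (B := B.fix I) s
  | free he _ ih => exact NBP.Path.free (B := B.fix I) (Or.inl he) ih
  | test v he _ ih =>
    induction v using Fin.addCases with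
    | left i =>
      rw [Fin.append_left] at he
      rw [List.filterMap_cons_some (b := i) (by simp [idx])]
      exact NBP.Path.test (B := B.fix I) i he ih
    | right j =>
      rw [Fin.append_right] at he
      rw [List.filterMap_cons_none (by simp [idx])]
      exact NBP.Path.free (B := B.fix I) (Or.inr ⟨j, he⟩) ih

lemma path_of_fix {w : Fin n → Bool} {s t : Fin (B.fix I).size} {l : List (Fin n)}
    (h : (B.fix I).Path w s l t) : ∃ l', B.Path (Fin.append w I) s l' t := by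
  induction h with
  | nil s => exact ⟨[], NBP.Path.nil (B := B) s⟩
  | free he _ ih =>
    obtain ⟨l', ih⟩ := ih
    rcases he with he | ⟨j, he⟩
    · exact ⟨l', NBP.Path.free he ih⟩
    · refine ⟨_, NBP.Path.test (Fin.natAdd n j) ?_ ih⟩
      rw [Fin.append_right]
      exact he
  | test i he _ ih =>
    obtain ⟨l', ih⟩ := ih
    refine ⟨_, NBP.Path.test (Fin.castAdd r i) ?_ ih⟩
    rw [Fin.append_left]
    exact he

lemma fix_computes {f : (Fin (n + r) → Bool) → Prop} (hc : B.Computes f) :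
    (B.fix I).Computes fun w => f (Fin.append w I) := fun _ =>
  ⟨fun h => ((hc _).1 h).elim fun _ hl => ⟨_, fix_of_path hl⟩,
    fun ⟨_, hl⟩ => (hc _).2 (path_of_fix hl)⟩

lemma fix_readOnce (hr : B.ReadOnceAccept) : (B.fix I).ReadOnceAccept := by
  intro w l h
  obtain ⟨l1, h1⟩ := path_of_fix h
  obtain ⟨l2, h2, hn⟩ := hr _ l1 h1
  refine ⟨_, fix_of_path h2, hn.filterMap ?_⟩
  intro a a' b ha ha'
  induction a using Fin.addCases <;> induction a' using Fin.addCases <;> simp_all [idx]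

end

lemma even_flip {n : ℕ} (w : Fin n → Bool) (x : Fin n) :
    Even (univ.filter fun i => flip x w i = true).card ↔
      ¬ Even (univ.filter fun i => w i = true).card := by
  cases hx : w x
  · have : (univ.filter fun i => flip x w i = true) = insert x (univ.filter fun i => w i = true) := by
      ext i
      by_cases hi : i = x
      · simp [hi, flip_self, hx]
      · simp [hi, flip_ne hi]
    rw [this, card_insert_of_notMem (by simp [hx]), Nat.even_add_one]
  · have : (univ.filter fun i => w i = true) = insert x (univ.filter fun i => flip x w i = true) := by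
      ext i
      by_cases hi : i = x
      · simp [hi, hx]
      · simp [hi, flip_ne hi]
    rw [this, card_insert_of_notMem (by simp [flip_self, hx]), Nat.even_add_one, not_not]

lemma exists_colour {n : ℕ} (hn : 0 < n) (P : (Fin n → Bool) → Prop) [DecidablePred P] :
    ∃ b : Bool, 2 ^ n ≤ 4 * (univ.filter fun w : Fin n → Bool =>
      Even (univ.filter fun i => w i = true).card ∧ (P w ↔ b = true)).card := by
  set E := univ.filter fun w : Fin n → Bool => Even (univ.filter fun i => w i = true).card with hE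
  have h1 : (univ.filter fun w : Fin n → Bool =>
      ¬ Even (univ.filter fun i => w i = true).card).card ≤ E.card := by
    refine card_le_card_of_injOn (flip ⟨0, hn⟩) (fun w hw => ?_)
      (flipEquiv (⟨0, hn⟩ : Fin n)).injective.injOn
    simp only [hE, coe_filter, mem_univ, true_and, Set.mem_ofPred_eq] at hw ⊢
    exact (even_flip w _).2 hw
  have h2 := card_filter_add_card_filter_not (s := (univ : Finset (Fin n → Bool)))
    fun w => Even (univ.filter fun i => w i = true).card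
  rw [card_univ, Fintype.card_fun, Fintype.card_bool, Fintype.card_fin] at h2
  have h3 := card_filter_add_card_filter_not (s := E) P
  rw [hE, filter_filter, filter_filter] at h3
  by_contra hc
  simp only [not_exists, not_le] at hc
  have ht := hc true
  have hf := hc false
  simp only [iff_true, Bool.false_eq_true, iff_false] at ht hf
  rw [← hE] at h2 h3
  omega

end Pool.Agent.MP_47ff19_lc.H51

end

-- part MP_47ff19_lc.H51.Num
section

/-! The choice of parameters. -/

namespace Pool.Agent.MP_47ff19_lc.H51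

lemma seventeen : (17 / 16 : ℝ) ≤ 2 ^ (9 / 100 : ℝ) := by
  refine le_of_pow_le_pow_left₀ (n := 100) (by norm_num) (by positivity) ?_
  rw [← Real.rpow_natCast ((2 : ℝ) ^ (9 / 100 : ℝ)), ← Real.rpow_mul (by norm_num)]
  norm_num

lemma one_sub_q {δ : ℝ} (hδ : (1 + 1 / 4000 : ℝ) = 2 ^ δ) :
    (2 : ℝ) ^ (-(δ * (1 + 1 / 2000))) ≤ 1 - 1 / 4000 := by
  refine le_of_pow_le_pow_left₀ (n := 2000) (by norm_num) (by norm_num) ?_
  rw [← Real.rpow_natCast ((2 : ℝ) ^ _), ← Real.rpow_mul (by norm_num)]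
  have e : -(δ * (1 + 1 / 2000)) * ((2000 : ℕ) : ℝ) = -(δ * ((2001 : ℕ) : ℝ)) := by
    push_cast; ring
  rw [e, Real.rpow_neg (by norm_num), Real.rpow_mul (by norm_num), Real.rpow_natCast, ← hδ,
    inv_le_iff_one_le_mul₀ (by positivity), pow_succ (1 + 1 / 4000 : ℝ) 2000, ← mul_assoc,
    ← mul_pow]
  have h := one_add_mul_le_pow (a := (-(1 / 16000000) : ℝ)) (by norm_num) 2000
  have e2 : ((1 - 1 / 4000) * (1 + 1 / 4000) : ℝ) = 1 + -(1 / 16000000) := by norm_num
  rw [e2]
  generalize (1 + -(1 / 16000000) : ℝ) ^ 2000 = y at h ⊢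
  push_cast at h
  nlinarith

lemma two_natpow (k : ℕ) : (2 : ℝ) ^ k = 2 ^ (k : ℝ) := (Real.rpow_natCast 2 k).symm

lemma rpow_npow (x : ℝ) (k : ℕ) : ((2 : ℝ) ^ x) ^ k = 2 ^ (x * k) := by
  rw [Real.rpow_mul (by norm_num), Real.rpow_natCast]

lemma rpow_rpow (x y : ℝ) : ((2 : ℝ) ^ x) ^ y = 2 ^ (x * y) := by
  rw [Real.rpow_mul (by norm_num)]

lemma sqrt_two_rpow (x : ℝ) : √((2 : ℝ) ^ x) = 2 ^ (x / 2) := by
  rw [Real.sqrt_eq_rpow, rpow_rpow]
  congr 1
  ring

lemma two_mono {x y : ℝ} (h : x ≤ y) : (2 : ℝ) ^ x ≤ 2 ^ y :=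
  Real.rpow_le_rpow_of_exponent_le (by norm_num) h

lemma two_div (x y : ℝ) : (2 : ℝ) ^ x / 2 ^ y = 2 ^ (x - y) := (Real.rpow_sub (by norm_num) x y).symm

lemma two_mul' (x y : ℝ) : (2 : ℝ) ^ x * 2 ^ y = 2 ^ (x + y) :=
  (Real.rpow_add (by norm_num) x y).symm

lemma slice_term {δ : ℝ} (hδ : (1 + 1 / 4000 : ℝ) = 2 ^ δ) (n k : ℕ) (y : ℝ) :
    (2 : ℝ) ^ n / ((1 - 1 / 4000) ^ k * ((2 : ℝ) ^ y) ^ (1 - δ - 1)) ≤
      2 ^ (n + δ * (1 + 1 / 2000) * k + δ * y) := by
  have h1 : (2 : ℝ) ^ (-(δ * (1 + 1 / 2000)) * k) ≤ (1 - 1 / 4000) ^ k := by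
    rw [← rpow_npow]
    exact pow_le_pow_left₀ (by positivity) (one_sub_q hδ) k
  calc _ ≤ (2 : ℝ) ^ n / (2 ^ (-(δ * (1 + 1 / 2000)) * k) * ((2 : ℝ) ^ y) ^ (1 - δ - 1)) := by
        gcongr
    _ = _ := by
        rw [two_natpow, rpow_rpow, two_mul', two_div]
        congr 1
        ring

theorem numerics {δ : ℝ} (hδ : (1 + 1 / 4000 : ℝ) = 2 ^ δ) (h0 : 0 < δ) (h1 : δ ≤ 1)
    {n α β K : ℕ} (hn : n = α + 3 * β) (hα : 1002 * β ≤ 1000 * α) (hα' : 10000 * α ≤ 10025 * β)
    (hK : 0 < K) {ya yb θ : ℝ} (hya : ya = 2 ^ (-(1001 / 1000 * α) : ℝ))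
    (hyb : yb = 2 ^ (-(1001 / 1000 * β) : ℝ))
    (hθ : θ = 2 ^ (-(2001 / 1000 * (α + β) - n + β / 2000) : ℝ)) :
    2 ^ n / ((1 - 1 / 4000) ^ α * ya ^ (1 - δ - 1)) +
      3 * (2 ^ n / ((1 - 1 / 4000) ^ β * yb ^ (1 - δ - 1))) +
      3 * (2 ^ n / ((1 - 1 / 4000) ^ (2 * β) * ((K : ℝ) / 2 ^ (n - 2 * β)) ^ (1 - δ - 1))) +
      (3 * (K * (2 ^ β / yb * (θ * (2 ^ α / ya)))) +
        K * (2 ^ β / yb * (√(2 ^ α) * (√(2 ^ α / ya) * (17 / 16) ^ n / (θ ^ 3) ^ 6)))) ≤
      11 * (K * (2 : ℝ) ^ (n - δ / 2000 * β)) := by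
  have hn' : (n : ℝ) = α + 3 * β := by exact_mod_cast hn
  have hα1 : (1002 : ℝ) * β ≤ 1000 * α := by exact_mod_cast hα
  have hα2 : (10000 : ℝ) * α ≤ 10025 * β := by exact_mod_cast hα'
  have hβ : (0 : ℝ) ≤ β := Nat.cast_nonneg β
  have hK1 : (1 : ℝ) ≤ K := by exact_mod_cast hK
  have hE : (0 : ℝ) < 2 ^ (n - δ / 2000 * β) := by positivity
  have hKE : (2 : ℝ) ^ (n - δ / 2000 * β) ≤ K * 2 ^ (n - δ / 2000 * β) := by nlinarith
  have hδβ : δ * β ≤ β := by nlinarith
  have hδβ0 : 0 ≤ δ * β := by positivity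
  have hδα : 1002 * (δ * β) ≤ 1000 * (δ * α) := by nlinarith
  have t1 : 2 ^ n / ((1 - 1 / 4000) ^ α * ya ^ (1 - δ - 1)) ≤
      K * (2 : ℝ) ^ (n - δ / 2000 * β) := by
    rw [hya]
    refine (slice_term hδ n α _).trans ((two_mono ?_).trans hKE)
    nlinarith
  have t2 : 2 ^ n / ((1 - 1 / 4000) ^ β * yb ^ (1 - δ - 1)) ≤
      K * (2 : ℝ) ^ (n - δ / 2000 * β) := by
    rw [hyb]
    refine (slice_term hδ n β _).trans ((two_mono ?_).trans hKE)
    nlinarith
  have t3 : 2 ^ n / ((1 - 1 / 4000) ^ (2 * β) * ((K : ℝ) / 2 ^ (n - 2 * β)) ^ (1 - δ - 1)) ≤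
      K * (2 : ℝ) ^ (n - δ / 2000 * β) := by
    have hk : (K : ℝ) = 2 ^ Real.logb 2 K :=
      (Real.rpow_logb (by norm_num) (by norm_num) (by linarith)).symm
    have hl : 0 ≤ Real.logb 2 K := Real.logb_nonneg (by norm_num) hK1
    generalize Real.logb 2 K = k at hk hl
    have e : ((n - 2 * β : ℕ) : ℝ) = α + β := by
      have : n - 2 * β = α + β := by omega
      rw [this]; push_cast; ring
    rw [hk, two_natpow (n - 2 * β), two_div, two_mul', e]
    refine (slice_term hδ n (2 * β) _).trans (two_mono ?_)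
    push_cast
    nlinarith
  have t4 : K * (2 ^ β / yb * (θ * (2 ^ α / ya))) ≤ K * (2 : ℝ) ^ (n - δ / 2000 * β) := by
    refine mul_le_mul_of_nonneg_left ?_ (by linarith)
    rw [hya, hyb, hθ, two_natpow β, two_natpow α, two_div, two_div, two_mul', two_mul']
    refine two_mono ?_
    nlinarith
  have t5 : K * (2 ^ β / yb * (√(2 ^ α) * (√(2 ^ α / ya) * (17 / 16) ^ n / (θ ^ 3) ^ 6))) ≤
      K * (2 : ℝ) ^ (n - δ / 2000 * β) := by
    refine mul_le_mul_of_nonneg_left ?_ (by linarith)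
    have h17 : (17 / 16 : ℝ) ^ n ≤ 2 ^ (9 / 100 * n : ℝ) := by
      rw [← rpow_npow]
      exact pow_le_pow_left₀ (by norm_num) seventeen n
    have hyb0 : 0 < yb := by rw [hyb]; positivity
    have hθ0 : 0 < θ := by rw [hθ]; positivity
    calc _ ≤ 2 ^ β / yb * (√(2 ^ α) * (√(2 ^ α / ya) * 2 ^ (9 / 100 * n : ℝ) / (θ ^ 3) ^ 6)) := by
          gcongr
      _ ≤ _ := by
          rw [hya, hyb, hθ, two_natpow β, two_natpow α, two_div, two_div, sqrt_two_rpow,
            sqrt_two_rpow, rpow_npow, rpow_npow, two_mul', two_div, two_mul', two_mul']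
          refine two_mono ?_
          push_cast
          nlinarith
  linarith

lemma eventually_lin {c : ℝ} (hc : 0 < c) :
    ∃ n0 : ℕ, ∀ n : ℕ, n0 ≤ n → 264 * (n : ℝ) ≤ 2 ^ (c * n) := by
  have hl : 0 < Real.log 2 := Real.log_pos (by norm_num)
  obtain ⟨n0, hn0⟩ := exists_nat_ge (528 / (Real.log 2 * c) ^ 2)
  refine ⟨n0, fun n hn => ?_⟩
  have hn' : (n0 : ℝ) ≤ n := by exact_mod_cast hn
  have hn1 : (0 : ℝ) ≤ n := Nat.cast_nonneg n
  rw [Real.rpow_def_of_pos (by norm_num)]
  have hx : 0 ≤ Real.log 2 * (c * n) := by positivity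
  have h := Real.quadratic_le_exp_of_nonneg hx
  have h2 : 528 ≤ n * (Real.log 2 * c) ^ 2 := by
    rw [div_le_iff₀ (by positivity)] at hn0
    nlinarith [sq_nonneg (Real.log 2 * c)]
  have h3 : (Real.log 2 * (c * n)) ^ 2 = n * (n * (Real.log 2 * c) ^ 2) := by ring
  nlinarith

end Pool.Agent.MP_47ff19_lc.H51

end
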