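import Pool.Agent.MP_47ff19_lc.Mg.H66_Step

-- part MP_47ff19_lc.H66.State
section

/-! The state of the process and one move: remove a random batch of segments. -/

namespace Pool.Agent.MP_47ff19_lc.H66

open Finset

variable {n r l : ℕ} {S : Finset (Fin n → Bool)} {dom : Fin r → (Fin n → Bool) → Finset (Fin n)}
  {Acc : (Fin n → Bool) → Prop}

/-- The segments that read `x`. -/
def rd (dom : Fin r → (Fin n → Bool) → Finset (Fin n)) (x : Fin n) (z : Fin n → Bool) :
    Finset (Fin r) := univ.filter fun i => x ∈ dom i z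

/-- The total multiplicity of the free coordinates. -/
noncomputable def mult (dom : Fin r → (Fin n → Bool) → Finset (Fin n))
    (μ : Finset (Fin n) → (Fin n → Bool) → ℝ) : ℝ :=
  ∑ F, ∑ z, μ F z * ∑ x ∈ F, ((rd dom x z).card : ℝ)

/-- The invariants of the process. -/
structure St (S : Finset (Fin n → Bool)) (dom : Fin r → (Fin n → Bool) → Finset (Fin n))
    (q L : ℝ) (t : ℕ) (J : Finset (Fin r)) (μ : Finset (Fin n) → (Fin n → Bool) → ℝ)
    (U η : ℝ) : Prop where
  nonneg : ∀ F z, 0 ≤ μ F z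
  supp : ∀ F z, μ F z ≠ 0 → z ∈ S ∧ ∀ i, i ∉ J → Disjoint (dom i z) F
  smooth : ∀ E z, up μ E z ≤ U ^ E.card
  size : U * n * S.card ≤ 4 ^ t * sz μ
  defi : dtot μ ≤ η * sz μ
  xi : ∑ z ∈ S, ∑ x, (if rd dom x z ⊆ J then Real.exp L ^ (rd dom x z).card else 0) ≤
    3 ^ t * n * S.card
  pool : (1 + q * Real.exp L) ^ J.card ≤ 3 ^ t * (1 + q) ^ r

lemma sum_free (μ : Finset (Fin n) → (Fin n → Bool) → ℝ) (f : Fin n → (Fin n → Bool) → ℝ) :
    ∑ F, ∑ z, μ F z * ∑ x ∈ F, f x z = ∑ z, ∑ x, up μ {x} z * f x z := by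
  rw [sum_comm]
  refine sum_congr rfl fun z _ => ?_
  simp only [up, sum_mul, singleton_subset_iff, ite_mul, zero_mul]
  rw [sum_comm]
  refine sum_congr rfl fun F _ => ?_
  rw [sum_ite_mem, univ_inter, mul_sum]

section

variable {q L U η : ℝ} {t : ℕ} {J : Finset (Fin r)} {μ : Finset (Fin n) → (Fin n → Bool) → ℝ}

lemma St.up_nonneg (h : St S dom q L t J μ U η) (E : Finset (Fin n)) (z : Fin n → Bool) :
    0 ≤ up μ E z := sum_nonneg fun F _ => by
  split_ifs
  · exact h.nonneg F z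
  · exact le_rfl

lemma St.up_single (h : St S dom q L t J μ U η) (x : Fin n) (z : Fin n → Bool) :
    up μ {x} z ≤ if z ∈ S ∧ rd dom x z ⊆ J then U else 0 := by
  split_ifs with hc
  · simpa using h.smooth {x} z
  · refine le_of_eq (sum_eq_zero fun F _ => ?_)
    split_ifs with hF
    · by_contra h0
      obtain ⟨h1, h2⟩ := h.supp F z h0
      refine hc ⟨h1, fun i hi => ?_⟩
      by_contra hJ
      exact disjoint_left.1 (h2 i hJ) (mem_filter.1 hi).2 (singleton_subset_iff.1 hF)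
    · rfl

lemma St.sum_free_le (h : St S dom q L t J μ U η) (f : Fin n → (Fin n → Bool) → ℝ)
    (hf : ∀ x z, 0 ≤ f x z) :
    ∑ F, ∑ z, μ F z * ∑ x ∈ F, f x z ≤
      U * ∑ z ∈ S, ∑ x, if rd dom x z ⊆ J then f x z else 0 := by
  rw [sum_free, mul_sum, ← Fintype.sum_ite_mem S]
  refine sum_le_sum fun z _ => ?_
  refine (sum_le_sum fun x _ => mul_le_mul_of_nonneg_right (h.up_single x z) (hf x z)).trans ?_
  by_cases hz : z ∈ S
  · simp only [hz, true_and, if_true, mul_sum, ite_mul, mul_ite, zero_mul, mul_zero, le_refl]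
  · simp [hz]

lemma St.mult_le (h : St S dom q L t J μ U η) (hs : Segs S dom Acc l) {k : ℕ} (hk : r * l ≤ k * n)
    (hU : 0 ≤ U) : mult dom μ ≤ k * (4 ^ t * sz μ) := by
  refine (h.sum_free_le _ fun _ _ => Nat.cast_nonneg _).trans ?_
  have h1 : ∀ z ∈ S, ∑ x, (if rd dom x z ⊆ J then ((rd dom x z).card : ℝ) else 0) ≤ k * n := by
    intro z hz
    have e : ∑ x, (rd dom x z).card = ∑ i, (dom i z).card := by
      simp only [rd, card_filter]
      rw [sum_comm]
      simp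
    have h2 : ∑ x, (rd dom x z).card ≤ k * n := by
      rw [e]
      refine (sum_le_sum fun i _ => hs.width i z hz).trans ?_
      simpa using hk
    have h3 : ∑ x, ((rd dom x z).card : ℝ) ≤ k * n := by exact_mod_cast h2
    refine (sum_le_sum fun x _ => ?_).trans h3
    split_ifs
    · exact le_rfl
    · exact Nat.cast_nonneg _
  have h2 := sum_le_sum h1
  rw [sum_const, nsmul_eq_mul] at h2
  have h3 := mul_le_mul_of_nonneg_left h2 hU
  have h4 := mul_le_mul_of_nonneg_left h.size (Nat.cast_nonneg k)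
  linarith

lemma St.mult_le' (h : St S dom q L t J μ U η) (hU : 0 ≤ U) :
    L * mult dom μ ≤ 3 * t * sz μ := by
  have h1 := (h.sum_free_le (fun x z => Real.exp L ^ (rd dom x z).card)
    fun _ _ => by positivity).trans (mul_le_mul_of_nonneg_left h.xi hU)
  have h2 := mul_le_mul_of_nonneg_left h.size (by positivity : (0 : ℝ) ≤ 3 ^ t)
  have e12 : (12 : ℝ) ^ t = 3 ^ t * 4 ^ t := by rw [← mul_pow]; norm_num
  have hpt : ∀ m : ℕ, L * m ≤ 3 * t - 1 + (12 ^ t)⁻¹ * Real.exp L ^ m := fun m => by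
    have h3 := Real.log_le_sub_one_of_pos (x := (12 ^ t)⁻¹ * Real.exp L ^ m) (by positivity)
    rw [Real.log_mul (by positivity) (by positivity), Real.log_inv, Real.log_pow, Real.log_pow,
      Real.log_exp] at h3
    have h4 : Real.log 12 ≤ 3 := by
      have l2 := Real.log_two_lt_d9
      have h5 : Real.log 12 ≤ Real.log (2 ^ 4) := Real.log_le_log (by norm_num) (by norm_num)
      rw [Real.log_pow] at h5
      push_cast at h5
      linarith
    have h5 := mul_le_mul_of_nonneg_left h4 (Nat.cast_nonneg t)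
    linarith
  have h3 : L * mult dom μ ≤ (3 * t - 1) * sz μ +
      (12 ^ t)⁻¹ * ∑ F, ∑ z, μ F z * ∑ x ∈ F, Real.exp L ^ (rd dom x z).card := by
    simp only [mult, sz, mul_sum, ← sum_add_distrib]
    refine sum_le_sum fun F _ => sum_le_sum fun z _ => ?_
    have h4 := sum_le_sum fun x (_ : x ∈ F) =>
      mul_le_mul_of_nonneg_left (hpt (rd dom x z).card) (h.nonneg F z)
    simp only [mul_add, sum_add_distrib, sum_const, nsmul_eq_mul] at h4
    simp only [mul_left_comm L, mul_left_comm ((12 : ℝ) ^ t)⁻¹]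
    linarith
  have h4 : (12 ^ t)⁻¹ * ∑ F, ∑ z, μ F z * ∑ x ∈ F, Real.exp L ^ (rd dom x z).card ≤ sz μ := by
    rw [inv_mul_le_iff₀ (by positivity), e12]
    linarith
  linarith

end

lemma three_markov {κ : Type} [Fintype κ] (w X Y Z : κ → ℝ) (hw : ∀ i, 0 ≤ w i)
    (h1 : ∑ i, w i = 1) (hX : ∀ i, 0 ≤ X i) (hY : ∀ i, 0 ≤ Y i) (hZ : ∀ i, 0 ≤ Z i) {a b c : ℝ}
    (ha : 0 < a) (hb : 0 < b) (hc : 0 < c) (eX : ∑ i, w i * X i ≤ a) (eY : ∑ i, w i * Y i ≤ b)
    (eZ : ∑ i, w i * Z i ≤ c) : ∃ i, w i ≠ 0 ∧ X i ≤ 3 * a ∧ Y i ≤ 3 * b ∧ Z i ≤ 3 * c := by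
  classical
  have hne : (univ.filter fun i => w i ≠ 0).Nonempty := by
    obtain ⟨i, -, hi⟩ := exists_ne_zero_of_sum_ne_zero (h1 ▸ one_ne_zero : ∑ i, w i ≠ 0)
    exact ⟨i, mem_filter.2 ⟨mem_univ _, hi⟩⟩
  obtain ⟨i, hi, hle⟩ : ∃ i ∈ univ.filter fun i => w i ≠ 0,
      w i * (X i / a + Y i / b + Z i / c) ≤ w i * 3 := by
    refine exists_le_of_sum_le hne ?_
    rw [sum_filter_of_ne fun i _ h => left_ne_zero_of_mul h,
      sum_filter_of_ne fun i _ h => left_ne_zero_of_mul h]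
    simp only [mul_add, sum_add_distrib, ← mul_div_assoc, ← sum_div, ← sum_mul, h1]
    linarith [(div_le_one ha).2 eX, (div_le_one hb).2 eY, (div_le_one hc).2 eZ]
  have hi' := (mem_filter.1 hi).2
  have h := le_of_mul_le_mul_left hle ((hw i).lt_of_ne hi'.symm)
  have p1 := div_nonneg (hX i) ha.le
  have p2 := div_nonneg (hY i) hb.le
  have p3 := div_nonneg (hZ i) hc.le
  exact ⟨i, hi', (div_le_iff₀ ha).1 (by linarith), (div_le_iff₀ hb).1 (by linarith),
    (div_le_iff₀ hc).1 (by linarith)⟩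

lemma det_union (hs : Segs S dom Acc l) (B : Finset (Fin r)) :
    Det S fun z => B.biUnion fun i => dom i z := by
  intro z hz z' hz' E h h1 h2
  rw [disjoint_biUnion_left] at h1 h2
  exact biUnion_congr rfl fun i hi => hs.det i z hz z' hz' E h (h1 i hi) (h2 i hi)

lemma batch_cost {κ : ℝ} (h0 : 0 ≤ κ) (h1 : κ ≤ 1) (J : Finset (Fin r)) (F : Finset (Fin n))
    (z : Fin n → Bool) :
    ∑ J', wt (cst κ J) J' * (((J \ J').biUnion (fun i => dom i z) ∩ F).card : ℝ) ≤
      (1 - κ) * ∑ x ∈ F, ((rd dom x z).card : ℝ) := by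
  have e1 : ∀ J' : Finset (Fin r), ((((J \ J').biUnion fun i => dom i z) ∩ F).card : ℝ) ≤
      ∑ x ∈ F, ∑ i ∈ rd dom x z, if i ∈ J \ J' then (1 : ℝ) else 0 := fun J' => by
    rw [inter_comm, ← filter_mem_eq_inter, card_filter]
    push_cast
    refine sum_le_sum fun x _ => ?_
    split_ifs with h
    · obtain ⟨i, hi, hx⟩ := mem_biUnion.1 h
      refine le_trans (le_of_eq (if_pos hi).symm) (single_le_sum (f := fun i =>
        if i ∈ J \ J' then (1 : ℝ) else 0) (fun i _ => ?_) (mem_filter.2 ⟨mem_univ _, hx⟩))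
      split_ifs <;> norm_num
    · exact sum_nonneg fun i _ => by split_ifs <;> norm_num
  have e2 : ∀ i, ∑ J', wt (cst κ J) J' * (if i ∈ J \ J' then (1 : ℝ) else 0) ≤ 1 - κ := by
    intro i
    by_cases hi : i ∈ J
    · have h2 := wt_cst_sup κ J {i}
      simp only [singleton_subset_iff, hi, if_true, card_singleton, pow_one] at h2
      have h3 : ∑ J', wt (cst κ J) J' * (if i ∈ J \ J' then (1 : ℝ) else 0) =
          ∑ J', wt (cst κ J) J' - ∑ J', if i ∈ J' then wt (cst κ J) J' else 0 := by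
        rw [← sum_sub_distrib]
        refine sum_congr rfl fun J' _ => ?_
        by_cases h : i ∈ J' <;> simp [h, hi]
      rw [h3, h2, sum_wt]
    · simp [hi, h1]
  refine (sum_le_sum fun J' _ => mul_le_mul_of_nonneg_left (e1 J')
    (wt_cst_nonneg h0 h1 _ _)).trans ?_
  simp only [mul_sum]
  rw [sum_comm]
  refine sum_le_sum fun x _ => ?_
  rw [sum_comm]
  refine (sum_le_sum fun i _ => e2 i).trans ?_
  rw [sum_const, nsmul_eq_mul, mul_comm]

/-- One move of the process. -/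
theorem St.move {q L L' U η : ℝ} {t : ℕ} {J : Finset (Fin r)}
    {μ : Finset (Fin n) → (Fin n → Bool) → ℝ} (h : St S dom q L t J μ U η)
    (hs : Segs S dom Acc l) (hq : 0 ≤ q) (hn : 0 < n) (hS : 0 < S.card) (hU : 0 < U) (hL : L ≤ L')
    (hm : (L' - L) * mult dom μ ≤ sz μ / 42) (M : ℕ) (hM : 2 ≤ M)
    (hη : η ≤ 1 / (14 * (M : ℝ) ^ (M + 1))) :
    ∃ u : ℝ, 1 / (M : ℝ) ^ M ≤ u ∧ u ≤ 1 / M ∧
      ∃ J' μ', St S dom q L' (t + 1) J' μ' (u * U) (2 / M) := by
  have hsz : 0 < sz μ := by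
    have : 0 < U * n * S.card := by positivity
    exact (pos_iff_pos_of_mul_pos (this.trans_le h.size)).1 (by positivity)
  obtain ⟨κ, hκ⟩ : ∃ κ, κ = Real.exp (L - L') := ⟨_, rfl⟩
  have κ0 : 0 ≤ κ := hκ ▸ (Real.exp_pos _).le
  have κ1 : κ ≤ 1 := hκ ▸ Real.exp_le_one_iff.2 (by linarith)
  have κe : κ * Real.exp L' = Real.exp L := by rw [hκ, ← Real.exp_add, sub_add_cancel]
  have hm0 : 0 ≤ mult dom μ := sum_nonneg fun F _ => sum_nonneg fun z _ =>
    mul_nonneg (h.nonneg F z) (sum_nonneg fun _ _ => Nat.cast_nonneg _)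
  obtain ⟨J', hw, hX, hY, hZ⟩ := three_markov (wt (cst κ J))
    (fun J' => ∑ z ∈ S, ∑ x, if rd dom x z ⊆ J' then Real.exp L' ^ (rd dom x z).card else 0)
    (fun J' => (1 + q * Real.exp L') ^ J'.card)
    (fun J' => ∑ F, ∑ z, μ F z * (((J \ J').biUnion (fun i => dom i z) ∩ F).card : ℝ))
    (wt_cst_nonneg κ0 κ1 J) (sum_wt _)
    (fun _ => sum_nonneg fun _ _ => sum_nonneg fun _ _ => by positivity)
    (fun _ => by positivity)
    (fun _ => sum_nonneg fun F _ => sum_nonneg fun z _ =>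
      mul_nonneg (h.nonneg F z) (Nat.cast_nonneg _))
    (a := 3 ^ t * n * S.card) (b := 3 ^ t * (1 + q) ^ r) (c := sz μ / 42)
    (by positivity) (by positivity) (by positivity)
    (by
      refine le_trans (le_of_eq ?_) h.xi
      simp only [mul_sum]
      rw [sum_comm]
      refine sum_congr rfl fun z _ => ?_
      rw [sum_comm]
      refine sum_congr rfl fun x _ => ?_
      have h2 := congrArg (· * Real.exp L' ^ (rd dom x z).card) (wt_cst_sup κ J (rd dom x z))
      simp only [sum_mul, ite_mul, zero_mul, ← mul_pow, κe] at h2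
      simp only [mul_ite, mul_zero, h2])
    (by
      rw [wt_cst_gen]
      refine le_trans (le_of_eq ?_) h.pool
      rw [← κe]
      congr 1
      ring)
    (by
      have h1 : 1 - κ ≤ L' - L := by
        have := Real.add_one_le_exp (L - L')
        linarith
      refine le_trans ?_ ((mul_le_mul_of_nonneg_right h1 hm0).trans hm)
      calc _ = ∑ F, ∑ z, μ F z * ∑ J', wt (cst κ J) J' *
            (((J \ J').biUnion (fun i => dom i z) ∩ F).card : ℝ) := by
            simp only [mul_sum]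
            rw [sum_comm]
            refine sum_congr rfl fun F _ => ?_
            rw [sum_comm]
            exact sum_congr rfl fun z _ => sum_congr rfl fun J' _ => mul_left_comm _ _ _
        _ ≤ _ := by
            rw [mult, mul_sum]
            refine sum_le_sum fun F _ => ?_
            rw [mul_sum]
            refine sum_le_sum fun z _ => ?_
            rw [mul_left_comm]
            exact mul_le_mul_of_nonneg_left (batch_cost κ0 κ1 J F z) (h.nonneg F z))
  obtain ⟨u, hu1, hu2, μ', p0, p1, p2, p3, p4⟩ := step M hM S _ (det_union hs (J \ J')) μ h.nonneg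
    (fun F z hz => (h.supp F z hz).1) (by linarith)
    (h.defi.trans (by
      rw [div_eq_mul_one_div, mul_comm]
      exact mul_le_mul_of_nonneg_left hη hsz.le))
  have u0 : 0 < u := lt_of_lt_of_le (by positivity) hu1
  refine ⟨u, hu1, hu2, J', μ', p0, fun F' z hz => ?_, fun E z => ?_, ?_, p4, ?_, ?_⟩
  · obtain ⟨F, hF, hsub⟩ := p1 F' z hz
    refine ⟨(h.supp F z hF).1, fun i hi => ?_⟩
    by_cases hJ : i ∈ J
    · refine disjoint_left.2 fun x hx hx' => (mem_sdiff.1 (hsub hx')).2 ?_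
      exact mem_biUnion.2 ⟨i, mem_sdiff.2 ⟨hJ, hi⟩, hx⟩
    · exact ((h.supp F z hF).2 i hJ).mono_right (hsub.trans sdiff_subset)
  · rw [mul_pow]
    exact (p2 E z).trans (mul_le_mul_of_nonneg_left (h.smooth E z) (by positivity))
  · have h1 := mul_le_mul_of_nonneg_left h.size u0.le
    have h2 := mul_le_mul_of_nonneg_left p3 (by positivity : (0 : ℝ) ≤ 4 ^ (t + 1))
    rw [pow_succ] at h2 ⊢
    linarith
  · rw [pow_succ]
    linarith
  · rw [pow_succ]
    linarith

end Pool.Agent.MP_47ff19_lc.H66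

end

-- part MP_47ff19_lc.H66.Split
section

/-! Without a large rectangle the points are thin along one side. -/

namespace Pool.Agent.MP_47ff19_lc.H66

open Finset H51

variable {n r l K : ℕ} {S : Finset (Fin n → Bool)}
  {dom : Fin r → (Fin n → Bool) → Finset (Fin n)} {Acc : (Fin n → Bool) → Prop}

/-- The traces on `E` of the points of `T` that agree with `z` off `U`. -/
def spTr (T : Finset (Fin n → Bool)) (U E : Finset (Fin n)) (z : Fin n → Bool) :
    Finset (Fin n → Bool) :=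
  (T.filter fun y => Agr U z y).image fun y => hyb E y fun _ => false

lemma sp_thin (T : Finset (Fin n → Bool)) {U E : Finset (Fin n)} (hE : E ⊆ U)
    (w : Fin n → Bool) :
    ((T.filter fun z => (spTr T U E z).card < K).filter fun z => Agr E w z).card ≤ K := by
  rcases ((T.filter fun z => (spTr T U E z).card < K).filter fun z => Agr E w z).eq_empty_or_nonempty
    with h | ⟨z, hz⟩
  · rw [h, card_empty]; exact Nat.zero_le _
  · rw [mem_filter, mem_filter] at hz
    refine le_trans (card_le_card_of_injOn (fun y => hyb E y fun _ => false) ?_ ?_) hz.1.2.le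
    · intro y hy
      rw [mem_coe, mem_filter, mem_filter] at hy
      refine mem_coe.2 (mem_image_of_mem _ (mem_filter.2 ⟨hy.1.1, fun x hx => ?_⟩))
      rw [← hz.2 x fun e => hx (hE e), hy.2 x fun e => hx (hE e)]
    · intro y hy y' hy' e
      rw [mem_coe, mem_filter] at hy hy'
      funext x
      by_cases hx : x ∈ E
      · simpa [hyb, hx] using congrFun e x
      · rw [← hy.2 x hx, hy'.2 x hx]

lemma sp_pick {T : Finset (Fin n → Bool)} {U E : Finset (Fin n)} {z : Fin n → Bool}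
    (h : K ≤ (spTr T U E z).card) : ∃ X : Fin K → Fin n → Bool,
      (∀ i, X i ∈ T ∧ Agr U z (X i)) ∧ ∀ i j, (∀ x ∈ E, X i x = X j x) → i = j := by
  obtain ⟨Y, hi, hY⟩ := exists_inj _ h
  choose X h1 h2 using fun i => mem_image.1 (hY i)
  refine ⟨X, fun i => mem_filter.1 (h1 i), fun i j e => hi ?_⟩
  rw [← h2, ← h2]
  funext x
  by_cases hx : x ∈ E
  · simpa [hyb, hx] using e x hx
  · simp [hyb, hx]

/-- Points whose segments outside `J` avoid `F` and whose segments in `J` avoid `A` split into a set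
that is thin along `F` and a set that is thin along `A`. -/
theorem split_thin (h : Segs S dom Acc l) (hK : NoRect K Acc) (J : Finset (Fin r))
    (F A : Finset (Fin n)) (hFA : Disjoint A F) :
    ∃ Tc Tr : Finset (Fin n → Bool),
      (∀ w, (Tc.filter fun z => Agr F w z).card ≤ K) ∧
      (∀ w, (Tr.filter fun z => Agr A w z).card ≤ K) ∧
      ∀ z ∈ S, (∀ i, i ∉ J → Disjoint (dom i z) F) → (∀ i ∈ J, Disjoint (dom i z) A) →
        z ∈ Tc ∨ z ∈ Tr := by
  obtain ⟨T, hT⟩ : ∃ T : Finset (Fin n → Bool), ∀ z, z ∈ T ↔ z ∈ S ∧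
      (∀ i, i ∉ J → Disjoint (dom i z) F) ∧ ∀ i ∈ J, Disjoint (dom i z) A :=
    ⟨S.filter fun z => (∀ i, i ∉ J → Disjoint (dom i z) F) ∧ ∀ i ∈ J, Disjoint (dom i z) A,
      fun z => mem_filter⟩
  refine ⟨_, _, sp_thin T (subset_union_right (s₁ := A)), sp_thin T (subset_union_left (s₂ := F)),
    fun z hz h1 h2 => ?_⟩
  have hz' := (hT z).2 ⟨hz, h1, h2⟩
  by_contra hc
  rw [not_or, mem_filter, mem_filter, not_and, not_and, not_lt, not_lt] at hc
  obtain ⟨Y, hY, iY⟩ := sp_pick (hc.1 hz')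
  obtain ⟨X, hX, iX⟩ := sp_pick (hc.2 hz')
  refine hK A X Y ?_ fun a b => ?_
  · rintro ⟨a, b⟩ ⟨a', b'⟩ e
    refine Prod.ext (iX a a' fun x hx => ?_) (iY b b' fun x hx => ?_)
    · simpa [hyb, hx] using congrFun e x
    · simpa [hyb, disjoint_right.1 hFA hx] using congrFun e x
  · refine h.mix (fun s => if s ∈ J then Y b else X a) (fun s => ?_) _ fun s x hx => ?_
    · by_cases hs : s ∈ J
      · rw [if_pos hs]; exact ((hT _).1 (hY b).1).1
      · rw [if_neg hs]; exact ((hT _).1 (hX a).1).1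
    · by_cases hs : s ∈ J
      · rw [if_pos hs] at hx ⊢
        exact if_neg (disjoint_left.1 (((hT _).1 (hY b).1).2.2 s hs) hx)
      · rw [if_neg hs] at hx ⊢
        by_cases hA : x ∈ A
        · exact if_pos hA
        · have hU : x ∉ A ∪ F := fun e => (mem_union.1 e).elim hA
            (disjoint_left.1 (((hT _).1 (hX a).1).2.1 s hs) hx)
          exact (if_neg hA).trans (((hY b).2 x hU).symm.trans ((hX a).2 x hU))

end Pool.Agent.MP_47ff19_lc.H66

end

-- part MP_47ff19_lc.H66.Final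
section

/-! The last step: a free set avoided by most segments gives a rectangle. -/

namespace Pool.Agent.MP_47ff19_lc.H66

open Finset H51

variable {n r l K : ℕ} {S : Finset (Fin n → Bool)}
  {dom : Fin r → (Fin n → Bool) → Finset (Fin n)} {Acc : (Fin n → Bool) → Prop}

lemma final_exp {α : ℝ} (hα0 : 0 ≤ α) (hα1 : α ≤ 1 / 2) : Real.exp (-(2 * α)) ≤ 1 - α := by
  have h1 := Real.add_one_le_exp (2 * α)
  rw [Real.exp_neg, inv_le_comm₀ (Real.exp_pos _) (by linarith)]
  refine le_trans ?_ h1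
  rw [inv_eq_one_div, div_le_iff₀ (by linarith)]
  nlinarith

/-- Comparison of the two weights. -/
lemma final_wt {α b : ℝ} (hα0 : 0 ≤ α) (hα1 : α ≤ 1 / 2) (G B A : Finset (Fin n))
    (hB : (B.card : ℝ) ≤ b) :
    wt (cst α (G \ B)) A ≤ wt (cst α G) A * Real.exp (2 * α * b) := by
  have h1 := wt_avoid α G B A
  have hw : 0 ≤ wt (cst α G) A := wt_cst_nonneg hα0 (by linarith) _ _
  have hz : 0 ≤ wt (cst α (G \ B)) A := wt_cst_nonneg hα0 (by linarith) _ _
  have h2 : wt (cst α (G \ B)) A * (1 - α) ^ (B ∩ G).card ≤ wt (cst α G) A := by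
    rw [h1]
    split_ifs
    · exact le_rfl
    · exact hw
  have h3 : Real.exp (-(2 * α * b)) ≤ (1 - α) ^ (B ∩ G).card := by
    refine le_trans ?_ (pow_le_pow_left₀ (Real.exp_pos _).le (final_exp hα0 hα1) _)
    rw [← Real.exp_nat_mul, Real.exp_le_exp]
    have h4 : (((B ∩ G).card : ℕ) : ℝ) ≤ b :=
      le_trans (by exact_mod_cast card_le_card inter_subset_left) hB
    nlinarith
  have h5 := (mul_le_mul_of_nonneg_left h3 hz).trans h2
  have h6 := mul_le_mul_of_nonneg_right h5 (Real.exp_pos (2 * α * b)).le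
  rwa [mul_assoc, ← Real.exp_add, neg_add_cancel, Real.exp_zero, mul_one] at h6

lemma final_phi {v g x y t : ℝ} (hv : 0 ≤ v) (hg : v ≠ 0 → 0 < g) (hx : 0 ≤ x)
    (hxy : v ≠ 0 → x ≤ y * Real.exp t) :
    phi (v * x) (g * y) ≤ x * (v * Real.log (v / g)) + t * (v * x) - v * x + g * y := by
  unfold phi
  rcases eq_or_ne v 0 with h | h
  · simp [h]
  rcases eq_or_ne x 0 with h' | h'
  · simp [h']
  have hv' : 0 < v := lt_of_le_of_ne hv h.symm
  have hx' : 0 < x := lt_of_le_of_ne hx h'.symm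
  have hg' := hg h
  have hy : 0 < y := by
    by_contra hy
    have := mul_nonpos_of_nonpos_of_nonneg (not_lt.1 hy) (Real.exp_pos t).le
    linarith [hxy h]
  have e1 : v * x / (g * y) = v / g * (x / y) := by field_simp
  have e2 : Real.log (x / y) ≤ t := by
    rw [Real.log_le_iff_le_exp (by positivity), div_le_iff₀ hy]
    linarith [hxy h]
  rw [e1, Real.log_mul (by positivity) (by positivity)]
  have := mul_le_mul_of_nonneg_left e2 (mul_pos hv' hx').le
  linarith

/-- The variational bound on a thin set. -/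
lemma final_thin (hK0 : 0 < K) (F : Finset (Fin n)) (lam ρ : (Fin n → Bool) → ℝ)
    (h0 : ∀ z, 0 ≤ lam z) (h1 : ∀ z, 0 ≤ ρ z) (h2 : ∀ z, ρ z = 0 → lam z = 0) (hI : Inv F ρ)
    (T : Finset (Fin n → Bool)) (hT : ∀ w, (T.filter fun z => Agr F w z).card ≤ K) :
    Real.log (2 ^ F.card / K) * ∑ z ∈ T, lam z ≤ ∑ z, phi (lam z) (ρ z) + ∑ z, ρ z := by
  have hK : (0 : ℝ) < K := by exact_mod_cast hK0
  have a1 : ∑ z ∈ T, phi (lam z) (ρ z) ≤ ∑ z, phi (lam z) (ρ z) :=
    sum_le_sum_of_subset_of_nonneg (subset_univ _) fun z _ _ => phi_nonneg (h0 z) (h1 z) (h2 z)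
  have a2 : ∑ z ∈ T, (lam z * Real.log (2 ^ F.card / K) - ρ z * (2 ^ F.card / K)) ≤
      ∑ z ∈ T, phi (lam z) (ρ z) := sum_le_sum fun z _ => by
    have := phi_dv (h0 z) (h1 z) (h2 z) (Real.log (2 ^ F.card / K))
    rw [Real.exp_log (by positivity)] at this
    linarith [h1 z]
  have a3 := sum_ind_le h1 hI T (K := K) fun w => by
    refine (Nat.cast_le (α := ℝ)).2 ?_
    convert hT w
  rw [sum_sub_distrib, ← sum_mul, ← sum_mul] at a2
  have a4 := mul_le_mul_of_nonneg_right a3 (by positivity : (0 : ℝ) ≤ 2 ^ F.card / K)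
  have a5 : (K : ℝ) / 2 ^ F.card * (∑ z, ρ z) * (2 ^ F.card / K) = ∑ z, ρ z := by field_simp
  linarith

lemma final_card (A : Finset (Fin n)) (T : Finset (Fin n → Bool))
    (hT : ∀ w, (T.filter fun z => Agr A w z).card ≤ K) :
    (T.card : ℝ) ≤ K * 2 ^ n * (1 / 2) ^ A.card := by
  have := sum_ind_le (ρ := fun _ => (1 : ℝ)) (E := A) (fun _ => zero_le_one) (fun _ _ _ => rfl) T
    (K := K) fun w => by
    refine (Nat.cast_le (α := ℝ)).2 ?_
    convert hT w
  simp only [sum_const, nsmul_eq_mul, mul_one, card_univ, Fintype.card_fun, Fintype.card_bool,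
    Fintype.card_fin, Nat.cast_pow, Nat.cast_ofNat] at this
  refine this.trans_eq ?_
  rw [one_div, inv_pow]
  ring

/-- The inequality for one free set `F`.
Plan: `Bo z = J.biUnion (dom · z)` has at most `b` elements. For `A` let
`lam A z = ν z * wt (cst α (Fᶜ \ Bo z)) A` and `ρ A z = avg F ν z * wt (cst α Fᶜ) A`, which is
`F`-invariant; `wt_avoid` compares the two weights: `wt (cst α (Fᶜ \ Bo z)) A` is `0` or
`wt (cst α Fᶜ) A / (1 - α) ^ m` with `m ≤ b`, and `-log (1 - α) ≤ 2 * α`. So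
`∑ A, ∑ z, phi (lam A z) (ρ A z) ≤ dfc ν F + 2 * α * b * ∑ z, ν z` (`dfc_eq`, `sum_wt`, `sum_avg`).
With `Tc A`, `Tr A` from `split_thin` (empty if `A` meets `F`), `phi_dv` at
`θ = log (2 ^ F.card / K)` on `Tc A`, `phi_nonneg` elsewhere and `sum_ind_le` bound
`θ * ∑ A, ∑ z ∈ Tc A, lam A z` by that sum plus `∑ z, ν z`. By `sum_ind_le` for the weight `1`,
`(Tr A).card ≤ K / 2 ^ A.card * 2 ^ n`, and `wt_cst_gen` with `c = 1 / 2` sums over `A`. -/
theorem final_one (h : Segs S dom Acc l) (hK : NoRect K Acc) (hK0 : 0 < K) (J : Finset (Fin r))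
    (F : Finset (Fin n)) (ν : (Fin n → Bool) → ℝ) (h0 : ∀ z, 0 ≤ ν z)
    (hs : ∀ z, ν z ≠ 0 → z ∈ S ∧ ∀ i, i ∉ J → Disjoint (dom i z) F) {c b α : ℝ}
    (hc : ∀ z, ν z ≤ c) (hb : (J.card : ℝ) * l ≤ b) (hα0 : 0 ≤ α) (hα1 : α ≤ 1 / 2) :
    Real.log 2 * (F.card * ∑ z, ν z) ≤ dfc ν F + (2 * α * b + 1 + Real.log K) * ∑ z, ν z +
      n * (c * (K * 2 ^ n * Real.exp (2 * α * b - α * (n - F.card) / 2))) := by
  obtain ⟨Bo, hBo⟩ : ∃ Bo : (Fin n → Bool) → Finset (Fin n),
      Bo = fun z => J.biUnion fun i => dom i z := ⟨_, rfl⟩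
  have hα2 : α ≤ 1 := by linarith
  have hcard : ∀ z, ν z ≠ 0 → ((Bo z).card : ℝ) ≤ b := fun z hz => by
    refine le_trans ?_ hb
    have : (Bo z).card ≤ J.card * l := by
      rw [hBo]
      exact card_biUnion_le_card_mul _ _ _ fun i _ => h.width i z (hs z hz).1
    exact_mod_cast this
  have hcmp : ∀ A z, ν z ≠ 0 → wt (cst α (Fᶜ \ Bo z)) A ≤
      wt (cst α Fᶜ) A * Real.exp (2 * α * b) := fun A z hz =>
    final_wt hα0 hα1 _ _ A (hcard z hz)
  have hg : ∀ z, ν z ≠ 0 → 0 < avg F ν z := fun z hz => avg_pos h0 (fun _ _ => rfl) hz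
  have hwz : ∀ A z, 0 ≤ wt (cst α (Fᶜ \ Bo z)) A := fun A z => wt_cst_nonneg hα0 hα2 _ _
  have hw : ∀ A, 0 ≤ wt (cst α Fᶜ) A := fun A => wt_cst_nonneg hα0 hα2 _ _
  have hlam : ∀ A z, 0 ≤ ν z * wt (cst α (Fᶜ \ Bo z)) A := fun A z => mul_nonneg (h0 z) (hwz A z)
  have hc0 : 0 ≤ c := (h0 fun _ => false).trans (hc _)
  have s1 : ∑ A, ∑ z, ν z * wt (cst α (Fᶜ \ Bo z)) A = ∑ z, ν z := by
    rw [sum_comm]
    exact sum_congr rfl fun z _ => by rw [← mul_sum, sum_wt, mul_one]
  have s2 : ∑ A, ∑ z, avg F ν z * wt (cst α Fᶜ) A = ∑ z, ν z := by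
    rw [sum_comm, ← sum_avg F ν]
    exact sum_congr rfl fun z _ => by rw [← mul_sum, sum_wt, mul_one]
  have s3 : ∑ A, ∑ z, wt (cst α (Fᶜ \ Bo z)) A * (ν z * Real.log (ν z / avg F ν z)) =
      dfc ν F := by
    rw [sum_comm, dfc_eq h0]
    exact sum_congr rfl fun z _ => by rw [← sum_mul, sum_wt, one_mul]
  have s4 : ∑ A, ∑ z, phi (ν z * wt (cst α (Fᶜ \ Bo z)) A) (avg F ν z * wt (cst α Fᶜ) A) ≤
      dfc ν F + 2 * α * b * ∑ z, ν z := by
    refine le_trans (sum_le_sum fun A _ => sum_le_sum fun z _ =>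
      final_phi (h0 z) (hg z) (hwz A z) (hcmp A z)) ?_
    simp only [sum_add_distrib, sum_sub_distrib, ← mul_sum _ _ (2 * α * b)]
    rw [s1, s2, s3]
    linarith
  have hT : ∀ A : Finset (Fin n), ∃ Tc Tr : Finset (Fin n → Bool),
      (∀ w, (Tc.filter fun z => Agr F w z).card ≤ K) ∧
      (∀ w, (Tr.filter fun z => Agr A w z).card ≤ K) ∧
      ∀ z, ν z * wt (cst α (Fᶜ \ Bo z)) A ≠ 0 → z ∈ Tc ∨ z ∈ Tr := fun A => by
    by_cases hA : Disjoint A F
    · obtain ⟨Tc, Tr, t1, t2, t3⟩ := split_thin h hK J F A hA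
      refine ⟨Tc, Tr, t1, t2, fun z hz => ?_⟩
      have hz1 := hs z (left_ne_zero_of_mul hz)
      have hz2 := subset_of_wt (right_ne_zero_of_mul hz)
      refine t3 z hz1.1 hz1.2 fun i hi => disjoint_left.2 fun x hx hxA => ?_
      refine (mem_sdiff.1 (hz2 hxA)).2 ?_
      rw [hBo]
      exact mem_biUnion.2 ⟨i, hi, hx⟩
    · refine ⟨∅, ∅, fun w => by simp, fun w => by simp, fun z hz => (hA ?_).elim⟩
      have hz2 := subset_of_wt (right_ne_zero_of_mul hz)
      exact disjoint_left.2 fun x hx => mem_compl.1 (mem_sdiff.1 (hz2 hx)).1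
  choose Tc Tr t1 t2 t3 using hT
  have s5 : Real.log (2 ^ F.card / K) * ∑ A, ∑ z ∈ Tc A, ν z * wt (cst α (Fᶜ \ Bo z)) A ≤
      dfc ν F + 2 * α * b * ∑ z, ν z + ∑ z, ν z := by
    rw [mul_sum]
    refine le_trans (sum_le_sum fun A _ => final_thin hK0 F _
      (fun z => avg F ν z * wt (cst α Fᶜ) A) (hlam A)
      (fun z => mul_nonneg (avg_nonneg h0 F z) (hw A)) (fun z hz => ?_)
      (fun w z hwz => by simp only [avg_inv F ν w z hwz]) (Tc A) (t1 A)) ?_
    · by_contra hne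
      have e1 := left_ne_zero_of_mul hne
      rcases mul_eq_zero.1 hz with e | e
      · exact (hg z e1).ne' e
      · have := hcmp A z e1
        rw [e, zero_mul] at this
        exact right_ne_zero_of_mul hne (le_antisymm this (hwz A z))
    · rw [sum_add_distrib, s2]
      linarith
  have s6 : ∑ A, ∑ z ∈ Tc A, ν z * wt (cst α (Fᶜ \ Bo z)) A ≤ ∑ z, ν z := by
    rw [← s1]
    exact sum_le_sum fun A _ =>
      sum_le_sum_of_subset_of_nonneg (subset_univ _) fun z _ _ => hlam A z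
  have s7 : ∑ z, ν z ≤ ∑ A, ∑ z ∈ Tc A, ν z * wt (cst α (Fᶜ \ Bo z)) A +
      ∑ A, ∑ z ∈ Tr A, ν z * wt (cst α (Fᶜ \ Bo z)) A := by
    rw [← s1, ← sum_add_distrib]
    refine sum_le_sum fun A _ => ?_
    rw [← sum_union_inter]
    have e1 : ∑ z, ν z * wt (cst α (Fᶜ \ Bo z)) A =
        ∑ z ∈ Tc A ∪ Tr A, ν z * wt (cst α (Fᶜ \ Bo z)) A := by
      refine (sum_subset (subset_univ _) fun z _ hz => ?_).symm
      by_contra hne
      exact hz (mem_union.2 (t3 A z hne))
    have e2 : 0 ≤ ∑ z ∈ Tc A ∩ Tr A, ν z * wt (cst α (Fᶜ \ Bo z)) A :=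
      sum_nonneg fun z _ => hlam A z
    linarith
  have s8 : ∑ A, ∑ z ∈ Tr A, ν z * wt (cst α (Fᶜ \ Bo z)) A ≤
      c * (K * 2 ^ n * Real.exp (2 * α * b - α * (n - F.card) / 2)) := by
    have e1 : ∀ A, ∑ z ∈ Tr A, ν z * wt (cst α (Fᶜ \ Bo z)) A ≤
        c * (K * 2 ^ n * Real.exp (2 * α * b)) * (wt (cst α Fᶜ) A * (1 / 2) ^ A.card) := by
      intro A
      have e0 : 0 ≤ c * (wt (cst α Fᶜ) A * Real.exp (2 * α * b)) :=
        mul_nonneg hc0 (mul_nonneg (hw A) (Real.exp_pos _).le)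
      refine le_trans (sum_le_card_nsmul _ _
        (c * (wt (cst α Fᶜ) A * Real.exp (2 * α * b))) fun z _ => ?_) ?_
      · rcases eq_or_ne (ν z) 0 with e | e
        · rw [e, zero_mul]
          exact e0
        · exact mul_le_mul (hc z) (hcmp A z e) (hwz A z) hc0
      · rw [nsmul_eq_mul]
        refine (mul_le_mul_of_nonneg_right (final_card A _ (t2 A)) e0).trans_eq ?_
        ring
    refine (sum_le_sum fun A _ => e1 A).trans ?_
    rw [← mul_sum, wt_cst_gen, mul_assoc, mul_assoc (K * 2 ^ n : ℝ)]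
    refine mul_le_mul_of_nonneg_left (mul_le_mul_of_nonneg_left ?_ (by positivity)) hc0
    rw [sub_eq_add_neg (2 * α * b), Real.exp_add]
    refine mul_le_mul_of_nonneg_left ?_ (Real.exp_pos _).le
    have e2 : 1 - α + α * (1 / 2) ≤ Real.exp (-(α / 2)) := by
      linarith [Real.add_one_le_exp (-(α / 2))]
    refine (pow_le_pow_left₀ (by linarith) e2 _).trans_eq ?_
    have e3 : ((Fᶜ.card : ℕ) : ℝ) = n - F.card := by
      rw [card_compl, Fintype.card_fin, Nat.cast_sub (by simpa using card_le_univ F)]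
    rw [← Real.exp_nat_mul, e3]
    congr 1
    ring
  have hK1 : (1 : ℝ) ≤ K := by exact_mod_cast hK0
  have hθ : Real.log (2 ^ F.card / K) = F.card * Real.log 2 - Real.log K := by
    rw [Real.log_div (by positivity) (by linarith), Real.log_pow]
  have hθn : Real.log (2 ^ F.card / K) ≤ n := by
    have e1 : (F.card : ℝ) ≤ n := by exact_mod_cast (by simpa using card_le_univ F)
    have e2 : Real.log 2 ≤ 1 := by linarith [Real.log_two_lt_d9]
    have e3 := mul_le_mul e1 e2 (Real.log_nonneg one_le_two) (Nat.cast_nonneg n)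
    linarith [Real.log_nonneg hK1]
  have s9 := mul_le_mul_of_nonneg_right hθn (sub_nonneg.2 s6)
  have s10 := mul_le_mul_of_nonneg_left (sub_le_iff_le_add'.2 (s7.trans
    (add_le_add le_rfl s8))) (Nat.cast_nonneg (α := ℝ) n)
  rw [hθ] at s5 s9
  linarith

end Pool.Agent.MP_47ff19_lc.H66

end

-- part MP_47ff19_lc.H66.Last
section

/-! The end of the process. -/

namespace Pool.Agent.MP_47ff19_lc.H66

open Finset H51

variable {n r l K : ℕ} {S : Finset (Fin n → Bool)}
  {dom : Fin r → (Fin n → Bool) → Finset (Fin n)} {Acc : (Fin n → Bool) → Prop}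
  {q L U η : ℝ} {t : ℕ} {J : Finset (Fin r)} {μ : Finset (Fin n) → (Fin n → Bool) → ℝ}

lemma St.point (h : St S dom q L t J μ U η) (F : Finset (Fin n)) (z : Fin n → Bool) :
    μ F z ≤ U ^ F.card := by
  refine le_trans ?_ (h.smooth F z)
  refine le_trans (le_of_eq (if_pos Subset.rfl).symm) (single_le_sum
    (f := fun F' => if F ⊆ F' then μ F' z else 0) (fun F' _ => ?_) (mem_univ F))
  split_ifs
  · exact h.nonneg _ _
  · exact le_rfl

lemma St.mass (h : St S dom q L t J μ U η) : ∑ F, ∑ z, μ F z ≤ S.card := by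
  rw [sum_comm, card_eq_sum_ones, Nat.cast_sum, ← Fintype.sum_ite_mem S]
  refine sum_le_sum fun z _ => ?_
  split_ifs with hz
  · simpa [up] using h.smooth ∅ z
  · refine le_of_eq (sum_eq_zero fun F _ => ?_)
    by_contra h0
    exact hz (h.supp F z h0).1

lemma St.pool_le (h : St S dom q L t J μ U η) (hq : q * Real.exp L = 1) (hq0 : 0 ≤ q)
    (ht : (t : ℝ) ≤ q * r) : (J.card : ℝ) ≤ 4 * q * r := by
  have h1 := h.pool
  rw [hq] at h1
  have h2 : (3 : ℝ) ^ t * (1 + q) ^ r ≤ (2 ^ 2) ^ t * Real.exp q ^ r := by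
    have := Real.add_one_le_exp q
    gcongr
    · norm_num
    · linarith
  have h3 := Real.log_le_log (by positivity) (h1.trans h2)
  rw [Real.log_mul (by positivity) (by positivity), Real.log_pow, Real.log_pow, Real.log_pow,
    Real.log_pow, Real.log_exp, one_add_one_eq_two] at h3
  push_cast at h3
  have l2 := Real.log_two_gt_d9
  have h4 : 0 ≤ q * r := by positivity
  refine le_of_mul_le_mul_right ?_ (by linarith : 0 < Real.log 2)
  nlinarith

lemma row_term {n s : ℕ} {U Λ δ e b : ℝ} (hn : 0 < n) (hU : 0 ≤ U) (hΛ : 1 ≤ Real.log Λ)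
    (hΛ0 : 0 < Λ) (he : 0 ≤ e) (hδ : δ ≤ 1 / 32) (hb : b ≤ n / 160) {α : ℝ}
    (hα : α = if (s : ℝ) ≤ δ * n then 4 * (s * Real.log Λ + U / Λ * n + e * n) / n else 0) :
    U ^ s * Real.exp (2 * α * b - α * (n - s) / 2) ≤
      (U / Λ) ^ s * (Real.exp (-(U / Λ * n)) * Real.exp (-(e * n))) +
        (Real.exp 1 * U) ^ s * Real.exp (-(δ * n)) := by
  have hn' : (0 : ℝ) < n := by exact_mod_cast hn
  split_ifs at hα with hs
  · refine le_add_of_le_of_nonneg ?_ (by positivity)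
    have e1 : (U / Λ) ^ s = U ^ s * Real.exp (-(s * Real.log Λ)) := by
      rw [Real.exp_neg, ← Real.log_pow, Real.exp_log (by positivity), div_pow, div_eq_mul_inv]
    rw [e1, mul_assoc (U ^ s), ← Real.exp_add, ← Real.exp_add]
    refine mul_le_mul_of_nonneg_left (Real.exp_le_exp.2 ?_) (by positivity)
    have h1 : α * n = 4 * (s * Real.log Λ + U / Λ * n + e * n) := by
      rw [hα]
      field_simp
    have h2 : 0 ≤ α := by
      rw [hα]
      have : 0 ≤ Real.log Λ := by linarith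
      positivity
    have h3 : (s : ℝ) ≤ n / 32 := by nlinarith
    have h4 := mul_le_mul_of_nonneg_left hb h2
    have h5 := mul_le_mul_of_nonneg_left h3 h2
    have h6 := mul_nonneg h2 hn'.le
    linarith
  · refine le_add_of_nonneg_of_le (by positivity) ?_
    rw [hα, mul_pow, ← Real.exp_nat_mul, mul_comm (Real.exp _), mul_assoc (U ^ s),
      ← Real.exp_add]
    refine mul_le_mul_of_nonneg_left (Real.exp_le_exp.2 ?_) (by positivity)
    rw [not_le] at hs
    linarith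

lemma row_sum {U Λ δ e : ℝ} (hU : 0 ≤ U) (hΛ0 : 0 < Λ) (hδ : 3 * U + e ≤ δ) :
    ∑ F : Finset (Fin n), ((U / Λ) ^ F.card * (Real.exp (-(U / Λ * n)) * Real.exp (-(e * n))) +
      (Real.exp 1 * U) ^ F.card * Real.exp (-(δ * n))) ≤ 2 * Real.exp (-(e * n)) := by
  rw [sum_add_distrib, ← sum_mul, ← sum_mul, sum_pow_card, sum_pow_card, Fintype.card_fin]
  have h1 : ∀ c : ℝ, 0 ≤ c → (1 + c) ^ n ≤ Real.exp (c * n) := fun c hc => by
    rw [mul_comm, Real.exp_nat_mul]
    exact pow_le_pow_left₀ (by linarith) (by linarith [Real.add_one_le_exp c]) n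
  have h2 := mul_le_mul_of_nonneg_right (h1 (U / Λ) (by positivity))
    (by positivity : 0 ≤ Real.exp (-(U / Λ * n)) * Real.exp (-(e * n)))
  have h3 := mul_le_mul_of_nonneg_right (h1 (Real.exp 1 * U) (by positivity))
    (by positivity : 0 ≤ Real.exp (-(δ * n)))
  rw [← mul_assoc (Real.exp _), ← Real.exp_add (U / Λ * n), add_neg_cancel, Real.exp_zero,
    one_mul] at h2
  rw [← Real.exp_add] at h3
  have h4 : Real.exp (Real.exp 1 * U * n + -(δ * n)) ≤ Real.exp (-(e * n)) := by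
    refine Real.exp_le_exp.2 ?_
    have h5 := Real.exp_one_lt_d9
    have h6 : Real.exp 1 * U + e ≤ δ := by nlinarith
    have h7 := mul_le_mul_of_nonneg_right h6 (Nat.cast_nonneg n)
    linarith
  linarith

/-- The inequality at the end of the process. -/
theorem St.last (h : St S dom q L t J μ U (1 / 10)) (hs : Segs S dom Acc l) (hK : NoRect K Acc)
    (hK0 : 0 < K) {k : ℕ} (hk : r * l ≤ k * n) (hn : 0 < n) (hq : q * Real.exp L = 1)
    (hq0 : 0 ≤ q) (ht : (t : ℝ) ≤ q * r) (ht1 : 1 ≤ t)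
    (hc : 32 * q * k * (Real.log (4 ^ t) + 2) ≤ 1 / 10) {e : ℝ} (he0 : 0 ≤ e)
    (he : e ≤ U / 4 ^ t) (hU : U ≤ 1 / (192 * Real.log (4 ^ t))) :
    2 / 5 * (e * n * S.card) ≤
      (1 + Real.log K) * S.card + n * (K * 2 ^ n * (2 * Real.exp (-(e * n)))) := by
  obtain ⟨Λ, hΛ⟩ : ∃ Λ : ℝ, Λ = 4 ^ t := ⟨_, rfl⟩
  have hsize := h.size
  rw [← hΛ] at hc he hU hsize
  have l2 := Real.log_two_gt_d9
  have Λ4 : 4 ≤ Λ := hΛ ▸ le_self_pow₀ (by norm_num) (by omega)
  have Λ0 : 0 < Λ := by linarith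
  have lg1 : 1 ≤ Real.log Λ := by
    have h1 : Real.log (2 ^ 2) ≤ Real.log Λ := Real.log_le_log (by norm_num) (by linarith)
    rw [Real.log_pow] at h1
    push_cast at h1
    linarith
  have hn' : (0 : ℝ) < n := by exact_mod_cast hn
  have U0 : 0 ≤ U := by
    have := he0.trans he
    by_contra h'
    linarith [div_neg_of_neg_of_pos (not_le.1 h') Λ0]
  obtain ⟨δ, hδ⟩ : ∃ δ : ℝ, δ = 1 / (32 * Real.log Λ) := ⟨_, rfl⟩
  have δlg : δ * Real.log Λ = 1 / 32 := by
    rw [hδ]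
    field_simp
  have δ0 : 0 ≤ δ := by
    rw [hδ]
    positivity
  have δ1 : δ ≤ 1 / 32 := by nlinarith
  have Uδ : 6 * U ≤ δ := by
    have e1 : δ = 6 * (1 / (192 * Real.log Λ)) := by
      rw [hδ]
      field_simp
      norm_num
    linarith
  have UΛ : U / Λ ≤ U := div_le_self U0 (by linarith)
  obtain ⟨b, hb⟩ : ∃ b : ℝ, b = 4 * q * k * n := ⟨_, rfl⟩
  have hJ : (J.card : ℝ) * l ≤ b := by
    have h1 := mul_le_mul_of_nonneg_right (h.pool_le hq hq0 ht) (Nat.cast_nonneg l)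
    have h2 : (r : ℝ) * l ≤ k * n := by exact_mod_cast hk
    have h3 := mul_le_mul_of_nonneg_left h2 (by positivity : 0 ≤ 4 * q)
    rw [hb]
    linarith
  have qk : 0 ≤ q * k := by positivity
  have hb' : b ≤ n / 160 := by
    have h1 : 4 * q * k ≤ 1 / 160 := by nlinarith
    have := mul_le_mul_of_nonneg_right h1 hn'.le
    rw [hb]
    linarith
  obtain ⟨α, hα⟩ : ∃ α : ℕ → ℝ, ∀ s, α s =
      if (s : ℝ) ≤ δ * n then 4 * (s * Real.log Λ + U / Λ * n + e * n) / n else 0 :=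
    ⟨_, fun _ => rfl⟩
  have αle : ∀ s, α s * n ≤ 4 * (s * Real.log Λ + 2 * (U / Λ * n)) := fun s => by
    have h1 := mul_le_mul_of_nonneg_right he hn'.le
    have : 0 ≤ Real.log Λ := by linarith
    rw [hα]
    split_ifs
    · rw [div_mul_cancel₀ _ hn'.ne']
      linarith
    · rw [zero_mul]
      positivity
  have α0 : ∀ s, 0 ≤ α s := fun s => by
    have : 0 ≤ Real.log Λ := by linarith
    rw [hα]
    split_ifs
    · positivity
    · exact le_rfl
  have α1 : ∀ s, α s ≤ 1 / 2 := fun s => by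
    by_cases hs' : (s : ℝ) ≤ δ * n
    · refine le_of_mul_le_mul_right ((αle s).trans ?_) hn'
      have h1 := mul_le_mul_of_nonneg_right hs' (by linarith : 0 ≤ Real.log Λ)
      have h2 : δ * n * Real.log Λ = 1 / 32 * n := by rw [← δlg]; ring
      have h3 := mul_le_mul_of_nonneg_right (by linarith : U / Λ ≤ 1 / 32) hn'.le
      linarith
    · rw [hα, if_neg hs']
      norm_num
  have m0 : ∀ F, 0 ≤ ∑ z, μ F z := fun F => sum_nonneg fun z _ => h.nonneg F z
  have esz : sz μ = ∑ F : Finset (Fin n), F.card * ∑ z, μ F z := by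
    simp only [sz, mul_sum, mul_comm]
  have hSz : U / Λ * n * S.card ≤ sz μ := by
    rw [div_mul_eq_mul_div, div_mul_eq_mul_div, div_le_iff₀ Λ0]
    linarith
  have lK : 0 ≤ Real.log K := Real.log_nonneg (by exact_mod_cast hK0)
  have main := sum_le_sum fun F (_ : F ∈ univ) => final_one hs hK hK0 J F (μ F) (h.nonneg F)
    (h.supp F) (h.point F) hJ (α0 F.card) (α1 F.card)
  rw [← mul_sum, ← esz, sum_add_distrib, sum_add_distrib] at main
  have c1 : ∑ F : Finset (Fin n), (2 * α F.card * b + 1 + Real.log K) * ∑ z, μ F z ≤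
      1 / 10 * sz μ + (1 + Real.log K) * S.card := by
    have h1 : ∀ F : Finset (Fin n), (2 * α F.card * b + 1 + Real.log K) * ∑ z, μ F z ≤
        32 * q * k * Real.log Λ * (F.card * ∑ z, μ F z) +
          (64 * q * k * (U / Λ * n) + (1 + Real.log K)) * ∑ z, μ F z := fun F => by
      have h2 := mul_le_mul_of_nonneg_right
        (mul_le_mul_of_nonneg_left (αle F.card) (by positivity : 0 ≤ 8 * (q * k))) (m0 F)
      rw [hb]
      linarith
    refine (sum_le_sum fun F _ => h1 F).trans ?_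
    rw [sum_add_distrib, ← mul_sum, ← mul_sum, ← esz]
    have h3 := mul_le_mul_of_nonneg_left h.mass
      (by positivity : 0 ≤ 64 * q * k * (U / Λ * n) + (1 + Real.log K))
    have h4 := mul_le_mul_of_nonneg_left hSz (by positivity : 0 ≤ 64 * q * k)
    have h5 := mul_le_mul_of_nonneg_right hc (le_trans (by positivity) hSz)
    linarith
  have c2 : ∑ F : Finset (Fin n), (n : ℝ) * (U ^ F.card *
      (K * 2 ^ n * Real.exp (2 * α F.card * b - α F.card * (n - F.card) / 2))) ≤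
      n * (K * 2 ^ n * (2 * Real.exp (-(e * n)))) := by
    simp only [mul_left_comm (U ^ _)]
    rw [← mul_sum, ← mul_sum]
    refine mul_le_mul_of_nonneg_left (mul_le_mul_of_nonneg_left ?_ (by positivity)) hn'.le
    exact (sum_le_sum fun F _ => row_term hn U0 lg1 Λ0 he0 δ1 hb' (hα F.card)).trans
      (row_sum U0 Λ0 (by linarith))
  have c3 : ∑ F, dfc (μ F) F ≤ 1 / 10 * sz μ := h.defi
  have c4 : e * n * S.card ≤ sz μ := le_trans (by gcongr) hSz
  have c5 : 0 ≤ sz μ := le_trans (by positivity) c4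
  nlinarith

end Pool.Agent.MP_47ff19_lc.H66

end

-- part MP_47ff19_lc.H66.Game
section

/-! The process that removes the segments batch by batch. -/

namespace Pool.Agent.MP_47ff19_lc.H66

open Finset H51 Filter Topology

/-- Minus the logarithm of the fraction of the segments left at time `t`. -/
noncomputable def lv (k t : ℕ) : ℝ := (t : ℝ) ^ (1 / 126 : ℝ) / (42 * (k + 1))

lemma lv_zero (k : ℕ) : lv k 0 = 0 := by
  simp [lv]

lemma lv_one (k : ℕ) : lv k 1 = 1 / (42 * (k + 1)) := by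
  simp [lv]

lemma lv_mono (k t : ℕ) : lv k t ≤ lv k (t + 1) :=
  div_le_div_of_nonneg_right (Real.rpow_le_rpow (Nat.cast_nonneg _) (by simp) (by norm_num))
    (by positivity)

lemma lv_step (k : ℕ) {t : ℕ} (ht : 0 < t) : (lv k (t + 1) - lv k t) * (126 * t) ≤ lv k t := by
  have ht' : (0 : ℝ) < t := by exact_mod_cast ht
  have h1 := rpow_one_add_le_one_add_mul_self (s := 1 / (t : ℝ))
    (le_trans (by norm_num) (by positivity : (0 : ℝ) ≤ 1 / t)) (p := 1 / 126) (by norm_num)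
    (by norm_num)
  have e : ((t + 1 : ℕ) : ℝ) = t * (1 + 1 / t) := by
    push_cast
    field_simp
  have h2 : lv k (t + 1) ≤ lv k t * (1 + 1 / 126 * (1 / t)) := by
    rw [lv, lv, e, Real.mul_rpow ht'.le (by positivity), div_mul_eq_mul_div]
    gcongr
  have h3 := mul_le_mul_of_nonneg_right h2 (by positivity : (0 : ℝ) ≤ 126 * t)
  have e2 : lv k t * (1 + 1 / 126 * (1 / t)) * (126 * t) = lv k t * (126 * t) + lv k t := by
    field_simp
  linarith

lemma exists_time (k : ℕ) : ∃ T : ℕ, 1 ≤ T ∧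
    32 * Real.exp (-lv k T) * k * (Real.log (4 ^ T) + 2) ≤ 1 / 10 := by
  have h1 := (tendsto_rpow_mul_exp_neg_mul_atTop_nhds_zero 126 (1 / (42 * (k + 1)))
    (by positivity)).comp
    ((tendsto_rpow_atTop (by norm_num : (0 : ℝ) < 1 / 126)).comp tendsto_natCast_atTop_atTop)
  obtain ⟨T, h2, h3⟩ := ((h1.eventually (gt_mem_nhds
    (by positivity : (0 : ℝ) < 1 / (1280 * (k + 1))))).and (eventually_ge_atTop 1)).exists
  refine ⟨T, h3, ?_⟩
  simp only [Function.comp] at h2
  rw [← Real.rpow_mul (Nat.cast_nonneg T), show (1 / 126 : ℝ) * 126 = 1 by norm_num,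
    Real.rpow_one, lt_div_iff₀ (by positivity)] at h2
  have e : -(1 / (42 * ((k : ℝ) + 1))) * (T : ℝ) ^ (1 / 126 : ℝ) = -lv k T := by
    rw [lv]
    ring
  rw [e] at h2
  have hT : (1 : ℝ) ≤ T := by exact_mod_cast h3
  have h4 : Real.log (4 ^ T) + 2 ≤ 4 * T := by
    have l2 := Real.log_two_lt_d9
    rw [show (4 : ℝ) = 2 ^ 2 by norm_num, Real.log_pow, Real.log_pow]
    push_cast
    nlinarith
  have h5 := mul_le_mul_of_nonneg_left h4
    (by positivity : 0 ≤ 32 * Real.exp (-lv k T) * k)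
  have h6 : 0 ≤ T * Real.exp (-lv k T) := by positivity
  nlinarith

/-- From time `t` on, small deficiency leads to a rectangle. -/
def Win (k r : ℕ) (q : ℝ) (t : ℕ) (η ζ : ℝ) : Prop :=
  ∀ υ : ℝ, 0 < υ → ∃ ε : ℝ, 0 < ε ∧ ∃ n0 : ℕ, ∀ n, n0 ≤ n →
    ∀ (S : Finset (Fin n → Bool)) (dom : Fin r → (Fin n → Bool) → Finset (Fin n))
      (Acc : (Fin n → Bool) → Prop) (l K : ℕ), Segs S dom Acc l → r * l ≤ k * n → NoRect K Acc →
      0 < K → (K : ℝ) ≤ Real.exp (ε * n) → 2 ^ n ≤ Real.exp (ε * n) * S.card →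
      ∀ J μ U, υ ≤ U → U ≤ ζ → ¬ St S dom q (lv k t) t J μ U η

lemma card_pos_of_dense {n c : ℕ} {x : ℝ} (h : 2 ^ n ≤ x * c) : 0 < c := by
  rcases c.eq_zero_or_pos with rfl | h'
  · have : (0 : ℝ) < 2 ^ n := by positivity
    simp only [Nat.cast_zero, mul_zero] at h
    linarith
  · exact h'

lemma win_last (k : ℕ) : ∃ T r : ℕ, ∃ q ζ : ℝ, 1 ≤ T ∧ 0 < r ∧ 0 ≤ q ∧ 0 < ζ ∧
    Win k r q T (1 / 10) ζ := by
  obtain ⟨T, hT, hc⟩ := exists_time k
  have hT' : (1 : ℝ) ≤ T := by exact_mod_cast hT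
  have q0 := Real.exp_pos (-lv k T)
  have hq : Real.exp (-lv k T) * Real.exp (lv k T) = 1 := by
    rw [← Real.exp_add, neg_add_cancel, Real.exp_zero]
  generalize Real.exp (-lv k T) = q at hc q0 hq
  have hr : (T : ℝ) ≤ q * ⌈T / q⌉₊ := by
    rw [← div_le_iff₀' q0]
    exact Nat.le_ceil _
  refine ⟨T, ⌈T / q⌉₊, q, 1 / (192 * Real.log (4 ^ T)), hT, Nat.ceil_pos.2 (by positivity), q0.le,
    ?_, fun υ hυ => ?_⟩
  · have := Real.log_pos (one_lt_pow₀ (by norm_num : (1 : ℝ) < 4) (by omega : T ≠ 0))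
    positivity
  obtain ⟨ε, hε⟩ : ∃ ε : ℝ, υ / 4 ^ T = 10 * ε := ⟨υ / 4 ^ T / 10, by ring⟩
  have ε0 : 0 < ε := by
    have : 0 < υ / 4 ^ T := by positivity
    linarith
  refine ⟨ε, ε0, ⌈1 / ε + 1 / ε ^ 2⌉₊,
    fun n hn S dom Acc l K hs hk hK hK0 hKe hd J μ U hU hζ h => ?_⟩
  have hn1 : 1 / ε + 1 / ε ^ 2 ≤ n := (Nat.le_ceil _).trans (by exact_mod_cast hn)
  have p1 : 0 < 1 / ε := by positivity
  have p2 : 0 < 1 / ε ^ 2 := by positivity
  have n1 : 1 ≤ ε * n := by
    rw [← div_le_iff₀' ε0]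
    linarith
  have n2 : 1 ≤ ε ^ 2 * n := by
    rw [← div_le_iff₀' (by positivity)]
    linarith
  have hn0 : (0 : ℝ) < n := by linarith
  have main := h.last hs hK hK0 hk (by exact_mod_cast hn0) hq q0.le hr hT hc (e := 10 * ε)
    (by positivity) (by rw [← hε]; gcongr) hζ
  have hS : (0 : ℝ) < S.card := by exact_mod_cast card_pos_of_dense hd
  have lK : Real.log K ≤ ε * n := by
    rw [Real.log_le_iff_le_exp (by exact_mod_cast hK0)]
    exact hKe
  have h1 : (K : ℝ) * 2 ^ n * (2 * Real.exp (-(10 * ε * n))) ≤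
      Real.exp (ε * n) * (Real.exp (ε * n) * S.card) * (2 * Real.exp (-(10 * ε * n))) := by
    gcongr
  have h2 : Real.exp (ε * n) * (Real.exp (ε * n) * S.card) * (2 * Real.exp (-(10 * ε * n))) =
      2 * Real.exp (-(8 * ε * n)) * S.card := by
    rw [show -(8 * ε * n) = ε * n + ε * n + -(10 * ε * n) by ring, Real.exp_add, Real.exp_add]
    ring
  have h3 : n * (2 * Real.exp (-(8 * ε * n))) ≤ 1 := by
    have h4 := Real.quadratic_le_exp_of_nonneg (x := 8 * ε * n) (by positivity)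
    rw [Real.exp_neg, ← mul_assoc, ← div_eq_mul_inv, div_le_one (Real.exp_pos _)]
    nlinarith
  have h5 := mul_le_mul_of_nonneg_left (h1.trans h2.le) hn0.le
  have h6 := mul_le_mul_of_nonneg_right h3 hS.le
  have h7 := mul_le_mul_of_nonneg_right lK hS.le
  have h8 := mul_le_mul_of_nonneg_right n1 hS.le
  linarith

lemma win_step {k r t : ℕ} {q η ζ : ℝ} (hq : 0 ≤ q) (hη : 0 < η) (hζ : 0 < ζ)
    (hw : Win k r q (t + 1) η ζ) : ∃ η' : ℝ, 0 < η' ∧ Win k r q t η' 1 := by
  obtain ⟨M, hM⟩ : ∃ M : ℕ, 2 + 2 / η + 1 / ζ ≤ M := ⟨_, Nat.le_ceil _⟩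
  have p1 : 0 < 2 / η := by positivity
  have p2 : 0 < 1 / ζ := by positivity
  have hM2 : 2 ≤ M := by exact_mod_cast (by linarith : (2 : ℝ) ≤ M)
  have M0 : (0 : ℝ) < M := by linarith
  refine ⟨1 / (14 * (M : ℝ) ^ (M + 1)), by positivity, fun υ hυ => ?_⟩
  obtain ⟨ε, ε0, n0, H⟩ := hw (1 / (M : ℝ) ^ M * υ) (by positivity)
  refine ⟨ε, ε0, max n0 1, fun n hn S dom Acc l K hs hk hK hK0 hKe hd J μ U hU hU1 h => ?_⟩
  have U0 : 0 < U := hυ.trans_le hU
  have hsz : 0 ≤ sz μ := sum_nonneg fun F _ => sum_nonneg fun z _ =>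
    mul_nonneg (h.nonneg F z) (Nat.cast_nonneg _)
  obtain ⟨u, hu1, hu2, J', μ', h'⟩ := h.move hs hq (le_of_max_le_right hn) (card_pos_of_dense hd)
    U0 (lv_mono k t) (by
      rcases t.eq_zero_or_pos with rfl | ht
      · have h1 := h.mult_le hs hk U0.le
        rw [zero_add, lv_one, lv_zero, sub_zero, div_mul_eq_mul_div,
          div_le_div_iff₀ (by positivity) (by norm_num)]
        rw [pow_zero] at h1
        linarith
      · have h1 := h.mult_le' U0.le
        have hm0 : 0 ≤ mult dom μ := sum_nonneg fun F _ => sum_nonneg fun z _ =>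
          mul_nonneg (h.nonneg F z) (sum_nonneg fun _ _ => Nat.cast_nonneg _)
        have h2 := mul_le_mul_of_nonneg_right (lv_step k ht) hm0
        have ht' : (0 : ℝ) < t := by exact_mod_cast ht
        refine le_of_mul_le_mul_right ?_ (by positivity : (0 : ℝ) < 126 * t)
        linarith) M hM2 le_rfl
  have u0 : 0 < u := lt_of_lt_of_le (by positivity) hu1
  refine H n (le_of_max_le_left hn) S dom Acc l K hs hk hK hK0 hKe hd J' μ' (u * U) (by gcongr) ?_
    { h' with defi := h'.defi.trans (mul_le_mul_of_nonneg_right ?_ ?_) }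
  · refine (mul_le_of_le_one_right u0.le hU1).trans (hu2.trans ?_)
    rw [one_div_le M0 hζ]
    linarith
  · rw [div_le_comm₀ M0 hη]
    linarith
  · exact sum_nonneg fun F _ => sum_nonneg fun z _ =>
      mul_nonneg (h'.nonneg F z) (Nat.cast_nonneg _)

lemma win_zero (k : ℕ) : ∃ r : ℕ, ∃ q η : ℝ, 0 < r ∧ 0 < η ∧ Win k r q 0 η 1 := by
  obtain ⟨T, r, q, ζ, hT, hr, hq, hζ, hw⟩ := win_last k
  have key : ∀ d t, t + d + 1 = T → ∃ η : ℝ, 0 < η ∧ Win k r q t η 1 := by
    intro d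
    induction d with
    | zero =>
      rintro t rfl
      exact win_step hq (by norm_num) hζ hw
    | succ d ih =>
      intro t ht
      obtain ⟨η, hη, h⟩ := ih (t + 1) (by omega)
      exact win_step hq hη one_pos h
  obtain ⟨η, hη, h⟩ := key (T - 1) 0 (by omega)
  exact ⟨r, q, η, hr, hη, h⟩

lemma start {n r k : ℕ} (S : Finset (Fin n → Bool))
    (dom : Fin r → (Fin n → Bool) → Finset (Fin n)) (q : ℝ) {η : ℝ}
    (hd : 2 ^ n ≤ Real.exp (η * n) * S.card) :
    St S dom q (lv k 0) 0 univ (fun F z => if F = univ ∧ z ∈ S then 1 else 0) 1 η := by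
  have hS : (0 : ℝ) < S.card := by exact_mod_cast card_pos_of_dense hd
  have esz : sz (fun (F : Finset (Fin n)) z => if F = univ ∧ z ∈ S then (1 : ℝ) else 0) =
      n * S.card := by
    rw [sz, sum_eq_single univ (fun F _ hF => by simp [hF]) (by simp)]
    simp [mul_comm]
  refine ⟨fun F z => by positivity, fun F z h => ⟨?_, fun i hi => absurd (mem_univ i) hi⟩,
    fun E z => ?_, by simp [esz], ?_, by simp [lv_zero, mul_comm], by simp [lv_zero]⟩
  · by_contra hz
    exact h (if_neg fun h' => hz h'.2)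
  · rw [up, sum_eq_single univ (fun F _ hF => by simp [hF]) (by simp)]
    simp only [subset_univ, if_true, true_and, one_pow]
    split_ifs <;> norm_num
  · rw [esz, dtot, sum_eq_single univ (fun F _ hF => by simp [hF, dfc, psi]) (by simp),
      dfc_eq fun z => by positivity]
    have e : ∀ z : Fin n → Bool, avg univ (fun z => if (univ : Finset (Fin n)) = univ ∧ z ∈ S
        then (1 : ℝ) else 0) z = S.card / 2 ^ n := fun z => by
      simp [avg, Agr]
    have h1 : Real.log (1 / (S.card / 2 ^ n)) ≤ η * n := by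
      rw [Real.log_le_iff_le_exp (by positivity), one_div_div, div_le_iff₀ hS]
      exact hd
    calc _ ≤ ∑ z, if z ∈ S then η * n else 0 := sum_le_sum fun z _ => by
          rw [e z]
          by_cases hz : z ∈ S
          · simpa [hz] using h1
          · simp [hz]
      _ = _ := by
          rw [Fintype.sum_ite_mem, sum_const, nsmul_eq_mul]
          ring

theorem core (k : ℕ) : ∃ r : ℕ, 0 < r ∧ ∃ ε : ℝ, 0 < ε ∧ ∃ n0 : ℕ, ∀ n, n0 ≤ n →
    ∀ (S : Finset (Fin n → Bool)) (dom : Fin r → (Fin n → Bool) → Finset (Fin n))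
      (Acc : (Fin n → Bool) → Prop) (l K : ℕ), Segs S dom Acc l → r * l ≤ k * n → NoRect K Acc →
      0 < K → (K : ℝ) ≤ Real.exp (ε * n) → Real.exp (ε * n) * S.card < 2 ^ n := by
  obtain ⟨r, q, η, hr, hη, hw⟩ := win_zero k
  obtain ⟨ε, ε0, n0, H⟩ := hw 1 one_pos
  refine ⟨r, hr, min ε η, lt_min ε0 hη, n0, fun n hn S dom Acc l K hs hk hK hK0 hKe => ?_⟩
  by_contra hd
  rw [not_lt] at hd
  have h1 : Real.exp (min ε η * n) ≤ Real.exp (ε * n) := by
    gcongr
    exact min_le_left _ _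
  have h2 : Real.exp (min ε η * n) ≤ Real.exp (η * n) := by
    gcongr
    exact min_le_right _ _
  exact H n hn S dom Acc l K hs hk hK hK0 (hKe.trans h1) (hd.trans (by gcongr)) _ _ 1 le_rfl le_rfl
    (start S dom q (hd.trans (by gcongr)))

end Pool.Agent.MP_47ff19_lc.H66

end

-- part MP_47ff19_lc.H51.Rect
section

/-! A colouring of the cube with a short description and no large monochromatic rectangle. -/

namespace Pool.Agent.MP_47ff19_lc.H51

open Finset

lemma ofBits_inj {n : ℕ} : Function.Injective (Nat.ofBits : (Fin n → Bool) → ℕ) := by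
  intro u v h
  funext i
  have h1 := Nat.testBit_ofBits_lt u i i.2
  have h2 := Nat.testBit_ofBits_lt v i i.2
  rw [h] at h1
  exact h1.symm.trans h2

open Polynomial in
lemma shift_roots {p D : ℕ} [Fact p.Prime] (hD : D < p) (x : Fin D → ZMod p)
    (hx : Function.Injective x) (ξ : Fin D → ZMod p) (hξ : ξ ≠ 0) :
    (univ.filter fun a : ZMod p => ∑ i, ξ i * (a + x i) ^ D = 0).card ≤ D := by
  set Q : (ZMod p)[X] := ∑ i, C (ξ i) * (X + C (x i)) ^ D with hQ
  have hQ0 : Q ≠ 0 := by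
    intro h
    apply hξ
    refine Matrix.eq_zero_of_forall_pow_sum_mul_pow_eq_zero hx fun j => ?_
    have h1 : Q.coeff (D - j) = 0 := by rw [h, coeff_zero]
    have hj : D - (D - j) = j := by have := j.2; omega
    simp only [hQ, finsetSum_coeff, coeff_C_mul, coeff_X_add_C_pow, hj, ← mul_assoc,
      ← sum_mul] at h1
    refine (mul_eq_zero.1 h1).resolve_right ?_
    rw [ZMod.natCast_eq_zero_iff]
    intro hd
    have h2 : p ∣ D.factorial := by
      rw [← Nat.choose_mul_factorial_mul_factorial (Nat.sub_le D j), mul_assoc]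
      exact hd.mul_right _
    have := (Nat.Prime.dvd_factorial Fact.out).1 h2
    omega
  have hdeg : Q.natDegree ≤ D := by
    refine natDegree_sum_le_of_forall_le _ _ fun i _ => (natDegree_C_mul_le _ _).trans ?_
    refine natDegree_pow_le.trans ?_
    rw [natDegree_X_add_C, mul_one]
  refine le_trans ?_ ((Multiset.toFinset_card_le _).trans ((card_roots' Q).trans hdeg))
  refine card_le_card fun a ha => ?_
  rw [Multiset.mem_toFinset, mem_roots hQ0, IsRoot.def, hQ, eval_finsetSum]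
  simpa using (mem_filter.1 ha).2

/-- The frequencies of the majorant. -/
def freq (p : ℕ) : Fin 5 → ZMod p := ![0, 1, -1, 2, -2]

/-- The coefficients of the majorant. -/
noncomputable def coef (σ : ℝ) : Fin 5 → ℂ :=
  ![3, -Complex.I * σ, Complex.I * σ, 1 / 2, 1 / 2]

lemma freq_ne {p : ℕ} [Fact p.Prime] (hp : 2 < p) (k : Fin 5) (hk : k ≠ 0) : freq p k ≠ 0 := by
  have h2 : (2 : ZMod p) ≠ 0 := by
    intro h
    have : ((2 : ℕ) : ZMod p) = 0 := by exact_mod_cast h
    rw [ZMod.natCast_eq_zero_iff] at this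
    have := Nat.le_of_dvd (by norm_num) this
    omega
  fin_cases k
  · exact absurd rfl hk
  · simp [freq]
  · simp [freq]
  · simpa [freq] using h2
  · simpa [freq] using h2

lemma char_sum {p : ℕ} [NeZero p] {ι : Type} (s : Finset ι) (f : ι → ZMod p) :
    ∏ i ∈ s, ZMod.stdAddChar (f i) = ZMod.stdAddChar (∑ i ∈ s, f i) := by
  classical
  induction s using Finset.induction_on with
  | empty => simp
  | insert a s ha ih => rw [prod_insert ha, sum_insert ha, AddChar.map_add_eq_mul, ih]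

lemma char_norm {p : ℕ} [NeZero p] (v : ZMod p) :
    (ZMod.stdAddChar v).re ^ 2 + (ZMod.stdAddChar v).im ^ 2 = 1 := by
  have : Complex.normSq (ZMod.stdAddChar v) = 1 := by
    rw [ZMod.stdAddChar_apply]
    exact Circle.normSq_coe _
  rw [Complex.normSq_apply] at this
  linarith

lemma majorant {p : ℕ} [NeZero p] (σ : ℝ) (v : ZMod p) :
    ∑ k, coef σ k * ZMod.stdAddChar (freq p k * v) =
      ((4 + 2 * σ * (ZMod.stdAddChar v).im - 2 * (ZMod.stdAddChar v).im ^ 2 : ℝ) : ℂ) := by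
  have h := char_norm v
  have e2 : (2 : ZMod p) * v = v + v := two_mul v
  simp only [Fin.sum_univ_five, coef, freq, Matrix.cons_val, zero_mul, one_mul, neg_mul, e2,
    AddChar.map_zero_eq_one, AddChar.map_neg_eq_conj, AddChar.map_add_eq_mul]
  generalize ZMod.stdAddChar v = u at h ⊢
  apply Complex.ext
  · simp only [Complex.ofReal_re]
    simp
    nlinarith
  · simp only [Complex.ofReal_im]
    simp
    ring

lemma char_im {p : ℕ} [NeZero p] (v : ZMod p) :
    (ZMod.stdAddChar v).im = Real.sin (2 * Real.pi * v.val / p) := by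
  rw [ZMod.stdAddChar_apply, ZMod.toCircle_apply, ← Complex.exp_ofReal_mul_I_im]
  congr 2
  push_cast
  ring

lemma sign_im {p : ℕ} [NeZero p] (t : Bool) (v : ZMod p) (h : 2 * v.val < p ↔ t = true) :
    0 ≤ (if t then 1 else -1 : ℝ) * (ZMod.stdAddChar v).im := by
  have hp : (0 : ℝ) < p := by exact_mod_cast Nat.pos_of_ne_zero (NeZero.ne p)
  have hv : (v.val : ℝ) ≤ p := by exact_mod_cast (ZMod.val_lt v).le
  have hπ := Real.pi_pos
  rw [char_im]
  cases t
  · have h1 : (p : ℝ) ≤ 2 * v.val := by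
      have : p ≤ 2 * v.val := by simpa using h
      exact_mod_cast this
    have : Real.sin (2 * Real.pi * v.val / p - 2 * Real.pi) ≤ 0 := by
      apply Real.sin_nonpos_of_nonpos_of_neg_pi_le
      · rw [sub_nonpos, div_le_iff₀ hp]
        nlinarith
      · rw [le_sub_iff_add_le, le_div_iff₀ hp]
        nlinarith
    rw [Real.sin_sub_two_pi] at this
    simpa using this
  · have h1 : 2 * (v.val : ℝ) ≤ p := by
      have : 2 * v.val < p := by simpa using h
      exact_mod_cast this.le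
    have : 0 ≤ Real.sin (2 * Real.pi * v.val / p) := by
      apply Real.sin_nonneg_of_nonneg_of_le_pi
      · positivity
      · rw [div_le_iff₀ hp]
        nlinarith
    simpa using this

lemma riesz {p D : ℕ} [Fact p.Prime] (t : Bool) (y : Fin D → ZMod p)
    (hy : ∀ ξ : Fin D → Fin 5, ∑ i, freq p (ξ i) * y i = 0 → ξ = 0) :
    4 ^ D * (univ.filter fun b : ZMod p => ∀ i, (2 * (b * y i).val < p ↔ t = true)).card ≤
      3 ^ D * p := by
  set σ : ℝ := if t then 1 else -1 with hσ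
  have hσ2 : σ ^ 2 = 1 := by cases t <;> simp [hσ]
  let G : ZMod p → ℝ := fun v =>
    4 + 2 * σ * (ZMod.stdAddChar v).im - 2 * (ZMod.stdAddChar v).im ^ 2
  have hs : ∀ v : ZMod p, (σ * (ZMod.stdAddChar v).im) ^ 2 ≤ 1 := fun v => by
    rw [mul_pow, hσ2]
    nlinarith [char_norm v, sq_nonneg (ZMod.stdAddChar v).re]
  have hG : ∀ v, G v = 4 + 2 * (σ * (ZMod.stdAddChar v).im) -
      2 * (σ * (ZMod.stdAddChar v).im) ^ 2 := fun v => by
    simp only [G]
    rw [mul_pow, hσ2]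
    ring
  have hG0 : ∀ v, 0 ≤ G v := fun v => by
    rw [hG]
    nlinarith [hs v, sq_nonneg (σ * (ZMod.stdAddChar v).im + 1)]
  have hG4 : ∀ v : ZMod p, (2 * v.val < p ↔ t = true) → 4 ≤ G v := fun v hv => by
    have h1 := sign_im t v hv
    rw [← hσ] at h1
    have h2 : σ * (ZMod.stdAddChar v).im ≤ 1 := by nlinarith [hs v]
    rw [hG]
    nlinarith
  have hsum : ∑ b : ZMod p, ∏ i, G (b * y i) = 3 ^ D * p := by
    apply Complex.ofReal_injective
    push_cast
    have e1 : ∀ b : ZMod p, ∏ i, (G (b * y i) : ℂ) = ∑ ξ : Fin D → Fin 5,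
        (∏ i, coef σ (ξ i)) * ZMod.stdAddChar (b * ∑ i, freq p (ξ i) * y i) := by
      intro b
      simp only [G, ← majorant]
      rw [prod_univ_sum, Fintype.piFinset_univ]
      refine sum_congr rfl fun ξ _ => ?_
      rw [prod_mul_distrib, char_sum, mul_sum]
      congr 2
      exact sum_congr rfl fun i _ => by ring
    simp only [e1]
    rw [sum_comm]
    simp only [← mul_sum, AddChar.sum_mulShift _ (ZMod.isPrimitive_stdAddChar p)]
    rw [sum_eq_single 0]
    · simp [coef, freq]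
    · intro ξ _ hξ
      rw [if_neg fun h => hξ (hy ξ h)]
      simp
    · simp
  have : ((4 : ℝ) ^ D) * (univ.filter fun b : ZMod p =>
      ∀ i, (2 * (b * y i).val < p ↔ t = true)).card ≤ 3 ^ D * p := by
    rw [← hsum, mul_comm, ← nsmul_eq_mul, ← sum_const]
    refine le_trans (sum_le_sum fun b hb => ?_)
      (sum_le_sum_of_subset_of_nonneg (filter_subset _ _) fun b _ _ => prod_nonneg fun i _ => hG0 _)
    calc (4 : ℝ) ^ D = ∏ _i : Fin D, (4 : ℝ) := by simp
      _ ≤ _ := prod_le_prod (fun _ _ => by norm_num) fun i _ => hG4 _ ((mem_filter.1 hb).2 i)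
  exact_mod_cast this

lemma avoid_bad {γ δ : Type} [Fintype γ] [Fintype δ] (bad : δ → Finset γ) {c M : ℕ}
    (h : ∀ d, c * (bad d).card ≤ M) (hlt : Fintype.card δ * M < c * Fintype.card γ) :
    ∃ g, ∀ d, g ∉ bad d := by
  classical
  have h1 : c * (univ.biUnion bad).card ≤ Fintype.card δ * M := by
    calc _ ≤ c * ∑ d, (bad d).card := Nat.mul_le_mul_left _ card_biUnion_le
      _ = ∑ d, c * (bad d).card := mul_sum _ _ _
      _ ≤ ∑ _d : δ, M := sum_le_sum fun d _ => h d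
      _ = _ := by rw [sum_const, card_univ, smul_eq_mul]
  have h2 : (univ.biUnion bad).card < (univ : Finset γ).card :=
    Nat.lt_of_mul_lt_mul_left (h1.trans_lt hlt)
  obtain ⟨g, -, hg⟩ := exists_mem_notMem_of_card_lt_card h2
  exact ⟨g, fun d hd => hg (mem_biUnion.2 ⟨d, mem_univ _, hd⟩)⟩

lemma union_num1 (n : ℕ) (hn : 1 ≤ n) :
    2 ^ n * ((2 ^ n) ^ (6 * n) * (2 ^ n) ^ (6 * n)) * 5 ^ (36 * n ^ 2) * (36 * n ^ 2) ≤
      2 ^ (133 * n ^ 2) := by
  have h5 : 5 ^ (36 * n ^ 2) ≤ 2 ^ (84 * n ^ 2) := by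
    rw [pow_mul, pow_mul]
    exact Nat.pow_le_pow_left (by norm_num) _
  calc _ ≤ 2 ^ n * ((2 ^ n) ^ (6 * n) * (2 ^ n) ^ (6 * n)) * 2 ^ (84 * n ^ 2) * 2 ^ (36 * n ^ 2) :=
        Nat.mul_le_mul (Nat.mul_le_mul_left _ h5) Nat.lt_two_pow_self.le
    _ = 2 ^ (n + 132 * n ^ 2) := by
        rw [← pow_mul, ← pow_add, ← pow_add, ← pow_add, ← pow_add]
        congr 1
        ring
    _ ≤ _ := Nat.pow_le_pow_right (by norm_num) (by nlinarith)

lemma union_num2 (n : ℕ) (hn : 2 ≤ n) :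
    2 * (2 ^ n * ((2 ^ n) ^ (6 * n) * (2 ^ n) ^ (6 * n))) * 3 ^ (36 * n ^ 2) <
      4 ^ (36 * n ^ 2) := by
  have e : 2 * (2 ^ n * ((2 ^ n) ^ (6 * n) * (2 ^ n) ^ (6 * n))) = 2 ^ (1 + n + 12 * n ^ 2) := by
    rw [← pow_mul, ← pow_add, ← pow_add, ← pow_succ']
    congr 1
    ring
  rw [e]
  calc 2 ^ (1 + n + 12 * n ^ 2) * 3 ^ (36 * n ^ 2) < 2 ^ (14 * n ^ 2) * 3 ^ (36 * n ^ 2) :=
        Nat.mul_lt_mul_of_pos_right (Nat.pow_lt_pow_right (by norm_num) (by nlinarith))
          (by positivity)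
    _ = (2 ^ 14 * 3 ^ 36) ^ (n ^ 2) := by rw [mul_pow, pow_mul, pow_mul]
    _ ≤ (4 ^ 36) ^ (n ^ 2) := Nat.pow_le_pow_left (by norm_num) _
    _ = 4 ^ (36 * n ^ 2) := by rw [pow_mul]

theorem exists_params (n : ℕ) (hn : 2 ≤ n) :
    ∃ p a b : ℕ, p < 2 ^ (133 * n ^ 2 + 1) ∧ a < 2 ^ (133 * n ^ 2 + 1) ∧
      b < 2 ^ (133 * n ^ 2 + 1) ∧ ∀ t : Bool, NoRect (6 * n) fun w : Fin n → Bool =>
        (2 * (b * (a + Nat.ofBits w) ^ (36 * n ^ 2) % p) < p ↔ t = true) := by
  classical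
  obtain ⟨p, hp, hp1, hp2⟩ := Nat.exists_prime_lt_and_le_two_mul (2 ^ (133 * n ^ 2))
    (by positivity)
  have hnp : 2 ^ n ≤ 2 ^ (133 * n ^ 2) := Nat.pow_le_pow_right (by norm_num) (by nlinarith)
  have hDp : 36 * n ^ 2 < p := by
    have : 133 * n ^ 2 < 2 ^ (133 * n ^ 2) := Nat.lt_two_pow_self
    omega
  have h2p : 2 < p := by nlinarith
  have hp3 : p < 2 ^ (133 * n ^ 2 + 1) := by
    rw [pow_succ']
    refine lt_of_le_of_ne hp2 fun e => ?_
    have := hp.eq_one_or_self_of_dvd 2 ⟨_, e⟩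
    omega
  have : Fact p.Prime := ⟨hp⟩
  have hcard : Fintype.card (Fin (6 * n) × Fin (6 * n)) = 36 * n ^ 2 := by
    rw [Fintype.card_prod, Fintype.card_fin]; ring
  set e := (Fintype.equivFinOfCardEq hcard).symm with he
  let R := Finset (Fin n) × (Fin (6 * n) → Fin n → Bool) × (Fin (6 * n) → Fin n → Bool)
  have hR : Fintype.card R = 2 ^ n * ((2 ^ n) ^ (6 * n) * (2 ^ n) ^ (6 * n)) := by simp [R]
  let pt : R → Fin (36 * n ^ 2) → ZMod p := fun d i =>
    (Nat.ofBits (hyb d.1 (d.2.1 (e i).1) (d.2.2 (e i).2)) : ZMod p)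
  obtain ⟨a, ha⟩ := avoid_bad (c := 1) (M := 36 * n ^ 2)
    (fun d : R × (Fin (36 * n ^ 2) → Fin 5) =>
      if Function.Injective (pt d.1) ∧ d.2 ≠ 0 then univ.filter fun a : ZMod p =>
        ∑ i, freq p (d.2 i) * (a + pt d.1 i) ^ (36 * n ^ 2) = 0 else ∅)
    (fun d => by
      rw [one_mul]
      split_ifs with hd
      · refine shift_roots hDp _ hd.1 _ fun h => hd.2 ?_
        funext i
        by_contra hi
        exact freq_ne h2p _ hi (congrFun h i)
      · simp)
    (by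
      rw [Fintype.card_prod, hR, Fintype.card_fun, Fintype.card_fin, Fintype.card_fin, ZMod.card,
        one_mul]
      exact (union_num1 n (by omega)).trans_lt hp1)
  obtain ⟨b, hb⟩ := avoid_bad (c := 4 ^ (36 * n ^ 2)) (M := 3 ^ (36 * n ^ 2) * p)
    (fun d : Bool × R =>
      if Function.Injective (pt d.2) then univ.filter fun b : ZMod p =>
        ∀ i, (2 * (b * (a + pt d.2 i) ^ (36 * n ^ 2)).val < p ↔ d.1 = true) else ∅)
    (fun d => by
      split_ifs with hd
      · refine riesz d.1 _ fun ξ hξ => ?_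
        by_contra h0
        refine ha (d.2, ξ) ?_
        rw [if_pos ⟨hd, h0⟩]
        exact mem_filter.2 ⟨mem_univ _, hξ⟩
      · simp)
    (by
      rw [Fintype.card_prod, hR, Fintype.card_bool, ZMod.card, ← mul_assoc]
      exact Nat.mul_lt_mul_of_pos_right (union_num2 n hn) hp.pos)
  refine ⟨p, a.val, b.val, hp3, (ZMod.val_lt _).trans hp3, (ZMod.val_lt _).trans hp3, ?_⟩
  intro t U X Y hinj hall
  have hi : Function.Injective (pt (U, X, Y)) := by
    intro i i' h
    simp only [pt] at h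
    rw [ZMod.natCast_eq_natCast_iff',
      Nat.mod_eq_of_lt ((Nat.ofBits_lt_two_pow _).trans (hnp.trans_lt hp1)),
      Nat.mod_eq_of_lt ((Nat.ofBits_lt_two_pow _).trans (hnp.trans_lt hp1))] at h
    exact e.injective (hinj (ofBits_inj h))
  refine hb (t, U, X, Y) ?_
  rw [if_pos hi]
  refine mem_filter.2 ⟨mem_univ _, fun i => ?_⟩
  have := hall (e i).1 (e i).2
  simp only at this
  rw [← ZMod.val_natCast] at this
  simpa [pt] using this

end Pool.Agent.MP_47ff19_lc.H51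

end
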