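import Pool.Agent.Lib.Cx.All
import Pool.Agent.MP_47ff19_lc.Mg.H51_Rect
import Pool.Agent.MP_47ff19_lc.Mg.H51_Num

-- part MP_47ff19_lc.H51.Lang
section

/-! The hard language and its membership in P. -/

namespace Pool.Agent.MP_47ff19_lc.H51

open Pool.Agent.Lib.Cx

/-- The number of point bits of a word. -/
def ptLen (x : List Bool) : ℕ :=
  (List.range x.length).countP fun k => decide (404 * (k + 1) ^ 2 ≤ x.length)

/-- The colouring with target bit, modulus, shift and multiplier read from the number `R`. -/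
def Colour (n R z : ℕ) : Prop :=
  2 * (R / 2 / 2 ^ (133 * n ^ 2 + 1) / 2 ^ (133 * n ^ 2 + 1) *
    (R / 2 / 2 ^ (133 * n ^ 2 + 1) % 2 ^ (133 * n ^ 2 + 1) + z) ^ (36 * n ^ 2) %
      (R / 2 % 2 ^ (133 * n ^ 2 + 1))) < R / 2 % 2 ^ (133 * n ^ 2 + 1) ↔ R % 2 = 1

open Classical in
/-- The hard language. -/
noncomputable def lang (x : List Bool) : Bool :=
  decide (Even ((x.take (ptLen x)).count true) ∧
    Colour (ptLen x) (ofBits (x.drop (ptLen x))) (ofBits (x.take (ptLen x))))

lemma ptLen_eq (x : List Bool) : ptLen x = Nat.sqrt (x.length / 404) := by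
  have h : ∀ k, decide (404 * (k + 1) ^ 2 ≤ x.length) = decide (k < Nat.sqrt (x.length / 404)) := by
    intro k
    rw [decide_eq_decide, Nat.lt_iff_add_one_le, Nat.le_sqrt', Nat.le_div_iff_mul_le (by norm_num),
      mul_comm]
  have h2 : ∀ r N, (List.range N).countP (fun k => decide (k < r)) = min r N := by
    intro r N
    induction N with
    | zero => simp
    | succ N ih =>
      rw [List.range_succ, List.countP_append, ih]
      by_cases hN : N < r
      · simp [hN]; omega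
      · simp [hN]; omega
  simp only [ptLen, h, h2]
  exact min_eq_left ((Nat.sqrt_le_self _).trans (Nat.div_le_self _ _))

@[fun_prop] lemma ptLen_pt : PT ptLen := by
  unfold ptLen
  fun_prop

@[fun_prop] lemma ptLen_pb : PB ptLen :=
  (PB.length PT.id').mono fun x => List.countP_le_length.trans (by simp)

lemma lang_mem_P : lang ∈ N68a2faeb.P := by
  have : PT lang := by
    unfold lang Colour
    fun_prop
  exact this.isPolyTime

lemma ofBits_ofFn {n : ℕ} (f : Fin n → Bool) : ofBits (List.ofFn f) = Nat.ofBits f := by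
  induction n with
  | zero => simp [Nat.ofBits]
  | succ n ih =>
    rw [List.ofFn_succ, ofBits_cons, ih, bit_val', Nat.ofBits_succ]
    rfl

end Pool.Agent.MP_47ff19_lc.H51

end

-- part MP_47ff19_lc.H51.Main
section

/-! The exponential lower bound. -/

namespace Pool.Agent.MP_47ff19_lc.H51

open Finset

lemma count_ofFn {n : ℕ} (w : Fin n → Bool) :
    (List.ofFn w).count true = (univ.filter fun i => w i = true).card := by
  induction n with
  | zero => simp
  | succ n ih =>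
    rw [List.ofFn_succ, List.count_cons, ih, card_filter, card_filter, Fin.sum_univ_succ, add_comm]
    cases w 0 <;> simp

lemma colour_code {n p a b : ℕ} (hp : p < 2 ^ (133 * n ^ 2 + 1)) (ha : a < 2 ^ (133 * n ^ 2 + 1))
    (t : Bool) (z : ℕ) :
    Colour n (t.toNat + 2 * (p + 2 ^ (133 * n ^ 2 + 1) * (a + 2 ^ (133 * n ^ 2 + 1) * b))) z ↔
      (2 * (b * (a + z) ^ (36 * n ^ 2) % p) < p ↔ t = true) := by
  unfold Colour
  generalize 2 ^ (133 * n ^ 2 + 1) = M at hp ha
  have hM : 0 < M := by omega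
  have e1 : (t.toNat + 2 * (p + M * (a + M * b))) / 2 = p + M * (a + M * b) := by
    have := Bool.toNat_le t
    omega
  have e2 : (t.toNat + 2 * (p + M * (a + M * b))) % 2 = 1 ↔ t = true := by
    cases t <;> simp
  rw [e1, e2, Nat.add_mul_mod_self_left, Nat.add_mul_div_left _ _ hM, Nat.mod_eq_of_lt hp,
    Nat.div_eq_of_lt hp, zero_add, Nat.add_mul_mod_self_left, Nat.add_mul_div_left _ _ hM,
    Nat.mod_eq_of_lt ha, Nat.div_eq_of_lt ha, zero_add]

lemma lang_append {n r R : ℕ} (hn : n = Nat.sqrt ((n + r) / 404)) (hR : R < 2 ^ r)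
    (w : Fin n → Bool) :
    lang (List.ofFn (Fin.append w fun j : Fin r => R.testBit j)) = true ↔
      Even (univ.filter fun i => w i = true).card ∧ Colour n R (Nat.ofBits w) := by
  have h : ptLen (List.ofFn (Fin.append w fun j : Fin r => R.testBit j)) = n := by
    rw [ptLen_eq, List.length_ofFn, ← hn]
  have hw : (List.ofFn w).length = n := List.length_ofFn
  simp only [lang, decide_eq_true_eq]
  rw [h, List.ofFn_fin_append, List.take_left' hw, List.drop_left' hw,
    ofBits_ofFn, ofBits_ofFn, count_ofFn, Nat.ofBits_testBit, Nat.mod_eq_of_lt hR]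

theorem size_cube {δ : ℝ} (hδ : (1 + 1 / 4000 : ℝ) = 2 ^ δ) (h0 : 0 < δ) (h1 : δ < 1) {n r : ℕ}
    (hn : 40000 ≤ n) (hnr : n = Nat.sqrt ((n + r) / 404)) (B : NBP (Fin (n + r)))
    (hc : B.Computes fun x => lang (List.ofFn x) = true) (hr : B.ReadOnceAccept) :
    (2 : ℝ) ^ (δ / 10000 * n) ≤ 264 * n * (B.size : ℝ) ^ 3 := by
  classical
  obtain ⟨p, a, b, hp, ha, hb, hrect⟩ := exists_params n (by omega)
  obtain ⟨t, ht⟩ := exists_colour (n := n) (by omega)
    fun w => 2 * (b * (a + Nat.ofBits w) ^ (36 * n ^ 2) % p) < p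
  obtain ⟨R, hR⟩ : ∃ R, R =
    t.toNat + 2 * (p + 2 ^ (133 * n ^ 2 + 1) * (a + 2 ^ (133 * n ^ 2 + 1) * b)) := ⟨_, rfl⟩
  have hRr : R < 2 ^ r := by
    have h404 : 404 * n ^ 2 ≤ n + r := by
      have := Nat.sqrt_le' ((n + r) / 404)
      rw [← hnr, Nat.le_div_iff_mul_le (by norm_num)] at this
      omega
    have hr3 : 3 * (133 * n ^ 2 + 1) + 1 ≤ r := by nlinarith
    refine lt_of_lt_of_le ?_ (Nat.pow_le_pow_right (by norm_num) hr3)
    rw [hR, pow_succ' 2 (3 * (133 * n ^ 2 + 1)), mul_comm 3, pow_mul 2 (133 * n ^ 2 + 1) 3]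
    generalize 2 ^ (133 * n ^ 2 + 1) = M at hp ha hb ⊢
    have h2 : a + M * b + 1 ≤ M * M := by nlinarith
    have h3 : p + M * (a + M * b) + 1 ≤ M ^ 3 := by nlinarith
    have := Bool.toNat_le t
    omega
  have hl : ∀ w : Fin n → Bool,
      lang (List.ofFn (Fin.append w fun j : Fin r => R.testBit j)) = true ↔
        Even (univ.filter fun i => w i = true).card ∧
          (2 * (b * (a + Nat.ofBits w) ^ (36 * n ^ 2) % p) < p ↔ t = true) := fun w => by
    rw [lang_append hnr hRr, hR, colour_code hp ha]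
  obtain ⟨β, hβ⟩ : ∃ β, β = 500 * n / 2001 := ⟨_, rfl⟩
  obtain ⟨α, hα⟩ : ∃ α, n = α + 3 * β := ⟨n - 3 * β, by omega⟩
  obtain ⟨S, dom, hcut, hS⟩ := exists_cuts
    (fix_computes (I := fun j : Fin r => R.testBit j) hc) (fix_readOnce hr)
    (fun w x h h' => (even_flip w x).1 ((hl _).1 h').1 ((hl _).1 h).1) hα _
    fun z hz => (hl z).2 (mem_filter.1 hz).2
  have hnr : NoRect (6 * n) fun w : Fin n → Bool =>
      lang (List.ofFn (Fin.append w fun j : Fin r => R.testBit j)) = true := fun U X Y hi hall =>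
    hrect t U X Y hi fun i j => ((hl _).1 (hall i j)).2
  have hcore := (hcut.core (a := 1 - δ) (q := 1 / 4000) (by omega) hnr (by linarith) (by linarith)
    (by rw [sub_sub_cancel]; exact hδ) (by positivity) (by positivity) (by positivity)).trans
    (numerics hδ h0 h1.le hα (by omega) (by omega) (by omega) rfl rfl rfl)
  have h2 : (2 : ℝ) ^ n ≤ 4 * ((B.size : ℝ) ^ 3 * S.card) := by
    exact_mod_cast ht.trans (Nat.mul_le_mul_left 4 hS)
  have hnβ : (n : ℝ) ≤ 5 * β := by exact_mod_cast (by omega : n ≤ 5 * β)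
  have h3 : (2 : ℝ) ^ (n - δ / 2000 * β) ≤ 2 ^ (n - δ / 10000 * n) := two_mono (by nlinarith)
  have h4 : (2 : ℝ) ^ n = 2 ^ (δ / 10000 * n) * 2 ^ (n - δ / 10000 * n) := by
    rw [two_mul', two_natpow]
    congr 1
    ring
  have h5 : (S.card : ℝ) ≤ 66 * n * 2 ^ (n - δ / 10000 * n) := by
    refine hcore.trans ?_
    push_cast
    have : (0 : ℝ) ≤ n := Nat.cast_nonneg n
    nlinarith
  have hE : (0 : ℝ) < 2 ^ (n - δ / 10000 * n) := by positivity
  refine le_of_mul_le_mul_right ?_ hE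
  rw [← h4]
  refine h2.trans ?_
  have h6 : (0 : ℝ) ≤ (B.size : ℝ) ^ 3 := by positivity
  nlinarith

theorem lower_bound : ∃ ε : ℝ, 0 < ε ∧ ∃ N0 : ℕ, ∀ N, N0 ≤ N → ∀ B : NBP (Fin N),
    (B.Computes fun x => lang (List.ofFn x) = true) → B.ReadOnceAccept →
      (2 : ℝ) ^ (ε * √N) ≤ B.size := by
  have hδ : (1 + 1 / 4000 : ℝ) = 2 ^ Real.logb 2 (1 + 1 / 4000) :=
    (Real.rpow_logb (by norm_num) (by norm_num) (by norm_num)).symm
  have h0 : 0 < Real.logb 2 (1 + 1 / 4000) := Real.logb_pos (by norm_num) (by norm_num)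
  have h1 : Real.logb 2 (1 + 1 / 4000) < 1 := by
    rw [Real.logb_lt_iff_lt_rpow (by norm_num) (by norm_num)]
    norm_num
  generalize Real.logb 2 (1 + 1 / 4000) = δ at hδ h0 h1
  obtain ⟨n0, hn0⟩ := eventually_lin (c := δ / 20000) (by positivity)
  refine ⟨δ / 60000 / 42, by positivity, 404 * max n0 40000 ^ 2, fun N hN B hc hr => ?_⟩
  obtain ⟨n, hn⟩ : ∃ n, n = Nat.sqrt (N / 404) := ⟨_, rfl⟩
  have hn1 : max n0 40000 ≤ n := by
    rw [hn, Nat.le_sqrt', Nat.le_div_iff_mul_le (by norm_num)]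
    omega
  obtain ⟨r, rfl⟩ : ∃ r, N = n + r :=
    ⟨N - n, by
      have := (Nat.sqrt_le_self (N / 404)).trans (Nat.div_le_self N 404)
      omega⟩
  have h := size_cube hδ h0 h1 (le_of_max_le_right hn1) hn B hc hr
  have h2 := hn0 n (le_of_max_le_left hn1)
  have hsq : √((n + r : ℕ) : ℝ) ≤ 42 * n := by
    have h3 := Nat.lt_succ_sqrt' ((n + r) / 404)
    rw [← hn, Nat.div_lt_iff_lt_mul (by norm_num), Nat.succ_eq_add_one] at h3
    have h4 : 1 ≤ n := le_trans (by norm_num) (le_of_max_le_right hn1)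
    have h5 : n + r ≤ (42 * n) ^ 2 := by nlinarith
    rw [Real.sqrt_le_iff]
    exact ⟨by positivity, by exact_mod_cast h5⟩
  refine (two_mono (y := δ / 60000 * n) (by nlinarith)).trans ?_
  refine le_of_pow_le_pow_left₀ (n := 3) (by norm_num) (by positivity) ?_
  have hE : (0 : ℝ) < 2 ^ (δ / 20000 * n) := by positivity
  refine le_of_mul_le_mul_left ?_ hE
  have e : (2 : ℝ) ^ (δ / 20000 * n) * (2 ^ (δ / 60000 * n)) ^ 3 = 2 ^ (δ / 10000 * n) := by
    rw [rpow_npow, two_mul']
    congr 1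
    push_cast
    ring
  rw [e]
  exact h.trans (mul_le_mul_of_nonneg_right h2 (by positivity))

end Pool.Agent.MP_47ff19_lc.H51

end
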