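import Pool.Agent.MP_47ff19_lc.Mg.H51_Num
import Pool.Agent.MP_47ff19_lc.Mg.H66_Step

/-! Cutting short accepting walks. -/

namespace Pool.Agent.MP_47ff19_lc.H66

open Finset H51

theorem cut_nodes {V : Type} {B : NBP V} {z : V → Bool} {l : ℕ} (r : ℕ) {s t : Fin B.size}
    {p : List V} (h : B.Path z s p t) (hp : p.length ≤ (r + 1) * l) :
    ∃ m : Fin (r + 2) → Fin B.size, m 0 = s ∧ m (Fin.last _) = t ∧
      ∀ i : Fin (r + 1), ∃ q, q.length ≤ l ∧ B.Path z (m i.castSucc) q (m i.succ) := by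
  induction r generalizing s p with
  | zero =>
    refine ⟨![s, t], rfl, rfl, fun i => ⟨p, by omega, ?_⟩⟩
    obtain rfl : i = 0 := Subsingleton.elim (α := Fin 1) _ _
    exact h
  | succ r ih =>
    obtain ⟨u, h1, h2⟩ := h.split _ _ (List.take_append_drop l p).symm
    obtain ⟨m, h3, h4, h5⟩ := ih h2 (by
      rw [add_mul, one_mul] at hp
      rw [List.length_drop]
      omega)
    refine ⟨Fin.cons s m, rfl, h4, fun i => ?_⟩
    induction i using Fin.cases with
    | zero => exact ⟨_, List.length_take_le _ _, h3 ▸ h1⟩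
    | succ i => exact h5 i

theorem cut_join {V : Type} {B : NBP V} {w : V → Bool} (r : ℕ) (m : Fin (r + 1) → Fin B.size)
    (h : ∀ i : Fin r, ∃ q, B.Path w (m i.castSucc) q (m i.succ)) :
    ∃ q, B.Path w (m 0) q (m (Fin.last r)) := by
  induction r with
  | zero => exact ⟨[], NBP.Path.nil _⟩
  | succ r ih =>
    obtain ⟨q, h1⟩ := h 0
    obtain ⟨q', h2⟩ := ih (fun i => m i.succ) fun i => h i.succ
    exact ⟨_, h1.append h2⟩

/-- `D` certifies a walk from `s` to `t` at the input `z`. -/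
def Cert {n : ℕ} (B : NBP (Fin n)) (l : ℕ) (s t : Fin B.size) (z : Fin n → Bool)
    (D : Finset (Fin n)) : Prop :=
  D.card ≤ l ∧ ∀ w : Fin n → Bool, (∀ x ∈ D, w x = z x) → ∃ q, B.Path w s q t

theorem Cert.agr {n : ℕ} {B : NBP (Fin n)} {l : ℕ} {s t : Fin B.size} {z z' : Fin n → Bool}
    {D E : Finset (Fin n)} (h : Cert B l s t z D) (hE : ∀ i, i ∉ E → z i = z' i)
    (hD : Disjoint D E) : Cert B l s t z' D :=
  ⟨h.1, fun w hw => h.2 w fun x hx => (hw x hx).trans (hE x (disjoint_left.1 hD hx)).symm⟩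

/-- Cutting short accepting walks into `r` segments with canonical certificates.
Plan: for `z ∈ S0` cut its walk `p` into the pieces `(p.drop (i * l)).take l` (`NBP.Path.split`,
induction on `r`), which gives nodes `m : Fin (r + 1) → Fin B.size` with `m 0 = source`,
`m (last) = sink`; pigeonhole on `m` gives `S ⊆ S0`. Call `D` a certificate of segment `i` at `z` if
`D.card ≤ l` and every `w` equal to `z` on `D` has a walk from `m i.castSucc` to `m i.succ`
(`NBP.Path.congr` shows that the piece's `toFinset` is one). Let `dom i z` be the certificate with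
the least code under a fixed injection `Finset (Fin n) → ℕ` (`Function.argminOn`, or `Nat.find`
with `Encodable`/`Fintype.equivFin`). `Det`: a certificate at `z` disjoint from `E` is one at `z'`,
and conversely, so the two least codes agree. `mix`: concatenate with `NBP.Path.append`. -/
theorem exists_segs {n : ℕ} (B : NBP (Fin n)) (Acc : (Fin n → Bool) → Prop) (hc : B.Computes Acc)
    (r l : ℕ) (hr : 0 < r) (S0 : Finset (Fin n → Bool))
    (hS0 : ∀ z ∈ S0, ∃ p, B.Path z B.source p B.sink ∧ p.length ≤ r * l) :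
    ∃ (S : Finset (Fin n → Bool)) (dom : Fin r → (Fin n → Bool) → Finset (Fin n)),
      Segs S dom Acc l ∧ S0.card ≤ B.size ^ (r + 1) * S.card := by
  classical
  obtain ⟨r, rfl⟩ : ∃ k, r = k + 1 := ⟨r - 1, by omega⟩
  have key : ∀ z : Fin n → Bool, ∃ m : Fin (r + 2) → Fin B.size, z ∈ S0 → m 0 = B.source ∧
      m (Fin.last _) = B.sink ∧ ∀ i : Fin (r + 1), ∃ D, Cert B l (m i.castSucc) (m i.succ) z D := by
    intro z
    by_cases hz : z ∈ S0
    · obtain ⟨p, h1, h2⟩ := hS0 z hz
      obtain ⟨m, h3, h4, h5⟩ := cut_nodes r h1 h2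
      refine ⟨m, fun _ => ⟨h3, h4, fun i => ?_⟩⟩
      obtain ⟨q, h6, h7⟩ := h5 i
      exact ⟨q.toFinset, (List.toFinset_card_le q).trans h6,
        fun w hw => ⟨q, h7.congr fun v hv => hw v (List.mem_toFinset.2 hv)⟩⟩
    · exact ⟨fun _ => B.source, fun h => absurd h hz⟩
  choose m hm using key
  obtain ⟨μ, -, hμ⟩ := exists_max_image (univ : Finset (Fin (r + 2) → Fin B.size))
    (fun μ => (S0.filter fun z => m z = μ).card) ⟨fun _ => B.source, mem_univ _⟩
  have least : ∀ (i : Fin (r + 1)) (z : Fin n → Bool), ∃ D, z ∈ S0.filter (fun z => m z = μ) →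
      Cert B l (μ i.castSucc) (μ i.succ) z D ∧ ∀ D', Cert B l (μ i.castSucc) (μ i.succ) z D' →
        Fintype.equivFin _ D ≤ Fintype.equivFin _ D' := by
    intro i z
    by_cases hz : z ∈ S0.filter fun z => m z = μ
    · obtain ⟨h1, rfl⟩ := mem_filter.1 hz
      obtain ⟨D, h2⟩ := Set.exists_min_image _ (Fintype.equivFin (Finset (Fin n)))
        (Set.toFinite _) ((hm z h1).2.2 i)
      exact ⟨D, fun _ => h2⟩
    · exact ⟨∅, fun h => absurd h hz⟩
  choose dom hd using least
  refine ⟨S0.filter fun z => m z = μ, dom, ⟨fun i z hz => (hd i z hz).1.1,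
    fun i z hz z' hz' E hE h1 h2 => (Fintype.equivFin _).injective (le_antisymm
      ((hd i z hz).2 _ ((hd i z' hz').1.agr (fun x hx => (hE x hx).symm) h2))
      ((hd i z' hz').2 _ ((hd i z hz).1.agr hE h1))), fun ch hch w hw => ?_⟩, ?_⟩
  · obtain ⟨h1, h2⟩ := mem_filter.1 (hch 0)
    obtain ⟨h3, h4, -⟩ := hm _ h1
    have h5 := cut_join (r + 1) μ fun i => (hd i _ (hch i)).1.2 w (hw i)
    rw [← h2, h3, h4] at h5
    exact (hc w).2 h5
  · rw [card_eq_sum_card_fiberwise (f := m) (t := univ) fun _ _ => mem_coe.2 (mem_univ _)]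
    refine (sum_le_sum fun μ' h => hμ μ' h).trans ?_
    rw [sum_const, card_univ, smul_eq_mul, Fintype.card_fun, Fintype.card_fin, Fintype.card_fin]

end Pool.Agent.MP_47ff19_lc.H66
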