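import Pool.Agent.MP_47ff19_lc.Mg.H51_Num
import Pool.Agent.MP_47ff19_lc.Mg.H66_Step

/-! Restricting a program to a block of variables. -/

namespace Pool.Agent.MP_47ff19_lc.H66

open Finset H51

/-- The input equal to `w` along the embedding `e` and to `I` elsewhere. -/
noncomputable def ext {n N : ℕ} (e : Fin n ↪ Fin N) (I : Fin N → Bool) (w : Fin n → Bool) :
    Fin N → Bool := Function.extend e w I

lemma ext_apply {n N : ℕ} (e : Fin n ↪ Fin N) (I : Fin N → Bool) (w : Fin n → Bool)
    (x : Fin n) : ext e I w (e x) = w x :=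
  e.injective.extend_apply w I x

lemma ext_of_not {n N : ℕ} (e : Fin n ↪ Fin N) (I : Fin N → Bool) (w : Fin n → Bool)
    {v : Fin N} (hv : ¬ ∃ x, e x = v) : ext e I w v = I v :=
  Function.extend_apply' w I v hv

/-- The program restricted to the variables in the range of `e`. -/
def res {n N : ℕ} (B : NBP (Fin N)) (e : Fin n ↪ Fin N) (I : Fin N → Bool) : NBP (Fin n) where
  size := B.size
  source := B.source
  sink := B.sink
  edge s o t := match o with
    | none => B.edge s none t ∨ ∃ v, (¬ ∃ x, e x = v) ∧ B.edge s (some (v, I v)) t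
    | some (x, b) => B.edge s (some (e x, b)) t

lemma res_of_path {n N : ℕ} {B : NBP (Fin N)} {e : Fin n ↪ Fin N} {I : Fin N → Bool}
    {w : Fin n → Bool} {s t : Fin B.size} {p : List (Fin N)}
    (h : B.Path (ext e I w) s p t) :
    ∃ p', (res B e I).Path w s p' t ∧ p'.length = p.countP fun v => decide (∃ x, e x = v) := by
  induction h with
  | nil s => exact ⟨[], NBP.Path.nil (B := res B e I) s, rfl⟩
  | free he _ ih =>
    obtain ⟨p', h1, h2⟩ := ih
    exact ⟨p', NBP.Path.free (B := res B e I) (Or.inl he) h1, h2⟩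
  | test v he _ ih =>
    obtain ⟨p', h1, h2⟩ := ih
    by_cases hv : ∃ x, e x = v
    · obtain ⟨x, rfl⟩ := hv
      rw [ext_apply] at he
      refine ⟨x :: p', NBP.Path.test (B := res B e I) x he h1, ?_⟩
      rw [List.countP_cons_of_pos (by simp), List.length_cons, h2]
    · rw [ext_of_not e I w hv] at he
      refine ⟨p', NBP.Path.free (B := res B e I) (Or.inr ⟨v, hv, he⟩) h1, ?_⟩
      rw [List.countP_cons_of_neg (by simpa using hv), h2]

lemma path_of_res {n N : ℕ} {B : NBP (Fin N)} {e : Fin n ↪ Fin N} {I : Fin N → Bool}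
    {w : Fin n → Bool} {s t : Fin (res B e I).size} {p : List (Fin n)}
    (h : (res B e I).Path w s p t) : ∃ l, B.Path (ext e I w) s l t := by
  induction h with
  | nil s => exact ⟨[], NBP.Path.nil (B := B) s⟩
  | free he _ ih =>
    obtain ⟨l, hl⟩ := ih
    rcases he with he | ⟨v, hv, he⟩
    · exact ⟨l, NBP.Path.free (B := B) he hl⟩
    · refine ⟨v :: l, NBP.Path.test (B := B) v ?_ hl⟩
      rw [ext_of_not e I w hv]
      exact he
  | test x he _ ih =>
    obtain ⟨l, hl⟩ := ih
    refine ⟨e x :: l, NBP.Path.test (B := B) (e x) ?_ hl⟩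
    rw [ext_apply]
    exact he

/-- Restriction to the variables in the range of `e`: the same nodes; an unlabelled edge for every
unlabelled edge of `B` and for every edge labelled `(v, I v)` with `v` outside the range of `e`; an
edge `(x, b)` for every edge `(e x, b)`. -/
theorem exists_restrict {n N : ℕ} (B : NBP (Fin N)) (e : Fin n ↪ Fin N) (I : Fin N → Bool)
    (f : (Fin N → Bool) → Prop) (hc : B.Computes f) :
    ∃ B' : NBP (Fin n), B'.size = B.size ∧ (B'.Computes fun w => f (ext e I w)) ∧
      ∀ w p, B.Path (ext e I w) B.source p B.sink → ∃ p', B'.Path w B'.source p' B'.sink ∧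
        p'.length = p.countP fun v => decide (∃ x, e x = v) := by
  refine ⟨res B e I, rfl, fun w => ⟨fun h => ?_, fun ⟨_, hl⟩ => (hc _).2 (path_of_res hl)⟩,
    fun w p h => res_of_path h⟩
  obtain ⟨l, hl⟩ := (hc _).1 h
  obtain ⟨p', h1, -⟩ := res_of_path hl
  exact ⟨p', h1⟩

end Pool.Agent.MP_47ff19_lc.H66
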