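import Pool.Agent.MP_47ff19_lc.Mg.H51_Main
import Pool.Agent.MP_47ff19_lc.Mg.H66_Res

/-! The hard language: the parity of the colours of `n` blocks of `n` bits. -/

namespace Pool.Agent.MP_47ff19_lc.H66

open Finset H51 Pool.Agent.Lib.Cx

open Classical in
/-- With `n = ptLen x`, the first `n * n` bits are `n` blocks, and the other bits are a number whose
last binary digit is the target parity and whose other digits are the parameters of the colouring;
accept if the number of coloured blocks has the target parity. -/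
noncomputable def lang (x : List Bool) : Bool :=
  decide (((List.range (ptLen x)).countP fun j => decide
    (Colour (ptLen x) (1 + 2 * (ofBits (x.drop (ptLen x * ptLen x)) / 2))
      (ofBits ((x.drop (j * ptLen x)).take (ptLen x))))) % 2 =
    ofBits (x.drop (ptLen x * ptLen x)) % 2)

@[fun_prop] lemma ptLen_pb' {α : Type} [Enc α] {l : α → List Bool} (hl : PT l) :
    PB fun x => ptLen (l x) :=
  (PB.length hl).mono fun x => List.countP_le_length.trans (by simp)

lemma lang_mem_P : lang ∈ N68a2faeb.P := by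
  have : PT lang := by
    unfold lang Colour
    fun_prop
  exact this.isPolyTime

lemma lang_pos_lt {n N : ℕ} (h : n * n ≤ N) (j i : Fin n) : j * n + i < N := by
  have h1 : (j + 1) * n ≤ n * n := Nat.mul_le_mul_right n j.2
  have h2 := i.2
  rw [add_mul, one_mul] at h1
  omega

/-- The positions of block `j`. -/
def blk {n N : ℕ} (h : n * n ≤ N) (j : Fin n) : Fin n ↪ Fin N :=
  ⟨fun i => ⟨j * n + i, lang_pos_lt h j i⟩, fun i i' e => by
    have := congrArg Fin.val e
    simp only at this
    exact Fin.ext (by omega)⟩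

lemma blk_val {n N : ℕ} (h : n * n ≤ N) (j i : Fin n) : (blk h j i : ℕ) = j * n + i := rfl

/-- The blocks `Y j` followed by the binary digits of `R`. -/
def inp {n : ℕ} (N R : ℕ) (Y : Fin n → Fin n → Bool) : Fin N → Bool := fun v =>
  if h : (v : ℕ) < n * n then
    Y ⟨v / n, Nat.div_lt_of_lt_mul h⟩ ⟨v % n, Nat.mod_lt _ (Nat.pos_of_mul_pos_left
      (lt_of_le_of_lt (Nat.zero_le _) h))⟩
  else R.testBit (v - n * n)

lemma inp_blk {n N : ℕ} (h : n * n ≤ N) (R : ℕ) (Y : Fin n → Fin n → Bool) (j i : Fin n) :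
    inp N R Y (blk h j i) = Y j i := by
  have hn : 0 < n := i.pos
  have h1 : ((blk h j i : Fin N) : ℕ) < n * n := lang_pos_lt le_rfl j i
  unfold inp
  rw [dif_pos h1]
  congr 1
  · apply Fin.ext
    simp only [blk_val]
    rw [add_comm, Nat.add_mul_div_right _ _ hn, Nat.div_eq_of_lt i.2, zero_add]
  · apply Fin.ext
    simp only [blk_val]
    rw [add_comm, Nat.add_mul_mod_self_right, Nat.mod_eq_of_lt i.2]

lemma blk_div {n N : ℕ} (h : n * n ≤ N) (j i : Fin n) : (blk h j i : ℕ) / n = j := by
  rw [blk_val, add_comm, Nat.add_mul_div_right _ _ i.pos, Nat.div_eq_of_lt i.2, zero_add]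

lemma ext_inp {n N : ℕ} (h : n * n ≤ N) (R : ℕ) (Y : Fin n → Fin n → Bool) (j : Fin n)
    (w : Fin n → Bool) : ext (blk h j) (inp N R Y) w = inp N R (Function.update Y j w) := by
  funext v
  unfold ext
  by_cases hv : ∃ x, blk h j x = v
  · obtain ⟨x, rfl⟩ := hv
    rw [(blk h j).injective.extend_apply, inp_blk, Function.update_self]
  · rw [Function.extend_apply' _ _ _ hv]
    unfold inp
    split_ifs with h1
    · rw [Function.update_of_ne]
      intro e
      refine hv ⟨⟨v % n, Nat.mod_lt _ j.pos⟩, Fin.ext ?_⟩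
      rw [blk_val, ← e]
      exact Nat.div_add_mod' _ _
    · rfl

lemma take_drop_inp {n N : ℕ} (h : n * n ≤ N) (R : ℕ) (Y : Fin n → Fin n → Bool) (j : Fin n) :
    ((List.ofFn (inp N R Y)).drop (j * n)).take n = List.ofFn (Y j) := by
  have h1 : (j + 1) * n ≤ n * n := Nat.mul_le_mul_right n j.2
  rw [add_mul, one_mul] at h1
  apply List.ext_getElem
  · simp only [List.length_take, List.length_drop, List.length_ofFn]
    omega
  · intro i h2 h3
    have hi : i < n := by simpa using h3
    simp only [List.getElem_take, List.getElem_drop, List.getElem_ofFn]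
    exact inp_blk h R Y j ⟨i, hi⟩

lemma drop_inp {n N : ℕ} (R : ℕ) (Y : Fin n → Fin n → Bool) :
    (List.ofFn (inp N R Y)).drop (n * n) = List.ofFn fun i : Fin (N - n * n) => R.testBit i := by
  apply List.ext_getElem
  · simp only [List.length_drop, List.length_ofFn]
  · intro i h2 h3
    simp only [List.getElem_drop, List.getElem_ofFn]
    unfold inp
    rw [dif_neg (by simp)]
    simp

lemma countP_range_fin (n : ℕ) (q : ℕ → Bool) :
    (List.range n).countP q = (univ.filter fun j : Fin n => q j = true).card := by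
  induction n with
  | zero => simp
  | succ n ih =>
    rw [List.range_succ, List.countP_append, ih, card_filter, card_filter, Fin.sum_univ_castSucc]
    cases h : q n <;> simp [h]

open Classical in
lemma lang_inp {n N R : ℕ} (hn : n = Nat.sqrt (N / 404)) (h : n * n ≤ N) (hR : R < 2 ^ (N - n * n))
    (Y : Fin n → Fin n → Bool) :
    lang (List.ofFn (inp N R Y)) = true ↔
      (univ.filter fun j : Fin n => Colour n (1 + 2 * (R / 2)) (Nat.ofBits (Y j))).card % 2 =
        R % 2 := by
  have hp : ptLen (List.ofFn (inp N R Y)) = n := by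
    rw [ptLen_eq, List.length_ofFn, ← hn]
  simp only [lang, decide_eq_true_eq]
  rw [hp, drop_inp, ofBits_ofFn, Nat.ofBits_testBit, Nat.mod_eq_of_lt hR, countP_range_fin]
  simp only [take_drop_inp h, ofBits_ofFn, decide_eq_true_eq]

open Classical in
lemma sum_count_le {n N : ℕ} (h : n * n ≤ N) (p : List (Fin N)) :
    ∑ j : Fin n, (p.countP fun v => decide (∃ x, blk h j x = v)) ≤ p.length := by
  induction p with
  | nil => simp
  | cons v p ih =>
    simp only [List.countP_cons, sum_add_distrib, List.length_cons]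
    refine add_le_add ih ?_
    rw [← card_filter]
    refine card_le_one.2 fun j hj j' hj' => ?_
    simp only [mem_filter, mem_univ, true_and, decide_eq_true_eq] at hj hj'
    obtain ⟨x, hx⟩ := hj
    obtain ⟨x', hx'⟩ := hj'
    apply Fin.ext
    rw [← blk_div h j x, ← blk_div h j' x', hx, hx']

lemma many_good {n N k : ℕ} (hn : 1 ≤ n) (hN : N < 404 * (n + 1) ^ 2) (c : Fin n → ℕ)
    (hc : ∑ j, c j ≤ k * N) : n ≤ 2 * (univ.filter fun j => c j ≤ 2000 * k * n).card := by
  have h1 := card_filter_add_card_filter_not (s := (univ : Finset (Fin n)))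
    fun j => c j ≤ 2000 * k * n
  rw [card_univ, Fintype.card_fin] at h1
  have h2 : (univ.filter fun j => ¬ c j ≤ 2000 * k * n).card * (2000 * k * n + 1) ≤ ∑ j, c j := by
    rw [← smul_eq_mul, ← sum_const]
    refine (sum_le_sum fun j hj => ?_).trans (sum_le_sum_of_subset (filter_subset _ _))
    have := (mem_filter.1 hj).2
    omega
  by_contra h3
  generalize (univ.filter fun j => ¬ c j ≤ 2000 * k * n).card = m at h1 h2
  have h4 : n + 1 ≤ 2 * m := by omega
  have h5 : k * N ≤ k * (404 * (n + 1) ^ 2) := Nat.mul_le_mul_left k hN.le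
  have h6 : (n + 1) * (2000 * k * n + 1) ≤ 2 * m * (2000 * k * n + 1) :=
    Nat.mul_le_mul_right _ h4
  have h7 : (n + 1) * (2000 * k * n + 1) ≤ (n + 1) * (808 * k * (n + 1)) := by nlinarith
  have h8 := Nat.le_of_mul_le_mul_left h7 (Nat.succ_pos n)
  have h9 : k * 1 ≤ k * n := Nat.mul_le_mul_left k hn
  nlinarith

lemma exists_dense_block {n : ℕ} (hn : 1 ≤ n) {Ω : Type} [Fintype Ω] (A : Finset Ω)
    (hA : Fintype.card Ω ≤ 2 * A.card) (G : Ω → Fin n → Prop) [∀ Y j, Decidable (G Y j)]
    (hG : ∀ Y ∈ A, n ≤ 2 * (univ.filter fun j => G Y j).card) :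
    ∃ j, Fintype.card Ω ≤ 4 * (univ.filter fun Y => G Y j).card := by
  have h1 : ∑ j, (univ.filter fun Y => G Y j).card = ∑ Y, (univ.filter fun j => G Y j).card := by
    simp only [card_filter]
    exact sum_comm
  have h2 : A.card * n ≤ 2 * ∑ Y, (univ.filter fun j => G Y j).card := by
    rw [← smul_eq_mul, ← sum_const, mul_sum]
    exact (sum_le_sum hG).trans (sum_le_sum_of_subset (subset_univ _))
  have : Nonempty (Fin n) := ⟨⟨0, hn⟩⟩
  obtain ⟨j, -, hj⟩ := exists_le_of_sum_le (s := (univ : Finset (Fin n))) univ_nonempty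
    (f := fun _ => Fintype.card Ω) (g := fun j => 4 * (univ.filter fun Y => G Y j).card) (by
      rw [← mul_sum, h1, sum_const, card_univ, Fintype.card_fin, smul_eq_mul]
      nlinarith)
  exact ⟨j, hj⟩

lemma exists_dense_fibre {ι W : Type} [Fintype ι] [DecidableEq ι] [Fintype W] [Nonempty W] (j : ι)
    (G : (ι → W) → Prop) [DecidablePred G]
    (h : Fintype.card (ι → W) ≤ 4 * (univ.filter G).card) :
    ∃ Y0 : ι → W, Fintype.card W ≤ 4 * (univ.filter fun w => G (Function.update Y0 j w)).card := by
  have hinv : Function.Involutive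
      fun q : (ι → W) × W => (Function.update q.1 j q.2, q.1 j) := fun q => by simp
  have h1 : ∑ Y0 : ι → W, (univ.filter fun w => G (Function.update Y0 j w)).card =
      (univ.filter G).card * Fintype.card W := by
    simp only [card_filter]
    rw [← Fintype.sum_prod_type' fun Y0 w => if G (Function.update Y0 j w) then 1 else 0,
      hinv.bijective.sum_comp fun q : (ι → W) × W => if G q.1 then 1 else 0,
      Fintype.sum_prod_type, sum_mul]
    refine sum_congr rfl fun Y _ => ?_
    by_cases hY : G Y <;> simp [hY]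
  obtain ⟨Y0, -, hY⟩ := exists_le_of_sum_le (s := (univ : Finset (ι → W))) univ_nonempty
    (f := fun _ => Fintype.card W)
    (g := fun Y0 => 4 * (univ.filter fun w => G (Function.update Y0 j w)).card) (by
      rw [← mul_sum, h1, sum_const, card_univ, smul_eq_mul, ← mul_assoc]
      exact Nat.mul_le_mul_right _ h)
  exact ⟨Y0, hY⟩

lemma exists_half {Ω : Type} [Fintype Ω] (c : Ω → ℕ) :
    ∃ t : Bool, Fintype.card Ω ≤ 2 * (univ.filter fun Y => c Y % 2 = t.toNat).card := by
  have h1 := card_filter_add_card_filter_not (s := (univ : Finset Ω)) fun Y => c Y % 2 = 0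
  have h2 : (univ.filter fun Y => ¬ c Y % 2 = 0) = univ.filter fun Y => c Y % 2 = 1 :=
    filter_congr fun Y _ => by omega
  rw [h2, card_univ] at h1
  by_cases h : Fintype.card Ω ≤ 2 * (univ.filter fun Y => c Y % 2 = 0).card
  · exact ⟨false, h⟩
  · exact ⟨true, by
      simp only [Bool.toNat_true]
      omega⟩

lemma card_update {ι W : Type} [Fintype ι] [DecidableEq ι] (C : W → Prop) [DecidablePred C]
    (Y : ι → W) (j : ι) (w : W) :
    (univ.filter fun i => C (Function.update Y j w i)).card =
      ((univ.erase j).filter fun i => C (Y i)).card + if C w then 1 else 0 := by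
  rw [card_filter, card_filter, ← sum_erase_add _ _ (mem_univ j), Function.update_self]
  congr 1
  exact sum_congr rfl fun i hi => by rw [Function.update_of_ne (ne_of_mem_erase hi)]

/-- Some block carries a dense set of accepted points whose walks test the block few times, and the
restriction of the language to that block has no large accepted rectangle.
Plan: take `p a b` from `exists_params n`, `R t = t.toNat + 2 * (p + M * (a + M * b))` as in
`H51.size_cube` (so `R t < 2 ^ (N - n * n)`, and `colour_code` with `t = true` evaluates `Colour`).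
For `Y : Fin n → Fin n → Bool` and a bit `t` let `inp t Y : Fin N → Bool` have the
blocks `Y j` at positions `j * n + i`, then the bits `(R t).testBit`. For one `t` at
least half of all `Y` are accepted. An accepted `Y` has a walk of length at most `k * N`, and
`N < 404 * (n + 1) ^ 2`, so fewer than half of the blocks `j` are tested more than `2000 * k * n`
times; hence for some `j` a quarter of all `Y` are accepted with few tests of block `j`, and then
for some `Y0` a quarter of the `w` have this property at `Function.update Y0 j w`. Take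
`e i = j * n + i`, `I = inp t Y0`; acceptance of `ext e I w` says that the colour of `w` is a fixed
bit, so `exists_params` gives `NoRect`. -/
theorem exists_block (k N : ℕ) (hN : 404 * 10 ^ 2 ≤ N) (B : NBP (Fin N))
    (hc : B.Computes fun x => lang (List.ofFn x) = true)
    (hk : ∀ I p, B.Path I B.source p B.sink →
      ∃ p', B.Path I B.source p' B.sink ∧ p'.length ≤ k * N)
    (n : ℕ) (hn : n = Nat.sqrt (N / 404)) :
    ∃ (e : Fin n ↪ Fin N) (I : Fin N → Bool) (S0 : Finset (Fin n → Bool)),
      NoRect (6 * n) (fun w => lang (List.ofFn (ext e I w)) = true) ∧ 2 ^ n ≤ 4 * S0.card ∧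
      ∀ w ∈ S0, ∃ p, B.Path (ext e I w) B.source p B.sink ∧
        (p.countP fun v => decide (∃ x, e x = v)) ≤ 2000 * k * n := by
  classical
  have hn10 : 10 ≤ n := by
    rw [hn, Nat.le_sqrt', Nat.le_div_iff_mul_le (by norm_num)]
    omega
  have h404 : 404 * n ^ 2 ≤ N := by
    have := Nat.sqrt_le' (N / 404)
    rw [← hn, Nat.le_div_iff_mul_le (by norm_num)] at this
    omega
  have hlt : N < 404 * (n + 1) ^ 2 := by
    have h3 := Nat.lt_succ_sqrt' (N / 404)
    rw [← hn, Nat.div_lt_iff_lt_mul (by norm_num), Nat.succ_eq_add_one] at h3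
    omega
  have hnn : n * n ≤ N := by nlinarith
  obtain ⟨p, a, b, hp, ha, hb, hrect⟩ := exists_params n (by omega)
  obtain ⟨C, hC⟩ : ∃ C : (Fin n → Bool) → Prop,
    C = fun w => 2 * (b * (a + Nat.ofBits w) ^ (36 * n ^ 2) % p) < p := ⟨_, rfl⟩
  obtain ⟨t, ht⟩ := exists_half fun Y : Fin n → Fin n → Bool =>
    (univ.filter fun j => C (Y j)).card
  obtain ⟨Q, hQ⟩ : ∃ Q, Q = p + 2 ^ (133 * n ^ 2 + 1) * (a + 2 ^ (133 * n ^ 2 + 1) * b) := ⟨_, rfl⟩
  have htn := Bool.toNat_le t
  have hRr : t.toNat + 2 * Q < 2 ^ (N - n * n) := by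
    have hr3 : 3 * (133 * n ^ 2 + 1) + 1 ≤ N - n * n := by
      have : 3 * (133 * n ^ 2 + 1) + 1 + n * n ≤ N := by nlinarith
      omega
    refine lt_of_lt_of_le ?_ (Nat.pow_le_pow_right (by norm_num) hr3)
    rw [hQ, pow_succ' 2 (3 * (133 * n ^ 2 + 1)), mul_comm 3, pow_mul 2 (133 * n ^ 2 + 1) 3]
    generalize 2 ^ (133 * n ^ 2 + 1) = M at hp ha hb ⊢
    have h2 : a + M * b + 1 ≤ M * M := by nlinarith
    have h3 : p + M * (a + M * b) + 1 ≤ M ^ 3 := by nlinarith
    omega
  have hl : ∀ Y : Fin n → Fin n → Bool,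
      lang (List.ofFn (inp N (t.toNat + 2 * Q) Y)) = true ↔
        (univ.filter fun j => C (Y j)).card % 2 = t.toNat := fun Y => by
    have e1 : (t.toNat + 2 * Q) / 2 = Q := by omega
    have e2 : (t.toNat + 2 * Q) % 2 = t.toNat := by omega
    have e3 : ∀ w : Fin n → Bool, Colour n (1 + 2 * Q) (Nat.ofBits w) ↔ C w := fun w => by
      have := colour_code (b := b) hp ha true (Nat.ofBits w)
      rw [Bool.toNat_true, ← hQ] at this
      rw [this, hC]
      simp
    rw [lang_inp hn hnn hRr, e1, e2]
    simp only [e3]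
  obtain ⟨G, hG⟩ : ∃ G : (Fin n → Fin n → Bool) → Fin n → Prop, G = fun Y j =>
    ∃ q, B.Path (inp N (t.toNat + 2 * Q) Y) B.source q B.sink ∧
      (q.countP fun v => decide (∃ x, blk hnn j x = v)) ≤ 2000 * k * n := ⟨_, rfl⟩
  obtain ⟨j, hj⟩ := exists_dense_block (by omega : 1 ≤ n) _ ht G fun Y hY => by
    obtain ⟨q, hq⟩ := (hc _).1 ((hl Y).2 (mem_filter.1 hY).2)
    obtain ⟨q', hq', hlen⟩ := hk _ q hq
    refine (many_good (by omega) hlt _ ((sum_count_le hnn q').trans hlen)).trans
      (Nat.mul_le_mul_left 2 (card_le_card fun j hj => ?_))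
    rw [mem_filter] at hj ⊢
    rw [hG]
    exact ⟨hj.1, q', hq', hj.2⟩
  obtain ⟨Y0, hY0⟩ := exists_dense_fibre j (fun Y => G Y j) hj
  refine ⟨blk hnn j, inp N (t.toNat + 2 * Q) Y0,
    univ.filter fun w => G (Function.update Y0 j w) j, ?_, by simpa using hY0, fun w hw => ?_⟩
  · intro U X Y hi hall
    refine hrect (decide ((((univ.erase j).filter fun i => C (Y0 i)).card + 1) % 2 = t.toNat))
      U X Y hi fun i i' => ?_
    have h1 := hall i i'
    simp only [ext_inp, hl] at h1
    rw [card_update C] at h1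
    rw [decide_eq_true_eq]
    change (fun w : Fin n → Bool => 2 * (b * (a + Nat.ofBits w) ^ (36 * n ^ 2) % p) < p) _ ↔ _
    rw [← hC]
    split_ifs at h1 with h2
    · exact iff_of_true h2 h1
    · exact iff_of_false h2 (by omega)
  · have h1 := (mem_filter.1 hw).2
    rw [hG] at h1
    rw [ext_inp]
    convert h1

end Pool.Agent.MP_47ff19_lc.H66
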