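import Pool.Agent.MP_47ff19_lc.Mg.H51_Rect
import Pool.Agent.MP_47ff19_lc.Mg.H66_Lang
import Pool.Agent.MP_47ff19_lc.Mg.H66_Cut

/-! The exponential lower bound for programs of linear length. -/

namespace Pool.Agent.MP_47ff19_lc.H66

open Finset H51

/-- Plan: `core (2000 * k + 1)` gives `r ε n0`; put `n = sqrt (N / 404)`,
`l = 2000 * k * n / r + 1` (so `2000 * k * n ≤ r * l ≤ (2000 * k + 1) * n` for `r ≤ n`); chain
`exists_block`, `exists_restrict`, `exists_segs`, `core` with `K = 6 * n ≤ exp (ε * n)`: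
`2 ^ n ≤ 4 * size ^ (r + 1) * S.card` and `exp (ε * n) * S.card < 2 ^ n` give
`exp (ε * n) < 4 * size ^ (r + 1)`; finish as in `H51.lower_bound` (`√N ≤ 42 * n`). -/
theorem lower_bound (k : ℕ) : ∃ ε : ℝ, 0 < ε ∧ ∃ N0 : ℕ, ∀ N, N0 ≤ N → ∀ B : NBP (Fin N),
    (B.Computes fun x => lang (List.ofFn x) = true) →
    (∀ I p, B.Path I B.source p B.sink →
      ∃ p', B.Path I B.source p' B.sink ∧ p'.length ≤ k * N) →
    (2 : ℝ) ^ (ε * √N) ≤ B.size := by
  obtain ⟨r, hr, ε, hε, n0, hcore⟩ := core (2000 * k + 1)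
  obtain ⟨n1, hn1⟩ := exists_nat_ge (12 / ε ^ 2 + 6 / ε)
  refine ⟨ε / (2 * (r + 1)) / 42, by positivity, 404 * (n0 + n1 + r + 10) ^ 2,
    fun N hN B hc hk => ?_⟩
  obtain ⟨n, hn⟩ : ∃ n, n = Nat.sqrt (N / 404) := ⟨_, rfl⟩
  have hn2 : n0 + n1 + r + 10 ≤ n := by
    rw [hn, Nat.le_sqrt', Nat.le_div_iff_mul_le (by norm_num)]
    omega
  have hN' : 404 * 10 ^ 2 ≤ N :=
    le_trans (Nat.mul_le_mul_left _ (Nat.pow_le_pow_left (by omega) 2)) hN
  obtain ⟨e, I, S0, hrect, hS0, hp⟩ := exists_block k N hN' B hc hk n hn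
  obtain ⟨B', hsz, hc', hp'⟩ := exists_restrict B e I _ hc
  obtain ⟨l, hl⟩ : ∃ l, l = 2000 * k * n / r + 1 := ⟨_, rfl⟩
  have hl1 : 2000 * k * n ≤ r * l := by
    rw [hl]; exact (Nat.lt_mul_div_succ _ hr).le
  have hl2 : r * l ≤ (2000 * k + 1) * n := by
    have := Nat.mul_div_le (2000 * k * n) r
    rw [hl, mul_add, add_mul]
    omega
  obtain ⟨S, dom, hseg, hS⟩ := exists_segs B' _ hc' r l hr S0 fun z hz => by
    obtain ⟨p, h1, h2⟩ := hp z hz
    obtain ⟨p', h3, h4⟩ := hp' z p h1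
    exact ⟨p', h3, by rw [h4]; exact h2.trans hl1⟩
  have hnn : (n1 : ℝ) ≤ n := by exact_mod_cast (by omega : n1 ≤ n)
  have hn0 : (0 : ℝ) ≤ n := Nat.cast_nonneg n
  have ha : 12 ≤ ε ^ 2 * n := by
    have h1 : 12 / ε ^ 2 ≤ n := by linarith [show 0 ≤ 6 / ε by positivity]
    rwa [div_le_iff₀' (by positivity)] at h1
  have hb : 6 ≤ ε * n := by
    have h1 : 6 / ε ≤ n := by linarith [show 0 ≤ 12 / ε ^ 2 by positivity]
    rwa [div_le_iff₀' hε] at h1
  have hK : ((6 * n : ℕ) : ℝ) ≤ Real.exp (ε * n) := by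
    have h1 := Real.quadratic_le_exp_of_nonneg (x := ε * n) (by positivity)
    push_cast
    nlinarith
  have h1 := hcore n (by omega) S dom _ l (6 * n) hseg hl2 hrect (by omega) hK
  have h2 : (2 : ℝ) ^ n ≤ 4 * ((B.size : ℝ) ^ (r + 1) * S.card) := by
    rw [← hsz]
    exact_mod_cast hS0.trans (Nat.mul_le_mul_left 4 hS)
  have h3 : Real.exp (ε * n) ≤ 4 * (B.size : ℝ) ^ (r + 1) := by
    by_contra h4
    have h5 := mul_le_mul_of_nonneg_right (not_le.1 h4).le (Nat.cast_nonneg (α := ℝ) S.card)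
    linarith
  have h4 : Real.exp (ε * n / 2) ≤ (B.size : ℝ) ^ (r + 1) := by
    have h5 : Real.exp (ε * n) = Real.exp (ε * n / 2) * Real.exp (ε * n / 2) := by
      rw [← Real.exp_add, add_halves]
    have h6 := Real.add_one_le_exp (ε * n / 2)
    have h7 := Real.exp_pos (ε * n / 2)
    nlinarith
  have hsq : √(N : ℝ) ≤ 42 * n := by
    have h3 := Nat.lt_succ_sqrt' (N / 404)
    rw [← hn, Nat.div_lt_iff_lt_mul (by norm_num), Nat.succ_eq_add_one] at h3
    have h4 : 10 ≤ n := by omega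
    have h5 : N ≤ (42 * n) ^ 2 := by nlinarith
    rw [Real.sqrt_le_iff]
    exact ⟨by positivity, by exact_mod_cast h5⟩
  have hc0 : 0 < ε / (2 * (r + 1)) := by positivity
  have h5 : (2 : ℝ) ^ (ε / (2 * (r + 1)) / 42 * √N) ≤ Real.exp (ε / (2 * (r + 1)) * n) := by
    rw [Real.rpow_def_of_pos two_pos]
    refine Real.exp_le_exp.2 ?_
    have h6 : Real.log 2 ≤ 1 := by linarith [Real.log_two_lt_d9]
    have h7 : ε / (2 * (r + 1)) / 42 * √N ≤ ε / (2 * (r + 1)) * n := by nlinarith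
    have h8 : 0 ≤ ε / (2 * (r + 1)) / 42 * √N := by positivity
    nlinarith
  refine h5.trans (le_of_pow_le_pow_left₀ (n := r + 1) (by omega) (by positivity) ?_)
  rw [← Real.exp_nat_mul]
  refine le_trans (le_of_eq ?_) h4
  congr 1
  push_cast
  field_simp

end Pool.Agent.MP_47ff19_lc.H66
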